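import Pool.Agent.Lib.TriFive.Star

/-!
# Digraphs with a feedback vertex set of at most three vertices

If the removal of three vertices leaves an acyclic set and there is no partition into two acyclic sets, there is a closed chain
of three or of five circuits (`fvn_neck`).
-/

set_option autoImplicit false

namespace Pool.Agent.Lib.TriFive

open Finset
open scoped Classical

section fvn
variable {V : Type*} {R : V → V → Prop}

theorem circ_two {p q : V} (h1 : R p q) (h2 : R q p) (hne : p ≠ q) : Circ R {p, q} := by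
  have := circ_list (R := R) (w := p) (l := [q]) (by simp [hne]) (by simp [h1, h2])
  have e : (p :: [q]).toFinset = ({p, q} : Finset V) := by
    ext x; simp
  rwa [e] at this

theorem circ_three {a b c : V} (h1 : R a b) (h2 : R b c) (h3 : R c a) (hab : a ≠ b) (hbc : b ≠ c) (hca : c ≠ a) :
    Circ R {a, b, c} := by
  have := circ_list (R := R) (w := a) (l := [b, c]) (by simp [hab, hbc, hca.symm]) (by simp [h1, h2, h3])
  have e : (a :: [b, c]).toFinset = ({a, b, c} : Finset V) := by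
    ext x; simp
  rwa [e] at this

/-- three circuits, any two of which meet in one vertex -/
theorem ring3 {A B C : Finset V} {a b c : V} (hA : Circ R A) (hB : Circ R B) (hC : Circ R C)
    (aA : a ∈ A) (aB : a ∈ B) (bB : b ∈ B) (bC : b ∈ C) (cA : c ∈ A) (cC : c ∈ C)
    (hab : a ≠ b) (hbc : b ≠ c) (hac : a ≠ c)
    (hAB : ∀ x ∈ A, x ∈ B → x = a) (hBC : ∀ x ∈ B, x ∈ C → x = b) (hAC : ∀ x ∈ A, x ∈ C → x = c) : Neck R 2 := by
  refine ⟨c, b, A ∪ (B ∪ {b}), C, ?_, hC b bC c cC hbc, ?_⟩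
  · refine Ch.cons (hA c cA a aA hac.symm) (Ch.cons (hB a aB b bB hab) (Ch.nil b) ?_) ?_
    · intro x _ hx; simpa using hx
    · intro x hx hx'
      rcases mem_union.mp hx' with h | h
      · exact hAB x hx h
      · rw [mem_singleton] at h; subst h; exact hAB _ hx bB
  · intro x hx hx'
    rcases mem_union.mp hx with h | h
    · exact Or.inl (hAC x h hx')
    rcases mem_union.mp h with h | h
    · exact Or.inr (hBC x h hx')
    · rw [mem_singleton] at h; exact Or.inr h

/-- five circuits, only consecutive ones of which meet, in one vertex -/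
theorem ring5 {A B C D E : Finset V} {a b c d e : V} (hA : Circ R A) (hB : Circ R B) (hC : Circ R C) (hD : Circ R D)
    (hE : Circ R E) (aA : a ∈ A) (aB : a ∈ B) (bB : b ∈ B) (bC : b ∈ C) (cC : c ∈ C) (cD : c ∈ D) (dD : d ∈ D) (dE : d ∈ E)
    (eE : e ∈ E) (eA : e ∈ A)
    (hAB : ∀ x ∈ A, x ∈ B → x = a) (hBC : ∀ x ∈ B, x ∈ C → x = b) (hCD : ∀ x ∈ C, x ∈ D → x = c)
    (hDE : ∀ x ∈ D, x ∈ E → x = d) (hAE : ∀ x ∈ A, x ∈ E → x = e)
    (hAC : ∀ x ∈ A, x ∉ C) (hAD : ∀ x ∈ A, x ∉ D) (hBD : ∀ x ∈ B, x ∉ D) (hBE : ∀ x ∈ B, x ∉ E) (hCE : ∀ x ∈ C, x ∉ E) :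
    Neck R 4 := by
  have hae : e ≠ a := fun h => hBE a aB (h ▸ eE)
  have hab : a ≠ b := fun h => hAC a aA (h ▸ bC)
  have hbc : b ≠ c := fun h => hBD b bB (h ▸ cD)
  have hcd : c ≠ d := fun h => hCE c cC (h ▸ dE)
  have hde : d ≠ e := fun h => hAD e eA (h ▸ dD)
  refine ⟨e, d, A ∪ (B ∪ (C ∪ (D ∪ {d}))), E, ?_, hE d dE e eE hde, ?_⟩
  · refine Ch.cons (hA e eA a aA hae) (Ch.cons (hB a aB b bB hab) (Ch.cons (hC b bC c cC hbc)
      (Ch.cons (hD c cD d dD hcd) (Ch.nil d) ?_) ?_) ?_) ?_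
    · intro x _ hx; simpa using hx
    · intro x hx hx'
      rw [mem_union, mem_singleton] at hx'
      rcases hx' with h | h
      · exact hCD x hx h
      · exact hCD x hx (h ▸ dD)
    · intro x hx hx'
      rw [mem_union, mem_union, mem_singleton] at hx'
      rcases hx' with h | h | h
      · exact hBC x hx h
      · exact absurd h (hBD x hx)
      · exact absurd (h ▸ dD) (hBD x hx)
    · intro x hx hx'
      rw [mem_union, mem_union, mem_union, mem_singleton] at hx'
      rcases hx' with h | h | h | h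
      · exact hAB x hx h
      · exact absurd h (hAC x hx)
      · exact absurd h (hAD x hx)
      · exact absurd (h ▸ dD) (hAD x hx)
  · intro x hx hx'
    rw [mem_union, mem_union, mem_union, mem_union, mem_singleton] at hx
    rcases hx with h | h | h | h | h
    · exact Or.inl (hAE x h hx')
    · exact absurd hx' (hBE x h)
    · exact absurd hx' (hCE x h)
    · exact Or.inr (hDE x h hx')
    · exact Or.inr h

theorem Ac.single (hirr : ∀ v, ¬ R v v) {w : V} {S : Finset V} (hS : S ⊆ {w}) : Ac R S := by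
  intro u v huv hu hr
  have h1 := mem_singleton.mp (hS hu)
  have h2 := mem_singleton.mp (hS hr.left)
  rw [h1, h2] at huv
  exact hirr w huv

/-- a minimal set meeting all circuits in `F ∪ {b}` -/
theorem privates (hirr : ∀ v, ¬ R v v) {F : Finset V} {b : V} (hbF : b ∉ F) (hF : Ac R F) {X0 : Finset V} (hX0 : X0 ⊆ F)
    (h0 : Ac R (insert b (F \ X0))) : ∃ X ⊆ X0, Ac R (insert b (F \ X)) ∧
      ∀ x ∈ X, ∃ C ⊆ insert b F, Circ R C ∧ b ∈ C ∧ x ∈ C ∧ ∀ y ∈ C, y ∈ X → y = x := by
  obtain ⟨X, hX, hmin⟩ := exists_min_image (X0.powerset.filter (fun X => Ac R (insert b (F \ X)))) card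
    ⟨X0, mem_filter.mpr ⟨mem_powerset.mpr (Subset.refl _), h0⟩⟩
  rw [mem_filter, mem_powerset] at hX
  refine ⟨X, hX.1, hX.2, fun x hx => ?_⟩
  have h1 : ¬ Ac R (insert b (F \ X.erase x)) := by
    intro h
    have h3 := hmin (X.erase x) (mem_filter.mpr ⟨mem_powerset.mpr ((erase_subset _ _).trans hX.1), h⟩)
    rw [card_erase_of_mem hx] at h3
    have := card_pos.mpr ⟨x, hx⟩
    omega
  have h2 : Ac R ((insert b (F \ X.erase x)).erase b) := by
    rw [erase_insert (fun h => hbF (mem_sdiff.mp h).1)]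
    exact hF.mono sdiff_subset
  obtain ⟨C, hC, hbC, ⟨y, hy, hyb⟩, hcC⟩ := circ_of_not_ac hirr h1 h2
  have hCX : ∀ y ∈ C, y ∈ X → y = x := by
    intro y hy hyX
    by_contra hne
    rcases mem_insert.mp (hC hy) with h | h
    · subst h; exact hbF (hX0 (hX.1 hyX))
    · exact (mem_sdiff.mp h).2 (mem_erase.mpr ⟨hne, hyX⟩)
  refine ⟨C, hC.trans (insert_subset_insert _ sdiff_subset), hcC, hbC, ?_, hCX⟩
  by_contra hxC
  refine hcC.not_ac (S := insert b (F \ X)) ?_ hy hbC hyb hX.2
  intro z hz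
  rcases mem_insert.mp (hC hz) with h | h
  · exact h ▸ mem_insert_self _ _
  · refine mem_insert_of_mem (mem_sdiff.mpr ⟨(mem_sdiff.mp h).1, fun hzX => hxC ?_⟩)
    rw [← hCX z hz hzX]; exact hz

/-- a minimum set meeting all circuits in `F ∪ {t}`: circuits through any two of its vertices which meet in `t` only -/
theorem rails (hirr : ∀ v, ¬ R v v) {F : Finset V} {t : V} (ht : t ∉ F) (hF : Ac R F) : ∃ S ⊆ F, Ac R (insert t (F \ S)) ∧
    (∀ y ∈ S, ∃ C ⊆ insert t F, Circ R C ∧ t ∈ C ∧ y ∈ C ∧ ∀ x ∈ C, x ∈ S → x = y) ∧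
    (∀ y ∈ S, ∀ y' ∈ S, y ≠ y' → ∃ C ⊆ insert t F, ∃ C' ⊆ insert t F, Circ R C ∧ Circ R C' ∧ t ∈ C ∧ t ∈ C' ∧ y ∈ C ∧
      y' ∈ C' ∧ (∀ x ∈ C, x ∈ S → x = y) ∧ (∀ x ∈ C', x ∈ S → x = y') ∧ ∀ x ∈ C, x ∈ C' → x = t) := by
  obtain ⟨S, hS⟩ := exists_MT (R := R) F t
  have mk : ∀ (n u : V) (T : Finset V) (y : V), R t n → R u t → T ⊆ F \ (S.erase y) → PS R T n u → y ∈ T → y ∈ S →
      ∃ C ⊆ insert t T, Circ R C ∧ t ∈ C ∧ y ∈ C := by
    intro n u T y hn hu hT hP hy hyS
    have htT : t ∉ T := fun h => ht (mem_sdiff.mp (hT h)).1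
    have h1 : Rc R (insert t T) t y :=
      Rc.head hn (mem_insert_self _ _) ((hP.2.2 y hy).1.mono (subset_insert _ _))
    have h2 : Rc R (insert t T) y t :=
      ((hP.2.2 y hy).2.mono (subset_insert _ _)).tail hu (mem_insert_self _ _)
    obtain ⟨g, hg, htg, hyg, hcg⟩ := exists_circ (R := R) (C := insert t T) (w := t) (v := y)
      (by rw [erase_insert htT]; exact hF.mono (hT.trans sdiff_subset)) (fun h => htT (h ▸ hy)) h1 h2
    exact ⟨g, hg, hcg, htg, hyg⟩
  have hsub : ∀ (T C : Finset V) (y : V), T ⊆ F \ (S.erase y) → C ⊆ insert t T →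
      C ⊆ insert t F ∧ ∀ x ∈ C, x ∈ S → x = y := by
    intro T C y hT hC
    refine ⟨hC.trans (insert_subset_insert _ (hT.trans sdiff_subset)), fun x hx hxS => ?_⟩
    by_contra hne
    rcases mem_insert.mp (hC hx) with h | h
    · subst h; exact ht (hS.sub hxS)
    · exact (mem_sdiff.mp (hT h)).2 (mem_erase.mpr ⟨hne, hxS⟩)
  refine ⟨S, hS.sub, ?_, ?_, ?_⟩
  · by_contra hA
    have h2 : Ac R ((insert t (F \ S)).erase t) := by
      rw [erase_insert (fun h => ht (mem_sdiff.mp h).1)]
      exact hF.mono sdiff_subset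
    obtain ⟨C, hC, htC, ⟨y, hy, hyt⟩, hcC⟩ := circ_of_not_ac hirr hA h2
    obtain ⟨n, hn, hr⟩ := (hcC.rc htC hy hyt.symm).out hyt
    obtain ⟨u, hu, hr'⟩ := (hcC.rc hy htC hyt).inn hyt
    refine hS.tr n u hn hu ((hr.trans hr').mono ?_)
    intro z hz
    rw [mem_erase] at hz
    exact (mem_insert.mp (hC hz.2)).resolve_left hz.1
  · intro y hy
    obtain ⟨n, u, T, hn, hu, hT, hP, hyT⟩ := hS.single hy
    obtain ⟨C, hC, hcC, htC, hyC⟩ := mk n u T y hn hu hT hP hyT hy
    obtain ⟨h1, h2⟩ := hsub T C y hT hC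
    exact ⟨C, h1, hcC, htC, hyC, h2⟩
  · intro y hy y' hy' hne
    obtain ⟨n, u, T, n', u', T', hn, hu, hn', hu', hT, hT', hP, hP', hyT, hyT', hdis⟩ := hS.pair hF hy hy' hne
    obtain ⟨C, hC, hcC, htC, hyC⟩ := mk n u T y hn hu hT hP hyT hy
    obtain ⟨C', hC', hcC', htC', hyC'⟩ := mk n' u' T' y' hn' hu' hT' hP' hyT' hy'
    obtain ⟨h1, h2⟩ := hsub T C y hT hC
    obtain ⟨h1', h2'⟩ := hsub T' C' y' hT' hC'
    refine ⟨C, h1, C', h1', hcC, hcC', htC, htC', hyC, hyC', h2, h2', fun x hx hx' => ?_⟩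
    rcases mem_insert.mp (hC hx) with h | h
    · exact h
    rcases mem_insert.mp (hC' hx') with h' | h'
    · exact h'
    · exact absurd h' (hdis x h)

/-- a circuit meeting a minimum set in two vertices gives a ring of three -/
theorem two_rails {F S : Finset V} {t : V}
    (hr : ∀ y ∈ S, ∀ y' ∈ S, y ≠ y' → ∃ C ⊆ insert t F, ∃ C' ⊆ insert t F, Circ R C ∧ Circ R C' ∧ t ∈ C ∧ t ∈ C' ∧ y ∈ C ∧
      y' ∈ C' ∧ (∀ x ∈ C, x ∈ S → x = y) ∧ (∀ x ∈ C', x ∈ S → x = y') ∧ ∀ x ∈ C, x ∈ C' → x = t)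
    {D : Finset V} (hD : Circ R D) (hDt : t ∉ D) (hDF : ∀ x ∈ D, x ∈ F → x ∈ S) {y y' : V} (hy : y ∈ D) (hy' : y' ∈ D)
    (hyS : y ∈ S) (hyS' : y' ∈ S) (hne : y ≠ y') : Neck R 2 := by
  obtain ⟨C, hC, C', hC', hcC, hcC', htC, htC', hyC, hyC', h2, h2', hcc⟩ := hr y hyS y' hyS' hne
  refine ring3 hD hcC hcC' hy hyC htC htC' hy' hyC' (fun h => hDt (h ▸ hy)) (fun h => hDt (h ▸ hy')) hne ?_ hcc ?_
  · intro x hx hx'
    rcases mem_insert.mp (hC hx') with h | h
    · exact absurd (h ▸ hx) hDt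
    · exact h2 x hx' (hDF x hx h)
  · intro x hx hx'
    rcases mem_insert.mp (hC' hx') with h | h
    · exact absurd (h ▸ hx) hDt
    · exact h2' x hx' (hDF x hx h)

/-- the ground set consists of `p`, `q`, `t` and the acyclic set `F` -/
structure Gd (R : V → V → Prop) (F : Finset V) (p q t : V) : Prop where
  pq : p ≠ q
  pt : p ≠ t
  qt : q ≠ t
  pF : p ∉ F
  qF : q ∉ F
  tF : t ∉ F
  ac : Ac R F
  col : ∀ A B : Finset V, (∀ x, x ∈ A ∪ B ↔ x = p ∨ x = q ∨ x = t ∨ x ∈ F) → Ac R A → Ac R B → False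

theorem Gd.swap {F : Finset V} {p q t : V} (h : Gd R F p q t) : Gd R F q p t :=
  ⟨h.pq.symm, h.qt, h.pt, h.qF, h.pF, h.tF, h.ac, fun A B h1 => h.col A B (fun x => by rw [h1]; tauto)⟩

theorem Gd.rot {F : Finset V} {p q t : V} (h : Gd R F p q t) : Gd R F q t p :=
  ⟨h.qt, h.pq.symm, h.pt.symm, h.qF, h.tF, h.pF, h.ac, fun A B h1 => h.col A B (fun x => by rw [h1]; tauto)⟩

theorem dig_step (hirr : ∀ v, ¬ R v v) {F : Finset V} {p q t : V} (h : Gd R F p q t) (h1 : R p q) (h2 : R q p)
    {X0 : Finset V} (hX0 : X0 ⊆ F) (h0 : Ac R (insert q (F \ X0))) :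
    Neck R 2 ∨ (R p t ∧ R t p) ∨ ∃ D ⊆ insert t X0, Circ R D ∧ t ∈ D ∧ ∃ x ∈ D, x ≠ t ∧ ∃ C ⊆ insert q F,
      Circ R C ∧ q ∈ C ∧ x ∈ C ∧ ∀ y ∈ C, y ∈ D → y = x := by
  obtain ⟨X, hX, hXA, hpriv⟩ := privates hirr h.qF h.ac hX0 h0
  have hXF := hX.trans hX0
  have hn : ¬ Ac R (insert p (insert t X)) := by
    intro hA
    refine h.col _ _ ?_ hA hXA
    intro x
    simp only [mem_union, mem_insert, mem_sdiff]
    constructor
    · rintro ((h3 | h3 | h3) | (h3 | h3))
      · exact Or.inl h3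
      · exact Or.inr (Or.inr (Or.inl h3))
      · exact Or.inr (Or.inr (Or.inr (hXF h3)))
      · exact Or.inr (Or.inl h3)
      · exact Or.inr (Or.inr (Or.inr h3.1))
    · rintro (h3 | h3 | h3 | h3)
      · exact Or.inl (Or.inl h3)
      · exact Or.inr (Or.inl h3)
      · exact Or.inl (Or.inr (Or.inl h3))
      · by_cases h4 : x ∈ X
        · exact Or.inl (Or.inr (Or.inr h4))
        · exact Or.inr (Or.inr ⟨h3, h4⟩)
  obtain ⟨D, hD, hcD, a, ha, b, hb, hab⟩ := exists_circ_of_not_ac hirr hn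
  have hDq : q ∉ D := by
    intro hq
    have := hD hq
    simp only [mem_insert] at this
    rcases this with h3 | h3 | h3
    · exact h.pq h3.symm
    · exact h.qt h3
    · exact h.qF (hXF h3)
  have hDX : ∀ x ∈ D, x ≠ p → x ≠ t → x ∈ X := by
    intro x hx h3 h4
    have := hD hx
    simp only [mem_insert] at this
    tauto
  by_cases hxX : ∃ x ∈ D, x ∈ X
  · obtain ⟨x, hx, hxX⟩ := hxX
    obtain ⟨C, hC, hcC, hqC, hxC, hCX⟩ := hpriv x hxX
    have hpC : p ∉ C := by
      intro h3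
      rcases mem_insert.mp (hC h3) with h4 | h4
      · exact h.pq h4
      · exact h.pF h4
    have htC : t ∉ C := by
      intro h3
      rcases mem_insert.mp (hC h3) with h4 | h4
      · exact h.qt h4.symm
      · exact h.tF h4
    have hxp : x ≠ p := fun h3 => h.pF (hXF (h3 ▸ hxX))
    have hxq : x ≠ q := fun h3 => h.qF (hXF (h3 ▸ hxX))
    have hxt : x ≠ t := fun h3 => h.tF (hXF (h3 ▸ hxX))
    have hCD : ∀ y ∈ C, y ∈ D → y = x := by
      intro y hy hyD
      exact hCX y hy (hDX y hyD (fun h3 => hpC (h3 ▸ hy)) (fun h3 => htC (h3 ▸ hy)))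
    by_cases hpD : p ∈ D
    · left
      refine ring3 hcD hcC (circ_two h1 h2 h.pq) (a := x) (b := q) (c := p) hx hxC hqC (by simp) hpD (by simp)
        hxq h.pq.symm hxp (fun y hy hy' => hCD y hy' hy) ?_ ?_
      · intro y hy hy'
        simp only [mem_insert, mem_singleton] at hy'
        exact hy'.resolve_left (fun h3 => hpC (h3 ▸ hy))
      · intro y hy hy'
        simp only [mem_insert, mem_singleton] at hy'
        exact hy'.resolve_right (fun h3 => hDq (h3 ▸ hy))
    · right; right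
      have hDt : D ⊆ insert t X := by
        intro y hy
        have := hD hy
        rw [mem_insert] at this
        exact this.resolve_left (fun h3 => hpD (h3 ▸ hy))
      have htD : t ∈ D := by
        by_contra htD
        refine hcD.not_ac (S := F) ?_ ha hb hab h.ac
        intro y hy
        exact hXF ((mem_insert.mp (hDt hy)).resolve_left (fun h3 => htD (h3 ▸ hy)))
      exact ⟨D, hDt.trans (insert_subset_insert _ hX), hcD, htD, x, hx, hxt, C, hC, hcC, hqC, hxC, hCD⟩
  · right; left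
    push Not at hxX
    have hall : ∀ x ∈ D, x = p ∨ x = t := by
      intro x hx
      by_contra hc
      push Not at hc
      exact hxX x hx (hDX x hx hc.1 hc.2)
    have hpt : p ∈ D ∧ t ∈ D := by
      rcases hall a ha with h3 | h3 <;> rcases hall b hb with h4 | h4
      · exact absurd (h3.trans h4.symm) hab
      · exact ⟨h3 ▸ ha, h4 ▸ hb⟩
      · exact ⟨h4 ▸ hb, h3 ▸ ha⟩
      · exact absurd (h3.trans h4.symm) hab
    constructor
    · rcases (hcD.rc hpt.1 hpt.2 h.pt).cases_head with h3 | ⟨x, h3, h4⟩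
      · exact absurd h3 h.pt
      · rcases hall x h4.left with h5 | h5
        · exact absurd (h5 ▸ h3) (hirr p)
        · exact h5 ▸ h3
    · rcases (hcD.rc hpt.2 hpt.1 h.pt.symm).cases_head with h3 | ⟨x, h3, h4⟩
      · exact absurd h3 h.pt.symm
      · rcases hall x h4.left with h5 | h5
        · exact h5 ▸ h3
        · exact absurd (h5 ▸ h3) (hirr t)

theorem dig_one (hirr : ∀ v, ¬ R v v) {F : Finset V} {p q t : V} (h : Gd R F p q t) (h1 : R p q) (h2 : R q p)
    (h3 : R p t) (h4 : R t p) : Neck R 2 := by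
  rcases dig_step hirr h.swap h2 h1 (X0 := F) (Subset.refl _) (by
    rw [sdiff_self]; exact Ac.single hirr (w := p) (by simp)) with h5 | ⟨h5, h6⟩ | ⟨D, hD, hcD, htD, x, hx, hxt, C, hC, hcC, hpC, hxC, hCD⟩
  · exact h5
  · refine ring3 (circ_two h1 h2 h.pq) (circ_two h5 h6 h.qt) (circ_two h4 h3 h.pt.symm) (a := q) (b := t) (c := p)
      (by simp) (by simp) (by simp) (by simp) (by simp) (by simp) h.qt h.pt.symm h.pq.symm ?_ ?_ ?_
    · intro x hx hx'
      simp only [mem_insert, mem_singleton] at hx hx'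
      rcases hx with rfl | rfl
      · exact hx'.resolve_right h.pt
      · rfl
    · intro x hx hx'
      simp only [mem_insert, mem_singleton] at hx hx'
      rcases hx with rfl | rfl
      · rcases hx' with h7 | h7
        · exact h7
        · exact absurd h7 h.pq.symm
      · rfl
    · intro x hx hx'
      simp only [mem_insert, mem_singleton] at hx hx'
      rcases hx with rfl | rfl
      · rfl
      · rcases hx' with h7 | h7
        · exact absurd h7 h.qt
        · exact h7
  · have hpD : p ∉ D := by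
      intro h7
      rcases mem_insert.mp (hD h7) with h8 | h8
      · exact h.pt h8
      · exact h.pF h8
    have htC : t ∉ C := by
      intro h7
      rcases mem_insert.mp (hC h7) with h8 | h8
      · exact h.pt h8.symm
      · exact h.tF h8
    refine ring3 (circ_two h3 h4 h.pt) hcD hcC (a := t) (b := x) (c := p) (by simp) htD hx hxC (by simp) hpC
      hxt.symm (fun h7 => hpD (h7 ▸ hx)) h.pt.symm ?_ (fun y hy hy' => hCD y hy' hy) ?_
    · intro y hy hy'
      simp only [mem_insert, mem_singleton] at hy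
      exact hy.resolve_left (fun h7 => hpD (h7 ▸ hy'))
    · intro y hy hy'
      simp only [mem_insert, mem_singleton] at hy
      exact hy.resolve_right (fun h7 => htC (h7 ▸ hy'))

/-- a digon among the three vertices -/
theorem dig_case (hirr : ∀ v, ¬ R v v) {F : Finset V} {p q t : V} (h : Gd R F p q t) (h1 : R p q) (h2 : R q p) :
    Neck R 2 ∨ Neck R 4 := by
  by_cases hN : Neck R 2
  · exact Or.inl hN
  by_cases hpt : R p t ∧ R t p
  · exact Or.inl (dig_one hirr h h1 h2 hpt.1 hpt.2)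
  by_cases hqt : R q t ∧ R t q
  · exact Or.inl (dig_one hirr h.swap h2 h1 hqt.1 hqt.2)
  obtain ⟨S, hSF, hSA, hS1, hS2⟩ := rails hirr h.tF h.ac
  -- a digon from each of `p`, `q` to `S`
  have key : ∀ p q : V, Gd R F p q t → R p q → R q p → ¬ (R p t ∧ R t p) → ∃ s ∈ S, R q s ∧ R s q := by
    intro p q h h1 h2 hpt
    have hn : ¬ Ac R (insert q S) := by
      intro hA
      rcases dig_step hirr h h1 h2 (X0 := F \ S) sdiff_subset (by rw [Finset.sdiff_sdiff_eq_self hSF]; exact hA) with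
        h5 | h5 | ⟨D, hD, hcD, htD, x, hx, hxt, _⟩
      · exact hN h5
      · exact hpt h5
      · exact hcD.not_ac hD hx htD hxt hSA
    have hqS : q ∉ S := fun h3 => h.qF (hSF h3)
    obtain ⟨D, hD, hqD, ⟨s, hs, hsq⟩, hcD⟩ := circ_of_not_ac hirr hn (by rw [erase_insert hqS]; exact h.ac.mono hSF)
    have htD : t ∉ D := by
      intro h3
      rcases mem_insert.mp (hD h3) with h4 | h4
      · exact h.qt h4.symm
      · exact h.tF (hSF h4)
    have hmS : ∀ x ∈ D, x ≠ q → x ∈ S := fun x hx hxq => (mem_insert.mp (hD hx)).resolve_left hxq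
    have hall : ∀ x ∈ D, x = q ∨ x = s := by
      intro x hx
      by_contra hc
      push Not at hc
      refine hN (two_rails hS2 hcD htD ?_ hx hs (hmS x hx hc.1) (hmS s hs hsq) hc.2)
      intro y hy hyF
      exact hmS y hy (fun h3 => h.qF (h3 ▸ hyF))
    refine ⟨s, hmS s hs hsq, ?_, ?_⟩
    · rcases (hcD.rc hqD hs hsq.symm).cases_head with h3 | ⟨x, h3, h4⟩
      · exact absurd h3 hsq.symm
      · rcases hall x h4.left with h5 | h5
        · exact absurd (h5 ▸ h3) (hirr q)
        · exact h5 ▸ h3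
    · rcases (hcD.rc hs hqD hsq).cases_head with h3 | ⟨x, h3, h4⟩
      · exact absurd h3 hsq
      · rcases hall x h4.left with h5 | h5
        · exact h5 ▸ h3
        · exact absurd (h5 ▸ h3) (hirr s)
  obtain ⟨s, hs, hqs, hsq⟩ := key p q h h1 h2 hpt
  obtain ⟨s', hs', hps, hsp⟩ := key q p h.swap h2 h1 hqt
  have ne_of : ∀ y ∈ S, y ≠ p ∧ y ≠ q ∧ y ≠ t := fun y hy =>
    ⟨fun h3 => h.pF (h3 ▸ hSF hy), fun h3 => h.qF (h3 ▸ hSF hy), fun h3 => h.tF (h3 ▸ hSF hy)⟩
  obtain ⟨hsp', hsq', hst'⟩ := ne_of s hs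
  obtain ⟨hs'p, hs'q, hs't⟩ := ne_of s' hs'
  by_cases hss : s = s'
  · subst hss
    left
    refine ring3 (circ_two h1 h2 h.pq) (circ_two hqs hsq hsq'.symm) (circ_two hsp hps hsp') (a := q) (b := s) (c := p)
      (by simp) (by simp) (by simp) (by simp) (by simp) (by simp) hsq'.symm hsp' h.pq.symm ?_ ?_ ?_
    · intro x hx hx'
      simp only [mem_insert, mem_singleton] at hx hx'
      rcases hx with rfl | rfl
      · rcases hx' with h7 | h7
        · exact h7
        · exact absurd h7.symm hsp'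
      · rfl
    · intro x hx hx'
      simp only [mem_insert, mem_singleton] at hx hx'
      rcases hx with rfl | rfl
      · rcases hx' with h7 | h7
        · exact h7
        · exact absurd h7 h.pq.symm
      · rfl
    · intro x hx hx'
      simp only [mem_insert, mem_singleton] at hx hx'
      rcases hx with rfl | rfl
      · rfl
      · rcases hx' with h7 | h7
        · exact absurd h7.symm hsq'
        · exact h7
  · obtain ⟨C, hC, C', hC', hcC, hcC', htC, htC', hsC, hsC', hCS, hCS', hCC⟩ := hS2 s hs s' hs' hss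
    right
    have out : ∀ (C : Finset V), C ⊆ insert t F → p ∉ C ∧ q ∉ C := by
      intro C hC
      constructor
      · intro h3
        rcases mem_insert.mp (hC h3) with h4 | h4
        · exact h.pt h4
        · exact h.pF h4
      · intro h3
        rcases mem_insert.mp (hC h3) with h4 | h4
        · exact h.qt h4
        · exact h.qF h4
    obtain ⟨hpC, hqC⟩ := out C hC
    obtain ⟨hpC', hqC'⟩ := out C' hC'
    have hs'C : s' ∉ C := fun h3 => hss (hCS s' h3 hs').symm
    have hsC'' : s ∉ C' := fun h3 => hss (hCS' s h3 hs)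
    refine ring5 (A := {q, s}) (B := C) (C := C') (D := {s', p}) (E := {p, q}) (a := s) (b := t) (c := s') (d := p) (e := q)
      (circ_two hqs hsq hsq'.symm) hcC hcC' (circ_two hsp hps hs'p) (circ_two h1 h2 h.pq) (by simp) hsC htC htC' hsC'
      (by simp) (by simp) (by simp) (by simp) (by simp) ?_ hCC ?_ ?_ ?_ ?_ ?_ ?_ ?_ ?_
    · intro x hx hx'
      simp only [mem_insert, mem_singleton] at hx
      exact hx.resolve_left (fun h3 => hqC (h3 ▸ hx'))
    · intro x hx hx'
      simp only [mem_insert, mem_singleton] at hx'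
      exact hx'.resolve_right (fun h3 => hpC' (h3 ▸ hx))
    · intro x hx hx'
      simp only [mem_insert, mem_singleton] at hx hx'
      rcases hx with h3 | h3
      · rcases hx' with h4 | h4
        · exact h4
        · exact absurd (h3.symm.trans h4) hs'q
      · exact h3
    · intro x hx hx'
      simp only [mem_insert, mem_singleton] at hx hx'
      rcases hx with h3 | h3
      · exact h3
      · rcases hx' with h4 | h4
        · exact absurd (h3.symm.trans h4) hsp'
        · exact h4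
    · intro x hx hx'
      simp only [mem_insert, mem_singleton] at hx
      rcases hx with h3 | h3
      · exact hqC' (h3 ▸ hx')
      · exact hsC'' (h3 ▸ hx')
    · intro x hx hx'
      simp only [mem_insert, mem_singleton] at hx hx'
      rcases hx with h3 | h3 <;> rcases hx' with h4 | h4
      · exact hs'q (h4.symm.trans h3)
      · exact h.pq (h4.symm.trans h3)
      · exact hss (h3.symm.trans h4)
      · exact hsp' (h3.symm.trans h4)
    · intro x hx hx'
      simp only [mem_insert, mem_singleton] at hx'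
      rcases hx' with h3 | h3
      · exact hs'C (h3 ▸ hx)
      · exact hpC (h3 ▸ hx)
    · intro x hx hx'
      simp only [mem_insert, mem_singleton] at hx'
      rcases hx' with h3 | h3
      · exact hpC (h3 ▸ hx)
      · exact hqC (h3 ▸ hx)
    · intro x hx hx'
      simp only [mem_insert, mem_singleton] at hx'
      rcases hx' with h3 | h3
      · exact hpC' (h3 ▸ hx)
      · exact hqC' (h3 ▸ hx)

theorem tri_step (hirr : ∀ v, ¬ R v v) {F : Finset V} {a b c : V} (h : Gd R F a b c) (hab : R a b) (hbc : R b c) (hca : R c a)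
    (hcb : ¬ R c b) : Neck R 2 ∨ ∃ s ∈ F, R c s ∧ R s b ∧ ∃ C ⊆ insert a F, Circ R C ∧ a ∈ C ∧ s ∈ C := by
  obtain ⟨S, hSF, hSA, hS1, hS2⟩ := rails hirr h.pF h.ac
  by_cases hN : Neck R 2
  · exact Or.inl hN
  right
  have hn : ¬ Ac R (insert b (insert c S)) := by
    intro hA
    refine h.col _ _ ?_ hA hSA
    intro x
    simp only [mem_union, mem_insert, mem_sdiff]
    constructor
    · rintro ((h3 | h3 | h3) | (h3 | h3))
      · exact Or.inr (Or.inl h3)
      · exact Or.inr (Or.inr (Or.inl h3))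
      · exact Or.inr (Or.inr (Or.inr (hSF h3)))
      · exact Or.inl h3
      · exact Or.inr (Or.inr (Or.inr h3.1))
    · rintro (h3 | h3 | h3 | h3)
      · exact Or.inr (Or.inl h3)
      · exact Or.inl (Or.inl h3)
      · exact Or.inl (Or.inr (Or.inl h3))
      · by_cases h4 : x ∈ S
        · exact Or.inl (Or.inr (Or.inr h4))
        · exact Or.inr (Or.inr ⟨h3, h4⟩)
  obtain ⟨D, hD, hcD, x, hx, y, hy, hxy⟩ := exists_circ_of_not_ac hirr hn
  have hDm : ∀ z ∈ D, z = b ∨ z = c ∨ z ∈ S := by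
    intro z hz
    simpa only [mem_insert] using hD hz
  have haD : a ∉ D := by
    intro h3
    rcases hDm a h3 with h4 | h4 | h4
    · exact h.pq h4
    · exact h.pt h4
    · exact h.pF (hSF h4)
  have hone : ∀ s ∈ D, s ∈ S → ∀ s' ∈ D, s' ∈ S → s' = s := by
    intro s hs hsS s' hs' hsS'
    by_contra hne
    refine hN (two_rails hS2 hcD haD ?_ hs' hs hsS' hsS hne)
    intro z hz hzF
    rcases hDm z hz with h3 | h3 | h3
    · exact absurd (h3 ▸ hzF) h.qF
    · exact absurd (h3 ▸ hzF) h.tF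
    · exact h3
  obtain ⟨s, hs, hsS⟩ : ∃ s ∈ D, s ∈ S := by
    by_contra hc
    push Not at hc
    have hall : ∀ z ∈ D, z = b ∨ z = c := by
      intro z hz
      rcases hDm z hz with h3 | h3 | h3
      · exact Or.inl h3
      · exact Or.inr h3
      · exact absurd h3 (hc z hz)
    have hbc' : b ∈ D ∧ c ∈ D := by
      rcases hall x hx with h3 | h3 <;> rcases hall y hy with h4 | h4
      · exact absurd (h3.trans h4.symm) hxy
      · exact ⟨h3 ▸ hx, h4 ▸ hy⟩
      · exact ⟨h4 ▸ hy, h3 ▸ hx⟩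
      · exact absurd (h3.trans h4.symm) hxy
    rcases (hcD.rc hbc'.2 hbc'.1 h.qt.symm).cases_head with h3 | ⟨z, h3, h4⟩
    · exact h.qt h3.symm
    · rcases hall z h4.left with h5 | h5
      · exact hcb (h5 ▸ h3)
      · exact hirr c (h5 ▸ h3)
  have hall : ∀ z ∈ D, z = b ∨ z = c ∨ z = s := by
    intro z hz
    rcases hDm z hz with h3 | h3 | h3
    · exact Or.inl h3
    · exact Or.inr (Or.inl h3)
    · exact Or.inr (Or.inr (hone s hs hsS z hz h3))
  obtain ⟨C, hC, hcC, haC, hsC, hCS⟩ := hS1 s hsS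
  have hsF := hSF hsS
  have hbC : b ∉ C := by
    intro h3
    rcases mem_insert.mp (hC h3) with h4 | h4
    · exact h.pq h4.symm
    · exact h.qF h4
  have hcC' : c ∉ C := by
    intro h3
    rcases mem_insert.mp (hC h3) with h4 | h4
    · exact h.pt h4.symm
    · exact h.tF h4
  have hsa : s ≠ a := fun h3 => h.pF (h3 ▸ hsF)
  have hsb : s ≠ b := fun h3 => h.qF (h3 ▸ hsF)
  have hsc : s ≠ c := fun h3 => h.tF (h3 ▸ hsF)
  have hT : Circ R {a, b, c} := circ_three hab hbc hca h.pq h.qt h.pt.symm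
  have hCD : ∀ z ∈ D, z ∈ C → z = s := by
    intro z hz hzC
    rcases hall z hz with h3 | h3 | h3
    · exact absurd (h3 ▸ hzC) hbC
    · exact absurd (h3 ▸ hzC) hcC'
    · exact h3
  have hTC : ∀ z ∈ ({a, b, c} : Finset V), z ∈ C → z = a := by
    intro z hz hzC
    simp only [mem_insert, mem_singleton] at hz
    rcases hz with h3 | h3 | h3
    · exact h3
    · exact absurd (h3 ▸ hzC) hbC
    · exact absurd (h3 ▸ hzC) hcC'
  have hbD : b ∈ D := by
    by_contra hbD
    have hcD' : c ∈ D := by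
      by_contra hc
      have h3 : ∀ z ∈ D, z = s := fun z hz => by
        rcases hall z hz with h3 | h3 | h3
        · exact absurd (h3 ▸ hz) hbD
        · exact absurd (h3 ▸ hz) hc
        · exact h3
      exact hxy ((h3 x hx).trans (h3 y hy).symm)
    refine hN (ring3 hT hcD hcC (a := c) (b := s) (c := a) (by simp) hcD' hs hsC (by simp) haC hsc.symm hsa h.pt.symm ?_ hCD hTC)
    intro z hz hzD
    simp only [mem_insert, mem_singleton] at hz
    rcases hz with h3 | h3 | h3
    · exact absurd (h3 ▸ hzD) haD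
    · exact absurd (h3 ▸ hzD) hbD
    · exact h3
  have hcD' : c ∈ D := by
    by_contra hcD'
    refine hN (ring3 hT hcD hcC (a := b) (b := s) (c := a) (by simp) hbD hs hsC (by simp) haC hsb.symm hsa h.pq.symm ?_ hCD hTC)
    intro z hz hzD
    simp only [mem_insert, mem_singleton] at hz
    rcases hz with h3 | h3 | h3
    · exact absurd (h3 ▸ hzD) haD
    · exact h3
    · exact absurd (h3 ▸ hzD) hcD'
  have hrc := hcD.rc hcD' hbD h.qt.symm
  refine ⟨s, hsF, ?_, ?_, C, hC, hcC, haC, hsC⟩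
  · rcases hrc.cases_head with h3 | ⟨z, h3, h4⟩
    · exact absurd h3 h.qt.symm
    · rcases hall z h4.left with h5 | h5 | h5
      · exact absurd (h5 ▸ h3) hcb
      · exact absurd (h5 ▸ h3) (hirr c)
      · exact h5 ▸ h3
  · rcases hrc.cases_tail with h3 | ⟨z, h3, h4⟩
    · exact absurd h3 h.qt.symm
    · rcases hall z h3.right with h5 | h5 | h5
      · exact absurd (h5 ▸ h4) (hirr b)
      · exact absurd (h5 ▸ h4) hcb
      · exact h5 ▸ h4

theorem tri_case (hirr : ∀ v, ¬ R v v) {F : Finset V} {a b c : V} (h : Gd R F a b c) (hab : R a b) (hbc : R b c) (hca : R c a)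
    (hba : ¬ R b a) (hcb : ¬ R c b) (hac : ¬ R a c) : Neck R 2 := by
  rcases tri_step hirr h hab hbc hca hcb with h1 | ⟨s1, hs1, c1, d1, C1, hC1, hcC1, haC1, hsC1⟩
  · exact h1
  rcases tri_step hirr h.rot hbc hca hab hac with h2 | ⟨s2, hs2, c2, d2, C2, hC2, hcC2, haC2, hsC2⟩
  · exact h2
  rcases tri_step hirr h.rot.rot hca hab hbc hba with h3 | ⟨s3, hs3, c3, d3, C3, hC3, hcC3, haC3, hsC3⟩
  · exact h3
  have nF : ∀ s ∈ F, s ≠ a ∧ s ≠ b ∧ s ≠ c := fun s hs =>
    ⟨fun h3 => h.pF (h3 ▸ hs), fun h3 => h.qF (h3 ▸ hs), fun h3 => h.tF (h3 ▸ hs)⟩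
  have hT : Circ R {a, b, c} := circ_three hab hbc hca h.pq h.qt h.pt.symm
  -- a digon from one of the three vertices to `F`, and a circuit through another one
  have fin : ∀ x y s : V, x ∈ ({a, b, c} : Finset V) → y ∈ ({a, b, c} : Finset V) → x ≠ y → s ∈ F → R x s → R s x →
      (∃ C ⊆ insert y F, Circ R C ∧ y ∈ C ∧ s ∈ C) → Neck R 2 := by
    rintro x y s hx hy hxy hs h1 h2 ⟨C, hC, hcC, hyC, hsC⟩
    have hsT : s ∉ ({a, b, c} : Finset V) := by
      have := nF s hs
      simp only [mem_insert, mem_singleton, not_or]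
      exact this
    have hsx : s ≠ x := fun h3 => hsT (h3 ▸ hx)
    have hsy : s ≠ y := fun h3 => hsT (h3 ▸ hy)
    have hTF : ∀ z ∈ ({a, b, c} : Finset V), z ∉ F := by
      intro z hz hzF
      have := nF z hzF
      simp only [mem_insert, mem_singleton] at hz
      tauto
    refine ring3 hT (circ_two h1 h2 hsx.symm) hcC (a := x) (b := s) (c := y) hx (by simp) (by simp) hsC hy hyC
      hsx.symm hsy hxy ?_ ?_ ?_
    · intro z hz hz'
      simp only [mem_insert, mem_singleton] at hz'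
      exact hz'.resolve_right (fun h3 => hsT (h3 ▸ hz))
    · intro z hz hz'
      rw [mem_insert, mem_singleton] at hz
      refine hz.resolve_left (fun h3 => ?_)
      subst h3
      rcases mem_insert.mp (hC hz') with h4 | h4
      · exact hxy h4
      · exact hTF z hx h4
    · intro z hz hz'
      rcases mem_insert.mp (hC hz') with h4 | h4
      · exact h4
      · exact absurd h4 (hTF z hz)
  by_cases h12 : s1 = s2
  · exact fin c a s1 (by simp) (by simp) h.pt.symm hs1 c1 (h12 ▸ d2) ⟨C1, hC1, hcC1, haC1, hsC1⟩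
  by_cases h23 : s2 = s3
  · exact fin a b s2 (by simp) (by simp) h.pq hs2 c2 (h23 ▸ d3) ⟨C2, hC2, hcC2, haC2, hsC2⟩
  by_cases h13 : s1 = s3
  · exact fin b a s1 (by simp) (by simp) h.pq.symm hs1 (h13 ▸ c3) d1 ⟨C1, hC1, hcC1, haC1, hsC1⟩
  obtain ⟨a1, b1, c1'⟩ := nF s1 hs1
  obtain ⟨a2, b2, c2'⟩ := nF s2 hs2
  obtain ⟨a3, b3, c3'⟩ := nF s3 hs3
  refine ring3 (circ_three hbc c1 d1 h.qt c1'.symm b1) (circ_three hca c2 d2 h.pt.symm a2.symm c2')
    (circ_three hab c3 d3 h.pq b3.symm a3) (a := c) (b := a) (c := b) (by simp) (by simp) (by simp) (by simp) (by simp)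
    (by simp) h.pt.symm h.pq h.qt.symm ?_ ?_ ?_
  · intro x hx hx'
    simp only [mem_insert, mem_singleton] at hx hx'
    rcases hx with h4 | h4 | h4 <;> rcases hx' with h5 | h5 | h5
    · exact h5
    · exact absurd (h5.symm.trans h4) h.pq
    · exact absurd (h5.symm.trans h4) b2
    · exact h4
    · exact h4
    · exact h4
    · exact h5
    · exact absurd (h4.symm.trans h5) a1
    · exact absurd (h4.symm.trans h5) h12
  · intro x hx hx'
    simp only [mem_insert, mem_singleton] at hx hx'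
    rcases hx with h4 | h4 | h4 <;> rcases hx' with h5 | h5 | h5
    · exact h5
    · exact absurd (h5.symm.trans h4) h.qt
    · exact absurd (h5.symm.trans h4) c3'
    · exact h4
    · exact h4
    · exact h4
    · exact h5
    · exact absurd (h4.symm.trans h5) b2
    · exact absurd (h4.symm.trans h5) h23
  · intro x hx hx'
    simp only [mem_insert, mem_singleton] at hx hx'
    rcases hx with h4 | h4 | h4 <;> rcases hx' with h5 | h5 | h5
    · exact h4
    · exact h4
    · exact h4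
    · exact absurd (h5.symm.trans h4) h.pt
    · exact h5
    · exact absurd (h5.symm.trans h4) c3'
    · exact absurd (h4.symm.trans h5) a1
    · exact h5
    · exact absurd (h4.symm.trans h5) h13

theorem gd_neck (hirr : ∀ v, ¬ R v v) {F : Finset V} {a b c : V} (h : Gd R F a b c) : Neck R 2 ∨ Neck R 4 := by
  by_cases h1 : R a b ∧ R b a
  · exact dig_case hirr h h1.1 h1.2
  by_cases h2 : R b c ∧ R c b
  · exact dig_case hirr h.rot h2.1 h2.2
  by_cases h3 : R c a ∧ R a c
  · exact dig_case hirr h.rot.rot h3.1 h3.2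
  left
  have hn : ¬ Ac R ({a, b, c} : Finset V) := by
    intro hA
    refine h.col {a, b, c} F ?_ hA h.ac
    intro x
    simp only [mem_union, mem_insert, mem_singleton]
    tauto
  have hm : ∀ z ∈ ({a, b, c} : Finset V), z = a ∨ z = b ∨ z = c := by
    intro z hz; simpa only [mem_insert, mem_singleton] using hz
  have nodig : ∀ u ∈ ({a, b, c} : Finset V), ∀ v ∈ ({a, b, c} : Finset V), R u v → ¬ R v u := by
    intro u hu v hv huv hvu
    rcases hm u hu with rfl | rfl | rfl <;> rcases hm v hv with rfl | rfl | rfl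
    · exact hirr _ huv
    · exact h1 ⟨huv, hvu⟩
    · exact h3 ⟨hvu, huv⟩
    · exact h1 ⟨hvu, huv⟩
    · exact hirr _ huv
    · exact h2 ⟨huv, hvu⟩
    · exact h3 ⟨huv, hvu⟩
    · exact h2 ⟨hvu, huv⟩
    · exact hirr _ huv
  obtain ⟨D, hD, hcD, x, hx, y, hy, hxy⟩ := exists_circ_of_not_ac hirr hn
  -- two arcs out of `x`
  obtain ⟨z, hxz, hzy⟩ : ∃ z, R x z ∧ Rc R D z y := by
    rcases (hcD.rc hx hy hxy).cases_head with h4 | h4
    · exact absurd h4 hxy
    · exact h4
  have hzD := hzy.left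
  have hzx : z ≠ x := fun h4 => hirr x (h4 ▸ hxz)
  obtain ⟨w, hzw, hwx⟩ : ∃ w, R z w ∧ Rc R D w x := by
    rcases (hcD.rc hzD hx hzx).cases_head with h4 | h4
    · exact absurd h4 hzx
    · exact h4
  have hwD := hwx.left
  have hwz : w ≠ z := fun h4 => hirr z (h4 ▸ hzw)
  have hwx' : w ≠ x := fun h4 => nodig x (hD hx) z (hD hzD) hxz (h4 ▸ hzw)
  obtain ⟨v, hwv, hvx⟩ : ∃ v, R w v ∧ Rc R D v x := by
    rcases hwx.cases_head with h4 | h4
    · exact absurd h4 hwx'
    · exact h4
  have hvD := hvx.left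
  have hvw : v ≠ w := fun h4 => hirr w (h4 ▸ hwv)
  have hvz : v ≠ z := fun h4 => nodig z (hD hzD) w (hD hwD) hzw (h4 ▸ hwv)
  have hall : ∀ u ∈ D, u = x ∨ u = z ∨ u = w := by
    intro u hu
    by_contra hc
    push Not at hc
    have h4 : ({x, z, w, u} : Finset V).card ≤ ({a, b, c} : Finset V).card := by
      apply card_le_card
      intro y' hy'
      simp only [mem_insert, mem_singleton] at hy'
      rcases hy' with rfl | rfl | rfl | rfl
      · exact hD hx
      · exact hD hzD
      · exact hD hwD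
      · exact hD hu
    have h5 : ({x, z, w, u} : Finset V).card = 4 := by
      rw [card_insert_of_notMem, card_insert_of_notMem, card_insert_of_notMem, card_singleton]
      · simp only [mem_singleton]; exact fun h6 => hc.2.2 h6.symm
      · simp only [mem_insert, mem_singleton, not_or]
        exact ⟨hwz.symm, fun h6 => hc.2.1 h6.symm⟩
      · simp only [mem_insert, mem_singleton, not_or]
        exact ⟨hzx.symm, hwx'.symm, fun h6 => hc.1 h6.symm⟩
    have h6 : ({a, b, c} : Finset V).card ≤ 3 := card_le_three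
    omega
  have hv : v = x := by
    rcases hall v hvD with h4 | h4 | h4
    · exact h4
    · exact absurd h4 hvz
    · exact absurd h4 hvw
  subst hv
  -- `v → z → w → v`
  have n1 := nodig v (hD hx) z (hD hzD) hxz
  have n2 := nodig z (hD hzD) w (hD hwD) hzw
  have n3 := nodig w (hD hwD) v (hD hx) hwv
  rcases hm v (hD hx) with h4 | h4 | h4 <;> rcases hm z (hD hzD) with h5 | h5 | h5 <;> rcases hm w (hD hwD) with h6 | h6 | h6 <;>
    subst h4 <;> (try subst h5) <;> (try subst h6) <;> first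
    | exact absurd rfl hzx
    | exact absurd rfl hwz
    | exact absurd rfl hwx'
    | exact tri_case hirr h hxz hzw hwv n1 n2 n3
    | exact tri_case hirr h.swap hxz hzw hwv n1 n2 n3
    | exact tri_case hirr h.rot hxz hzw hwv n1 n2 n3
    | exact tri_case hirr h.rot.rot hxz hzw hwv n1 n2 n3
    | exact tri_case hirr h.rot.swap hxz hzw hwv n1 n2 n3
    | exact tri_case hirr h.rot.rot.swap hxz hzw hwv n1 n2 n3

/-- the theorem -/
theorem fvn_neck (hirr : ∀ v, ¬ R v v) {U T : Finset V} (hTU : T ⊆ U) (hT : T.card ≤ 3) (hA : Ac R (U \ T))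
    (hcol : ∀ S ⊆ U, Ac R S → ¬ Ac R (U \ S)) : Neck R 2 ∨ Neck R 4 := by
  by_cases hU : U.card ≤ 2
  · exfalso
    rcases U.eq_empty_or_nonempty with rfl | ⟨p, hp⟩
    · exact hcol ∅ (Subset.refl _) ac_empty (by simpa using ac_empty)
    · have h1 : (U.erase p).card ≤ 1 := by rw [card_erase_of_mem hp]; omega
      have : Nonempty V := ⟨p⟩
      obtain ⟨x, hx⟩ := card_le_one_iff_subset_singleton.mp h1
      refine hcol {p} (singleton_subset_iff.mpr hp) (Ac.single hirr (Subset.refl _)) ?_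
      rw [sdiff_singleton_eq_erase]
      exact Ac.single hirr hx
  push Not at hU
  obtain ⟨T', hTT', hT'U, hT'⟩ := exists_subsuperset_card_eq hTU hT (show 3 ≤ U.card by omega)
  obtain ⟨a, b, c, hab, hac, hbc, rfl⟩ := card_eq_three.mp hT'
  have hd : ∀ z ∈ ({a, b, c} : Finset V), z ∉ U \ {a, b, c} := fun z hz h => (mem_sdiff.mp h).2 hz
  refine gd_neck hirr (F := U \ {a, b, c}) (a := a) (b := b) (c := c) ⟨hab, hac, hbc, hd a (by simp), hd b (by simp),
    hd c (by simp), hA.mono (sdiff_subset_sdiff (Subset.refl _) hTT'), ?_⟩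
  intro A B hAB hcA hcB
  have hAB' : ∀ x, x ∈ A ∪ B ↔ x ∈ U := by
    intro x
    rw [hAB, mem_sdiff]
    simp only [mem_insert, mem_singleton]
    constructor
    · rintro (rfl | rfl | rfl | h)
      · exact hT'U (by simp)
      · exact hT'U (by simp)
      · exact hT'U (by simp)
      · exact h.1
    · intro h
      tauto
  refine hcol A (fun x hx => (hAB' x).mp (mem_union_left _ hx)) hcA (hcB.mono ?_)
  intro x hx
  rw [mem_sdiff] at hx
  exact (mem_union.mp ((hAB' x).mpr hx.1)).resolve_left hx.2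

theorem not_two {U : Finset V} (h : ¬ Colr R (Fin 2) U) : ∀ S ⊆ U, Ac R S → ¬ Ac R (U \ S) := by
  intro S _ h1 h2
  refine h ⟨fun x => if x ∈ S then 0 else 1, fun F hF hm => ?_⟩
  rcases F.eq_empty_or_nonempty with rfl | ⟨u0, hu0⟩
  · exact ac_empty
  by_cases h0 : u0 ∈ S
  · refine h1.mono fun x hx => ?_
    have := hm u0 hu0 x hx
    by_contra hxS
    simp [h0, hxS] at this
  · refine h2.mono fun x hx => mem_sdiff.mpr ⟨hF hx, fun hxS => ?_⟩
    have := hm u0 hu0 x hx
    simp [h0, hxS] at this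

/-- one more colour for one more vertex -/
theorem colr_add (hirr : ∀ v, ¬ R v v) {c : ℕ} {K : Finset V} {v : V} (h : Colr R (Fin c) (K.erase v)) :
    Colr R (Fin (c + 1)) K := by
  obtain ⟨f, hf⟩ := h
  refine ⟨fun x => if x = v then Fin.last _ else (f x).castSucc, fun F hF hm => ?_⟩
  by_cases hvF : v ∈ F
  · refine Ac.single hirr (w := v) fun x hx => ?_
    rw [mem_singleton]
    by_contra hxv
    have := hm v hvF x hx
    simp only [if_true, if_neg hxv] at this
    exact absurd this.symm (Fin.castSucc_lt_last _).ne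
  · refine hf F (fun x hx => mem_erase.mpr ⟨fun h1 => hvF (h1 ▸ hx), hF hx⟩) fun u hu x hx => ?_
    have h1 : u ≠ v := fun h1 => hvF (h1 ▸ hu)
    have h2 : x ≠ v := fun h1 => hvF (h1 ▸ hx)
    have := hm u hu x hx
    simp only [if_neg h1, if_neg h2] at this
    exact Fin.castSucc_injective _ this

theorem fvn_many (hirr : ∀ v, ¬ R v v) : ∀ (c : ℕ) (U T : Finset V), T ⊆ U → T.card ≤ c + 3 → Ac R (U \ T) →
    ¬ Colr R (Fin (c + 2)) U → Neck R 2 ∨ Neck R 4 := by
  intro c
  induction c with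
  | zero => exact fun U T hTU hT hA hcol => fvn_neck hirr hTU hT hA (not_two hcol)
  | succ c ih =>
    intro U T hTU hT hA hcol
    rcases T.eq_empty_or_nonempty with rfl | ⟨v, hv⟩
    · rw [sdiff_empty] at hA
      exact absurd ⟨fun _ => 0, fun F hF _ => hA.mono hF⟩ hcol
    refine ih (U.erase v) (T.erase v) (erase_subset_erase _ hTU) ?_ (hA.mono ?_) (fun h => hcol (colr_add hirr h))
    · rw [card_erase_of_mem hv]; omega
    · intro x hx
      rw [mem_sdiff, mem_erase, mem_erase] at hx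
      exact mem_sdiff.mpr ⟨hx.1.2, fun h => hx.2 ⟨hx.1.1, h⟩⟩

end fvn

end Pool.Agent.Lib.TriFive
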