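import Pool.Agent.Lib.TriFive.MatchF

/-!
# Digraphs in which no two circuits meet in exactly one vertex

Such a digraph has a pair cover consisting of disjoint pairs (remark of helper13).
-/

set_option autoImplicit false

namespace Pool.Agent.Lib.TriFive.Match

open Finset
open scoped Classical
open Pool.Agent.Lib.TriFive

section share
variable {V : Type*} {R : V → V → Prop}

/-- an involution from a map under which all circuits are closed -/
theorem exists_invol [Fintype V] {H : Finset V} (g : V → V)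
    (hg : ∀ C ⊆ H, Circ R C → (∃ x ∈ C, ∃ y ∈ C, x ≠ y) → ∀ v ∈ C, g v ∈ C ∧ g v ≠ v) :
    ∃ f : V → V, (∀ v, f (f v) = v) ∧
      ∀ C ⊆ H, Circ R C → (∃ x ∈ C, ∃ y ∈ C, x ≠ y) → ∃ v ∈ C, f v ∈ C ∧ f v ≠ v := by
  let s : Setoid V := ⟨fun u v => Function.periodicOrbit g u = Function.periodicOrbit g v,
    ⟨fun _ => rfl, fun h => h.symm, fun h h' => h.trans h'⟩⟩
  obtain ⟨rep, hr1, hr2⟩ : ∃ rep : V → V, (∀ v, Function.periodicOrbit g (rep v) = Function.periodicOrbit g v) ∧
      ∀ u v, Function.periodicOrbit g u = Function.periodicOrbit g v → rep u = rep v := by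
    refine ⟨fun v => (Quotient.mk s v).out, ?_, ?_⟩
    · intro v
      exact Quotient.mk_out (s := s) v
    · intro u v h
      have : Quotient.mk s u = Quotient.mk s v := Quotient.sound h
      simp only [this]
  set P : V → Prop := fun q => q ∈ Function.periodicPts g ∧ rep q = q ∧ g q ≠ q with hP
  have h1 : ∀ q, P q → ¬ P (g q) := by
    intro q hq hq'
    have := hr2 (g q) q (Function.periodicOrbit_apply_eq hq.1)
    rw [hq'.2.1, hq.2.1] at this
    exact hq.2.2 this
  have h2 : ∀ q q', P q → P q' → g q = g q' → q = q' := by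
    intro q q' hq hq' h
    have : Function.periodicOrbit g q = Function.periodicOrbit g q' := by
      rw [← Function.periodicOrbit_apply_eq hq.1, ← Function.periodicOrbit_apply_eq hq'.1, h]
    have := hr2 q q' this
    rwa [hq.2.1, hq'.2.1] at this
  refine ⟨fun v => if P v then g v else if h : ∃ q, P q ∧ g q = v then h.choose else v, ?_, ?_⟩
  · intro v
    by_cases hv : P v
    · simp only [if_pos hv, if_neg (h1 v hv)]
      have hex : ∃ q, P q ∧ g q = g v := ⟨v, hv, rfl⟩
      rw [dif_pos hex]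
      exact h2 _ _ hex.choose_spec.1 hv hex.choose_spec.2
    · by_cases hex : ∃ q, P q ∧ g q = v
      · simp only [if_neg hv, dif_pos hex, if_pos hex.choose_spec.1]
        exact hex.choose_spec.2
      · simp only [if_neg hv, dif_neg hex]
  · intro C hC hcC hne
    have hne0 := hne
    obtain ⟨v, hv, _, _, _⟩ := hne0
    have hit : ∀ n : ℕ, g^[n] v ∈ C := by
      intro n
      induction n with
      | zero => exact hv
      | succ n ih =>
        rw [Function.iterate_succ_apply']
        exact (hg C hC hcC hne _ ih).1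
    obtain ⟨m, n, hmn, he⟩ : ∃ m n : ℕ, m < n ∧ g^[m] v = g^[n] v := by
      obtain ⟨m, n, hne', he⟩ := Finite.exists_ne_map_eq_of_infinite (fun n : ℕ => g^[n] v)
      rcases Nat.lt_or_gt_of_ne hne' with h | h
      · exact ⟨m, n, h, he⟩
      · exact ⟨n, m, h, he.symm⟩
    have hper : g^[m] v ∈ Function.periodicPts g := by
      refine Function.mk_mem_periodicPts (n := n - m) (by omega) ?_
      unfold Function.IsPeriodicPt Function.IsFixedPt
      rw [← Function.iterate_add_apply]
      have : n - m + m = n := by omega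
      rw [this, he]
    set p := g^[m] v with hp
    have hrp : rep p ∈ Function.periodicPts g := by
      by_contra hcon
      have h3 := Function.periodicOrbit_eq_nil_of_not_periodic_pt hcon
      rw [hr1 p] at h3
      exact (Function.periodicOrbit_eq_nil_iff_not_periodic_pt.mp h3) hper
    obtain ⟨k, hk⟩ : ∃ k, g^[k] p = rep p := by
      rw [← Function.mem_periodicOrbit_iff hper, ← hr1 p]
      exact Function.self_mem_periodicOrbit hrp
    have hqC : rep p ∈ C := by
      rw [← hk, hp, ← Function.iterate_add_apply]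
      exact hit _
    have hPq : P (rep p) := ⟨hrp, hr2 _ _ (hr1 p), (hg C hC hcC hne _ hqC).2⟩
    refine ⟨rep p, hqC, ?_, ?_⟩
    · simp only [if_pos hPq]
      exact (hg C hC hcC hne _ hqC).1
    · simp only [if_pos hPq]
      exact hPq.2.2

/-- if no two circuits meet in one vertex, all circuits through a vertex have a further common vertex -/
theorem exists_g [Fintype V] {H : Finset V}
    (hno : ∀ v, ∀ C1 ⊆ H, ∀ C2 ⊆ H, Circ R C1 → Circ R C2 → v ∈ C1 → v ∈ C2 → (∃ x ∈ C1, x ≠ v) → (∃ x ∈ C2, x ≠ v) →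
      ∃ x ∈ C1, x ∈ C2 ∧ x ≠ v) :
    ∃ g : V → V, ∀ C ⊆ H, Circ R C → (∃ x ∈ C, ∃ y ∈ C, x ≠ y) → ∀ v ∈ C, g v ∈ C ∧ g v ≠ v := by
  have key : ∀ v, ∃ w, ∀ C ⊆ H, Circ R C → (∃ x ∈ C, ∃ y ∈ C, x ≠ y) → v ∈ C → w ∈ C ∧ w ≠ v := by
    intro v
    by_contra hcon
    push Not at hcon
    have hv : v ∉ H.erase v := fun h => (mem_erase.mp h).1 rfl
    have hins : insert v (H.erase v) ⊆ insert v H := insert_subset_insert _ (erase_subset _ _)
    obtain ⟨C0, hC0, _, _, hv0, _⟩ := hcon v
    have hvH : v ∈ H := hC0 hv0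
    obtain ⟨S1, S2, a1, b1, a2, b2, hS1, hS2, ha1, ha2, hb1, hb2, hr1, hr2, hdis⟩ :=
      menger2 (R := R) (X := H.erase v) (fun a => R v a) (fun b => R b v) v (by
        intro w
        obtain ⟨C, hC, hcC, ⟨x, hx, y, hy, hxy⟩, hvC, hw⟩ := hcon w
        have hx' : ∃ x ∈ C, x ≠ v := by
          by_cases h : x = v
          · exact ⟨y, hy, fun h' => hxy (h.trans h'.symm)⟩
          · exact ⟨x, hx, h⟩
        obtain ⟨a, b, ha, hb, hab⟩ := walk_of_circ hcC hvC hx'
        refine ⟨a, b, ha, hb, hab.mono fun z hz => ?_⟩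
        rw [mem_erase] at hz
        refine mem_erase.mpr ⟨fun h => hz.1 ?_, mem_erase.mpr ⟨hz.1, hC hz.2⟩⟩
        rw [h]; exact hw (h ▸ hz.2))
    obtain ⟨g1, hg1, ht1, hn1, hc1⟩ := circ_of_walk (fun h => hv (hS1 h)) ha1 hb1 hr1
    obtain ⟨g2, hg2, ht2, hn2, hc2⟩ := circ_of_walk (fun h => hv (hS2 h)) ha2 hb2 hr2
    have hsub : ∀ S ⊆ H.erase v, insert v S ⊆ H := fun S hS =>
      insert_subset hvH (hS.trans (erase_subset _ _))
    obtain ⟨x, hx1, hx2, hxv⟩ := hno v g1 (hg1.trans (hsub S1 hS1)) g2 (hg2.trans (hsub S2 hS2)) hc1 hc2 ht1 ht2 hn1 hn2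
    exact hdis x ((mem_insert.mp (hg1 hx1)).resolve_left hxv) ((mem_insert.mp (hg2 hx2)).resolve_left hxv)
  choose g hg using key
  exact ⟨g, fun C hC hcC hne v hv => hg v C hC hcC hne hv⟩

/-- a circuit as a sequence of vertices -/
theorem circ_fn {C : Finset V} {v : V} (hc : Circ R C) (hv : v ∈ C) (hx : ∃ x ∈ C, x ≠ v) :
    ∃ (m : ℕ) (a : ℕ → V), 2 ≤ m ∧ a 0 = v ∧ (∀ i j, i < m → j < m → a i = a j → i = j) ∧
      (∀ i, i < m → R (a i) (a ((i + 1) % m))) ∧ ∀ i, i < m → a i ∈ C := by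
  obtain ⟨p, q, hp, hq, hr⟩ := walk_of_circ hc hv hx
  obtain ⟨n, φ, h0, hn, harc, hinj, hmem⟩ : ∃ (n : ℕ) (φ : ℕ → V), φ 0 = p ∧ φ n = q ∧
      (∀ k, k < n → R (φ k) (φ (k + 1))) ∧ (∀ k k', k ≤ n → k' ≤ n → φ k = φ k' → k = k') ∧
      ∀ k, k ≤ n → φ k ∈ C.erase v := by
    by_cases hpq : p = q
    · refine ⟨0, fun _ => p, rfl, hpq, by omega, by omega, fun k _ => hr.left⟩
    · obtain ⟨l, hl, hlC⟩ := hr.pth hpq
      obtain ⟨n, φ, h1, h2, h3, h4, h5, h6⟩ := hl.fn
      refine ⟨n, φ, h2, h3, h4, h6, ?_⟩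
      intro k hk
      by_cases hk0 : k = 0
      · rw [hk0, h2]; exact hr.left
      · by_cases hkn : k = n
        · rw [hkn, h3]; exact hr.right
        · exact hlC _ (h5 k (by omega) (by omega))
  refine ⟨n + 2, fun i => if i = 0 then v else φ (i - 1), by omega, by simp, ?_, ?_, ?_⟩
  · intro i j hi hj he
    simp only at he
    by_cases hi0 : i = 0
    · by_cases hj0 : j = 0
      · omega
      · rw [if_pos hi0, if_neg hj0] at he
        exact absurd he.symm (mem_erase.mp (hmem (j - 1) (by omega))).1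
    · by_cases hj0 : j = 0
      · rw [if_neg hi0, if_pos hj0] at he
        exact absurd he (mem_erase.mp (hmem (i - 1) (by omega))).1
      · rw [if_neg hi0, if_neg hj0] at he
        have := hinj (i - 1) (j - 1) (by omega) (by omega) he
        omega
  · intro i hi
    by_cases hi0 : i = 0
    · subst hi0
      have e : (0 + 1) % (n + 2) = 1 := Nat.mod_eq_of_lt (by omega)
      rw [e]
      simp [h0, hp]
    · by_cases hin : i = n + 1
      · subst hin
        simp [hn, hq]
      · have e : (i + 1) % (n + 2) = i + 1 := Nat.mod_eq_of_lt (by omega)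
        rw [e]
        simp only [if_neg hi0, Nat.add_eq_zero_iff, one_ne_zero, and_false, if_false]
        have := harc (i - 1) (by omega)
        have e2 : i - 1 + 1 = i := by omega
        rw [e2] at this
        simpa using this
  · intro i hi
    by_cases hi0 : i = 0
    · simp only [if_pos hi0]; exact hv
    · simp only [if_neg hi0]
      exact mem_of_mem_erase (hmem (i - 1) (by omega))

/-- the theorem for digraphs in which no two circuits meet in one vertex -/
theorem share_many [Fintype V] (hirr : ∀ v, ¬ R v v) (c : ℕ) (U T : Finset V) (hTU : T ⊆ U) (hT : T.card ≤ c + 1)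
    (hno : ∀ v, ∀ C1 ⊆ U \ T, ∀ C2 ⊆ U \ T, Circ R C1 → Circ R C2 → v ∈ C1 → v ∈ C2 → (∃ x ∈ C1, x ≠ v) →
      (∃ x ∈ C2, x ≠ v) → ∃ x ∈ C1, x ∈ C2 ∧ x ≠ v)
    (hcol : ¬ Colr R (Fin (c + 2)) U) : Neck R 2 := by
  obtain ⟨g, hg⟩ := exists_g hno
  obtain ⟨f, hf, hC⟩ := exists_invol g hg
  refine match_many hirr hf c U T hTU hT ?_ hcol
  intro S hS hn
  by_contra hcon
  obtain ⟨C, hCS, hcC, hne⟩ := exists_circ_of_not_ac hirr hcon
  obtain ⟨v, hv, hfv, hfne⟩ := hC C (hCS.trans hS) hcC hne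
  exact hfne (hn v (hCS hv) (hCS hfv))

end share

end Pool.Agent.Lib.TriFive.Match
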