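import Mathlib
import Pool.Agent.Lib.NK.Conv

set_option autoImplicit false

/-! Cross-linear pairs of set families without exact rings (theorem of helper71, MP_c62493_co). -/

namespace Pool.Agent.Lib.TriFive.Cross

open Finset
open scoped Classical
open Pool.Agent.Lib

section chains
variable {V : Type*} {P : Finset V → Prop}

/-- an exact chain of `r` members from `a` to `t` with union `S` (`{a}` for `r = 0`) -/
inductive HC (P : Finset V → Prop) : ℕ → V → V → Finset V → Prop
  | nil (a : V) : HC P 0 a a {a}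
  | cons {r : ℕ} {a m t : V} {E S : Finset V} : P E → a ∈ E → m ∈ E → a ≠ m → HC P r m t S →
      (∀ x ∈ E, x ∈ S → x = m) → HC P (r + 1) a t (E ∪ S)

theorem HC.left {r : ℕ} {a t : V} {S : Finset V} (h : HC P r a t S) : a ∈ S := by
  cases h with
  | nil => simp
  | cons _ h1 _ _ _ _ => exact mem_union_left _ h1

theorem HC.right {r : ℕ} {a t : V} {S : Finset V} (h : HC P r a t S) : t ∈ S := by
  induction h with
  | nil => simp
  | cons _ _ _ _ _ _ ih => exact mem_union_right _ ih

theorem HC.snoc {r : ℕ} {a m t : V} {S E : Finset V} (h : HC P r a m S) (hE : P E) (hm : m ∈ E)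
    (ht : t ∈ E) (hmt : m ≠ t) (hd : ∀ x ∈ S, x ∈ E → x = m) : HC P (r + 1) a t (S ∪ E) := by
  induction h with
  | nil a =>
    have h1 : HC P 1 a t (E ∪ {t}) := HC.cons hE hm ht hmt (HC.nil t) (by
      intro x _ hx; simpa using hx)
    have h2 : E ∪ {t} = {a} ∪ E := by
      ext x; simp only [mem_union, mem_singleton]
      constructor
      · rintro (h | rfl)
        · exact Or.inr h
        · exact Or.inr ht
      · rintro (rfl | h)
        · exact Or.inl hm
        · exact Or.inl h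
    rwa [h2] at h1
  | @cons r a n m F S0 hF haF hnF han hch hFS ih =>
    have h1 := ih hm hmt (fun x hx hx' => hd x (mem_union_right _ hx) hx')
    rw [union_assoc]
    refine HC.cons hF haF hnF han h1 ?_
    intro x hx hx'
    rcases mem_union.mp hx' with h | h
    · exact hFS x hx h
    · have h2 : x = m := hd x (mem_union_left _ hx) h
      subst h2
      exact hFS x hx hch.right

theorem HC.symm {r : ℕ} {a t : V} {S : Finset V} (h : HC P r a t S) : HC P r t a S := by
  induction h with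
  | nil a => exact HC.nil a
  | @cons r a n m F S0 hF haF hnF han hch hFS ih =>
    rw [union_comm]
    exact ih.snoc hF hnF haF han.symm (fun x hx hx' => hFS x hx' hx)

/-- an exact ring: a closed exact chain of at least three members -/
def HN (P : Finset V → Prop) : Prop :=
  ∃ r a t S T, 2 ≤ r ∧ HC P r a t S ∧ P T ∧ t ∈ T ∧ a ∈ T ∧ ∀ x ∈ S, x ∈ T → x = a ∨ x = t

/-- exact rings of dicycles are necklaces -/
theorem HN.neck {R : V → V → Prop} (hP : ∀ E, P E → NK.Circ R E) (h : HN P) : NK.Neck R := by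
  obtain ⟨r, a, t, S, T, hr, hch, hT, ht, ha, hd⟩ := h
  have hC : ∀ {r : ℕ} {a t : V} {S : Finset V}, HC P r a t S → NK.Ch R r a t S := by
    intro r a t S h
    induction h with
    | nil a => exact NK.Ch.nil a
    | @cons r a n m F S0 hF haF hnF han hch hFS ih =>
      exact NK.Ch.cons (hP F hF a haF n hnF han) ih hFS
  have h1 := hC hch
  exact ⟨r, a, t, S, T, hr, h1, hP T hT t ht a ha (h1.ne (by omega)).symm, hd⟩

/-- any two vertices of `W` are joined by an exact chain inside `W` -/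
def HE (P : Finset V → Prop) (W : Finset V) : Prop :=
  ∀ u ∈ W, ∀ w ∈ W, u ≠ w → ∃ r S, 1 ≤ r ∧ HC P r u w S ∧ S ⊆ W

theorem HE.union {W M : Finset V} (h : HE P W) (hM : P M) {a : V} (haM : a ∈ M) (haW : a ∈ W)
    (hd : ∀ x ∈ M, x ∈ W → x = a) : HE P (W ∪ M) := by
  have key : ∀ u ∈ M, u ≠ a → ∀ w ∈ W, ∃ r S, 1 ≤ r ∧ HC P r u w S ∧ S ⊆ W ∪ M := by
    intro u hu hua w hw
    by_cases hwa : w = a
    · subst hwa
      refine ⟨1, M ∪ {w}, le_refl _, HC.cons hM hu haM hua (HC.nil w) (by
        intro x _ hx; simpa using hx), ?_⟩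
      intro x hx
      rcases mem_union.mp hx with h1 | h1
      · exact mem_union_right _ h1
      · rw [mem_singleton] at h1; subst h1; exact mem_union_left _ hw
    · obtain ⟨r, S, hr, hch, hS⟩ := h a haW w hw (Ne.symm hwa)
      refine ⟨r + 1, M ∪ S, by omega, HC.cons hM hu haM hua hch (fun x hx hx' => hd x hx (hS hx')), ?_⟩
      exact union_subset subset_union_right (hS.trans subset_union_left)
  intro u hu w hw huw
  by_cases huW : u ∈ W
  · by_cases hwW : w ∈ W
    · obtain ⟨r, S, hr, hch, hS⟩ := h u huW w hwW huw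
      exact ⟨r, S, hr, hch, hS.trans subset_union_left⟩
    · have hwM : w ∈ M := (mem_union.mp hw).resolve_left hwW
      obtain ⟨r, S, hr, hch, hS⟩ := key w hwM (fun h => hwW (h ▸ haW)) u huW
      exact ⟨r, S, hr, hch.symm, hS⟩
  · have huM : u ∈ M := (mem_union.mp hu).resolve_left huW
    by_cases hwW : w ∈ W
    · exact key u huM (fun h => huW (h ▸ haW)) w hwW
    · have hwM : w ∈ M := (mem_union.mp hw).resolve_left hwW
      refine ⟨1, M ∪ {w}, le_refl _, HC.cons hM huM hwM huw (HC.nil w) (by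
        intro x _ hx; simpa using hx), ?_⟩
      intro x hx
      rcases mem_union.mp hx with h1 | h1
      · exact mem_union_right _ h1
      · rw [mem_singleton] at h1; subst h1; exact mem_union_right _ hwM

/-- a member meeting `W` and the new member `M` in two different vertices closes a ring -/
theorem HE.ring {W M N : Finset V} (h : HE P W) (hM : P M) (hN : P N) {a x y : V} (haM : a ∈ M)
    (haW : a ∈ W) (hd : ∀ v ∈ M, v ∈ W → v = a) (hx : x ∈ N) (hxW : x ∈ W) (hxM : x ∉ M)
    (hy : y ∈ N) (hyM : y ∈ M) (hyW : y ∉ W) (h1 : ∀ v ∈ N, v ∈ W → v = x)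
    (h2 : ∀ v ∈ N, v ∈ M → v = y) : HN P := by
  have hxa : x ≠ a := fun h => hxM (h ▸ haM)
  have hya : a ≠ y := fun h => hyW (h ▸ haW)
  obtain ⟨r, S, hr, hch, hS⟩ := h x hxW a haW hxa
  have hc := hch.snoc hM haM hyM hya (fun v hv hv' => hd v hv' (hS hv))
  refine ⟨r + 1, x, y, S ∪ M, N, by omega, hc, hN, hy, hx, ?_⟩
  intro v hv hvN
  rcases mem_union.mp hv with h3 | h3
  · exact Or.inl (h1 v hvN (hS h3))
  · exact Or.inr (h2 v hvN h3)

end chains

section main
variable {V : Type*} {A B : Finset V → Prop}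

/-- thin state: the assigned vertices are `W`, those on the first side are `X` -/
structure Thin (A B : Finset V → Prop) (W X : Finset V) : Prop where
  sub : X ⊆ W
  conn : HE (fun D => A D ∨ B D) W
  thA : ∀ D, A D → (∀ x ∈ D, x ∈ W → x ∈ X) → ∀ x ∈ D, ∀ y ∈ D, x ∈ W → y ∈ W → x = y
  thB : ∀ D, B D → (∀ x ∈ D, x ∈ W → x ∉ X) → ∀ x ∈ D, ∀ y ∈ D, x ∈ W → y ∈ W → x = y

/-- exchange of the two families -/
theorem Thin.swap {W X : Finset V} (h : Thin A B W X) : Thin B A W (W \ X) where
  sub := sdiff_subset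
  conn := by
    have h1 := h.conn
    have h2 : (fun D => A D ∨ B D) = (fun D => B D ∨ A D) := by
      funext D; exact propext Or.comm
    rwa [h2] at h1
  thA := by
    intro D hD hx
    exact h.thB D hD (fun x hxD hxW => (mem_sdiff.mp (hx x hxD hxW)).2)
  thB := by
    intro D hD hx
    refine h.thA D hD (fun x hxD hxW => ?_)
    by_contra hc
    exact hx x hxD hxW (mem_sdiff.mpr ⟨hxW, hc⟩)

/-- growth by a member of the first family whose assigned vertices are on the first side -/
theorem Thin.grow {W X M : Finset V} (h : Thin A B W X) (hcr : ∀ D E, A D → B E → D ≠ E →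
    ∀ x ∈ D, ∀ y ∈ D, x ∈ E → y ∈ E → x = y) (hN : ¬ HN (fun D => A D ∨ B D)) (hM : A M)
    (hMX : ∀ x ∈ M, x ∈ W → x ∈ X) {a : V} (haM : a ∈ M) (haW : a ∈ W) : Thin A B (W ∪ M) X := by
  have hd : ∀ x ∈ M, x ∈ W → x = a := fun x hx hxW => h.thA M hM hMX x hx a haM hxW haW
  refine ⟨h.sub.trans subset_union_left, h.conn.union (Or.inl hM) haM haW hd, ?_, ?_⟩
  · intro D hD hDX x hx y hy hxW hyW
    have key : ∀ z ∈ D, z ∈ W ∪ M → z ∈ W := fun z hz hz' => h.sub (hDX z hz hz')
    exact h.thA D hD (fun z hz hz' => hDX z hz (mem_union_left _ hz')) x hx y hy (key x hx hxW)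
      (key y hy hyW)
  · intro D hD hDX x hx y hy hxW hyW
    have thD : ∀ u ∈ D, ∀ v ∈ D, u ∈ W → v ∈ W → u = v :=
      h.thB D hD (fun z hz hz' => hDX z hz (mem_union_left _ hz'))
    have hMD : M ≠ D := by
      rintro rfl
      exact hDX a haM (mem_union_left _ haW) (hMX a haM haW)
    have crD : ∀ u ∈ D, ∀ v ∈ D, u ∈ M → v ∈ M → u = v :=
      fun u hu v hv hu' hv' => hcr M D hM hD hMD u hu' v hv' hu hv
    by_contra hxy
    have two : ∀ u ∈ D, ∀ v ∈ D, u ≠ v → u ∈ W → v ∈ M → False := by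
      intro u hu v hv huv huW hvM
      have huM : u ∉ M := fun h' => huv (crD u hu v hv h' hvM)
      have hvW : v ∉ W := fun h' => huv (thD u hu v hv huW h')
      exact hN (h.conn.ring (M := M) (N := D) (Or.inl hM) (Or.inr hD) haM haW hd hu huW huM hv hvM hvW
        (fun w hw hwW => thD w hw u hu hwW huW) (fun w hw hwM => crD w hw v hv hwM hvM))
    rcases mem_union.mp hxW with h1 | h1
    · rcases mem_union.mp hyW with h2 | h2
      · exact hxy (thD x hx y hy h1 h2)
      · exact two x hx y hy hxy h1 h2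
    · rcases mem_union.mp hyW with h2 | h2
      · exact two y hy x hx (Ne.symm hxy) h2 h1
      · exact hxy (crD x hx y hy h1 h2)

/-- the members inside `S` that meet `W` are satisfied -/
def Sat (A B : Finset V → Prop) (S W X : Finset V) : Prop :=
  (∀ D ⊆ S, A D → (∃ x ∈ D, x ∈ W) → ∃ x ∈ D, x ∈ W ∧ x ∉ X) ∧
  (∀ D ⊆ S, B D → (∃ x ∈ D, x ∈ W) → ∃ x ∈ D, x ∈ W ∧ x ∈ X)

theorem grow_all (hA : ∀ D, A D → 2 ≤ D.card) (hB : ∀ D, B D → 2 ≤ D.card)
    (hcr : ∀ D E, A D → B E → D ≠ E → ∀ x ∈ D, ∀ y ∈ D, x ∈ E → y ∈ E → x = y)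
    (hN : ¬ HN (fun D => A D ∨ B D)) {S : Finset V} : ∀ (n : ℕ) (W X : Finset V), W ⊆ S →
      (S \ W).card ≤ n → Thin A B W X → ∃ W' X', W ⊆ W' ∧ W' ⊆ S ∧ X' ⊆ W' ∧ Sat A B S W' X' := by
  have hN' : ¬ HN (fun D => B D ∨ A D) := by
    have h2 : (fun D => A D ∨ B D) = (fun D => B D ∨ A D) := by
      funext D; exact propext Or.comm
    rwa [h2] at hN
  have big : ∀ {M W : Finset V} {a : V}, 2 ≤ M.card → (∀ x ∈ M, x ∈ W → x = a) →
      ∃ x ∈ M, x ∉ W := by
    intro M W a hM hx
    by_contra hc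
    push Not at hc
    have : M ⊆ {a} := fun x hxM => mem_singleton.mpr (hx x hxM (hc x hxM))
    have := card_le_card this
    simp only [card_singleton] at this
    omega
  have less : ∀ {M W : Finset V} {n : ℕ}, M ⊆ S → (∃ x ∈ M, x ∉ W) → (S \ W).card ≤ n + 1 →
      (S \ (W ∪ M)).card ≤ n := by
    intro M W n hMS ⟨x, hx, hxW⟩ hc
    have : S \ (W ∪ M) ⊂ S \ W := by
      rw [Finset.ssubset_iff_of_subset (sdiff_subset_sdiff (Subset.refl _) subset_union_left)]
      exact ⟨x, mem_sdiff.mpr ⟨hMS hx, hxW⟩, fun h => (mem_sdiff.mp h).2 (mem_union_right _ hx)⟩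
    have := card_lt_card this
    omega
  intro n
  induction n with
  | zero =>
    intro W X hW hc hT
    have hSW : S ⊆ W := by
      rw [← sdiff_eq_empty_iff_subset, ← card_eq_zero]; omega
    have : ∀ D ⊆ S, 2 ≤ D.card → ∃ x ∈ D, ∃ y ∈ D, x ≠ y := by
      intro D _ h2
      obtain ⟨x, hx, y, hy, hxy⟩ := one_lt_card.mp (show 1 < D.card by omega)
      exact ⟨x, hx, y, hy, hxy⟩
    refine ⟨W, X, Subset.refl _, hW, hT.sub, ?_, ?_⟩
    · intro D hD hDA _
      obtain ⟨x, hx, y, hy, hxy⟩ := this D hD (hA D hDA)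
      by_contra hc
      push Not at hc
      exact hxy (hT.thA D hDA (fun z hz hzW => hc z hz hzW) x hx y hy (hSW (hD hx)) (hSW (hD hy)))
    · intro D hD hDB _
      obtain ⟨x, hx, y, hy, hxy⟩ := this D hD (hB D hDB)
      by_contra hc
      push Not at hc
      exact hxy (hT.thB D hDB (fun z hz hzW => hc z hz hzW) x hx y hy (hSW (hD hx)) (hSW (hD hy)))
  | succ n ih =>
    intro W X hW hc hT
    by_cases h1 : ∃ M ⊆ S, A M ∧ (∃ a ∈ M, a ∈ W) ∧ ∀ x ∈ M, x ∈ W → x ∈ X
    · obtain ⟨M, hMS, hM, ⟨a, haM, haW⟩, hMX⟩ := h1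
      have hT' := hT.grow hcr hN hM hMX haM haW
      have hd : ∀ x ∈ M, x ∈ W → x = a := fun x hx hxW => hT.thA M hM hMX x hx a haM hxW haW
      obtain ⟨W', X', g1, g2, g3, g4⟩ := ih (W ∪ M) X (union_subset hW hMS)
        (less hMS (big (hA M hM) hd) hc) hT'
      exact ⟨W', X', subset_union_left.trans g1, g2, g3, g4⟩
    by_cases h2 : ∃ M ⊆ S, B M ∧ (∃ a ∈ M, a ∈ W) ∧ ∀ x ∈ M, x ∈ W → x ∉ X
    · obtain ⟨M, hMS, hM, ⟨a, haM, haW⟩, hMX⟩ := h2
      have hTs := hT.swap
      have hMX' : ∀ x ∈ M, x ∈ W → x ∈ W \ X := fun x hx hxW => mem_sdiff.mpr ⟨hxW, hMX x hx hxW⟩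
      have hT' := (hTs.grow (fun D E hD hE hne x hx y hy hx' hy' => hcr E D hE hD hne.symm x hx' y hy' hx hy)
        hN' hM hMX' haM haW).swap
      have hd : ∀ x ∈ M, x ∈ W → x = a := fun x hx hxW => hT.thB M hM hMX x hx a haM hxW haW
      obtain ⟨W', X', g1, g2, g3, g4⟩ := ih (W ∪ M) _ (union_subset hW hMS)
        (less hMS (big (hB M hM) hd) hc) hT'
      exact ⟨W', X', subset_union_left.trans g1, g2, g3, g4⟩
    refine ⟨W, X, Subset.refl _, hW, hT.sub, ?_, ?_⟩
    · intro D hD hDA hm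
      by_contra hc
      push Not at hc
      exact h1 ⟨D, hD, hDA, hm, hc⟩
    · intro D hD hDB hm
      by_contra hc
      push Not at hc
      exact h2 ⟨D, hD, hDB, hm, hc⟩

/-- **CROSS-LINEAR theorem** (helper71): two families of finite sets with at least two elements, a
member of the first and a different member of the second meeting in at most one vertex, without exact rings
of members of the two families; then the vertices can be divided into two parts, the first
containing no member of the first family and the second no member of the second family. -/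
theorem cross_linear (hA : ∀ D, A D → 2 ≤ D.card) (hB : ∀ D, B D → 2 ≤ D.card)
    (hcr : ∀ D E, A D → B E → D ≠ E → ∀ x ∈ D, ∀ y ∈ D, x ∈ E → y ∈ E → x = y)
    (hN : ¬ HN (fun D => A D ∨ B D)) : ∀ (n : ℕ) (S : Finset V), S.card ≤ n →
      ∃ X ⊆ S, (∀ D ⊆ S, A D → ¬ D ⊆ X) ∧ (∀ D ⊆ S, B D → ¬ D ⊆ S \ X) := by
  have ne : ∀ {D : Finset V}, 2 ≤ D.card → D.Nonempty := by
    intro D h; exact card_pos.mp (by omega)
  intro n
  induction n with
  | zero =>
    intro S hS
    have hS' : S = ∅ := card_eq_zero.mp (by omega)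
    subst hS'
    refine ⟨∅, Subset.refl _, ?_, ?_⟩
    · intro D hD hDA _
      obtain ⟨x, hx⟩ := ne (hA D hDA)
      exact absurd (hD hx) (by simp)
    · intro D hD hDB _
      obtain ⟨x, hx⟩ := ne (hB D hDB)
      exact absurd (hD hx) (by simp)
  | succ n ih =>
    intro S hS
    rcases S.eq_empty_or_nonempty with hS' | ⟨v, hv⟩
    · exact ih S (by rw [hS']; simp)
    have h0 : Thin A B {v} {v} := by
      refine ⟨Subset.refl _, ?_, ?_, ?_⟩
      · intro u hu w hw huw
        rw [mem_singleton] at hu hw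
        exact absurd (hu.trans hw.symm) huw
      · intro D _ _ x _ y _ hx hy
        rw [mem_singleton] at hx hy
        exact hx.trans hy.symm
      · intro D _ _ x _ y _ hx hy
        rw [mem_singleton] at hx hy
        exact hx.trans hy.symm
    obtain ⟨W, X, g1, g2, g3, g4, g5⟩ := grow_all hA hB hcr hN (S := S) _ {v} {v} (by simpa using hv)
      (le_refl _) h0
    have hvW : v ∈ W := g1 (mem_singleton_self v)
    obtain ⟨X2, hX2, k1, k2⟩ := ih (S \ W) (by
      have : S \ W ⊂ S := by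
        rw [Finset.ssubset_iff_of_subset sdiff_subset]
        exact ⟨v, hv, fun h => (mem_sdiff.mp h).2 hvW⟩
      have := card_lt_card this
      omega)
    refine ⟨X ∪ X2, union_subset (g3.trans g2) (hX2.trans sdiff_subset), ?_, ?_⟩
    · intro D hD hDA hDX
      by_cases hm : ∃ x ∈ D, x ∈ W
      · obtain ⟨x, hx, hxW, hxX⟩ := g4 D hD hDA hm
        rcases mem_union.mp (hDX hx) with h | h
        · exact hxX h
        · exact (mem_sdiff.mp (hX2 h)).2 hxW
      · push Not at hm
        refine k1 D (fun x hx => mem_sdiff.mpr ⟨hD hx, hm x hx⟩) hDA ?_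
        intro x hx
        rcases mem_union.mp (hDX hx) with h | h
        · exact absurd (g3 h) (hm x hx)
        · exact h
    · intro D hD hDB hDX
      by_cases hm : ∃ x ∈ D, x ∈ W
      · obtain ⟨x, hx, hxW, hxX⟩ := g5 D hD hDB hm
        exact (mem_sdiff.mp (hDX hx)).2 (mem_union_left _ hxX)
      · push Not at hm
        refine k2 D (fun x hx => mem_sdiff.mpr ⟨hD hx, hm x hx⟩) hDB ?_
        intro x hx
        have h := mem_sdiff.mp (hDX hx)
        exact mem_sdiff.mpr ⟨mem_sdiff.mpr ⟨h.1, hm x hx⟩, fun h' => h.2 (mem_union_right _ h')⟩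

end main

end Pool.Agent.Lib.TriFive.Cross
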