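import Pool.Agent.Lib.TriFive.Main

/-!
# Digraphs in which, after the removal of at most one vertex, feedback arcs and feedback vertices are equally many

`T` has at most one vertex, `H` is its complement, `B` is a set of pairs such that `H` minus the pairs of `B` is acyclic and
no set smaller than `B` meets all circuits in `H`. If the digraph cannot be coloured with two colours, then it contains three
circuits, any two of which meet in one vertex, these three vertices being different (`Neck R 2`).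
-/

set_option autoImplicit false

namespace Pool.Agent.Lib.TriFive

open Finset
open scoped Classical

section feedback
variable {V : Type*} {R : V → V → Prop}

/-- the relation without the pairs of `B` -/
def Rm (R : V → V → Prop) (B : Finset (V × V)) (u v : V) : Prop := R u v ∧ (u, v) ∉ B

theorem Rc.rmono {R R' : V → V → Prop} {S : Finset V} {u v : V} (h : Rc R S u v)
    (hR : ∀ x ∈ S, ∀ y ∈ S, R x y → R' x y) : Rc R' S u v := by
  refine Rc.induct (p := fun v => Rc R' S u v) ?_ ?_ h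
  · intro hu; exact Rc.rfl' hu
  · intro a b hua ih hab hb
    exact ih.tail (hR a hua.right b hb hab) hb

theorem Ac.rmono {R R' : V → V → Prop} {S : Finset V} (h : Ac R S)
    (hR : ∀ x ∈ S, ∀ y ∈ S, R' x y → R x y) : Ac R' S := by
  intro u v huv hu hr
  exact h u v (hR u hu v hr.left huv) hu (hr.rmono hR)

/-- a walk in which the pair `a` may be used -/
theorem Rc.use {R R' : V → V → Prop} {W : Finset V} {p q u v : V} (h : Rc R W u v)
    (hR : ∀ x ∈ W, ∀ y ∈ W, R x y → R' x y ∨ (x = p ∧ y = q)) :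
    Rc R' W u v ∨ (Rc R' W u p ∧ Rc R' W q v) := by
  refine Rc.induct (p := fun v => Rc R' W u v ∨ (Rc R' W u p ∧ Rc R' W q v)) ?_ ?_ h
  · intro hu; exact Or.inl (Rc.rfl' hu)
  · intro x y hux ih hxy hy
    rcases hR x hux.right y hy hxy with h1 | ⟨rfl, rfl⟩
    · rcases ih with ih | ⟨i1, i2⟩
      · exact Or.inl (ih.tail h1 hy)
      · exact Or.inr ⟨i1, i2.tail h1 hy⟩
    · rcases ih with ih | ⟨i1, i2⟩
      · exact Or.inr ⟨ih, Rc.rfl' hy⟩
      · exact Or.inr ⟨i1, Rc.rfl' hy⟩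

/-- the end of a pair chosen by `σ` -/
def nd (σ : V × V → Bool) (b : V × V) : V := if σ b then b.1 else b.2

/-- the chosen ends of `K` -/
noncomputable def nds (σ : V × V → Bool) (K : Finset (V × V)) : Finset V := K.image (nd σ)

theorem mem_nds {σ : V × V → Bool} {K : Finset (V × V)} {x : V} : x ∈ nds σ K ↔ ∃ b ∈ K, nd σ b = x := by
  simp [nds]

/-- the pairs of `B` form a matching -/
structure Mat (B : Finset (V × V)) : Prop where
  ne : ∀ b ∈ B, b.1 ≠ b.2
  dj : ∀ b ∈ B, ∀ c ∈ B, ∀ x, (x = b.1 ∨ x = b.2) → (x = c.1 ∨ x = c.2) → b = c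

theorem nd_or (σ : V × V → Bool) (b : V × V) : nd σ b = b.1 ∨ nd σ b = b.2 := by
  unfold nd; split_ifs <;> simp

/-- two circuits through `t` in the choices which meet in `t` only and contain different ends of a pair -/
theorem clash {B : Finset (V × V)} (hM : Mat B) (t : V) (P : Finset V → Prop) : ∀ (n : ℕ) (K : Finset (V × V)), K.card ≤ n →
    K ⊆ B → (∀ σ, ∃ D ⊆ insert t (nds σ K), (∃ x ∈ D, x ≠ t) ∧ P D) →
    ∃ σ τ D E, D ⊆ insert t (nds σ B) ∧ E ⊆ insert t (nds τ B) ∧ P D ∧ P E ∧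
      (∀ x ∈ D, x ∈ E → x = t) ∧ ∃ b ∈ B, (b.1 ∈ D ∧ b.2 ∈ E) ∨ (b.2 ∈ D ∧ b.1 ∈ E) := by
  intro n
  induction n with
  | zero =>
    intro K hK _ h
    obtain ⟨D, hD, ⟨x, hx, hxt⟩, _⟩ := h (fun _ => true)
    have : K = ∅ := card_eq_zero.mp (by omega)
    subst this
    have := hD hx
    simp [nds, hxt] at this
  | succ n ih =>
    intro K hK hKB h
    obtain ⟨D, hD, ⟨x, hx, hxt⟩, hPD⟩ := h (fun _ => true)
    -- the pairs whose first end is in `D`
    set L := K.filter (fun b => b.1 ∈ D) with hL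
    have hxL : ∃ b ∈ L, b.1 = x := by
      rcases mem_insert.mp (hD hx) with h1 | h1
      · exact absurd h1 hxt
      · obtain ⟨b, hb, hbx⟩ := mem_nds.mp h1
        simp only [nd, if_true] at hbx
        exact ⟨b, mem_filter.mpr ⟨hb, hbx ▸ hx⟩, hbx⟩
    obtain ⟨b0, hb0, _⟩ := hxL
    have hlt : (K \ L).card < K.card := by
      apply card_lt_card
      rw [ssubset_iff_of_subset sdiff_subset]
      exact ⟨b0, (mem_filter.mp hb0).1, fun h1 => (mem_sdiff.mp h1).2 hb0⟩
    by_cases hq : ∀ σ, ∃ D ⊆ insert t (nds σ (K \ L)), (∃ x ∈ D, x ≠ t) ∧ P D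
    · exact ih (K \ L) (by omega) (sdiff_subset.trans hKB) hq
    push Not at hq
    obtain ⟨τ, hτ⟩ := hq
    -- flip on `L`
    set ρ : V × V → Bool := fun b => if b ∈ L then false else τ b with hρ
    obtain ⟨E, hE, hne, hPE⟩ := h ρ
    have hEn : ¬ E ⊆ insert t (nds τ (K \ L)) := fun h1 => by
      obtain ⟨y, hy, hyt⟩ := hne
      exact hτ E h1 ⟨y, hy, hyt⟩ hPE
    rw [not_subset] at hEn
    obtain ⟨y, hy, hyn⟩ := hEn
    have hyt : y ≠ t := fun h1 => hyn (h1 ▸ mem_insert_self _ _)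
    obtain ⟨b, hb, hby⟩ := mem_nds.mp ((mem_insert.mp (hE hy)).resolve_left hyt)
    have hbL : b ∈ L := by
      by_contra hc
      apply hyn
      refine mem_insert_of_mem (mem_nds.mpr ⟨b, mem_sdiff.mpr ⟨hb, hc⟩, ?_⟩)
      rw [← hby]
      unfold nd
      simp only [hρ, if_neg hc]
    have hby2 : b.2 = y := by
      rw [← hby]; unfold nd; simp [hρ, hbL]
    have mono : ∀ σ, insert t (nds σ K) ⊆ insert t (nds σ B) := by
      intro σ
      exact insert_subset_insert _ (image_subset_image hKB)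
    refine ⟨fun _ => true, ρ, D, E, hD.trans (mono _), hE.trans (mono _), hPD, hPE, ?_,
      b, hKB hb, Or.inl ⟨(mem_filter.mp hbL).2, hby2 ▸ hy⟩⟩
    intro z hzD hzE
    by_contra hzt
    obtain ⟨c, hc, hcz⟩ := mem_nds.mp ((mem_insert.mp (hD hzD)).resolve_left hzt)
    obtain ⟨d, hd, hdz⟩ := mem_nds.mp ((mem_insert.mp (hE hzE)).resolve_left hzt)
    have hcz1 : c.1 = z := by simpa [nd] using hcz
    have hcL : c ∈ L := mem_filter.mpr ⟨hc, hcz1 ▸ hzD⟩
    have hcd : c = d := hM.dj c (hKB hc) d (hKB hd) z (Or.inl hcz1.symm) (by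
      rcases nd_or ρ d with h1 | h1
      · exact Or.inl (by rw [← h1, hdz])
      · exact Or.inr (by rw [← h1, hdz]))
    subst hcd
    have : c.2 = z := by rw [← hdz]; unfold nd; simp [hρ, hcL]
    exact hM.ne c (hKB hc) (hcz1.trans this.symm)

/-- a choice contains at most one end of a pair -/
theorem nds_one {B : Finset (V × V)} (hM : Mat B) {σ : V × V → Bool} {b : V × V} (hb : b ∈ B)
    (h1 : b.1 ∈ nds σ B) (h2 : b.2 ∈ nds σ B) : False := by
  obtain ⟨c, hc, hc1⟩ := mem_nds.mp h1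
  obtain ⟨d, hd, hd1⟩ := mem_nds.mp h2
  have e1 : b = c := hM.dj b hb c hc b.1 (Or.inl rfl) (by
    rcases nd_or σ c with h | h
    · exact Or.inl (by rw [← h, hc1])
    · exact Or.inr (by rw [← h, hc1]))
  have e2 : b = d := hM.dj b hb d hd b.2 (Or.inr rfl) (by
    rcases nd_or σ d with h | h
    · exact Or.inl (by rw [← h, hd1])
    · exact Or.inr (by rw [← h, hd1]))
  subst e1; subst e2
  exact hM.ne b hb (hc1.symm.trans hd1)

theorem neck_of_clash {B : Finset (V × V)} (hM : Mat B) {H : Finset V} {t : V} (ht : t ∉ H) (hA : Ac (Rm R B) H)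
    (hB : ∀ X : Finset V, Ac R (H \ X) → B.card ≤ X.card) (hBH : ∀ b ∈ B, b.1 ∈ H ∧ b.2 ∈ H)
    {σ τ : V × V → Bool} {D E : Finset V} (hD : D ⊆ insert t (nds σ B)) (hE : E ⊆ insert t (nds τ B))
    (hcD : Circ R D) (hcE : Circ R E) (htD : t ∈ D) (htE : t ∈ E)
    (hDE : ∀ x ∈ D, x ∈ E → x = t) (hI : ∃ b ∈ B, (b.1 ∈ D ∧ b.2 ∈ E) ∨ (b.2 ∈ D ∧ b.1 ∈ E)) :
    Neck R 2 := by
  -- the clashing pairs
  set I := B.filter (fun b => (b.1 ∈ D ∧ b.2 ∈ E) ∨ (b.2 ∈ D ∧ b.1 ∈ E)) with hIdef
  have hIne : I.Nonempty := by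
    obtain ⟨b, hb, h⟩ := hI
    exact ⟨b, mem_filter.mpr ⟨hb, h⟩⟩
  obtain ⟨a, haI, hmin⟩ := exists_min_image I (fun b => (H.filter (fun y => Rc (Rm R B) H y b.1)).card) hIne
  have haB : a ∈ B := (mem_filter.mp haI).1
  have hat : ∀ b ∈ B, b.1 ≠ t ∧ b.2 ≠ t := fun b hb =>
    ⟨fun h => ht (h ▸ (hBH b hb).1), fun h => ht (h ▸ (hBH b hb).2)⟩
  have oneD : ∀ b ∈ B, b.1 ∈ D → b.2 ∈ D → False := fun b hb h1 h2 =>
    nds_one hM hb ((mem_insert.mp (hD h1)).resolve_left (hat b hb).1) ((mem_insert.mp (hD h2)).resolve_left (hat b hb).2)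
  have oneE : ∀ b ∈ B, b.1 ∈ E → b.2 ∈ E → False := fun b hb h1 h2 =>
    nds_one hM hb ((mem_insert.mp (hE h1)).resolve_left (hat b hb).1) ((mem_insert.mp (hE h2)).resolve_left (hat b hb).2)
  -- the set which does not meet all circuits
  set S := (B.erase a).image (fun j => if j ∈ I then j.2 else if j.1 ∈ D ∪ E then j.1 else j.2) with hS
  have hScard : S.card < B.card := by
    refine lt_of_le_of_lt card_image_le ?_
    rw [card_erase_of_mem haB]
    have := card_pos.mpr ⟨a, haB⟩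
    omega
  have hSmem : ∀ j ∈ B, j ≠ a → j.1 ∈ S ∨ j.2 ∈ S := by
    intro j hj hja
    have h1 : (if j ∈ I then j.2 else if j.1 ∈ D ∪ E then j.1 else j.2) ∈ S :=
      mem_image_of_mem _ (mem_erase.mpr ⟨hja, hj⟩)
    split_ifs at h1
    · exact Or.inr h1
    · exact Or.inl h1
    · exact Or.inr h1
  have hnac : ¬ Ac R (H \ S) := fun h => by
    have := hB S h
    omega
  have hstep : ∀ x ∈ H \ S, ∀ y ∈ H \ S, R x y → Rm R B x y ∨ (x = a.1 ∧ y = a.2) := by
    intro x hx y hy hxy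
    by_cases hc : (x, y) ∈ B
    · right
      by_contra hne
      have : (x, y) ≠ a := by
        intro h; exact hne ⟨by rw [← h], by rw [← h]⟩
      rcases hSmem (x, y) hc this with h1 | h1
      · exact (mem_sdiff.mp hx).2 h1
      · exact (mem_sdiff.mp hy).2 h1
    · exact Or.inl ⟨hxy, hc⟩
  have hA' : Ac (Rm R B) (H \ S) := hA.mono sdiff_subset
  have hpath : R a.1 a.2 ∧ Rc (Rm R B) (H \ S) a.2 a.1 := by
    unfold Ac at hnac
    push Not at hnac
    obtain ⟨u, v, huv, hu, hr⟩ := hnac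
    have hRa : R a.1 a.2 := by
      by_contra hRa
      have hstep' : ∀ x ∈ H \ S, ∀ y ∈ H \ S, R x y → Rm R B x y := by
        intro x hx y hy hxy
        rcases hstep x hx y hy hxy with h1 | ⟨rfl, rfl⟩
        · exact h1
        · exact absurd hxy hRa
      exact hA' u v (hstep' u hu v hr.left huv) hu (hr.rmono hstep')
    refine ⟨hRa, ?_⟩
    rcases hr.use hstep with h1 | ⟨h1, h2⟩
    · rcases hstep u hu v hr.left huv with h3 | ⟨rfl, rfl⟩
      · exact absurd h1 (hA' u v h3 hu)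
      · exact h1
    · rcases hstep u hu v hr.left huv with h3 | ⟨rfl, rfl⟩
      · exact (h2.tail h3 hr.left).trans h1
      · exact h1
  obtain ⟨hRa, hrc⟩ := hpath
  obtain ⟨W, hW, hPW⟩ := hrc.toPS
  have ha12 : a.1 ≠ a.2 := hM.ne a haB
  have hWmeet : ∀ x ∈ W, x ∈ D ∪ E → x = a.1 ∨ x = a.2 := by
    intro x hxW hx
    have hxH : x ∈ H := (mem_sdiff.mp (hW hxW)).1
    have hxS : x ∉ S := (mem_sdiff.mp (hW hxW)).2
    have hxt : x ≠ t := fun h => ht (h ▸ hxH)
    obtain ⟨j, hj, hjx⟩ : ∃ j ∈ B, x = j.1 ∨ x = j.2 := by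
      rcases mem_union.mp hx with hx | hx
      · obtain ⟨j, hj, hjx⟩ := mem_nds.mp ((mem_insert.mp (hD hx)).resolve_left hxt)
        exact ⟨j, hj, by rcases nd_or σ j with h | h <;> [left; right] <;> rw [← hjx, h]⟩
      · obtain ⟨j, hj, hjx⟩ := mem_nds.mp ((mem_insert.mp (hE hx)).resolve_left hxt)
        exact ⟨j, hj, by rcases nd_or τ j with h | h <;> [left; right] <;> rw [← hjx, h]⟩
    by_cases hja : j = a
    · subst hja; exact hjx
    exfalso
    have h1 : (if j ∈ I then j.2 else if j.1 ∈ D ∪ E then j.1 else j.2) ∈ S :=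
      mem_image_of_mem _ (mem_erase.mpr ⟨hja, hj⟩)
    by_cases hjI : j ∈ I
    · rw [if_pos hjI] at h1
      rcases hjx with rfl | rfl
      · -- `j.1` is a predecessor of `a.1`
        have h2 : Rc (Rm R B) H j.1 a.1 := ((hPW.2.2 _ hxW).2).mono (hW.trans sdiff_subset)
        have h3 := hmin j hjI
        have h4 : H.filter (fun y => Rc (Rm R B) H y j.1) ⊆ H.filter (fun y => Rc (Rm R B) H y a.1) := by
          intro y hy
          rw [mem_filter] at hy ⊢
          exact ⟨hy.1, hy.2.trans h2⟩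
        have h5 := eq_of_subset_of_card_le h4 h3
        have h6 : a.1 ∈ H.filter (fun y => Rc (Rm R B) H y a.1) :=
          mem_filter.mpr ⟨(hBH a haB).1, Rc.rfl' (hBH a haB).1⟩
        rw [← h5, mem_filter] at h6
        have h7 : j.1 = a.1 := hA.eq h2 h6.2 (Subset.refl _) (Subset.refl _)
        exact hja (hM.dj j hj a haB j.1 (Or.inl rfl) (Or.inl h7))
      · exact hxS h1
    · rw [if_neg hjI] at h1
      rcases hjx with rfl | rfl
      · rw [if_pos hx] at h1
        exact hxS h1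
      · by_cases hj1 : j.1 ∈ D ∪ E
        · apply hjI
          rw [hIdef, mem_filter]
          refine ⟨hj, ?_⟩
          rcases mem_union.mp hj1 with h5 | h5 <;> rcases mem_union.mp hx with h6 | h6
          · exact absurd h6 (fun h6 => oneD j hj h5 h6)
          · exact Or.inl ⟨h5, h6⟩
          · exact Or.inr ⟨h6, h5⟩
          · exact absurd h6 (fun h6 => oneE j hj h5 h6)
        · rw [if_neg hj1] at h1
          exact hxS h1
  have hlinkW : Link R (W ∪ {a.1, a.2}) a.2 a.1 := by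
    refine ⟨ha12.symm, W, {a.1, a.2}, hPW.rc.rmono (fun _ _ _ _ h => h.1),
      Rc.step hRa (by simp) (by simp), ?_, subset_union_left, subset_union_right⟩
    intro x _ hx
    simp only [mem_insert, mem_singleton] at hx
    exact hx.symm
  have hfin : ∀ D' E' : Finset V, D' ⊆ D ∪ E → E' ⊆ D ∪ E → (∀ x ∈ D', x ∈ E' → x = t) → Circ R D' → Circ R E' →
      t ∈ D' → t ∈ E' → a.1 ∈ D' → a.2 ∈ E' → Neck R 2 := by
    intro D' E' hD' hE' hDE' hcD' hcE' htD' htE' ha1 ha2
    refine ⟨a.1, a.2, D' ∪ (E' ∪ {a.2}), W ∪ {a.1, a.2}, ?_, hlinkW, ?_⟩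
    · refine Ch.cons (hcD' a.1 ha1 t htD' (hat a haB).1) (Ch.cons (hcE' t htE' a.2 ha2 (hat a haB).2.symm) (Ch.nil a.2) ?_) ?_
      · intro x _ hx; simpa using hx
      · intro x hx hx'
        rcases mem_union.mp hx' with h | h
        · exact hDE' x hx h
        · rw [mem_singleton] at h; subst h; exact hDE' _ hx ha2
    · intro x hx hx'
      have hx2 : x ∈ D ∪ E := by
        rcases mem_union.mp hx with h | h
        · exact hD' h
        rcases mem_union.mp h with h | h
        · exact hE' h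
        · rw [mem_singleton] at h; subst h; exact hE' ha2
      rcases mem_union.mp hx' with h | h
      · exact hWmeet x h hx2
      · simp only [mem_insert, mem_singleton] at h; exact h
  rcases (mem_filter.mp haI).2 with ⟨h1, h2⟩ | ⟨h1, h2⟩
  · exact hfin D E subset_union_left subset_union_right hDE hcD hcE htD htE h1 h2
  · exact hfin E D subset_union_right subset_union_left (fun x hx hx' => hDE x hx' hx) hcE hcD htE htD h2 h1

/-- a set meeting all pairs of `B` which are arcs in `H` has at least `|B|` elements -/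
theorem card_le_of_hit {B : Finset (V × V)} {H : Finset V} (hA : Ac (Rm R B) H)
    (hB : ∀ X : Finset V, Ac R (H \ X) → B.card ≤ X.card) (X : Finset V)
    (hX : ∀ b ∈ B, R b.1 b.2 → b.1 ∈ H → b.2 ∈ H → b.1 ∈ X ∨ b.2 ∈ X) : B.card ≤ X.card := by
  apply hB
  refine (hA.mono sdiff_subset).rmono ?_
  intro x hx y hy hxy
  refine ⟨hxy, fun hc => ?_⟩
  rw [mem_sdiff] at hx hy
  rcases hX (x, y) hc hxy hx.1 hy.1 with h | h
  · exact hx.2 h
  · exact hy.2 h

theorem mat_of_min {B : Finset (V × V)} {H : Finset V} (hirr : ∀ v, ¬ R v v) (hA : Ac (Rm R B) H)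
    (hB : ∀ X : Finset V, Ac R (H \ X) → B.card ≤ X.card) :
    Mat B ∧ ∀ b ∈ B, R b.1 b.2 ∧ b.1 ∈ H ∧ b.2 ∈ H := by
  have harc : ∀ b ∈ B, R b.1 b.2 ∧ b.1 ∈ H ∧ b.2 ∈ H := by
    intro b hb
    by_contra hc
    have h1 := card_le_of_hit hA hB ((B.erase b).image Prod.fst) (by
      intro c hcB hR h1 h2
      left
      refine mem_image_of_mem _ (mem_erase.mpr ⟨?_, hcB⟩)
      rintro rfl
      exact hc ⟨hR, h1, h2⟩)
    have h2 := card_image_le (s := B.erase b) (f := Prod.fst)
    rw [card_erase_of_mem hb] at h2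
    have := card_pos.mpr ⟨b, hb⟩
    omega
  refine ⟨⟨fun b hb h => hirr b.1 (by have := (harc b hb).1; rwa [← h] at this), ?_⟩, harc⟩
  intro b hb c hc x hxb hxc
  by_contra hne
  have h1 := card_le_of_hit hA hB (insert x (((B.erase b).erase c).image Prod.fst)) (by
    intro d hd _ _ _
    by_cases hdb : d = b
    · subst hdb
      rcases hxb with rfl | rfl
      · left; exact mem_insert_self _ _
      · right; exact mem_insert_self _ _
    by_cases hdc : d = c
    · subst hdc
      rcases hxc with rfl | rfl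
      · left; exact mem_insert_self _ _
      · right; exact mem_insert_self _ _
    left
    exact mem_insert_of_mem (mem_image_of_mem _ (mem_erase.mpr ⟨hdc, mem_erase.mpr ⟨hdb, hd⟩⟩)))
  have h2 := card_insert_le x (((B.erase b).erase c).image Prod.fst)
  have h3 := card_image_le (s := (B.erase b).erase c) (f := Prod.fst)
  rw [card_erase_of_mem (mem_erase.mpr ⟨fun h => hne h.symm, hc⟩), card_erase_of_mem hb] at h3
  have h4 : 2 ≤ B.card := by
    have : ({b, c} : Finset (V × V)) ⊆ B := by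
      intro d hd
      simp only [mem_insert, mem_singleton] at hd
      rcases hd with rfl | rfl <;> assumption
    have h5 := card_le_card this
    rwa [card_pair hne] at h5
  omega

/-- a set without pairs of `B` is acyclic -/
theorem ac_of_free {B : Finset (V × V)} {H S : Finset V} (hA : Ac (Rm R B) H) (hS : S ⊆ H)
    (h : ∀ b ∈ B, b.1 ∈ S → b.2 ∈ S → False) : Ac R S := by
  refine (hA.mono hS).rmono ?_
  intro x hx y hy hxy
  exact ⟨hxy, fun hc => h (x, y) hc hx hy⟩

/-- a set which is not acyclic and becomes acyclic without `t` contains a circuit through `t` -/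
theorem circ_of_not_ac (hirr : ∀ v, ¬ R v v) {C : Finset V} {t : V} (h : ¬ Ac R C) (h' : Ac R (C.erase t)) :
    ∃ D ⊆ C, t ∈ D ∧ (∃ x ∈ D, x ≠ t) ∧ Circ R D := by
  unfold Ac at h
  push Not at h
  obtain ⟨u, v, huv, hu, hr⟩ := h
  rcases hr.cut t with h1 | ⟨h1, h2⟩
  · by_cases hut : u = t
    · subst hut
      exact absurd rfl (mem_erase.mp h1.right).1
    · exact absurd h1 (h' u v huv (mem_erase.mpr ⟨hut, hu⟩))
  · have key : ∃ w, w ≠ t ∧ Rc R C t w ∧ Rc R C w t := by
      by_cases hut : u = t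
      · subst hut
        refine ⟨v, fun h => hirr u (by rw [h] at huv; exact huv), ?_, h1⟩
        exact Rc.step huv hu h1.left
      · exact ⟨u, hut, h2, Rc.head huv hu h1⟩
    obtain ⟨w, hwt, h3, h4⟩ := key
    obtain ⟨g, hg, htg, hwg, hcg⟩ := exists_circ h' hwt h3 h4
    exact ⟨g, hg, htg, ⟨w, hwg, hwt⟩, hcg⟩

/-- a set all nonempty subsets of which have sinks is acyclic -/
theorem ac_of_sinks {H : Finset V} (h : ∀ S ⊆ H, S.Nonempty → ∃ u ∈ S, ∀ v ∈ S, ¬ R u v) : Ac R H := by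
  intro u v huv hu hr
  obtain ⟨x, hx, hxs⟩ := h (H.filter (fun x => Rc R H v x ∧ Rc R H x u)) (filter_subset _ _)
    ⟨v, mem_filter.mpr ⟨hr.left, Rc.rfl' hr.left, hr⟩⟩
  rw [mem_filter] at hx
  rcases hx.2.2.cases_head with rfl | ⟨w, hw, hwu⟩
  · exact hxs v (mem_filter.mpr ⟨hr.left, Rc.rfl' hr.left, hr⟩) huv
  · exact hxs w (mem_filter.mpr ⟨hwu.left, hx.2.1.tail hw hwu.left, hwu⟩) hw

/-- the theorem -/
theorem feedback_neck [Fintype V] (hirr : ∀ v, ¬ R v v) {T : Finset V} (hT : T.card ≤ 1) {B : Finset (V × V)}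
    (hA : Ac (Rm R B) (univ \ T)) (hB : ∀ X : Finset V, Ac R ((univ \ T) \ X) → B.card ≤ X.card)
    (hcol : ∀ S : Finset V, Ac R S → ¬ Ac R (univ \ S)) : Neck R 2 := by
  obtain ⟨hM, harc⟩ := mat_of_min hirr hA hB
  have hnds : ∀ σ, nds σ B ⊆ univ \ T := by
    intro σ x hx
    obtain ⟨b, hb, hbx⟩ := mem_nds.mp hx
    rcases nd_or σ b with h | h
    · rw [← hbx, h]; exact (harc b hb).2.1
    · rw [← hbx, h]; exact (harc b hb).2.2
  -- the complement of a choice contains at most one end of a pair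
  have hco : ∀ σ, ∀ b ∈ B, b.1 ∈ (univ \ T) \ nds σ B → b.2 ∈ (univ \ T) \ nds σ B → False := by
    intro σ b hb h1 h2
    have h3 : nd σ b ∈ nds σ B := mem_nds.mpr ⟨b, hb, rfl⟩
    rcases nd_or σ b with h | h
    · rw [h] at h3; exact (mem_sdiff.mp h1).2 h3
    · rw [h] at h3; exact (mem_sdiff.mp h2).2 h3
  have hch : ∀ σ, Ac R (nds σ B) := fun σ => ac_of_free hA (hnds σ) (fun b hb h1 h2 => nds_one hM hb h1 h2)
  have hco' : ∀ σ, Ac R ((univ \ T) \ nds σ B) := fun σ => ac_of_free hA sdiff_subset (hco σ)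
  rcases T.eq_empty_or_nonempty with rfl | ⟨t, ht⟩
  · have h1 := hco' (fun _ => true)
    rw [sdiff_empty] at h1
    exact absurd h1 (hcol _ (hch _))
  have hTt : T = {t} := by
    have := card_eq_one.mp (le_antisymm hT (card_pos.mpr ⟨t, ht⟩))
    obtain ⟨t', ht'⟩ := this
    rw [ht', mem_singleton] at ht
    rw [ht', ht]
  subst hTt
  have htn : ∀ σ, t ∉ nds σ B := fun σ h => by
    have := hnds σ h
    simp at this
  have hQ : ∀ σ, ∃ D ⊆ insert t (nds σ B), (∃ x ∈ D, x ≠ t) ∧ (t ∈ D ∧ Circ R D) := by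
    intro σ
    have h1 : ¬ Ac R (insert t (nds σ B)) := by
      intro h
      apply hcol _ h
      have : univ \ insert t (nds σ B) = (univ \ {t}) \ nds σ B := by
        ext x; simp [not_or]
      rw [this]
      exact hco' σ
    have h2 : Ac R ((insert t (nds σ B)).erase t) := by
      rw [erase_insert (htn σ)]
      exact hch σ
    obtain ⟨D, hD, h3, h4, h5⟩ := circ_of_not_ac hirr h1 h2
    exact ⟨D, hD, h4, h3, h5⟩
  obtain ⟨σ, τ, D, E, hD, hE, hPD, hPE, hDE, hI⟩ :=
    clash hM t (fun D => t ∈ D ∧ Circ R D) B.card B le_rfl (Subset.refl _) hQ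
  exact neck_of_clash hM (by simp) hA hB (fun b hb => (harc b hb).2) hD hE hPD.2 hPE.2 hPD.1 hPE.1 hDE hI

end feedback

end Pool.Agent.Lib.TriFive
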