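import Mathlib
import Pool.Agent.Lib.NK.Conv
import Pool.Agent.Lib.NK.Reduce2

set_option autoImplicit false

/-! Contraction of an arc in a digraph without rings (lemma GR of helper68, MP_c62493_co). -/

namespace Pool.Agent.Lib.TriFive.Gr

open Finset
open scoped Classical
open Pool.Agent.Lib.NK

section contract
variable {V : Type*} {R R' : V → V → Prop}

/-- the digraph `R / ab`: the vertex `b` is merged into `a`, loops are deleted -/
def Cn (R : V → V → Prop) (a b : V) : V → V → Prop := fun p q =>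
  p ≠ b ∧ q ≠ b ∧ p ≠ q ∧ (R p q ∨ (q = a ∧ R p b) ∨ (p = a ∧ R b q))

/-- assembly of a ring with joint `a` -/
theorem asm {a b m t xE yE xT yT : V} {E1 E2 T1 T2 S0 : Finset V} {r : ℕ} (hr : 1 ≤ r)
    (hch : Ch R r m t S0)
    (e1 : Rc R E1 yE m) (e2 : Rc R E2 m xE) (t1 : Rc R T1 t xT) (t2 : Rc R T2 yT t)
    (hxE : R xE a) (hxT : R xT a) (hyT : R a yT) (hyE : R a yE ∨ (R a b ∧ R b yE))
    (ha : a ∉ E1 ∧ a ∉ E2 ∧ a ∉ T1 ∧ a ∉ T2 ∧ a ∉ S0)
    (hb : b ∉ E1 ∧ b ∉ E2 ∧ b ∉ T1 ∧ b ∉ T2 ∧ b ∉ S0) (hab : a ≠ b)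
    (hE : ∀ x ∈ E1, x ∈ E2 → x = m) (hT : ∀ x ∈ T1, x ∈ T2 → x = t)
    (hES : ∀ x, x ∈ E1 ∨ x ∈ E2 → x ∈ S0 → x = m) (hTS : ∀ x, x ∈ T1 ∨ x ∈ T2 → x ∈ S0 → x = t)
    (hET : ∀ x, x ∈ E1 ∨ x ∈ E2 → ¬ (x ∈ T1 ∨ x ∈ T2)) : Neck R := by
  obtain ⟨ha1, ha2, ha3, ha4, ha5⟩ := ha
  obtain ⟨hb1, hb2, hb3, hb4, hb5⟩ := hb
  have hma : a ≠ m := fun h => ha5 (h ▸ hch.left)
  have hta : t ≠ a := fun h => ha5 (h ▸ hch.right)
  have l1 : Rc R (insert a (insert b E1)) a m := by
    have e1' : Rc R (insert a (insert b E1)) yE m :=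
      e1.mono ((subset_insert _ _).trans (subset_insert _ _))
    rcases hyE with h | ⟨h, h'⟩
    · exact Rc.head h (mem_insert_self _ _) e1'
    · exact Rc.head h (mem_insert_self _ _) (Rc.head h' (by simp) e1')
  have l2 : Rc R (insert a E2) m a := (e2.mono (subset_insert _ _)).tail hxE (mem_insert_self _ _)
  have k1 : Rc R (insert a T1) t a := (t1.mono (subset_insert _ _)).tail hxT (mem_insert_self _ _)
  have k2 : Rc R (insert a T2) a t :=
    Rc.head hyT (mem_insert_self _ _) (t2.mono (subset_insert _ _))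
  have hL : Link R (insert a (insert b E1) ∪ insert a E2) a m := by
    refine ⟨hma, _, _, l1, l2, ?_, subset_union_left, subset_union_right⟩
    intro x hx hx'
    simp only [mem_insert] at hx hx'
    rcases hx' with h | h
    · exact Or.inl h
    rcases hx with h1 | h1 | h1
    · exact Or.inl h1
    · subst h1; exact absurd h hb2
    · exact Or.inr (hE x h1 h)
  have hK : Link R (insert a T1 ∪ insert a T2) t a := by
    refine ⟨hta, _, _, k1, k2, ?_, subset_union_left, subset_union_right⟩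
    intro x hx hx'
    simp only [mem_insert] at hx hx'
    rcases hx' with h | h
    · exact Or.inr h
    rcases hx with h1 | h1
    · exact Or.inr h1
    · exact Or.inl (hT x h1 h)
  refine ⟨r + 1, a, t, _, _, by omega, Ch.cons hL hch ?_, hK, ?_⟩
  · intro x hx hx'
    simp only [mem_union, mem_insert] at hx
    rcases hx with (h | h | h) | (h | h)
    · subst h; exact absurd hx' ha5
    · subst h; exact absurd hx' hb5
    · exact hES x (Or.inl h) hx'
    · subst h; exact absurd hx' ha5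
    · exact hES x (Or.inr h) hx'
  · intro x hx hx'
    simp only [mem_union, mem_insert] at hx hx'
    by_cases hxa : x = a
    · exact Or.inl hxa
    have hx2 : x ∈ T1 ∨ x ∈ T2 := by
      rcases hx' with (h | h) | (h | h)
      · exact absurd h hxa
      · exact Or.inl h
      · exact absurd h hxa
      · exact Or.inr h
    have hxb : x ≠ b := by
      rintro rfl
      rcases hx2 with h | h
      · exact hb3 h
      · exact hb4 h
    rcases hx with ((h | h | h) | (h | h)) | h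
    · exact absurd h hxa
    · exact absurd h hxb
    · exact absurd hx2 (hET x (Or.inl h))
    · exact absurd h hxa
    · exact absurd hx2 (hET x (Or.inr h))
    · exact Or.inr (hTS x hx2 h)

/-- all three ways of lifting the joint -/
theorem asm_all {a b m t xE yE xT yT : V} {E1 E2 T1 T2 S0 : Finset V} {r : ℕ} (hr : 1 ≤ r)
    (hch : Ch R r m t S0)
    (e1 : Rc R E1 yE m) (e2 : Rc R E2 m xE) (t1 : Rc R T1 t xT) (t2 : Rc R T2 yT t)
    (ha : a ∉ E1 ∧ a ∉ E2 ∧ a ∉ T1 ∧ a ∉ T2 ∧ a ∉ S0)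
    (hb : b ∉ E1 ∧ b ∉ E2 ∧ b ∉ T1 ∧ b ∉ T2 ∧ b ∉ S0) (hab : a ≠ b) (hR : R a b)
    (hE : ∀ x ∈ E1, x ∈ E2 → x = m) (hT : ∀ x ∈ T1, x ∈ T2 → x = t)
    (hES : ∀ x, x ∈ E1 ∨ x ∈ E2 → x ∈ S0 → x = m) (hTS : ∀ x, x ∈ T1 ∨ x ∈ T2 → x ∈ S0 → x = t)
    (hET : ∀ x, x ∈ E1 ∨ x ∈ E2 → ¬ (x ∈ T1 ∨ x ∈ T2))
    (h : (R xE a ∧ R xT a ∧ (R a yE ∨ R b yE) ∧ (R a yT ∨ R b yT) ∧ (R a yE ∨ R a yT)) ∨
      (R b yE ∧ R b yT ∧ (R xE a ∨ R xE b) ∧ (R xT a ∨ R xT b) ∧ (R xE b ∨ R xT b))) : Neck R := by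
  have key : ∀ {Q : V → V → Prop} {a b m t xE yE xT yT : V} {E1 E2 T1 T2 S0 : Finset V} {r : ℕ},
      1 ≤ r → Ch Q r m t S0 → Rc Q E1 yE m → Rc Q E2 m xE → Rc Q T1 t xT → Rc Q T2 yT t →
      (a ∉ E1 ∧ a ∉ E2 ∧ a ∉ T1 ∧ a ∉ T2 ∧ a ∉ S0) →
      (b ∉ E1 ∧ b ∉ E2 ∧ b ∉ T1 ∧ b ∉ T2 ∧ b ∉ S0) → a ≠ b → Q a b →
      (∀ x ∈ E1, x ∈ E2 → x = m) → (∀ x ∈ T1, x ∈ T2 → x = t) →
      (∀ x, x ∈ E1 ∨ x ∈ E2 → x ∈ S0 → x = m) → (∀ x, x ∈ T1 ∨ x ∈ T2 → x ∈ S0 → x = t) →
      (∀ x, x ∈ E1 ∨ x ∈ E2 → ¬ (x ∈ T1 ∨ x ∈ T2)) →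
      Q xE a → Q xT a → (Q a yE ∨ Q b yE) → (Q a yT ∨ Q b yT) → (Q a yE ∨ Q a yT) → Neck Q := by
    intro Q a b m t xE yE xT yT E1 E2 T1 T2 S0 r hr hch e1 e2 t1 t2 ha hb hab hR hE hT hES hTS hET
      hxE hxT hyE hyT hor
    by_cases hyT' : Q a yT
    · exact asm hr hch e1 e2 t1 t2 hxE hxT hyT' (hyE.imp id (fun h => ⟨hR, h⟩)) ha hb hab hE hT hES
        hTS hET
    · have hyE' : Q a yE := hor.resolve_right hyT'
      obtain ⟨ha1, ha2, ha3, ha4, ha5⟩ := ha
      obtain ⟨hb1, hb2, hb3, hb4, hb5⟩ := hb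
      exact asm (E1 := T2) (E2 := T1) (T1 := E2) (T2 := E1) hr hch.symm t2 t1 e2 e1 hxT hxE hyE'
        (hyT.imp id (fun h => ⟨hR, h⟩)) ⟨ha4, ha3, ha2, ha1, ha5⟩ ⟨hb4, hb3, hb2, hb1, hb5⟩ hab
        (fun x h1 h2 => hT x h2 h1) (fun x h1 h2 => hE x h2 h1)
        (fun x h1 h2 => hTS x h1.symm h2) (fun x h1 h2 => hES x h1.symm h2)
        (fun x h1 h2 => hET x h2.symm h1.symm)
  rcases h with ⟨h1, h2, h3, h4, h5⟩ | ⟨h1, h2, h3, h4, h5⟩
  · exact key hr hch e1 e2 t1 t2 ha hb hab hR hE hT hES hTS hET h1 h2 h3 h4 h5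
  · obtain ⟨ha1, ha2, ha3, ha4, ha5⟩ := ha
    obtain ⟨hb1, hb2, hb3, hb4, hb5⟩ := hb
    have := key (Q := Rv R) (a := b) (b := a) (E1 := E2) (E2 := E1) (T1 := T2) (T2 := T1) (S0 := S0)
      (m := m) (t := t) (xE := yE) (yE := xE) (xT := yT) (yT := xT) hr hch.rv e2.rv e1.rv t2.rv t1.rv
      ⟨hb2, hb1, hb4, hb3, hb5⟩ ⟨ha2, ha1, ha4, ha3, ha5⟩ hab.symm hR
      (fun x h1 h2 => hE x h2 h1) (fun x h1 h2 => hT x h2 h1)
      (fun x h1 h2 => hES x h1.symm h2) (fun x h1 h2 => hTS x h1.symm h2)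
      (fun x h1 h2 => hET x h1.symm h2.symm) h1 h2 h3.symm h4.symm h5
    exact this.rv

theorem cn_avoid {a b : V} {X : Finset V} {p q : V} (h : Rc (Cn R a b) X p q) (hz : a ∉ X) :
    Rc R X p q := by
  refine h.change (Subset.refl _) ?_
  intro p hp q hq hpq
  rcases hpq.2.2.2 with h1 | ⟨h1, _⟩ | ⟨h1, _⟩
  · exact h1
  · exact absurd (h1 ▸ hq) hz
  · exact absurd (h1 ▸ hp) hz

theorem cn_in {a b x : V} (h : Cn R a b x a) : R x a ∨ R x b := by
  rcases h.2.2.2 with h1 | ⟨_, h1⟩ | ⟨h1, _⟩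
  · exact Or.inl h1
  · exact Or.inr h1
  · exact absurd h1 h.2.2.1

theorem cn_out {a b y : V} (h : Cn R a b a y) : R a y ∨ R b y := by
  rcases h.2.2.2 with h1 | ⟨h1, _⟩ | ⟨_, h1⟩
  · exact Or.inl h1
  · exact absurd h1.symm h.2.2.1
  · exact Or.inr h1

/-- one pass through the contracted vertex lifts if it is not of the type `x > b`, `a > y` only -/
theorem cn_pass {a b x y : V} {X : Finset V} (hR : R a b) (hx : R x a ∨ R x b) (hy : R a y ∨ R b y)
    (hbad : R x a ∨ R b y) (hxX : x ∈ X) (ha : a ∈ X) (hb : b ∈ X) (hyX : y ∈ X) : Rc R X x y := by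
  rcases hx with hx | hx
  · rcases hy with hy | hy
    · exact Rc.head hx hxX (Rc.step hy ha hyX)
    · exact Rc.head hx hxX (Rc.head hR ha (Rc.step hy hb hyX))
  · rcases hbad with h | h
    · rcases hy with hy | hy
      · exact Rc.head h hxX (Rc.step hy ha hyX)
      · exact Rc.head h hxX (Rc.head hR ha (Rc.step hy hb hyX))
    · exact Rc.head hx hxX (Rc.step h hb hyX)

/-- **GR** (helper68): contraction of the arc `a > b` keeps the digraph free of rings. -/
theorem gr_neck {a b : V} (hne : a ≠ b) (hR : R a b)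
    (h1 : (∀ x, x ≠ a → R x b → R x a) ∨ (∀ y, y ≠ b → R a y → R b y))
    (h2 : (∀ x x', x ≠ b → x' ≠ b → x ≠ x' → R x a → R x' a → R x b ∨ R x' b) ∨
      (∀ y y', y ≠ a → y' ≠ a → y ≠ y' → R b y → R b y' → R a y ∨ R a y'))
    (h : Neck (Cn R a b)) : Neck R := by
  have hbad : ∀ x y, Cn R a b x a → Cn R a b a y → R x a ∨ R b y := by
    intro x y hx hy
    rcases h1 with h1 | h1
    · rcases cn_in hx with h | h
      · exact Or.inl h
      · exact Or.inl (h1 x hx.2.2.1 h)
    · rcases cn_out hy with h | h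
      · exact Or.inr (h1 y hy.2.1 h)
      · exact Or.inr h
  -- restrict to the vertices different from `b`
  obtain ⟨r0, a0, t0, S0', T0', hr0, hc0, hl0, hd0⟩ := h
  obtain ⟨U, hU⟩ : ∃ U : Finset V, U = (S0' ∪ T0').erase b := ⟨_, rfl⟩
  -- arcs of the restricted relation
  obtain ⟨Q, hQ⟩ : ∃ Q : V → V → Prop, Q = Rin (Cn R a b) (S0' ∪ T0') := ⟨_, rfl⟩
  have hQarc : ∀ p q, Q p q → p ∈ U ∧ q ∈ U := by
    intro p q hpq
    rw [hQ] at hpq
    rw [hU]
    exact ⟨mem_erase.mpr ⟨hpq.1.1, hpq.2.1⟩, mem_erase.mpr ⟨hpq.1.2.1, hpq.2.2⟩⟩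
  have hNQ : Neck Q := by
    refine ⟨r0, a0, t0, S0', T0', hr0, hc0.change ?_, hl0.change ?_, hd0⟩
    · intro p hp q hq hpq
      rw [hQ]
      exact ⟨hpq, mem_union_left _ hp, mem_union_left _ hq⟩
    · intro p hp q hq hpq
      rw [hQ]
      exact ⟨hpq, mem_union_right _ hp, mem_union_right _ hq⟩
  have hQC : ∀ p q, Q p q → Cn R a b p q := by
    intro p q hpq; rw [hQ] at hpq; exact hpq.1
  have hbU : b ∉ U := by rw [hU]; simp
  obtain ⟨a1, t1, S, T, hring, hSU, hTU⟩ := hNQ.ringDom hQarc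
  have avoid : ∀ {X : Finset V} {p q : V}, Rc Q X p q → a ∉ X → Rc R X p q := by
    intro X p q hpq hX
    exact cn_avoid (hpq.monoR hQC) hX
  have avoidL : ∀ {X : Finset V} {p q : V}, Link Q X p q → a ∉ X → Link R X p q := by
    intro X p q hpq hX
    refine hpq.change ?_
    intro u hu v hv huv
    rcases (hQC _ _ huv).2.2.2 with h1 | ⟨h1, _⟩ | ⟨h1, _⟩
    · exact h1
    · exact absurd (h1 ▸ hv) hX
    · exact absurd (h1 ▸ hu) hX
  have avoidC : ∀ {X : Finset V} {p q : V} {r : ℕ}, Ch Q r p q X → a ∉ X → Ch R r p q X := by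
    intro X p q r hpq hX
    refine hpq.change ?_
    intro u hu v hv huv
    rcases (hQC _ _ huv).2.2.2 with h1 | ⟨h1, _⟩ | ⟨h1, _⟩
    · exact h1
    · exact absurd (h1 ▸ hv) hX
    · exact absurd (h1 ▸ hu) hX
  by_cases hz : a ∈ S ∪ T
  swap
  · rw [mem_union, not_or] at hz
    obtain ⟨r, g1, g2, g3, g4⟩ := hring
    exact ⟨r, a1, t1, S, T, g1, avoidC g2 hz.1, avoidL g3 hz.2, g4⟩
  obtain ⟨a2, t2, S', T', hr', hz', hU'⟩ := hring.at hz
  have hSub : S' ∪ T' ⊆ U := by rw [hU']; exact union_subset hSU hTU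
  have hS' : S' ⊆ U := subset_union_left.trans hSub
  have hT' : T' ⊆ U := subset_union_right.trans hSub
  by_cases hzS : a ∈ S'
  · -- the contracted vertex is a joint
    have joint : ∀ {t : V} {S T : Finset V}, Ring Q a t S T → S ⊆ U → T ⊆ U → Neck R := by
      intro t S T hRg hSD hTD
      obtain ⟨r, hr, hch, hT, hST⟩ := hRg
      obtain ⟨r, rfl⟩ : ∃ s, r = s + 1 := ⟨r - 1, by omega⟩
      cases hch with
      | @cons _ _ m _ E S0 hE hch0 hES =>
      have hmt : m ≠ t := hch0.ne (by omega)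
      have hzm : a ≠ m := hE.ne
      have hzS0 : a ∉ S0 := fun hz => hzm (hES a hE.left hz)
      have htE : t ∉ E := fun ht => hmt (hES t ht hch0.right).symm
      obtain ⟨hz0, E1, E2, e1, e2, e3, e4, e5⟩ := hE
      obtain ⟨ht0, T1, T2, s1, s2, s3, s4, s5⟩ := hT
      obtain ⟨xE, hxE, q1⟩ := e2.inn hz0.symm
      obtain ⟨yE, hyE, q2⟩ := e1.out hz0.symm
      obtain ⟨xT, hxT, q3⟩ := s1.inn ht0
      obtain ⟨yT, hyT, q4⟩ := s2.out ht0
      have p1 : Rc R (E2.erase a) m xE := avoid q1 (by simp)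
      have p2 : Rc R (E1.erase a) yE m := avoid q2 (by simp)
      have p3 : Rc R (T1.erase a) t xT := avoid q3 (by simp)
      have p4 : Rc R (T2.erase a) yT t := avoid q4 (by simp)
      have hET : ∀ x ∈ E, x ∈ T → x = a := by
        intro x hx hx'
        rcases hST x (mem_union_left _ hx) hx' with h1 | h1
        · exact h1
        · exact absurd (h1 ▸ hx) htE
      have hS0T : ∀ x ∈ S0, x ∈ T → x = t := by
        intro x hx hx'
        rcases hST x (mem_union_right _ hx) hx' with h1 | h1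
        · exact absurd (h1 ▸ hx) hzS0
        · exact h1
      have hbE : b ∉ E := fun h => hbU (hSD (mem_union_left _ h))
      have hbS0 : b ∉ S0 := fun h => hbU (hSD (mem_union_right _ h))
      have hbT : b ∉ T := fun h => hbU (hTD h)
      have hcb : ∀ {X Y : Finset V}, X ⊆ Y → b ∉ Y → b ∉ X.erase a := by
        intro X Y hXY hY hX
        exact hY (hXY (mem_erase.mp hX).2)
      have cxE := hQC _ _ hxE
      have cyE := hQC _ _ hyE
      have cxT := hQC _ _ hxT
      have cyT := hQC _ _ hyT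
      have hxne : xE ≠ xT := by
        intro he
        have h3 : xE ∈ E := e5 (mem_erase.mp q1.right).2
        have h4 : xE ∈ T := he ▸ s4 (mem_erase.mp q3.right).2
        exact (mem_erase.mp q1.right).1 (hET xE h3 h4)
      have hyne : yE ≠ yT := by
        intro he
        have h3 : yE ∈ E := e4 (mem_erase.mp q2.left).2
        have h4 : yE ∈ T := he ▸ s5 (mem_erase.mp q4.left).2
        exact (mem_erase.mp q2.left).1 (hET yE h3 h4)
      refine asm_all (a := a) (b := b) (m := m) (t := t) (xE := xE) (yE := yE) (xT := xT) (yT := yT)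
        (E1 := E1.erase a) (E2 := E2.erase a) (T1 := T1.erase a) (T2 := T2.erase a) (S0 := S0)
        (r := r) (by omega) (avoidC hch0 hzS0) p2 p1 p3 p4
        ⟨by simp, by simp, by simp, by simp, hzS0⟩
        ⟨hcb e4 hbE, hcb e5 hbE, hcb s4 hbT, hcb s5 hbT, hbS0⟩ hne hR ?_ ?_ ?_ ?_ ?_ ?_
      · intro x hx hx'
        rcases e3 x (mem_erase.mp hx).2 (mem_erase.mp hx').2 with h | h
        · exact absurd h (mem_erase.mp hx).1
        · exact h
      · intro x hx hx'
        rcases s3 x (mem_erase.mp hx).2 (mem_erase.mp hx').2 with h | h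
        · exact h
        · exact absurd h (mem_erase.mp hx).1
      · intro x hx hx'
        refine hES x ?_ hx'
        rcases hx with h | h
        · exact e4 (mem_erase.mp h).2
        · exact e5 (mem_erase.mp h).2
      · intro x hx hx'
        refine hS0T x hx' ?_
        rcases hx with h | h
        · exact s4 (mem_erase.mp h).2
        · exact s5 (mem_erase.mp h).2
      · intro x hx hx'
        have h3 : x ∈ E := by
          rcases hx with h | h
          · exact e4 (mem_erase.mp h).2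
          · exact e5 (mem_erase.mp h).2
        have h4 : x ∈ T := by
          rcases hx' with h | h
          · exact s4 (mem_erase.mp h).2
          · exact s5 (mem_erase.mp h).2
        have h5 : x ≠ a := by
          rcases hx with h | h
          · exact (mem_erase.mp h).1
          · exact (mem_erase.mp h).1
        exact h5 (hET x h3 h4)
      · have iE := cn_in cxE
        have iT := cn_in cxT
        have oE := cn_out cyE
        have oT := cn_out cyT
        rcases h1 with h1 | h1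
        · have jE : R xE a := iE.elim id (h1 xE cxE.2.2.1)
          have jT : R xT a := iT.elim id (h1 xT cxT.2.2.1)
          by_cases k1 : R a yE ∨ R a yT
          · exact Or.inl ⟨jE, jT, oE, oT, k1⟩
          · rw [not_or] at k1
            have lE : R b yE := oE.resolve_left k1.1
            have lT : R b yT := oT.resolve_left k1.2
            rcases h2 with h2 | h2
            · exact Or.inr ⟨lE, lT, iE, iT, h2 xE xT cxE.1 cxT.1 hxne jE jT⟩
            · rcases h2 yE yT cyE.2.2.1.symm cyT.2.2.1.symm hyne lE lT with h | h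
              · exact absurd h k1.1
              · exact absurd h k1.2
        · have jE : R b yE := oE.elim (h1 yE cyE.2.1) id
          have jT : R b yT := oT.elim (h1 yT cyT.2.1) id
          by_cases k1 : R xE b ∨ R xT b
          · exact Or.inr ⟨jE, jT, iE, iT, k1⟩
          · rw [not_or] at k1
            have lE : R xE a := iE.resolve_right k1.1
            have lT : R xT a := iT.resolve_right k1.2
            rcases h2 with h2 | h2
            · rcases h2 xE xT cxE.1 cxT.1 hxne lE lT with h | h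
              · exact absurd h k1.1
              · exact absurd h k1.2
            · exact Or.inl ⟨lE, lT, oE, oT, h2 yE yT cyE.2.2.1.symm cyT.2.2.1.symm hyne jE jT⟩
    obtain ⟨r, g1, g2, g3, g4⟩ := hr'
    rcases g4 a hzS hz' with h5 | h5
    · subst h5
      exact joint ⟨r, g1, g2, g3, g4⟩ hS' hT'
    · subst h5
      exact joint (Ring.symm ⟨r, g1, g2, g3, g4⟩) hS' hT'
  · -- the contracted vertex is inside a member
    obtain ⟨r, g1, g2, g3, g4⟩ := hr'
    have hbS : b ∉ S' := fun h => hbU (hS' h)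
    have hbT : b ∉ T' := fun h => hbU (hT' h)
    have inner : ∀ {T1 T2 T : Finset V} {t c : V}, t ≠ c → Rc Q T1 t c → Rc Q T2 c t →
        (∀ x ∈ T1, x ∈ T2 → x = t ∨ x = c) → T1 ⊆ T → T2 ⊆ T → b ∉ T → a ∉ T2 → t ≠ a → c ≠ a →
        Link R (insert b T) t c := by
      intro T1 T2 T t c htc k1 k2 k3 k4 k5 hbT haT2 hta hca
      have l2 : Rc R T2 c t := avoid k2 haT2
      have l1 : Rc R (insert b T1) t c := by
        rcases k1.cut a with h | ⟨h, h'⟩
        · exact (avoid h (by simp)).mono ((erase_subset _ _).trans (subset_insert _ _))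
        · obtain ⟨x, hx, q1⟩ := h.inn hta
          obtain ⟨y, hy, q2⟩ := h'.out hca
          have p1 : Rc R (T1.erase a) t x := avoid q1 (by simp)
          have p2 : Rc R (T1.erase a) y c := avoid q2 (by simp)
          have hsub : T1.erase a ⊆ insert b T1 := (erase_subset _ _).trans (subset_insert _ _)
          have cx := hQC _ _ hx
          have cy := hQC _ _ hy
          exact (p1.mono hsub).trans ((cn_pass hR (cn_in cx) (cn_out cy) (hbad x y cx cy)
            (hsub p1.right) (mem_insert_of_mem h.right) (mem_insert_self _ _) (hsub p2.left)).trans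
            (p2.mono hsub))
      refine ⟨htc, insert b T1, T2, l1, l2, ?_, insert_subset_insert _ k4,
        k5.trans (subset_insert _ _)⟩
      intro x hx hx'
      rcases mem_insert.mp hx with h | h
      · subst h; exact absurd (k5 hx') hbT
      · exact k3 x h hx'
    have haS : t2 ≠ a ∧ a2 ≠ a := ⟨fun h => hzS (h ▸ g2.right), fun h => hzS (h ▸ g2.left)⟩
    obtain ⟨k0, T1, T2, k1, k2, k3, k4, k5⟩ := g3
    have hnew : Link R (insert b T') t2 a2 := by
      by_cases haT2 : a ∈ T2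
      · have haT1 : a ∉ T1 := by
          intro haT1
          rcases k3 a haT1 haT2 with h | h
          · exact haS.1 h.symm
          · exact haS.2 h.symm
        exact (inner k0.symm k2 k1 (fun x hx hx' => (k3 x hx' hx).symm) k5 k4 hbT haT1 haS.2
          haS.1).symm
      · exact inner k0 k1 k2 k3 k4 k5 hbT haT2 haS.1 haS.2
    refine ⟨r, a2, t2, S', insert b T', g1, avoidC g2 hzS, hnew, ?_⟩
    intro x hx hx'
    rcases mem_insert.mp hx' with h | h
    · subst h; exact absurd hx hbS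
    · exact g4 x hx h

/-- a colouring of the contracted digraph colours the digraph (if the arc is not in a digon) -/
theorem gr_colr {α : Type} {a b : V} {S : Finset V} (hne : a ≠ b) (hirr : ∀ v, ¬ R v v)
    (hdig : ¬ R b a) (ha : a ∈ S) (h : Colr (Cn R a b) α (S.erase b)) : Colr R α S := by
  obtain ⟨c, hc⟩ := h
  obtain ⟨f, hf⟩ : ∃ f : V → V, f = fun v => if v = b then a else v := ⟨_, rfl⟩
  have fb : f b = a := by rw [hf]; simp
  have fo : ∀ v, v ≠ b → f v = v := by intro v hv; rw [hf]; simp [hv]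
  have fne : ∀ v, f v ≠ b := by
    intro v
    by_cases hv : v = b
    · rw [hv, fb]; exact hne
    · rw [fo v hv]; exact hv
  refine ⟨fun v => c (f v), ?_⟩
  intro F hF hm
  have hF' : F.image f ⊆ S.erase b := by
    intro x hx
    obtain ⟨v, hv, rfl⟩ := mem_image.mp hx
    refine mem_erase.mpr ⟨fne v, ?_⟩
    by_cases hvb : v = b
    · rw [hvb, fb]; exact ha
    · rw [fo v hvb]; exact hF hv
  have hac : Ac (Cn R a b) (F.image f) := by
    refine hc _ hF' ?_
    intro x hx y hy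
    obtain ⟨v, hv, rfl⟩ := mem_image.mp hx
    obtain ⟨w, hw, rfl⟩ := mem_image.mp hy
    exact hm v hv w hw
  have arc : ∀ u v, R u v → f u = f v ∨ Cn R a b (f u) (f v) := by
    intro u v huv
    by_cases he : f u = f v
    · exact Or.inl he
    right
    refine ⟨fne u, fne v, he, ?_⟩
    by_cases hub : u = b
    · by_cases hvb : v = b
      · exact absurd (by rw [hub, hvb]) he
      · rw [hub, fb, fo v hvb]
        exact Or.inr (Or.inr ⟨rfl, hub ▸ huv⟩)
    · by_cases hvb : v = b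
      · rw [hvb, fb, fo u hub]
        exact Or.inr (Or.inl ⟨rfl, hvb ▸ huv⟩)
      · rw [fo u hub, fo v hvb]; exact Or.inl huv
  have walk : ∀ {u v : V}, Rc R F u v → Rc (Cn R a b) (F.image f) (f u) (f v) := by
    intro u v huv
    refine Rc.induct (p := fun v => Rc (Cn R a b) (F.image f) (f u) (f v)) ?_ ?_ huv
    · intro hu; exact Rc.rfl' (mem_image_of_mem _ hu)
    · intro p q _ ih hpq hq
      rcases arc p q hpq with h | h
      · rw [← h]; exact ih
      · exact ih.tail h (mem_image_of_mem _ hq)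
  have main : ∀ u v, R u v → u ∈ F → Rc R F v u → ¬ (u = a ∧ v = b) → False := by
    intro u v huv hu hvu hab
    rcases arc u v huv with h | h
    · -- u = v or {u, v} = {a, b}
      by_cases hub : u = b
      · by_cases hvb : v = b
        · exact hirr b (by rw [hub, hvb] at huv; exact huv)
        · rw [hub, fb, fo v hvb] at h
          exact hdig (by rw [hub, ← h] at huv; exact huv)
      · by_cases hvb : v = b
        · rw [hvb, fb, fo u hub] at h
          exact hab ⟨h, hvb⟩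
        · rw [fo u hub, fo v hvb] at h
          exact hirr v (h ▸ huv)
    · exact hac _ _ h (mem_image_of_mem _ hu) (walk hvu)
  intro u v huv hu hvu
  by_cases hab : u = a ∧ v = b
  · obtain ⟨rfl, rfl⟩ := hab
    obtain ⟨w, hw, hwu⟩ := hvu.out hne
    have hwv : w ≠ v := (mem_erase.mp hwu.left).1
    refine main v w hw hvu.left (((hwu.mono (erase_subset _ _))).tail huv hvu.left) ?_
    rintro ⟨h, _⟩
    exact hne h.symm
  · exact main u v huv hu hvu hab

/-- the reduction step: a vertex-minimal digraph without rings and without `α`-colouring has no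
arc `a > b` outside digons with the two properties of GR -/
theorem gr_step {α : Type} {a b : V} {S : Finset V} (ha : a ∈ S) (hb : b ∈ S) (hne : a ≠ b)
    (hirr : ∀ v, ¬ R v v) (hR : R a b) (hdig : ¬ R b a)
    (h1 : (∀ x ∈ S, x ≠ a → R x b → R x a) ∨ (∀ y ∈ S, y ≠ b → R a y → R b y))
    (h2 : (∀ x ∈ S, ∀ x' ∈ S, x ≠ x' → R x a → R x' a → R x b ∨ R x' b) ∨
      (∀ y ∈ S, ∀ y' ∈ S, y ≠ y' → R b y → R b y' → R a y ∨ R a y'))
    (hN : ¬ Neck (Rin R S))
    (ih : ∀ (R' : V → V → Prop) (S' : Finset V), S'.card < S.card → (∀ v, ¬ R' v v) →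
      ¬ Neck (Rin R' S') → Colr R' α S') : Colr R α S := by
  have h := gr_colr (R := Rin R S) (S := S) (a := a) (b := b) hne (fun v h => hirr v h.1)
    (fun h => hdig h.1) ha (ih (Cn (Rin R S) a b) (S.erase b) (card_erase_lt_of_mem hb)
      (fun v h => h.2.2.1 rfl) ?_)
  · obtain ⟨c, hc⟩ := h
    refine ⟨c, fun F hF hm => ?_⟩
    have h3 := hc F hF hm
    intro u w huw hu hr
    exact h3 u w ⟨huw, hF hu, hF hr.left⟩ hu (hr.rin hF)
  · intro h
    refine hN (gr_neck hne ⟨hR, ha, hb⟩ ?_ ?_ (h.monoR (fun p q hpq => hpq.1)))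
    · rcases h1 with h1 | h1
      · exact Or.inl (fun x hxa hx => ⟨h1 x hx.2.1 hxa hx.1, hx.2.1, ha⟩)
      · exact Or.inr (fun y hyb hy => ⟨h1 y hy.2.2 hyb hy.1, hb, hy.2.2⟩)
    · rcases h2 with h2 | h2
      · left
        intro x x' _ _ hxx hx hx'
        rcases h2 x hx.2.1 x' hx'.2.1 hxx hx.1 hx'.1 with h | h
        · exact Or.inl ⟨h, hx.2.1, hb⟩
        · exact Or.inr ⟨h, hx'.2.1, hb⟩
      · right
        intro y y' _ _ hyy hy hy'
        rcases h2 y hy.2.2 y' hy'.2.2 hyy hy.1 hy'.1 with h | h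
        · exact Or.inl ⟨h, ha, hy.2.2⟩
        · exact Or.inr ⟨h, ha, hy'.2.2⟩

end contract

end Pool.Agent.Lib.TriFive.Gr
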