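import Mathlib

set_option autoImplicit false

namespace Pool.Agent.Lib.TriFive

open Finset
open scoped Classical

section basics
variable {V : Type*} {R : V → V → Prop}

/-- `v` is reachable from `u` inside `S`. -/
def Rc (R : V → V → Prop) (S : Finset V) (u v : V) : Prop :=
  u ∈ S ∧ Relation.ReflTransGen (fun a b => R a b ∧ b ∈ S) u v

theorem Rc.rfl' {S : Finset V} {u : V} (h : u ∈ S) : Rc R S u u := ⟨h, Relation.ReflTransGen.refl⟩

theorem Rc.left {S : Finset V} {u v : V} (h : Rc R S u v) : u ∈ S := h.1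

theorem Rc.right {S : Finset V} {u v : V} (h : Rc R S u v) : v ∈ S := by
  obtain ⟨h1, h2⟩ := h
  rcases Relation.ReflTransGen.cases_tail h2 with h | ⟨c, _, hc⟩
  · exact h ▸ h1
  · exact hc.2

theorem Rc.mono {S T : Finset V} {u v : V} (h : Rc R S u v) (hST : S ⊆ T) : Rc R T u v :=
  ⟨hST h.1, (Relation.ReflTransGen.mono (fun _ _ hab => ⟨hab.1, hST hab.2⟩) :
    Relation.ReflTransGen (fun a b => R a b ∧ b ∈ S) ≤
      Relation.ReflTransGen (fun a b => R a b ∧ b ∈ T)) _ _ h.2⟩

theorem Rc.trans {S : Finset V} {u v w : V} (h : Rc R S u v) (h' : Rc R S v w) : Rc R S u w :=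
  ⟨h.1, h.2.trans h'.2⟩

theorem Rc.trans' {S T U : Finset V} {u v w : V} (h : Rc R S u v) (h' : Rc R T v w)
    (hS : S ⊆ U) (hT : T ⊆ U) : Rc R U u w :=
  (h.mono hS).trans (h'.mono hT)

theorem Rc.step {S : Finset V} {u v : V} (h : R u v) (hu : u ∈ S) (hv : v ∈ S) : Rc R S u v :=
  ⟨hu, Relation.ReflTransGen.single ⟨h, hv⟩⟩

theorem Rc.tail {S : Finset V} {u v w : V} (h : Rc R S u v) (h' : R v w) (hw : w ∈ S) :
    Rc R S u w := h.trans (Rc.step h' h.right hw)

theorem Rc.head {S : Finset V} {u v w : V} (h : R u v) (hu : u ∈ S) (h' : Rc R S v w) :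
    Rc R S u w := (Rc.step h hu h'.left).trans h'

theorem Rc.cases_head {S : Finset V} {u v : V} (h : Rc R S u v) :
    u = v ∨ ∃ w, R u w ∧ Rc R S w v := by
  obtain ⟨h1, h2⟩ := h
  rcases Relation.ReflTransGen.cases_head h2 with h | ⟨c, hc, h3⟩
  · exact Or.inl h
  · exact Or.inr ⟨c, hc.1, hc.2, h3⟩

theorem Rc.cases_tail {S : Finset V} {u v : V} (h : Rc R S u v) :
    u = v ∨ ∃ w, Rc R S u w ∧ R w v := by
  obtain ⟨h1, h2⟩ := h
  rcases Relation.ReflTransGen.cases_tail h2 with h | ⟨c, hc, h3⟩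
  · exact Or.inl h.symm
  · exact Or.inr ⟨c, ⟨h1, hc⟩, h3.1⟩

/-- induction along a walk -/
theorem Rc.induct {S : Finset V} {u : V} {p : V → Prop} (h0 : u ∈ S → p u)
    (hs : ∀ a b, Rc R S u a → p a → R a b → b ∈ S → p b) {v : V} (h : Rc R S u v) : p v := by
  obtain ⟨h1, h2⟩ := h
  have : p v ∧ Rc R S u v := by
    induction h2 with
    | refl => exact ⟨h0 h1, Rc.rfl' h1⟩
    | tail _ hbc ih => exact ⟨hs _ _ ih.2 ih.1 hbc.1 hbc.2, ih.2.tail hbc.1 hbc.2⟩
  exact this.1

/-- reachability inside `S` restricted by removing a vertex -/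
theorem Rc.cut {S : Finset V} {u v : V} (h : Rc R S u v) (z : V) :
    Rc R (S.erase z) u v ∨ (Rc R S u z ∧ Rc R S z v) := by
  by_cases huz : u = z
  · subst huz; exact Or.inr ⟨Rc.rfl' h.1, h⟩
  refine Rc.induct (p := fun v => Rc R (S.erase z) u v ∨ (Rc R S u z ∧ Rc R S z v)) ?_ ?_ h
  · intro hu; exact Or.inl (Rc.rfl' (mem_erase.mpr ⟨huz, hu⟩))
  · intro a b hua ih hab hb
    rcases ih with ih | ⟨h1, h2⟩
    · by_cases hbz : b = z
      · subst hbz
        exact Or.inr ⟨(ih.mono (erase_subset _ _)).tail hab hb, Rc.rfl' hb⟩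
      · exact Or.inl (ih.tail hab (mem_erase.mpr ⟨hbz, hb⟩))
    · exact Or.inr ⟨h1, h2.tail hab hb⟩

/-- first hit of a predicate -/
theorem Rc.firstHit {S : Finset V} {u v : V} (h : Rc R S u v) (p : V → Prop) (hv : p v) :
    ∃ x, p x ∧ x ∈ S ∧ ∃ T ⊆ S, Rc R T u x ∧ ∀ y ∈ T, p y → y = x := by
  have key : (∃ x, p x ∧ x ∈ S ∧ ∃ T ⊆ S, Rc R T u x ∧ ∀ y ∈ T, p y → y = x) ∨
      (¬ p v ∧ ∃ T ⊆ S, Rc R T u v ∧ ∀ y ∈ T, ¬ p y) := by
    refine Rc.induct (p := fun v => (∃ x, p x ∧ x ∈ S ∧ ∃ T ⊆ S, Rc R T u x ∧ ∀ y ∈ T, p y → y = x) ∨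
      (¬ p v ∧ ∃ T ⊆ S, Rc R T u v ∧ ∀ y ∈ T, ¬ p y)) ?_ ?_ h
    · intro hu
      by_cases hp : p u
      · left; exact ⟨u, hp, hu, {u}, by simpa using hu, Rc.rfl' (by simp), by simp⟩
      · right; exact ⟨hp, {u}, by simpa using hu, Rc.rfl' (by simp), by simpa using hp⟩
    · intro a b hua ih hab hb
      rcases ih with ih | ⟨hpa, T, hTS, hT, hTp⟩
      · exact Or.inl ih
      · by_cases hpb : p b
        · left
          refine ⟨b, hpb, hb, insert b T, ?_, (hT.mono (subset_insert _ _)).tail hab (mem_insert_self _ _), ?_⟩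
          · exact insert_subset hb hTS
          · intro y hy hpy
            rcases mem_insert.mp hy with h | h
            · exact h
            · exact absurd hpy (hTp y h)
        · right
          refine ⟨hpb, insert b T, insert_subset hb hTS, (hT.mono (subset_insert _ _)).tail hab (mem_insert_self _ _), ?_⟩
          intro y hy
          rcases mem_insert.mp hy with h | h
          · exact h ▸ hpb
          · exact hTp y h
  rcases key with h | ⟨h, _⟩
  · exact h
  · exact absurd hv h

/-- last exit from a predicate -/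
theorem Rc.lastHit {S : Finset V} {u v : V} (h : Rc R S u v) (p : V → Prop) (hu : p u) :
    ∃ x, p x ∧ x ∈ S ∧ ∃ T ⊆ S, Rc R T x v ∧ ∀ y ∈ T, p y → y = x := by
  refine Rc.induct (p := fun v => ∃ x, p x ∧ x ∈ S ∧ ∃ T ⊆ S, Rc R T x v ∧ ∀ y ∈ T, p y → y = x) ?_ ?_ h
  · intro hu'; exact ⟨u, hu, hu', {u}, by simpa using hu', Rc.rfl' (by simp), by simp⟩
  · rintro a b hua ⟨x, hpx, hxS, T, hTS, hT, hTp⟩ hab hb
    by_cases hpb : p b
    · exact ⟨b, hpb, hb, {b}, by simpa using hb, Rc.rfl' (by simp), by simp⟩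
    · refine ⟨x, hpx, hxS, insert b T, insert_subset hb hTS, (hT.mono (subset_insert _ _)).tail hab (mem_insert_self _ _), ?_⟩
      intro y hy hpy
      rcases mem_insert.mp hy with h | h
      · exact absurd (h ▸ hpy) hpb
      · exact hTp y h hpy

/-- `S` is the vertex set of a walk from `u` to `v`. -/
def PS (R : V → V → Prop) (S : Finset V) (u v : V) : Prop :=
  u ∈ S ∧ v ∈ S ∧ ∀ x ∈ S, Rc R S u x ∧ Rc R S x v

theorem Rc.toPS {S : Finset V} {u v : V} (h : Rc R S u v) : ∃ T ⊆ S, PS R T u v := by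
  refine Rc.induct (p := fun v => ∃ T ⊆ S, PS R T u v) ?_ ?_ h
  · intro hu
    refine ⟨{u}, by simpa using hu, by simp, by simp, ?_⟩
    intro x hx
    rw [mem_singleton] at hx; subst hx
    exact ⟨Rc.rfl' (by simp), Rc.rfl' (by simp)⟩
  · rintro a b hua ⟨T, hTS, h1, h2, h3⟩ hab hb
    refine ⟨insert b T, insert_subset hb hTS, by simp [h1], by simp, ?_⟩
    have hub : Rc R (insert b T) u b :=
      ((h3 a h2).1.mono (subset_insert _ _)).tail hab (mem_insert_self _ _)
    intro x hx
    rcases mem_insert.mp hx with hx | hx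
    · subst hx; exact ⟨hub, Rc.rfl' (by simp)⟩
    · exact ⟨(h3 x hx).1.mono (subset_insert _ _), ((h3 x hx).2.mono (subset_insert _ _)).tail hab (mem_insert_self _ _)⟩

theorem PS.rc {S : Finset V} {u v : V} (h : PS R S u v) : Rc R S u v := (h.2.2 u h.1).2

theorem PS.append {S T : Finset V} {u v w : V} (h : PS R S u v) (h' : PS R T v w) :
    PS R (S ∪ T) u w := by
  refine ⟨by simp [h.1], by simp [h'.2.1], ?_⟩
  intro x hx
  rcases mem_union.mp hx with hx | hx
  · exact ⟨(h.2.2 x hx).1.mono subset_union_left,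
      (h.2.2 x hx).2.trans' h'.rc subset_union_left subset_union_right⟩
  · exact ⟨h.rc.trans' (h'.2.2 x hx).1 subset_union_left subset_union_right,
      (h'.2.2 x hx).2.mono subset_union_right⟩

theorem PS.cons {S : Finset V} {u v w : V} (h' : R u v) (h : PS R S v w) :
    PS R (insert u S) u w := by
  have huw : Rc R (insert u S) u w := Rc.head h' (mem_insert_self _ _) (h.rc.mono (subset_insert _ _))
  refine ⟨by simp, by simp [h.2.1], ?_⟩
  intro x hx
  rcases mem_insert.mp hx with hx | hx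
  · subst hx; exact ⟨Rc.rfl' (by simp), huw⟩
  · exact ⟨Rc.head h' (mem_insert_self _ _) ((h.2.2 x hx).1.mono (subset_insert _ _)),
      (h.2.2 x hx).2.mono (subset_insert _ _)⟩

/-- no closed walk inside `S` -/
def Ac (R : V → V → Prop) (S : Finset V) : Prop :=
  ∀ u v, R u v → u ∈ S → ¬ Rc R S v u

theorem Ac.mono {S T : Finset V} (h : Ac R T) (hST : S ⊆ T) : Ac R S :=
  fun u v h1 h2 h3 => h u v h1 (hST h2) (h3.mono hST)

theorem Ac.eq {S T U : Finset V} (h : Ac R S) {u v : V} (h1 : Rc R T u v) (h2 : Rc R U v u)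
    (hT : T ⊆ S) (hU : U ⊆ S) : u = v := by
  rcases h1.cases_head with h3 | ⟨w, hw, h3⟩
  · exact h3
  · exact absurd (h3.trans' h2 hT hU) (h u w hw (hT h1.1))

/-- two opposite internally disjoint paths between different vertices -/
def Link (R : V → V → Prop) (S : Finset V) (u v : V) : Prop :=
  u ≠ v ∧ ∃ S1 S2 : Finset V, Rc R S1 u v ∧ Rc R S2 v u ∧ (∀ x ∈ S1, x ∈ S2 → x = u ∨ x = v) ∧
    S1 ⊆ S ∧ S2 ⊆ S

theorem Link.symm {S : Finset V} {u v : V} (h : Link R S u v) : Link R S v u := by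
  obtain ⟨h0, S1, S2, h1, h2, h3, h4, h5⟩ := h
  exact ⟨h0.symm, S2, S1, h2, h1, fun x hx hx' => (h3 x hx' hx).symm, h5, h4⟩

theorem Link.mono {S T : Finset V} {u v : V} (h : Link R S u v) (hST : S ⊆ T) : Link R T u v := by
  obtain ⟨h0, S1, S2, h1, h2, h3, h4, h5⟩ := h
  exact ⟨h0, S1, S2, h1, h2, h3, h4.trans hST, h5.trans hST⟩

theorem Link.left {S : Finset V} {u v : V} (h : Link R S u v) : u ∈ S := by
  obtain ⟨h0, S1, S2, h1, h2, h3, h4, h5⟩ := h
  exact h4 h1.left

theorem Link.right {S : Finset V} {u v : V} (h : Link R S u v) : v ∈ S := h.symm.left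

theorem Link.ne {S : Finset V} {u v : V} (h : Link R S u v) : u ≠ v := h.1

theorem Link.rc {S : Finset V} {u v : V} (h : Link R S u v) : Rc R S u v := by
  obtain ⟨h0, S1, S2, h1, h2, h3, h4, h5⟩ := h
  exact h1.mono h4

/-- a chain of `r` links from `a` to `t` with vertex set `S` -/
inductive Ch (R : V → V → Prop) : ℕ → V → V → Finset V → Prop
  | nil (a : V) : Ch R 0 a a {a}
  | cons {r : ℕ} {a m t : V} {E S : Finset V} : Link R E a m → Ch R r m t S →
      (∀ x ∈ E, x ∈ S → x = m) → Ch R (r + 1) a t (E ∪ S)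

theorem Ch.left {r : ℕ} {a t : V} {S : Finset V} (h : Ch R r a t S) : a ∈ S := by
  cases h with
  | nil => simp
  | cons h1 h2 h3 => exact mem_union_left _ h1.left

theorem Ch.right {r : ℕ} {a t : V} {S : Finset V} (h : Ch R r a t S) : t ∈ S := by
  induction h with
  | nil => simp
  | cons h1 h2 h3 ih => exact mem_union_right _ ih

theorem Ch.ne {r : ℕ} {a t : V} {S : Finset V} (h : Ch R r a t S) (hr : 1 ≤ r) : a ≠ t := by
  cases h with
  | nil => omega
  | cons h1 h2 h3 =>
    rintro rfl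
    exact h1.ne (h3 _ h1.left h2.right)

/-- a closed chain of `r + 1` links -/
def Neck (R : V → V → Prop) (r : ℕ) : Prop :=
  ∃ a t S T, Ch R r a t S ∧ Link R T t a ∧ ∀ x ∈ S, x ∈ T → x = a ∨ x = t

/-- the last two links of a chain and a path from their start back to the start of the chain -/
theorem Ch.split : ∀ (r : ℕ) {a t : V} {S : Finset V}, Ch R (r + 2) a t S →
    ∃ m S1 S2, Rc R S1 m a ∧ Ch R 2 m t S2 ∧ S1 ⊆ S ∧ S2 ⊆ S ∧ ∀ x ∈ S1, x ∈ S2 → x = m := by
  intro r
  induction r with
  | zero =>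
    intro a t S h
    refine ⟨a, {a}, S, Rc.rfl' (by simp), h, ?_, Subset.refl _, ?_⟩
    · rw [singleton_subset_iff]; exact h.left
    · intro x hx _; simpa using hx
  | succ r ih =>
    intro a t S h
    cases h with
    | @cons _ _ m' _ E S' h1 h2 h3 =>
      obtain ⟨m, S1, S2, k1, k2, k3, k4, k5⟩ := ih h2
      refine ⟨m, S1 ∪ E, S2, k1.trans' h1.symm.rc subset_union_left subset_union_right, k2,
        union_subset (k3.trans subset_union_right) subset_union_left, k4.trans subset_union_right, ?_⟩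
      intro x hx hx'
      rcases mem_union.mp hx with hx | hx
      · exact k5 x hx hx'
      · have := h3 x hx (k4 hx'); subst this
        exact k5 _ k1.right hx'

/-- a chain starting at `a` of `r` links and a path from `b` to `k0` meeting it in its end only -/
def Sep (R : V → V → Prop) (W : Finset V) (k0 : V) (r : ℕ) (a b : V) : Prop :=
  ∃ t S Q1 Q2, Ch R r a t S ∧ S ⊆ W ∧ Q1 ⊆ W ∧ Q2 ⊆ W ∧ Rc R Q1 b t ∧ Rc R Q2 t k0 ∧
    (∀ x ∈ Q1, x ∈ Q2 → x = t) ∧ (∀ x ∈ S, x ∈ Q1 → x = t) ∧ (∀ x ∈ S, x ∈ Q2 → x = t)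

theorem Sep.mono {W W' : Finset V} {k0 : V} {r : ℕ} {a b : V} (h : Sep R W k0 r a b)
    (hW : W ⊆ W') : Sep R W' k0 r a b := by
  obtain ⟨t, S, Q1, Q2, h1, h2, h3, h4, h5⟩ := h
  exact ⟨t, S, Q1, Q2, h1, h2.trans hW, h3.trans hW, h4.trans hW, h5⟩

/-- rule 1: prolong the chain at its start -/
theorem Sep.front {W E W' : Finset V} {k0 : V} {r : ℕ} {v w b : V} (h : Sep R W k0 r w b)
    (hl : Link R E v w) (hE : ∀ x ∈ E, x ∈ W → x = w) (hW : W ⊆ W') (hE' : E ⊆ W') :
    Sep R W' k0 (r + 1) v b := by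
  obtain ⟨t, S, Q1, Q2, h1, h2, h3, h4, h5, h6, h7, h8, h9⟩ := h
  refine ⟨t, E ∪ S, Q1, Q2, Ch.cons hl h1 (fun x hx hx' => hE x hx (h2 hx')), union_subset hE' (h2.trans hW),
    h3.trans hW, h4.trans hW, h5, h6, h7, ?_, ?_⟩
  · intro x hx hx'
    rcases mem_union.mp hx with hx | hx
    · have := hE x hx (h3 hx'); subst this
      exact h8 _ h1.left hx'
    · exact h8 x hx hx'
  · intro x hx hx'
    rcases mem_union.mp hx with hx | hx
    · have := hE x hx (h4 hx'); subst this
      exact h9 _ h1.left hx'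
    · exact h9 x hx hx'

/-- rule 2: prolong the path at its start -/
theorem Sep.back {W B W' : Finset V} {k0 : V} {r : ℕ} {a v w : V} (h : Sep R W k0 r a w)
    (hB : Rc R B v w) (hE : ∀ x ∈ B, x ∈ W → x = w) (hW : W ⊆ W') (hB' : B ⊆ W') :
    Sep R W' k0 r a v := by
  obtain ⟨t, S, Q1, Q2, h1, h2, h3, h4, h5, h6, h7, h8, h9⟩ := h
  refine ⟨t, S, B ∪ Q1, Q2, h1, h2.trans hW, union_subset hB' (h3.trans hW), h4.trans hW,
    hB.trans' h5 subset_union_left subset_union_right, h6, ?_, ?_, h9⟩
  · intro x hx hx'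
    rcases mem_union.mp hx with hx | hx
    · have := hE x hx (h4 hx'); subst this
      exact h7 _ h5.left hx'
    · exact h7 x hx hx'
  · intro x hx hx'
    rcases mem_union.mp hx' with hx' | hx'
    · have := hE x hx' (h2 hx); subst this
      exact h8 _ hx h5.left
    · exact h8 x hx hx'

/-- closing a separated pair by an ear and a jump: the jump goes to the third last joint, so
that the closed chain has exactly three links -/
theorem Sep.close {W I K : Finset V} {k0 : V} {r : ℕ} {a b : V} (h : Sep R W k0 r a b)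
    (hr : 2 ≤ r) (hI : Rc R (insert a (insert b I)) a b) (hIW : ∀ x ∈ I, x ∉ W) (hIK : I ⊆ K)
    (hWK : W ⊆ K)
    (hJ : ∀ a ∈ K, a ≠ k0 → ∃ J, Rc R J k0 a ∧ ∀ x ∈ J, x ∈ K → x = k0 ∨ x = a) : Neck R 2 := by
  obtain ⟨t, S, Q1, Q2, h1, h2, h3, h4, h5, h6, h7, h8, h9⟩ := h
  obtain ⟨r', rfl⟩ : ∃ r', r = r' + 2 := ⟨r - 2, by omega⟩
  obtain ⟨m, S1, S2, k1, k2, k3, k4, k5⟩ := Ch.split r' h1
  have htQ2 : t ∈ Q2 := h6.left
  have hk0 : k0 ∈ Q2 := h6.right
  have hmt : m ≠ t := k2.ne (by omega)
  have hmS : m ∈ S := k4 k2.left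
  have hmk : m ≠ k0 := by
    rintro rfl
    exact hmt (h9 _ hmS hk0)
  obtain ⟨J, hJ1, hJK⟩ := hJ m (hWK (h2 hmS)) hmk
  -- the vertices of the return path
  have hB : ∀ x, x ∈ S1 ∪ (insert a (insert b I) ∪ Q1) → x ∈ K ∧ (x ∈ Q2 → x = t) := by
    intro x hx
    rcases mem_union.mp hx with hx | hx
    · exact ⟨hWK (h2 (k3 hx)), fun h => h9 x (k3 hx) h⟩
    rcases mem_union.mp hx with hx | hx
    · rcases mem_insert.mp hx with hx | hx
      · subst hx; exact ⟨hWK (h2 h1.left), fun h => h9 _ h1.left h⟩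
      rcases mem_insert.mp hx with hx | hx
      · subst hx; exact ⟨hWK (h3 h5.left), fun h => h7 _ h5.left h⟩
      · exact ⟨hIK hx, fun h => absurd (h4 h) (hIW _ hx)⟩
    · exact ⟨hWK (h3 hx), fun h => h7 x hx h⟩
  refine ⟨m, t, S2, (Q2 ∪ J) ∪ (S1 ∪ (insert a (insert b I) ∪ Q1)), k2, ?_, ?_⟩
  · refine ⟨hmt.symm, Q2 ∪ J, S1 ∪ (insert a (insert b I) ∪ Q1),
      h6.trans' hJ1 subset_union_left subset_union_right,
      k1.trans' (hI.trans' h5 subset_union_left subset_union_right) subset_union_left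
        subset_union_right, ?_, subset_union_left, subset_union_right⟩
    intro x hx hx'
    obtain ⟨hxK, hxQ⟩ := hB x hx'
    rcases mem_union.mp hx with hx | hx
    · exact Or.inl (hxQ hx)
    · rcases hJK x hx hxK with hk | hk
      · exact Or.inl (hxQ (hk ▸ hk0))
      · exact Or.inr hk
  · intro x hxS hx
    have hxS' := k4 hxS
    rcases mem_union.mp hx with hx | hx
    · rcases mem_union.mp hx with hx | hx
      · exact Or.inr (h9 x hxS' hx)
      · rcases hJK x hx (hWK (h2 hxS')) with hk | hk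
        · exact Or.inr (h9 x hxS' (hk ▸ hk0))
        · exact Or.inl hk
    rcases mem_union.mp hx with hx | hx
    · exact Or.inl (k5 x hx hxS)
    rcases mem_union.mp hx with hx | hx
    · rcases mem_insert.mp hx with hx | hx
      · subst hx; exact Or.inl (k5 _ k1.right hxS)
      rcases mem_insert.mp hx with hx | hx
      · subst hx; exact Or.inr (h8 _ hxS' h5.left)
      · exact absurd (h2 hxS') (hIW _ hx)
    · exact Or.inr (h8 x hxS' hx)

end basics


section fan
variable {V : Type*} {R : V → V → Prop}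

/-- `p` reaches the target predicate inside `D` avoiding `z` -/
def Esc (R : V → V → Prop) (D : Finset V) (T : V → Prop) (z p : V) : Prop :=
  ∃ u, T u ∧ Rc R (D.erase z) p u

theorem postdom {D : Finset V} (hD : Ac R D) (T : V → Prop) {p u0 : V} (hu : T u0)
    (hp : Rc R D p u0) :
    ∃ z ∈ D, ¬ Esc R D T z p ∧ ∀ y ∈ D, ¬ Esc R D T y p → ¬ Esc R D T z y := by
  have hpp : ¬ Esc R D T p p := by
    rintro ⟨u, _, h⟩
    exact (mem_erase.mp h.left).1 rfl
  obtain ⟨z, hz, hmin⟩ := exists_min_image (D.filter (fun z => ¬ Esc R D T z p))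
    (fun z => (D.filter (fun x => Rc R D z x)).card) ⟨p, by simp [hp.left, hpp]⟩
  rw [mem_filter] at hz
  refine ⟨z, hz.1, hz.2, ?_⟩
  rintro y hy hyp ⟨u, hu', hyu⟩
  have hyz : y ≠ z := (mem_erase.mp hyu.left).1
  rcases hp.cut y with h | ⟨h1, _⟩
  · exact hyp ⟨u0, hu, h⟩
  rcases h1.cut z with h | ⟨_, hzy⟩
  · exact hz.2 ⟨u, hu', h.trans hyu⟩
  have h2 := hmin y (by simp [hy, hyp])
  have h3 : D.filter (fun x => Rc R D y x) ⊂ D.filter (fun x => Rc R D z x) := by
    rw [Finset.ssubset_iff_of_subset]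
    · refine ⟨z, by simp [hz.1, Rc.rfl' hz.1], ?_⟩
      simp only [mem_filter, not_and]
      intro _ h
      exact hyz (hD.eq h hzy (Subset.refl _) (Subset.refl _))
    · intro x hx
      rw [mem_filter] at hx ⊢
      exact ⟨hx.1, hzy.trans hx.2⟩
  have := card_lt_card h3
  omega

theorem pebble {D : Finset V} (hD : Ac R D) (T : V → Prop) : ∀ (n : ℕ) (p1 p2 : V), p1 ∈ D → p2 ∈ D →
    p1 ≠ p2 → (∀ z ∈ D, Esc R D T z p1 ∨ Esc R D T z p2) →
    (D.filter (fun x => Rc R D p1 x ∨ Rc R D p2 x)).card ≤ n →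
    ∃ S1 S2 u1 u2, S1 ⊆ D ∧ S2 ⊆ D ∧ T u1 ∧ T u2 ∧ PS R S1 p1 u1 ∧ PS R S2 p2 u2 ∧
      (∀ x ∈ S1, x ∉ S2) := by
  intro n
  induction n with
  | zero =>
    intro p1 p2 h1 h2 _ _ hc
    have : p1 ∈ D.filter (fun x => Rc R D p1 x ∨ Rc R D p2 x) := by simp [h1, Rc.rfl' h1]
    have := card_pos.mpr ⟨p1, this⟩
    omega
  | succ n ih =>
    have main : ∀ p1 p2 : V, p1 ∈ D → p2 ∈ D →
      p1 ≠ p2 → (∀ z ∈ D, Esc R D T z p1 ∨ Esc R D T z p2) →
      (D.filter (fun x => Rc R D p1 x ∨ Rc R D p2 x)).card ≤ n + 1 → ¬ Rc R D p2 p1 → 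
      ∃ S1 S2 u1 u2, S1 ⊆ D ∧ S2 ⊆ D ∧ T u1 ∧ T u2 ∧ PS R S1 p1 u1 ∧ PS R S2 p2 u2 ∧
        (∀ x ∈ S1, x ∉ S2) := by
      intro p1 p2 h1 h2 hne hg hc hnr
      have he2 : Esc R D T p1 p2 := by
        rcases hg p1 h1 with ⟨u, _, h⟩ | h
        · exact absurd rfl (mem_erase.mp h.left).1
        · exact h
      obtain ⟨u2, hu2, hp2⟩ := he2
      by_cases hT : T p1
      · obtain ⟨S2, hS2, hPS⟩ := hp2.toPS
        refine ⟨{p1}, S2, p1, u2, by simpa using h1, hS2.trans (erase_subset _ _), hT, hu2, ?_, hPS, ?_⟩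
        · refine ⟨by simp, by simp, ?_⟩
          intro x hx
          rw [mem_singleton] at hx; subst hx
          exact ⟨Rc.rfl' (by simp), Rc.rfl' (by simp)⟩
        · intro x hx hx2
          rw [mem_singleton] at hx; subst hx
          exact (mem_erase.mp (hS2 hx2)).1 rfl
      · obtain ⟨z, hz, hz1, hz2⟩ := postdom hD T hu2 (hp2.mono (erase_subset _ _))
        have hz3 : Esc R D T z p1 := by
          rcases hg z hz with h | h
          · exact h
          · exact absurd h hz1
        obtain ⟨u, hu, hp1⟩ := hz3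
        rcases hp1.cases_head with h | ⟨q, hq, hqu⟩
        · exact absurd (h ▸ hu) hT
        have hqD : q ∈ D := (mem_erase.mp hqu.left).2
        have hqp2 : q ≠ p2 := by
          rintro rfl; exact hz1 ⟨u, hu, hqu⟩
        have hgood : ∀ z ∈ D, Esc R D T z q ∨ Esc R D T z p2 := by
          intro y hy
          by_cases hyp : Esc R D T y p2
          · exact Or.inr hyp
          left
          rcases hqu.cut y with h | ⟨_, h⟩
          · exact ⟨u, hu, h.mono (by
              intro x hx
              simp only [mem_erase] at hx ⊢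
              exact ⟨hx.1, hx.2.2⟩)⟩
          · exact absurd ⟨u, hu, h⟩ (hz2 y hy hyp)
        have hlt : (D.filter (fun x => Rc R D q x ∨ Rc R D p2 x)).card <
            (D.filter (fun x => Rc R D p1 x ∨ Rc R D p2 x)).card := by
          apply card_lt_card
          rw [Finset.ssubset_iff_of_subset]
          · refine ⟨p1, by simp [h1, Rc.rfl' h1], ?_⟩
            simp only [mem_filter, not_and, not_or]
            intro _
            exact ⟨hD p1 q hq h1, hnr⟩
          · intro x hx
            rw [mem_filter] at hx ⊢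
            refine ⟨hx.1, ?_⟩
            rcases hx.2 with h | h
            · exact Or.inl (Rc.head hq h1 h)
            · exact Or.inr h
        obtain ⟨S1, S2, u1, u2, hS1, hS2, hu1, hu2, hP1, hP2, hdis⟩ := ih q p2 hqD h2 hqp2 hgood (by omega)
        refine ⟨insert p1 S1, S2, u1, u2, insert_subset h1 hS1, hS2, hu1, hu2, PS.cons hq hP1, hP2, ?_⟩
        intro x hx hx2
        rcases mem_insert.mp hx with hx | hx
        · subst hx
          exact hnr ((hP2.2.2 _ hx2).1.mono hS2)
        · exact hdis x hx hx2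
    intro p1 p2 h1 h2 hne hg hc
    by_cases hr : Rc R D p2 p1
    · have hr' : ¬ Rc R D p1 p2 := fun h => hne (hD.eq h hr (Subset.refl _) (Subset.refl _))
      obtain ⟨S1, S2, u1, u2, hS1, hS2, hu1, hu2, hP1, hP2, hdis⟩ := main p2 p1 h2 h1 hne.symm
        (fun z hz => (hg z hz).symm) (by simpa only [or_comm] using hc) hr'
      exact ⟨S2, S1, u2, u1, hS2, hS1, hu2, hu1, hP2, hP1, fun x hx hx' => hdis x hx' hx⟩
    · exact main p1 p2 h1 h2 hne hg hc hr

/-- fan version of Menger's theorem for two paths in an acyclic digraph -/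
theorem fan {D : Finset V} (hD : Ac R D) (N T : V → Prop) (h0 : ∃ n u, N n ∧ T u ∧ Rc R D n u)
    (h : ∀ z ∈ D, ∃ n, N n ∧ Esc R D T z n) :
    ∃ n1 n2 S1 S2 u1 u2, n1 ≠ n2 ∧ N n1 ∧ N n2 ∧ S1 ⊆ D ∧ S2 ⊆ D ∧ T u1 ∧ T u2 ∧ PS R S1 n1 u1 ∧
      PS R S2 n2 u2 ∧ (∀ x ∈ S1, x ∉ S2) := by
  obtain ⟨n1, u, hn1, hu, hr⟩ := h0
  obtain ⟨z, hz, hz1, hz2⟩ := postdom hD T hu hr
  obtain ⟨n2, hn2, u2, hu2, hr2⟩ := h z hz
  have hne : n1 ≠ n2 := by
    rintro rfl; exact hz1 ⟨u2, hu2, hr2⟩
  have hgood : ∀ y ∈ D, Esc R D T y n1 ∨ Esc R D T y n2 := by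
    intro y hy
    by_cases hyp : Esc R D T y n1
    · exact Or.inl hyp
    right
    rcases hr2.cut y with h | ⟨_, h⟩
    · exact ⟨u2, hu2, h.mono (by
        intro x hx
        simp only [mem_erase] at hx ⊢
        exact ⟨hx.1, hx.2.2⟩)⟩
    · exact absurd ⟨u2, hu2, h⟩ (hz2 y hy hyp)
  obtain ⟨S1, S2, u1, u2, h1⟩ := pebble hD T _ n1 n2 hr.left (mem_erase.mp hr2.left).2 hne hgood (le_refl _)
  exact ⟨n1, n2, S1, S2, u1, u2, hne, hn1, hn2, h1⟩

end fan

section block
variable {V : Type*} {R : V → V → Prop}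

theorem Rc.out {S : Finset V} {s v : V} (h : Rc R S s v) (hv : v ≠ s) :
    ∃ n, R s n ∧ Rc R (S.erase s) n v := by
  have : v = s ∨ ∃ n, R s n ∧ Rc R (S.erase s) n v := by
    refine Rc.induct (p := fun v => v = s ∨ ∃ n, R s n ∧ Rc R (S.erase s) n v) ?_ ?_ h
    · intro _; exact Or.inl rfl
    · intro a b _ ih hab hb
      by_cases hbs : b = s
      · exact Or.inl hbs
      right
      have hb' : b ∈ S.erase s := mem_erase.mpr ⟨hbs, hb⟩
      rcases ih with rfl | ⟨n, hn, hr⟩
      · exact ⟨b, hab, Rc.rfl' hb'⟩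
      · exact ⟨n, hn, hr.tail hab hb'⟩
  rcases this with h | h
  · exact absurd h hv
  · exact h

theorem Rc.inn {S : Finset V} {s v : V} (h : Rc R S v s) (hv : v ≠ s) :
    ∃ u, R u s ∧ Rc R (S.erase s) v u := by
  have : (∃ u, R u s ∧ Rc R (S.erase s) v u) ∨ Rc R (S.erase s) v s := by
    refine Rc.induct (p := fun w => (∃ u, R u s ∧ Rc R (S.erase s) v u) ∨ Rc R (S.erase s) v w) ?_ ?_ h
    · intro hv'; exact Or.inr (Rc.rfl' (mem_erase.mpr ⟨hv, hv'⟩))
    · intro a b _ ih hab hb
      rcases ih with ih | ih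
      · exact Or.inl ih
      by_cases hbs : b = s
      · subst hbs; exact Or.inl ⟨a, hab, ih⟩
      · exact Or.inr (ih.tail hab (mem_erase.mpr ⟨hbs, hb⟩))
  rcases this with h | h
  · exact h
  · exact absurd rfl (mem_erase.mp h.right).1

theorem linkOfPS {D S : Finset V} {s n u y : V} (hD : Ac R D) (hS : S ⊆ D) (hs : s ∉ D)
    (hP : PS R S n u) (hn : R s n) (hu : R u s) (hy : y ∈ S) : Link R (insert s S) y s := by
  obtain ⟨h1, h2⟩ := hP.2.2 y hy
  obtain ⟨S1, hS1, hP1⟩ := h1.toPS
  obtain ⟨S2, hS2, hP2⟩ := h2.toPS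
  have hys : y ≠ s := by rintro rfl; exact hs (hS hy)
  refine ⟨hys, insert s S2, insert s S1,
    (hP2.rc.mono (subset_insert _ _)).tail hu (mem_insert_self _ _),
    Rc.head hn (mem_insert_self _ _) (hP1.rc.mono (subset_insert _ _)), ?_,
    insert_subset_insert _ hS2, insert_subset_insert _ hS1⟩
  intro x hx hx'
  rcases mem_insert.mp hx with hx | hx
  · exact Or.inr hx
  rcases mem_insert.mp hx' with hx' | hx'
  · exact Or.inr hx'
  left
  exact (hD.eq ((hP2.2.2 x hx).1) ((hP1.2.2 x hx').2) (hS2.trans hS) (hS1.trans hS)).symm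

/-- transversal of the circuits through `s` -/
def Tr (R : V → V → Prop) (D : Finset V) (s : V) (X : Finset V) : Prop :=
  ∀ n u, R s n → R u s → ¬ Rc R (D \ X) n u

noncomputable def RS (R : V → V → Prop) (D : Finset V) (s : V) (X : Finset V) : Finset V :=
  (D \ X).filter (fun v => ∃ n, R s n ∧ Rc R (D \ X) n v)

structure MT (R : V → V → Prop) (D : Finset V) (s : V) (X : Finset V) : Prop where
  sub : X ⊆ D
  tr : Tr R D s X
  min : ∀ Z ⊆ D, Tr R D s Z → X.card ≤ Z.card
  max : ∀ Z ⊆ D, Tr R D s Z → Z.card ≤ X.card → (RS R D s Z).card ≤ (RS R D s X).card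

theorem exists_MT (D : Finset V) (s : V) : ∃ X, MT R D s X := by
  obtain ⟨X, hX, hmin⟩ := exists_min_image (D.powerset.filter (fun X => Tr R D s X))
    (fun X => X.card * (D.card + 1) + (D.card - (RS R D s X).card))
    ⟨D, by
      simp only [mem_filter, mem_powerset, Subset.refl, true_and]
      intro n u _ _ h
      have := h.left
      simp at this⟩
  simp only [mem_filter, mem_powerset] at hX hmin
  have hb : ∀ Z, (RS R D s Z).card ≤ D.card := by
    intro Z
    exact card_le_card ((filter_subset _ _).trans sdiff_subset)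
  refine ⟨X, hX.1, hX.2, ?_, ?_⟩
  · intro Z hZ hT
    have h1 := hmin Z ⟨hZ, hT⟩
    by_contra hlt
    push Not at hlt
    have h2 := hb X
    have h3 := hb Z
    have h4 : Z.card + 1 ≤ X.card := hlt
    have h5 := Nat.mul_le_mul_right (D.card + 1) h4
    rw [add_mul, one_mul] at h5
    omega
  · intro Z hZ hT hc
    have h1 := hmin Z ⟨hZ, hT⟩
    have h2 := hb X
    have h3 := hb Z
    have h5 := Nat.mul_le_mul_right (D.card + 1) hc
    omega

/-- every element of a minimum transversal is on a circuit meeting it only there -/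
theorem MT.single {D : Finset V} {s : V} {X : Finset V} (h : MT R D s X) {y : V} (hy : y ∈ X) :
    ∃ n u S, R s n ∧ R u s ∧ S ⊆ D \ (X.erase y) ∧ PS R S n u ∧ y ∈ S := by
  have h1 : ¬ Tr R D s (X.erase y) := by
    intro h2
    have := h.min _ ((erase_subset _ _).trans h.sub) h2
    rw [card_erase_of_mem hy] at this
    have := card_pos.mpr ⟨y, hy⟩
    omega
  unfold Tr at h1
  push Not at h1
  obtain ⟨n, u, hn, hu, hr⟩ := h1
  obtain ⟨S, hS, hP⟩ := hr.toPS
  refine ⟨n, u, S, hn, hu, hS, hP, ?_⟩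
  by_contra hyS
  refine h.tr n u hn hu (hP.rc.mono ?_)
  intro x hx
  have hx' := hS hx
  simp only [mem_sdiff, mem_erase, not_and] at hx' ⊢
  refine ⟨hx'.1, fun hxX => hx'.2 ?_ hxX⟩
  rintro rfl; exact hyS hx

theorem MT.pair {D : Finset V} {s : V} {X : Finset V} (hD : Ac R D) (h : MT R D s X) {y y' : V}
    (hy : y ∈ X) (hy' : y' ∈ X) (hne : y ≠ y') :
    ∃ n u S n' u' S', R s n ∧ R u s ∧ R s n' ∧ R u' s ∧ S ⊆ D \ (X.erase y) ∧ S' ⊆ D \ (X.erase y') ∧
      PS R S n u ∧ PS R S' n' u' ∧ y ∈ S ∧ y' ∈ S' ∧ ∀ x ∈ S, x ∉ S' := by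
  have hsub : D \ ((X.erase y).erase y') ⊆ D := sdiff_subset
  have hcard : ((X.erase y).erase y').card + 2 ≤ X.card := by
    have h1 : y' ∈ X.erase y := mem_erase.mpr ⟨hne.symm, hy'⟩
    rw [card_erase_of_mem h1, card_erase_of_mem hy]
    have h2 := card_pos.mpr ⟨y', h1⟩
    rw [card_erase_of_mem hy] at h2
    omega
  obtain ⟨n1, n2, S1, S2, u1, u2, _, hn1, hn2, hS1, hS2, hu1, hu2, hP1, hP2, hdis⟩ :=
    fan (R := R) (D := D \ ((X.erase y).erase y')) (hD.mono hsub) (fun n => R s n) (fun u => R u s)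
    (by
      by_contra hcon
      push Not at hcon
      have h2 : Tr R D s ((X.erase y).erase y') := fun n u hn hu hr => hcon n u hn hu hr
      have := h.min _ (((erase_subset _ _).trans (erase_subset _ _)).trans h.sub) h2
      omega)
    (by
      intro z hz
      by_contra hcon
      push Not at hcon
      have h2 : Tr R D s (insert z ((X.erase y).erase y')) := by
        intro n u hn hu hr
        refine hcon n hn ⟨u, hu, hr.mono ?_⟩
        intro x hx
        simp only [mem_sdiff, mem_insert, not_or, mem_erase] at hx ⊢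
        exact ⟨hx.2.1, hx.1, hx.2.2⟩
      have h3 := h.min _ (insert_subset (hsub hz) (((erase_subset _ _).trans (erase_subset _ _)).trans h.sub)) h2
      have h4 := card_insert_le z ((X.erase y).erase y')
      omega)
  -- each of the two sets contains `y` or `y'`
  have key : ∀ S n u, R s n → R u s → PS R S n u → S ⊆ D \ ((X.erase y).erase y') → y ∈ S ∨ y' ∈ S := by
    intro S n u hn hu hP hS
    by_contra hcon
    push Not at hcon
    refine h.tr n u hn hu (hP.rc.mono ?_)
    intro x hx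
    have hx' := hS hx
    simp only [mem_sdiff, mem_erase, not_and] at hx' ⊢
    refine ⟨hx'.1, fun hxX => hx'.2 ?_ ?_ hxX⟩
    · rintro rfl; exact hcon.2 hx
    · rintro rfl; exact hcon.1 hx
  have sub : ∀ S, S ⊆ D \ ((X.erase y).erase y') → ∀ w w', (w = y ∧ w' = y' ∨ w = y' ∧ w' = y) → w' ∉ S →
      S ⊆ D \ (X.erase w) := by
    intro S hS w w' hw hw' x hx
    have hx' := hS hx
    simp only [mem_sdiff, mem_erase, not_and] at hx' ⊢
    refine ⟨hx'.1, fun hxw hxX => ?_⟩
    have hxw' : x ≠ w' := by rintro rfl; exact hw' hx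
    rcases hw with ⟨rfl, rfl⟩ | ⟨rfl, rfl⟩
    · exact hx'.2 hxw' hxw hxX
    · exact hx'.2 hxw hxw' hxX
  rcases key S1 n1 u1 hn1 hu1 hP1 hS1 with h1 | h1
  · have h2 : y' ∈ S2 := by
      rcases key S2 n2 u2 hn2 hu2 hP2 hS2 with h2 | h2
      · exact absurd h2 (hdis y h1)
      · exact h2
    refine ⟨n1, u1, S1, n2, u2, S2, hn1, hu1, hn2, hu2, ?_, ?_, hP1, hP2, h1, h2, hdis⟩
    · exact sub S1 hS1 y y' (Or.inl ⟨rfl, rfl⟩) (fun h => hdis _ h h2)
    · exact sub S2 hS2 y' y (Or.inr ⟨rfl, rfl⟩) (fun h => hdis _ h1 h)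
  · have h2 : y ∈ S2 := by
      rcases key S2 n2 u2 hn2 hu2 hP2 hS2 with h2 | h2
      · exact h2
      · exact absurd h2 (hdis y' h1)
    refine ⟨n2, u2, S2, n1, u1, S1, hn2, hu2, hn1, hu1, ?_, ?_, hP2, hP1, h2, h1,
      fun x hx hx' => hdis x hx' hx⟩
    · exact sub S2 hS2 y y' (Or.inl ⟨rfl, rfl⟩) (fun h => hdis _ h1 h)
    · exact sub S1 hS1 y' y (Or.inr ⟨rfl, rfl⟩) (fun h => hdis _ h h2)

/-- the extremal choice of the transversal gives an extra disjoint path -/
theorem MT.extra {D : Finset V} {s : V} {X : Finset V} (hD : Ac R D) (h : MT R D s X) {x p up : V}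
    (hx : x ∈ X) (hpx : p ≠ x) (hup : R up s) (hp : Rc R (D \ X) p up) :
    ∃ n u S u' S', R s n ∧ R u s ∧ R u' s ∧ S ⊆ D \ (X.erase x) ∧ S' ⊆ D \ X ∧
      PS R S n u ∧ x ∈ S ∧ PS R S' p u' ∧ ∀ v ∈ S, v ∉ S' := by
  have hDX : D \ X = (D \ (X.erase x)).erase x := by
    ext v
    simp only [mem_sdiff, mem_erase, not_and]
    constructor
    · rintro ⟨h1, h2⟩
      exact ⟨fun hvx => h2 (hvx ▸ hx), h1, fun _ => h2⟩
    · rintro ⟨h1, h2, h3⟩
      exact ⟨h2, h3 h1⟩
  have hsub : D \ (X.erase x) ⊆ D := sdiff_subset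
  have hD' : Ac R (D \ (X.erase x)) := hD.mono hsub
  obtain ⟨n0, u0, S0, hn0, hu0, hS0, hP0, hx0⟩ := h.single hx
  have hfan := fan (R := R) hD' (fun n => n = x ∨ n = p) (fun u => R u s)
    ⟨p, up, Or.inr rfl, hup, hp.mono (by rw [hDX]; exact erase_subset _ _)⟩
    (by
      intro z hz
      by_contra hcon
      push Not at hcon
      have hzx := hcon x (Or.inl rfl)
      have hzp := hcon p (Or.inr rfl)
      have hTr : Tr R D s (insert z (X.erase x)) := by
        intro n u hn hu hr
        have hr' : Rc R ((D \ (X.erase x)).erase z) n u := by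
          refine hr.mono ?_
          intro v hv
          simp only [mem_sdiff, mem_insert, mem_erase, not_or, not_and] at hv ⊢
          exact ⟨hv.2.1, hv.1, hv.2.2⟩
        rcases hr'.cut x with h1 | ⟨_, h1⟩
        · refine h.tr n u hn hu (h1.mono ?_)
          rw [hDX]
          intro v hv
          simp only [mem_erase] at hv ⊢
          exact ⟨hv.1, hv.2.2⟩
        · exact hzx ⟨u, hu, h1⟩
      have hzx' : z ≠ x := by
        rintro rfl
        exact hzp ⟨up, hup, hDX ▸ hp⟩
      have hcX : ((X.erase x)).card + 1 = X.card := by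
        rw [card_erase_of_mem hx]
        have := card_pos.mpr ⟨x, hx⟩
        omega
      have hcard : (insert z (X.erase x)).card ≤ X.card := by
        have := card_insert_le z (X.erase x)
        omega
      have hmax := h.max _ (insert_subset (hsub hz) ((erase_subset _ _).trans h.sub)) hTr hcard
      -- `z` reaches `s` avoiding `X`
      have hzs : Rc R (D \ X) z up := by
        rcases hp.cut z with h1 | ⟨_, h1⟩
        · exfalso
          refine hzp ⟨up, hup, h1.mono ?_⟩
          rw [hDX]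
          intro v hv
          simp only [mem_erase] at hv ⊢
          exact ⟨hv.1, hv.2.2⟩
        · exact h1
      have hnz : ∀ n, R s n → ¬ Rc R (D \ X) n z := by
        intro n hn hr
        exact h.tr n up hn hup (hr.trans hzs)
      have hlt : (RS R D s X).card < (RS R D s (insert z (X.erase x))).card := by
        apply card_lt_card
        rw [Finset.ssubset_iff_of_subset]
        · refine ⟨x, ?_, ?_⟩
          · have hxD : x ∈ D \ insert z (X.erase x) := by
              simp only [mem_sdiff, mem_insert, mem_erase, not_or, not_and]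
              exact ⟨h.sub hx, hzx'.symm, fun hh => absurd rfl hh⟩
            simp only [RS, mem_filter]
            refine ⟨hxD, n0, hn0, ?_⟩
            have h1 : Rc R (D \ (X.erase x)) n0 x := ((hP0.2.2 x hx0).1).mono hS0
            have h2 : D \ insert z (X.erase x) = (D \ (X.erase x)).erase z := by
              ext v
              simp only [mem_sdiff, mem_insert, mem_erase, not_or, not_and]
              constructor
              · rintro ⟨h1, h2, h3⟩; exact ⟨h2, h1, h3⟩
              · rintro ⟨h1, h2, h3⟩; exact ⟨h2, h1, h3⟩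
            rw [h2]
            rcases h1.cut z with h3 | ⟨h3, h4⟩
            · exact h3
            · exfalso
              rcases h3.cut x with h5 | ⟨_, h5⟩
              · rw [← hDX] at h5
                exact hnz n0 hn0 h5
              · exact hzx' (hD'.eq h4 h5 (Subset.refl _) (Subset.refl _))
          · simp only [RS, mem_filter, mem_sdiff, not_and]
            intro hh
            exact absurd hx hh.2
        · intro v hv
          simp only [RS, mem_filter] at hv ⊢
          obtain ⟨hv1, n, hn, hr⟩ := hv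
          have h2 : (D \ X).erase z ⊆ D \ insert z (X.erase x) := by
            intro w hw
            simp only [mem_sdiff, mem_insert, mem_erase, not_or, not_and] at hw ⊢
            exact ⟨hw.2.1, hw.1, fun _ => hw.2.2⟩
          rcases hr.cut z with h3 | ⟨h3, _⟩
          · exact ⟨h2 h3.right, n, hn, h3.mono h2⟩
          · exact absurd h3 (hnz n hn)
      omega)
  obtain ⟨n1, n2, S1, S2, u1, u2, hne, hn1, hn2, hS1, hS2, hu1, hu2, hP1, hP2, hdis⟩ := hfan
  have main : ∀ Sx Sp ux u', Sx ⊆ D \ (X.erase x) → Sp ⊆ D \ (X.erase x) → R ux s → R u' s →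
      PS R Sx x ux → PS R Sp p u' → (∀ v ∈ Sx, v ∉ Sp) →
    ∃ n u S u' S', R s n ∧ R u s ∧ R u' s ∧ S ⊆ D \ (X.erase x) ∧ S' ⊆ D \ X ∧
      PS R S n u ∧ x ∈ S ∧ PS R S' p u' ∧ ∀ v ∈ S, v ∉ S' := by
    intro Sx Sp ux u' hSx hSp hux hu' hPx hPp hd
    obtain ⟨F, hF, hPF⟩ := (((hP0.2.2 x hx0).1).mono hS0).toPS
    have hxSp : x ∉ Sp := hd x hPx.1
    have hSp' : Sp ⊆ D \ X := by
      rw [hDX]
      intro v hv
      exact mem_erase.mpr ⟨by rintro rfl; exact hxSp hv, hSp hv⟩
    refine ⟨n0, ux, F ∪ Sx, u', Sp, hn0, hux, hu', union_subset hF hSx, hSp', hPF.append hPx,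
      mem_union_left _ hPF.2.1, hPp, ?_⟩
    intro v hv hvp
    rcases mem_union.mp hv with hv | hv
    · have h1 : Rc R (D \ X) v u' := ((hPp.2.2 v hvp).2).mono hSp'
      have h2 : Rc R (D \ (X.erase x)) n0 v := ((hPF.2.2 v hv).1).mono hF
      have h3 : Rc R (D \ (X.erase x)) v x := ((hPF.2.2 v hv).2).mono hF
      rcases h2.cut x with h4 | ⟨_, h4⟩
      · rw [← hDX] at h4
        exact h.tr n0 u' hn0 hu' (h4.trans h1)
      · exact hxSp (hD'.eq h3 h4 (Subset.refl _) (Subset.refl _) ▸ hvp)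
    · exact hd v hv hvp
  rcases hn1 with rfl | rfl
  · rcases hn2 with rfl | rfl
    · exact absurd rfl hne
    · exact main S1 S2 u1 u2 hS1 hS2 hu1 hu2 hP1 hP2 hdis
  · rcases hn2 with rfl | rfl
    · exact main S2 S1 u2 u1 hS2 hS1 hu2 hu1 hP2 hP1 (fun v hv hv' => hdis v hv' hv)
    · exact absurd rfl hne

end block


section block
variable {V : Type*} {R : V → V → Prop}

/-- the block of the circuits of `C` through `s` -/
structure Blk (R : V → V → Prop) (C : Finset V) (s : V) (G X A : Finset V) : Prop where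
  GC : G ⊆ C
  sG : s ∈ G
  mem : ∀ v, v ∈ G ↔ Rc R C s v ∧ Rc R C v s
  XG : X ⊆ G
  sX : s ∉ X
  AG : A ⊆ G
  sA : s ∉ A
  AX : ∀ v ∈ A, v ∉ X
  ac : Ac R (C \ X)
  b0 : ∀ v ∈ G, v ≠ s → Link R G v s
  b1' : ∀ y ∈ X, ∃ E ⊆ G, Link R E y s ∧ ∀ v ∈ E, v ∈ X → v = y
  b1 : ∀ y ∈ X, ∀ y' ∈ X, y ≠ y' → ∃ E ⊆ G, ∃ E' ⊆ G, Link R E y s ∧ Link R E' y' s ∧
    (∀ v ∈ E, v ∈ E' → v = s) ∧ (∀ v ∈ E, v ∈ X → v = y) ∧ (∀ v ∈ E', v ∈ X → v = y')
  b2 : ∀ x ∈ X, ∀ p ∈ G, p ≠ s → p ≠ x →
    (∃ E ⊆ G, ∃ P ⊆ G, Link R E x s ∧ Rc R P p s ∧ ∀ v ∈ E, v ∈ P → v = s) ∨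
    (p ∉ X ∧ p ∉ A ∧ ∃ Z ⊆ G, ∃ P, P ⊆ insert x (insert s A) ∧ Rc R Z p x ∧ Rc R P x s ∧
      ∀ v ∈ Z, (v ∈ A ∨ v ∈ X ∨ v = s) → v = x)
  b3 : ∀ a ∈ G, a ≠ s → a ∉ X → a ∉ A → ∀ b, (b ∈ A ∨ b = s) → ¬ Rc R (C \ X) a b

theorem exists_blk (hirr : ∀ v, ¬ R v v) {C : Finset V} {s : V} (hs : s ∈ C)
    (hD : Ac R (C.erase s)) : ∃ G X A, Blk R C s G X A := by
  obtain ⟨X, hX⟩ := exists_MT (R := R) (C.erase s) s
  have hsD : s ∉ C.erase s := by simp
  have hDC : C.erase s ⊆ C := erase_subset _ _
  have hXD := hX.sub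
  obtain ⟨G, hG⟩ : ∃ G, G = C.filter (fun v => Rc R C s v ∧ Rc R C v s) := ⟨_, rfl⟩
  have memG : ∀ v, v ∈ G ↔ Rc R C s v ∧ Rc R C v s := by
    intro v
    rw [hG, mem_filter]
    exact ⟨fun h => h.2, fun h => ⟨h.2.1, h⟩⟩
  obtain ⟨A, hA⟩ : ∃ A, A = G.filter (fun v => v ≠ s ∧ v ∉ X ∧ Rc R (C \ X) v s) := ⟨_, rfl⟩
  have memA : ∀ v, v ∈ A ↔ v ∈ G ∧ v ≠ s ∧ v ∉ X ∧ Rc R (C \ X) v s := by
    intro v
    rw [hA, mem_filter]
  have hsX : s ∉ X := fun h => hsD (hXD h)
  have hEr : (C \ X).erase s = C.erase s \ X := by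
    ext v
    simp only [mem_erase, mem_sdiff]
    tauto
  have hDXC : C.erase s \ X ⊆ C \ X := by
    intro v hv
    simp only [mem_erase, mem_sdiff] at hv ⊢
    exact ⟨hv.1.2, hv.2⟩
  have hsCX : s ∈ C \ X := mem_sdiff.mpr ⟨hs, hsX⟩
  have GofPS : ∀ S n u, S ⊆ C.erase s → PS R S n u → R s n → R u s → insert s S ⊆ G := by
    intro S n u hS hP hn hu x hx
    rw [memG]
    rcases mem_insert.mp hx with hx | hx
    · subst hx; exact ⟨Rc.rfl' hs, Rc.rfl' hs⟩
    · exact ⟨Rc.head hn hs (((hP.2.2 x hx).1).mono (hS.trans hDC)),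
        (((hP.2.2 x hx).2).mono (hS.trans hDC)).tail hu hs⟩
  have subD : ∀ y, C.erase s \ (X.erase y) ⊆ C.erase s := fun _ => sdiff_subset
  -- an element of `A` reaches `s` directly
  have memA' : ∀ v, v ∈ A → ∃ u, R u s ∧ Rc R (C.erase s \ X) v u := by
    intro v hv
    rw [memA] at hv
    obtain ⟨u, hu, hr⟩ := hv.2.2.2.inn hv.2.1
    exact ⟨u, hu, hEr ▸ hr⟩
  have toA : ∀ v u, v ∈ G → R u s → Rc R (C.erase s \ X) v u → v ∈ A := by
    intro v u hv hu hr
    rw [memA]
    have h1 := hr.left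
    simp only [mem_sdiff, mem_erase] at h1
    exact ⟨hv, h1.1.1, h1.2, (hr.mono hDXC).tail hu hsCX⟩
  have hSX : ∀ y S, S ⊆ C.erase s \ (X.erase y) → ∀ v ∈ insert s S, v ∈ X → v = y := by
    intro y S hS v hv hvX
    rcases mem_insert.mp hv with hv | hv
    · subst hv; exact absurd hvX hsX
    · have := hS hv
      simp only [mem_sdiff, mem_erase, not_and] at this
      by_contra hne
      exact this.2 hne hvX
  have hDX : ∀ x ∈ X, C.erase s \ X = (C.erase s \ (X.erase x)).erase x := by
    intro x hx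
    ext v
    simp only [mem_sdiff, mem_erase, not_and]
    constructor
    · rintro ⟨h1, h2⟩
      exact ⟨fun hvx => h2 (hvx ▸ hx), h1, fun _ => h2⟩
    · rintro ⟨h1, h2, h3⟩
      exact ⟨h2, h3 h1⟩
  have b1 : ∀ y ∈ X, ∃ E ⊆ G, Link R E y s ∧ ∀ v ∈ E, v ∈ X → v = y := by
    intro y hy
    obtain ⟨n, u, S, hn, hu, hS, hP, hyS⟩ := hX.single hy
    exact ⟨insert s S, GofPS S n u (hS.trans (subD y)) hP hn hu,
      linkOfPS hD (hS.trans (subD y)) hsD hP hn hu hyS, hSX y S hS⟩
  refine ⟨G, X, A, ?_⟩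
  refine ⟨?_, ?_, memG, ?_, hsX, ?_, ?_, ?_, ?_, ?_, b1, ?_, ?_, ?_⟩
  · rw [hG]; exact filter_subset _ _
  · rw [memG]; exact ⟨Rc.rfl' hs, Rc.rfl' hs⟩
  · intro y hy
    obtain ⟨E, hE, hl, _⟩ := b1 y hy
    exact hE hl.left
  · rw [hA]; exact filter_subset _ _
  · rw [memA]; rintro ⟨_, h, _⟩; exact h rfl
  · intro v hv; rw [memA] at hv; exact hv.2.2.1
  · -- acyclicity
    intro u v huv hu hr
    rcases hr.cut s with h | ⟨h1, h2⟩
    · rw [hEr] at h
      exact hD u v huv (sdiff_subset h.right) (h.mono sdiff_subset)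
    · by_cases hvs : v = s
      · subst hvs
        have hus : u ≠ v := by rintro rfl; exact hirr _ huv
        obtain ⟨n, hn, hr'⟩ := h2.out hus
        rw [hEr] at hr'
        exact hX.tr n u hn huv hr'
      · obtain ⟨u', hu', hr'⟩ := h1.inn hvs
        rw [hEr] at hr'
        by_cases hus : u = s
        · subst hus
          exact hX.tr v u' huv hu' hr'
        · obtain ⟨n, hn, hr2⟩ := h2.out hus
          rw [hEr] at hr2
          exact hX.tr n u' hn hu' ((hr2.tail huv hr'.left).trans hr')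
  · -- b0
    intro v hv hvs
    rw [memG] at hv
    obtain ⟨n, hn, hr1⟩ := hv.1.out hvs
    obtain ⟨u, hu, hr2⟩ := hv.2.inn hvs
    obtain ⟨S1, hS1, hP1⟩ := hr1.toPS
    obtain ⟨S2, hS2, hP2⟩ := hr2.toPS
    have hP := hP1.append hP2
    have hS := union_subset hS1 hS2
    exact (linkOfPS hD hS hsD hP hn hu (mem_union_left _ hP1.2.1)).mono (GofPS _ n u hS hP hn hu)
  · -- b1
    intro y hy y' hy' hne
    obtain ⟨n, u, S, n', u', S', hn, hu, hn', hu', hS, hS', hP, hP', hyS, hyS', hd⟩ :=
      hX.pair hD hy hy' hne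
    refine ⟨insert s S, GofPS S n u (hS.trans (subD y)) hP hn hu,
      insert s S', GofPS S' n' u' (hS'.trans (subD y')) hP' hn' hu',
      linkOfPS hD (hS.trans (subD y)) hsD hP hn hu hyS,
      linkOfPS hD (hS'.trans (subD y')) hsD hP' hn' hu' hyS', ?_, hSX y S hS, hSX y' S' hS'⟩
    intro v hv hv'
    rcases mem_insert.mp hv with hv | hv
    · exact hv
    rcases mem_insert.mp hv' with hv' | hv'
    · exact hv'
    exact absurd hv' (hd v hv)
  · -- b2
    intro x hx p hp hps hpx
    have hD' : Ac R (C.erase s \ (X.erase x)) := hD.mono (subD x)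
    by_cases hpA : p ∈ A
    · left
      obtain ⟨up, hup, hrp⟩ := memA' p hpA
      obtain ⟨n, u, S, u', S', hn, hu, hu', hS, hS', hP, hxS, hP', hd⟩ := hX.extra hD hx hpx hup hrp
      have hS'D : S' ⊆ C.erase s := hS'.trans sdiff_subset
      refine ⟨insert s S, GofPS S n u (hS.trans (subD x)) hP hn hu, insert s S', ?_,
        linkOfPS hD (hS.trans (subD x)) hsD hP hn hu hxS,
        (hP'.rc.mono (subset_insert _ _)).tail hu' (mem_insert_self _ _), ?_⟩
      · intro v hv
        rw [memG]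
        rcases mem_insert.mp hv with hv | hv
        · subst hv; exact ⟨Rc.rfl' hs, Rc.rfl' hs⟩
        · exact ⟨((memG p).mp hp).1.trans (((hP'.2.2 v hv).1).mono (hS'D.trans hDC)),
            (((hP'.2.2 v hv).2).mono (hS'D.trans hDC)).tail hu' hs⟩
      · intro v hv hv'
        rcases mem_insert.mp hv with hv | hv
        · exact hv
        rcases mem_insert.mp hv' with hv' | hv'
        · exact hv'
        exact absurd hv' (hd v hv)
    by_cases hpX : p ∈ X
    · left
      obtain ⟨n, u, S, n', u', S', hn, hu, hn', hu', hS, hS', hP, hP', hyS, hyS', hd⟩ :=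
        hX.pair hD hx hpX hpx.symm
      refine ⟨insert s S, GofPS S n u (hS.trans (subD x)) hP hn hu,
        insert s S', GofPS S' n' u' (hS'.trans (subD p)) hP' hn' hu',
        linkOfPS hD (hS.trans (subD x)) hsD hP hn hu hyS,
        (linkOfPS hD (hS'.trans (subD p)) hsD hP' hn' hu' hyS').rc, ?_⟩
      intro v hv hv'
      rcases mem_insert.mp hv with hv | hv
      · exact hv
      rcases mem_insert.mp hv' with hv' | hv'
      · exact hv'
      exact absurd hv' (hd v hv)
    -- `p` is neither in `A` nor in `X`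
    have hpD : p ∈ C.erase s := mem_erase.mpr ⟨hps, ((memG p).mp hp).2.left⟩
    have hpA' : ∀ u, R u s → ¬ Rc R (C.erase s \ X) p u := fun u hu hr => hpA (toA p u hp hu hr)
    by_cases hr : Rc R (C.erase s \ (X.erase x)) p x
    · right
      refine ⟨hpX, hpA, ?_⟩
      obtain ⟨Z, hZ, hPZ⟩ := hr.toPS
      obtain ⟨n, u, S, hn, hu, hS, hP, hxS⟩ := hX.single hx
      obtain ⟨P', hP'S, hPP⟩ := ((hP.2.2 x hxS).2).toPS
      have hxG : x ∈ G := GofPS S n u (hS.trans (subD x)) hP hn hu (mem_insert_of_mem hxS)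
      have hZD : Z ⊆ C.erase s := hZ.trans (subD x)
      refine ⟨Z, ?_, insert s P', ?_, hPZ.rc, (hPP.rc.mono (subset_insert _ _)).tail hu (mem_insert_self _ _), ?_⟩
      · intro v hv
        rw [memG]
        exact ⟨((memG p).mp hp).1.trans (((hPZ.2.2 v hv).1).mono (hZD.trans hDC)),
          (((hPZ.2.2 v hv).2).mono (hZD.trans hDC)).trans ((memG x).mp hxG).2⟩
      · intro v hv
        rcases mem_insert.mp hv with hv | hv
        · subst hv; simp
        by_cases hvx : v = x
        · subst hvx; simp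
        refine mem_insert_of_mem (mem_insert_of_mem ?_)
        have hvS : v ∈ S := hP'S hv
        have hvG : v ∈ G := GofPS S n u (hS.trans (subD x)) hP hn hu (mem_insert_of_mem hvS)
        refine toA v u hvG hu ?_
        rcases (((hPP.2.2 v hv).2).mono (hP'S.trans hS)).cut x with h | ⟨h, _⟩
        · rw [hDX x hx]; exact h
        · exact absurd (hD'.eq h ((hPP.2.2 v hv).1) (Subset.refl _) (hP'S.trans hS)) hvx
      · intro v hv hv'
        by_contra hvx
        rcases hv' with hv' | hv' | hv'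
        · obtain ⟨u', hu', hr'⟩ := memA' v hv'
          rcases (((hPZ.2.2 v hv).1).mono hZ).cut x with h | ⟨_, h⟩
          · rw [← hDX x hx] at h
            exact hpA' u' hu' (h.trans hr')
          · exact hvx (hD'.eq ((hPZ.2.2 v hv).2) h hZ (Subset.refl _))
        · exact hvx (hSX x Z hZ v (mem_insert_of_mem hv) hv')
        · subst hv'; exact hsD (hZD hv)
    · left
      -- first element of `X` on a path from `p` to `s`
      obtain ⟨u0, hu0, hr0⟩ := ((memG p).mp hp).2.inn hps
      have hfirst : ∃ x' ∈ X, Rc R (C.erase s \ (X.erase x')) p x' := by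
        by_cases hno : Rc R (C.erase s \ X) p u0
        · exact absurd hno (hpA' u0 hu0)
        have : (∃ x' ∈ X, Rc R (C.erase s \ (X.erase x')) p x') ∨ Rc R (C.erase s \ X) p u0 := by
          refine Rc.induct (p := fun w => (∃ x' ∈ X, Rc R (C.erase s \ (X.erase x')) p x') ∨
            Rc R (C.erase s \ X) p w) ?_ ?_ hr0
          · intro _; right; exact Rc.rfl' (mem_sdiff.mpr ⟨hpD, hpX⟩)
          · intro a b _ ih hab hb
            rcases ih with ih | ih
            · exact Or.inl ih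
            by_cases hbX : b ∈ X
            · left
              refine ⟨b, hbX, (ih.mono ?_).tail hab ?_⟩
              · rw [hDX b hbX]; exact erase_subset _ _
              · simp only [mem_sdiff, mem_erase, not_and]
                exact ⟨mem_erase.mp hb, fun h => absurd rfl h⟩
            · exact Or.inr (ih.tail hab (mem_sdiff.mpr ⟨hb, hbX⟩))
        rcases this with h | h
        · exact h
        · exact absurd h hno
      obtain ⟨x', hx', hrx'⟩ := hfirst
      have hxx' : x' ≠ x := by rintro rfl; exact hr hrx'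
      obtain ⟨n, u, S, n', u', S', hn, hu, hn', hu', hS, hS', hP, hP', hyS, hyS', hd⟩ :=
        hX.pair hD hx hx' hxx'.symm
      obtain ⟨Z, hZ, hPZ⟩ := hrx'.toPS
      have hZD : Z ⊆ C.erase s := hZ.trans (subD x')
      have hE : insert s S ⊆ G := GofPS S n u (hS.trans (subD x)) hP hn hu
      have hE' : insert s S' ⊆ G := GofPS S' n' u' (hS'.trans (subD x')) hP' hn' hu'
      have hx'G : x' ∈ G := hE' (mem_insert_of_mem hyS')
      refine ⟨insert s S, hE, Z ∪ insert s S', union_subset ?_ hE',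
        linkOfPS hD (hS.trans (subD x)) hsD hP hn hu hyS,
        hPZ.rc.trans' (linkOfPS hD (hS'.trans (subD x')) hsD hP' hn' hu' hyS').rc
          subset_union_left subset_union_right, ?_⟩
      · intro v hv
        rw [memG]
        exact ⟨((memG p).mp hp).1.trans (((hPZ.2.2 v hv).1).mono (hZD.trans hDC)),
          (((hPZ.2.2 v hv).2).mono (hZD.trans hDC)).trans ((memG x').mp hx'G).2⟩
      · intro v hv hv'
        rcases mem_insert.mp hv with hv | hv
        · exact hv
        rcases mem_union.mp hv' with hv' | hv'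
        · exfalso
          have hD'' : Ac R (C.erase s \ (X.erase x')) := hD.mono (subD x')
          have hvx' : v ≠ x' := by rintro rfl; exact hd _ hv hyS'
          have hvX : v ∉ X := fun h => hvx' (hSX x' Z hZ v (mem_insert_of_mem hv') h)
          have hvx : v ≠ x := by rintro rfl; exact hvX hx
          have h1 : Rc R (C.erase s \ X) p v := by
            rcases (((hPZ.2.2 v hv').1).mono hZ).cut x' with h | ⟨_, h⟩
            · rw [hDX x' hx']; exact h
            · exact absurd (hD''.eq ((hPZ.2.2 v hv').2) h hZ (Subset.refl _)) hvx'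
          rcases (((hP.2.2 v hv).2).mono hS).cut x with h | ⟨h, _⟩
          · rw [← hDX x hx] at h
            exact hpA' u hu (h1.trans h)
          · refine hr ((h1.mono ?_).trans h)
            rw [hDX x hx]; exact erase_subset _ _
        · rcases mem_insert.mp hv' with hv' | hv'
          · exact hv'
          · exact absurd hv' (hd v hv)
  · -- b3
    intro a haG has haX haA b hb hr
    apply haA
    rw [memA]
    refine ⟨haG, has, haX, ?_⟩
    rcases hb with hb | rfl
    · exact hr.trans ((memA b).mp hb).2.2.2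
    · exact hr

end block


section lists
variable {V : Type*}

/-- `l` is the list of interior vertices of a path from `u` to `v`. -/
def Pth (R : V → V → Prop) (u v : V) (l : List V) : Prop :=
  (u :: (l ++ [v])).Nodup ∧ (u :: (l ++ [v])).IsChain R

theorem Pth.split {R : V → V → Prop} {u v w : V} {s t : List V} (h : Pth R u v (s ++ w :: t)) :
    Pth R u w s ∧ Pth R w v t := by
  obtain ⟨h1, h2⟩ := h
  have e : u :: (s ++ w :: t ++ [v]) = u :: (s ++ w :: (t ++ [v])) := by simp
  rw [e] at h1 h2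
  rw [List.isChain_cons_split] at h2
  refine ⟨⟨?_, h2.1⟩, ⟨?_, h2.2⟩⟩
  · refine h1.sublist ?_
    simp
  · refine h1.sublist ?_
    have : w :: (t ++ [v]) = [] ++ (w :: (t ++ [v])) := rfl
    refine List.Sublist.cons _ ?_
    exact List.sublist_append_right s _

theorem Pth.join {R : V → V → Prop} {u v w : V} {s t : List V} (h1 : Pth R u w s)
    (h2 : Pth R w v t) (hd : ∀ z ∈ s, z ∉ t ∧ z ≠ v) (hu : u ≠ v) (hut : u ∉ t) :
    Pth R u v (s ++ w :: t) := by
  obtain ⟨a1, a2⟩ := h1
  obtain ⟨b1, b2⟩ := h2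
  have e : u :: (s ++ w :: t ++ [v]) = u :: (s ++ w :: (t ++ [v])) := by simp
  refine ⟨?_, ?_⟩
  · rw [e]
    simp only [List.nodup_cons, List.mem_append, List.mem_cons, List.nodup_append,
      List.not_mem_nil, or_false, not_or] at a1 b1 ⊢
    grind
  · rw [e, List.isChain_cons_split]; exact ⟨a2, b2⟩

theorem Pth.ne {R : V → V → Prop} {u v : V} {l : List V} (h : Pth R u v l) : u ≠ v := by
  obtain ⟨h1, _⟩ := h
  simp only [List.nodup_cons, List.mem_append, List.mem_cons, List.not_mem_nil, or_false,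
    not_or] at h1
  exact h1.1.2

theorem Pth.not_mem_left {R : V → V → Prop} {u v : V} {l : List V} (h : Pth R u v l) : u ∉ l := by
  obtain ⟨h1, _⟩ := h
  simp only [List.nodup_cons, List.mem_append, List.mem_cons, List.not_mem_nil, or_false,
    not_or] at h1
  exact h1.1.1

theorem Pth.not_mem_right {R : V → V → Prop} {u v : V} {l : List V} (h : Pth R u v l) : v ∉ l := by
  obtain ⟨h1, _⟩ := h
  simp only [List.nodup_cons, List.nodup_append, List.mem_cons] at h1
  intro hv
  exact h1.2.2.2 v hv v (by simp) rfl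

theorem Pth.nodup {R : V → V → Prop} {u v : V} {l : List V} (h : Pth R u v l) : l.Nodup := by
  obtain ⟨h1, _⟩ := h
  simp only [List.nodup_cons, List.nodup_append, List.mem_cons] at h1
  exact h1.2.1

theorem pth_nil {R : V → V → Prop} {u v : V} (hR : R u v) (h : u ≠ v) : Pth R u v [] := by
  refine ⟨by simp [h], by simp [hR]⟩

theorem Pth.mono {R S : V → V → Prop} {u v : V} {l : List V} (h : Pth R u v l)
    (hRS : ∀ a b, R a b → S a b) : Pth S u v l :=
  ⟨h.1, h.2.imp hRS⟩

/-- the first relation on a path -/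
theorem Pth.first {R : V → V → Prop} {u v : V} {l : List V} (h : Pth R u v l) :
    ∃ w, R u w := by
  obtain ⟨_, h2⟩ := h
  cases l with
  | nil => exact ⟨v, by simpa using h2⟩
  | cons a t =>
    simp only [List.cons_append, List.isChain_cons_cons] at h2
    exact ⟨a, h2.1⟩

theorem Pth.mem_of {R : V → V → Prop} {u v : V} {l : List V} {p : V → Prop} (h : Pth R u v l)
    (hR : ∀ a b, R a b → p a) : ∀ w ∈ l, p w := by
  intro w hw
  obtain ⟨s, t, rfl⟩ := List.append_of_mem hw
  obtain ⟨b, hb⟩ := h.split.2.first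
  exact hR _ _ hb

theorem reachPath {R : V → V → Prop} {u v : V} (h : Relation.ReflTransGen R u v) :
    u = v ∨ ∃ l, Pth R u v l := by
  induction h with
  | refl => left; rfl
  | tail hab hbc ih =>
    rename_i b c
    by_cases huc : u = c
    · left; exact huc
    right
    rcases ih with rfl | ⟨l, hl⟩
    · exact ⟨[], pth_nil hbc huc⟩
    · by_cases hcl : c ∈ l
      · obtain ⟨s, t, rfl⟩ := List.append_of_mem hcl
        exact ⟨s, hl.split.1⟩
      · by_cases hbc' : b = c
        · subst hbc'; exact ⟨l, hl⟩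
        · refine ⟨l ++ b :: [], hl.join (pth_nil hbc hbc') ?_ huc (by simp)⟩
          intro z hz
          refine ⟨by simp, ?_⟩
          rintro rfl; exact hcl hz

variable {R : V → V → Prop}

theorem Rc.pth {S : Finset V} {u v : V} (h : Rc R S u v) (hne : u ≠ v) :
    ∃ l, Pth R u v l ∧ ∀ x ∈ l, x ∈ S := by
  have h2 : Relation.ReflTransGen (fun a b => R a b ∧ a ∈ S ∧ b ∈ S) u v := by
    obtain ⟨h1, h3⟩ := h
    clear hne
    have : u ∈ S ∧ Relation.ReflTransGen (fun a b => R a b ∧ a ∈ S ∧ b ∈ S) u v ∧ v ∈ S := by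
      induction h3 with
      | refl => exact ⟨h1, Relation.ReflTransGen.refl, h1⟩
      | tail _ hbc ih =>
        exact ⟨h1, ih.2.1.tail ⟨hbc.1, ih.2.2, hbc.2⟩, hbc.2⟩
    exact this.2.1
  rcases reachPath h2 with h | ⟨l, hl⟩
  · exact absurd h hne
  · exact ⟨l, hl.mono (fun _ _ h => h.1), hl.mem_of (fun _ _ h => h.2.1)⟩

theorem chainRc : ∀ (l : List V) (a b : V), (a :: (l ++ [b])).IsChain R →
    Rc R (a :: (l ++ [b])).toFinset a b := by
  intro l
  induction l with
  | nil =>
    intro a b h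
    have : R a b := by simpa using h
    exact Rc.step this (by simp) (by simp)
  | cons c l ih =>
    intro a b h
    simp only [List.cons_append, List.isChain_cons_cons] at h
    have h1 := ih c b h.2
    refine Rc.head h.1 (by simp) (h1.mono ?_)
    intro x hx
    simp only [List.mem_toFinset, List.cons_append, List.mem_cons, List.mem_append] at hx ⊢
    tauto

/-- a set such that any two of its elements lie on a circuit in it -/
def Circ (R : V → V → Prop) (g : Finset V) : Prop := ∀ x ∈ g, ∀ y ∈ g, x ≠ y → Link R g x y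

theorem circ_aux {w : V} {l p q1 q2 : List V} {x y : V} (hn : (w :: l).Nodup)
    (hc : (w :: (l ++ [w])).IsChain R) (he : w :: l = p ++ x :: (q1 ++ y :: q2)) :
    Link R (w :: l).toFinset x y := by
  have he' : w :: (l ++ [w]) = p ++ x :: (q1 ++ y :: (q2 ++ [w])) := by
    have := congrArg (fun t => t ++ [w]) he
    simpa using this
  rw [he'] at hc
  have hc1 := (List.isChain_append.mp hc).2.1
  rw [List.isChain_cons_split] at hc1
  obtain ⟨hc1, hc2⟩ := hc1
  -- path from `w` to `x`
  have hwx : Rc R (p ++ [x]).toFinset w x := by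
    cases p with
    | nil =>
      simp only [List.nil_append, List.cons.injEq] at he
      rw [he.1]
      exact Rc.rfl' (by simp)
    | cons a p =>
      simp only [List.cons_append, List.cons.injEq] at he
      rw [he.1]
      have : (a :: (p ++ [x])).IsChain R := by
        have h3 : (a :: p ++ x :: (q1 ++ y :: (q2 ++ [w]))) =
          (a :: (p ++ x :: (q1 ++ y :: (q2 ++ [w])))) := by simp
        rw [h3, List.isChain_cons_split] at hc
        exact hc.1
      exact chainRc p a x this
  have hw : w ∈ p ++ [x] := List.mem_toFinset.mp hwx.left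
  rw [he] at hn
  have hxy : x ≠ y := by
    rintro rfl
    simp [List.nodup_append] at hn
  refine ⟨hxy, (x :: (q1 ++ [y])).toFinset, (y :: (q2 ++ [w])).toFinset ∪ (p ++ [x]).toFinset,
    chainRc q1 x y hc1, (chainRc q2 y w hc2).trans' hwx subset_union_left subset_union_right, ?_, ?_, ?_⟩
  · intro v hv hv'
    simp only [List.mem_toFinset, mem_union, List.mem_cons, List.mem_append, List.not_mem_nil,
      or_false] at hv hv' hw
    simp only [List.nodup_append, List.nodup_cons, List.mem_cons, List.mem_append] at hn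
    obtain ⟨hp, ⟨hx1, hq1, hq2, hq12⟩, hpq⟩ := hn
    push Not at hx1
    rcases hv with hv | hv | hv
    · exact Or.inl hv
    · exfalso
      rcases hv' with (hv' | hv' | hv') | hv' | hv'
      · exact hq12 v hv y (Or.inl rfl) hv'
      · exact hq12 v hv v (Or.inr hv') rfl
      · subst hv'
        rcases hw with hw | hw
        · exact hpq _ hw _ (Or.inr (Or.inl hv)) rfl
        · subst hw; exact hx1.1 hv
      · exact hpq _ hv' _ (Or.inr (Or.inl hv)) rfl
      · subst hv'; exact hx1.1 hv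
    · exact Or.inr hv
  · rw [he]
    intro v hv
    simp only [List.mem_toFinset, List.mem_cons, List.mem_append, List.not_mem_nil, or_false] at hv ⊢
    tauto
  · intro v hv
    simp only [List.mem_toFinset, mem_union, List.mem_cons, List.mem_append, List.not_mem_nil,
      or_false] at hv
    rw [List.mem_toFinset]
    rcases hv with (hv | hv | hv) | hv | hv
    · rw [he]; simp [hv]
    · rw [he]; simp [hv]
    · simp [hv]
    · rw [he]; simp [hv]
    · rw [he]; simp [hv]

theorem circ_list {w : V} {l : List V} (hn : (w :: l).Nodup)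
    (hc : (w :: (l ++ [w])).IsChain R) : Circ R (w :: l).toFinset := by
  intro x hx y hy hxy
  rw [List.mem_toFinset] at hx hy
  obtain ⟨p, q, he⟩ := List.append_of_mem hx
  rw [he] at hy
  rcases List.mem_append.mp hy with hy | hy
  · obtain ⟨p1, p2, rfl⟩ := List.append_of_mem hy
    have : w :: l = p1 ++ y :: (p2 ++ x :: q) := by rw [he]; simp
    exact (circ_aux hn hc this).symm
  · rcases List.mem_cons.mp hy with hy | hy
    · exact absurd hy.symm hxy
    · obtain ⟨q1, q2, rfl⟩ := List.append_of_mem hy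
      exact circ_aux hn hc he

/-- two vertices, one of which meets all circuits, in a strong set lie on a circuit -/
theorem exists_circ {C : Finset V} {w v : V} (hD : Ac R (C.erase w)) (hvw : v ≠ w)
    (h1 : Rc R C w v) (h2 : Rc R C v w) : ∃ g ⊆ C, w ∈ g ∧ v ∈ g ∧ Circ R g := by
  obtain ⟨l1, hp1, hl1⟩ := h1.pth hvw.symm
  obtain ⟨l2, hp2, hl2⟩ := h2.pth hvw
  have hd : ∀ z ∈ l1, z ∉ l2 := by
    intro z hz1 hz2
    have hzv : z ≠ v := by rintro rfl; exact hp1.not_mem_right hz1
    obtain ⟨s, t, rfl⟩ := List.append_of_mem hz1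
    obtain ⟨s', t', rfl⟩ := List.append_of_mem hz2
    have hzt := hp1.split.2
    have hvs := hp2.split.1
    have r1 : Rc R (C.erase w) z v := by
      refine (chainRc _ _ _ hzt.2).mono ?_
      intro x hx
      simp only [List.mem_toFinset, List.mem_cons, List.mem_append, List.not_mem_nil, or_false] at hx
      rw [mem_erase]
      have hwn := hp1.not_mem_left
      rcases hx with hx | hx | hx
      · subst hx; exact ⟨by rintro rfl; exact hwn (by simp), hl1 _ (by simp)⟩
      · exact ⟨by rintro rfl; exact hwn (by simp [hx]), hl1 _ (by simp [hx])⟩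
      · subst hx; exact ⟨hvw, h2.left⟩
    have r2 : Rc R (C.erase w) v z := by
      refine (chainRc _ _ _ hvs.2).mono ?_
      intro x hx
      simp only [List.mem_toFinset, List.mem_cons, List.mem_append, List.not_mem_nil, or_false] at hx
      rw [mem_erase]
      have hwn := hp2.not_mem_right
      rcases hx with hx | hx | hx
      · subst hx; exact ⟨hvw, h2.left⟩
      · exact ⟨by rintro rfl; exact hwn (by simp [hx]), hl2 _ (by simp [hx])⟩
      · subst hx; exact ⟨by rintro rfl; exact hwn (by simp), hl2 _ (by simp)⟩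
    exact hzv (hD.eq r1 r2 (Subset.refl _) (Subset.refl _))
  refine ⟨(w :: (l1 ++ v :: l2)).toFinset, ?_, by simp, by simp, circ_list ?_ ?_⟩
  · intro x hx
    simp only [List.mem_toFinset, List.mem_cons, List.mem_append] at hx
    rcases hx with hx | hx | hx | hx
    · subst hx; exact h1.left
    · exact hl1 x hx
    · subst hx; exact h2.left
    · exact hl2 x hx
  · obtain ⟨a1, _⟩ := hp1
    obtain ⟨b1, _⟩ := hp2
    simp only [List.nodup_cons, List.mem_append, List.mem_cons, List.nodup_append,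
      List.not_mem_nil, or_false, not_or] at a1 b1 ⊢
    grind
  · have : w :: (l1 ++ v :: l2 ++ [w]) = w :: (l1 ++ v :: (l2 ++ [w])) := by simp
    rw [this, List.isChain_cons_split]
    exact ⟨hp1.2, hp2.2⟩

theorem Pth.fn {u v : V} {l : List V} (h : Pth R u v l) :
    ∃ (n : ℕ) (f : ℕ → V), 1 ≤ n ∧ f 0 = u ∧ f n = v ∧ (∀ k, k < n → R (f k) (f (k + 1))) ∧
      (∀ k, 0 < k → k < n → f k ∈ l) ∧ (∀ k k', k ≤ n → k' ≤ n → f k = f k' → k = k') := by
  have hlen : (u :: (l ++ [v])).length = l.length + 2 := by simp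
  refine ⟨l.length + 1, fun k => (u :: (l ++ [v])).getD k u, by omega, by simp, ?_, ?_, ?_, ?_⟩
  · simp
  · intro k hk
    have h1 : k + 1 < (u :: (l ++ [v])).length := by rw [hlen]; omega
    have h0 : k < (u :: (l ++ [v])).length := by rw [hlen]; omega
    have := h.2
    rw [List.isChain_iff_getElem] at this
    have h3 := this k (by rw [hlen]; omega)
    simp only [List.getD_eq_getElem?_getD, List.getElem?_eq_getElem h0, List.getElem?_eq_getElem h1,
      Option.getD_some]
    exact h3
  · intro k h0 hk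
    obtain ⟨k, rfl⟩ : ∃ j, k = j + 1 := ⟨k - 1, by omega⟩
    have hk' : k < l.length := by omega
    simp [List.getElem?_append_left hk', List.getElem?_eq_getElem hk']
  · intro k k' hk hk' he
    have h1 : k < (u :: (l ++ [v])).length := by rw [hlen]; omega
    have h0 : k' < (u :: (l ++ [v])).length := by rw [hlen]; omega
    simp only [List.getD_eq_getElem?_getD, List.getElem?_eq_getElem h0, List.getElem?_eq_getElem h1,
      Option.getD_some] at he
    exact (List.Nodup.getElem_inj_iff h.1).mp he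

end lists


section final
variable {V : Type*} {R : V → V → Prop}

theorem Ch.fn {r : ℕ} {a t : V} {S : Finset V} (h : Ch R r a t S) :
    ∃ (j : ℕ → V) (E : ℕ → Finset V), j 0 = a ∧ j r = t ∧ (∀ i, i < r → Link R (E i) (j i) (j (i + 1))) ∧
      (∀ i, i < r → E i ⊆ S) ∧ (∀ i, i ≤ r → j i ∈ S) ∧
      (∀ i i', i < i' → i' < r → ∀ x ∈ E i, x ∈ E i' → i' = i + 1 ∧ x = j i') := by
  induction h with
  | nil a =>
    exact ⟨fun _ => a, fun _ => ∅, rfl, rfl, fun i hi => absurd hi (by omega), fun i hi => absurd hi (by omega),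
      fun i _ => by simp, fun i i' _ hi => absurd hi (by omega)⟩
  | @cons r a m t E0 S hl hc hE ih =>
    obtain ⟨j, E, h0, hr, h1, h2, h3, h4⟩ := ih
    refine ⟨fun i => match i with | 0 => a | i + 1 => j i, fun i => match i with | 0 => E0 | i + 1 => E i,
      rfl, hr, ?_, ?_, ?_, ?_⟩
    · intro i hi
      cases i with
      | zero => simpa [h0] using hl
      | succ i => exact h1 i (by omega)
    · intro i hi
      cases i with
      | zero => exact subset_union_left
      | succ i => exact (h2 i (by omega)).trans subset_union_right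
    · intro i hi
      cases i with
      | zero => exact mem_union_left _ hl.left
      | succ i => exact mem_union_right _ (h3 i (by omega))
    · intro i i' hii hi' x hx hx'
      cases i' with
      | zero => omega
      | succ i' =>
        cases i with
        | zero =>
          have hxm : x = m := hE x hx (h2 i' (by omega) hx')
          have : i' = 0 := by
            by_contra hne
            have h5 := h4 0 i' (by omega) (by omega) x (by
              rw [hxm, ← h0]; exact (h1 0 (by omega)).left) hx'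
            have h6 : i' = 1 := h5.1
            subst h6
            have h7 := (h1 0 (by omega)).ne
            apply h7
            rw [h0, ← hxm]
            exact h5.2
          subst this
          exact ⟨rfl, by simpa [h0] using hxm⟩
        | succ i =>
          have := h4 i i' (by omega) (by omega) x hx hx'
          exact ⟨by omega, this.2⟩

/-- a subdivision of the bioriented cycle of length `ℓ` -/
def Concl (R : V → V → Prop) (ℓ : ℕ) : Prop :=
  ∃ (b : ℕ → V) (n : ℕ → Bool → ℕ) (P : ℕ → Bool → ℕ → V),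
        (∀ i j, i < ℓ → j < ℓ → b i = b j → i = j) ∧
        (∀ i, i < ℓ → ∀ d, 1 ≤ n i d) ∧
        (∀ i, i < ℓ →
          P i false 0 = b i ∧ P i false (n i false) = b ((i + 1) % ℓ) ∧
          P i true 0 = b ((i + 1) % ℓ) ∧ P i true (n i true) = b i) ∧
        (∀ i, i < ℓ → ∀ d, ∀ k, k < n i d → R (P i d k) (P i d (k + 1))) ∧
        (∀ i, i < ℓ → ∀ d, ∀ k, 0 < k → k < n i d → ∀ j, j < ℓ → P i d k ≠ b j) ∧
        (∀ i d k i' d' k', i < ℓ → i' < ℓ → 0 < k → k < n i d → 0 < k' → k' < n i' d' →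
          P i d k = P i' d' k' → i = i' ∧ d = d' ∧ k = k')

theorem Link.fn {S : Finset V} {u v : V} (h : Link R S u v) :
    ∃ (n : Bool → ℕ) (P : Bool → ℕ → V), (∀ d, 1 ≤ n d) ∧ P false 0 = u ∧ P false (n false) = v ∧
      P true 0 = v ∧ P true (n true) = u ∧ (∀ d k, k < n d → R (P d k) (P d (k + 1))) ∧
      (∀ d k, 0 < k → k < n d → P d k ∈ S ∧ P d k ≠ u ∧ P d k ≠ v) ∧
      (∀ d d' k k', 0 < k → k < n d → 0 < k' → k' < n d' → P d k = P d' k' → d = d' ∧ k = k') := by
  obtain ⟨hne, S1, S2, h1, h2, h3, h4, h5⟩ := h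
  obtain ⟨l1, hp1, hl1⟩ := h1.pth hne
  obtain ⟨l2, hp2, hl2⟩ := h2.pth hne.symm
  obtain ⟨n1, f1, a1, a2, a3, a4, a5, a6⟩ := hp1.fn
  obtain ⟨n2, f2, b1, b2, b3, b4, b5, b6⟩ := hp2.fn
  have dis : ∀ x ∈ l1, x ∉ l2 := by
    intro x hx hx'
    rcases h3 x (hl1 x hx) (hl2 x hx') with h | h
    · exact hp1.not_mem_left (h ▸ hx)
    · exact hp1.not_mem_right (h ▸ hx)
  refine ⟨fun d => if d then n2 else n1, fun d => if d then f2 else f1, ?_, by simpa using a2, by simpa using a3,
    by simpa using b2, by simpa using b3, ?_, ?_, ?_⟩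
  · intro d; cases d
    · simpa using a1
    · simpa using b1
  · intro d k; cases d
    · simpa using a4 k
    · simpa using b4 k
  · intro d k h0 hk
    cases d
    · simp only [Bool.false_eq_true, if_false] at hk ⊢
      have := a5 k h0 hk
      exact ⟨h4 (hl1 _ this), fun h => hp1.not_mem_left (h ▸ this), fun h => hp1.not_mem_right (h ▸ this)⟩
    · simp only [if_true] at hk ⊢
      have := b5 k h0 hk
      exact ⟨h5 (hl2 _ this), fun h => hp2.not_mem_right (h ▸ this), fun h => hp2.not_mem_left (h ▸ this)⟩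
  · intro d d' k k' h0 hk h0' hk' he
    cases d <;> cases d'
    · simp only [Bool.false_eq_true, if_false] at hk hk' he
      exact ⟨rfl, a6 k k' hk.le hk'.le he⟩
    · simp only [Bool.false_eq_true, if_false, if_true] at hk hk' he
      exact absurd (he ▸ b5 k' h0' hk') (dis _ (a5 k h0 hk))
    · simp only [Bool.false_eq_true, if_false, if_true] at hk hk' he
      exact absurd (he ▸ b5 k h0 hk) (dis _ (a5 k' h0' hk'))
    · simp only [if_true] at hk hk' he
      exact ⟨rfl, b6 k k' hk.le hk'.le he⟩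

theorem Neck.concl {r : ℕ} (hr : 2 ≤ r) (h : Neck R r) : Concl R (r + 1) := by
  obtain ⟨a, t, S, T, hch, hT, hST⟩ := h
  obtain ⟨j, E, h0, hjr, h1, h2, h3, h4⟩ := hch.fn
  -- injectivity of the joints
  have inj' : ∀ i i', i < i' → i' ≤ r → j i ≠ j i' := by
    intro i i' hii hi' he
    by_cases h5 : i' = i + 1
    · subst h5; exact (h1 i (by omega)).ne he
    · have hL := (h1 i (by omega)).left
      have hR := (h1 (i' - 1) (by omega)).right
      have h6 : i' - 1 + 1 = i' := by omega
      rw [h6, ← he] at hR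
      have h7 := h4 i (i' - 1) (by omega) (by omega) (j i) hL hR
      have h8 : i' - 1 = i + 1 := h7.1
      rw [h8] at h7
      exact (h1 i (by omega)).ne h7.2
  have inj : ∀ i i', i ≤ r → i' ≤ r → j i = j i' → i = i' := by
    intro i i' hi hi' he
    rcases lt_trichotomy i i' with h | h | h
    · exact absurd he (inj' i i' h hi')
    · exact h
    · exact absurd he.symm (inj' i' i h hi)
  -- the links
  obtain ⟨F, hF⟩ : ∃ F : ℕ → Finset V, F = fun i => if i < r then E i else T := ⟨_, rfl⟩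
  have hFr : ∀ i, i < r → F i = E i := by intro i hi; rw [hF]; simp [hi]
  have hFT : F r = T := by rw [hF]; simp
  have mod1 : ∀ i, i < r → (i + 1) % (r + 1) = i + 1 := by
    intro i hi; exact Nat.mod_eq_of_lt (by omega)
  have mod2 : (r + 1) % (r + 1) = 0 := Nat.mod_self _
  have hlink : ∀ i, i < r + 1 → Link R (F i) (j i) (j ((i + 1) % (r + 1))) := by
    intro i hi
    by_cases hir : i < r
    · rw [hFr i hir, mod1 i hir]; exact h1 i hir
    · have : i = r := by omega
      subst this
      rw [hFT, mod2, h0, hjr]; exact hT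
  have hbeta : ∀ i i', i < i' → i' < r + 1 → ∀ x ∈ F i, x ∈ F i' → ∃ k, k < r + 1 ∧ x = j k := by
    intro i i' hii hi' x hx hx'
    have hir : i < r := by omega
    rw [hFr i hir] at hx
    by_cases hir' : i' < r
    · rw [hFr i' hir'] at hx'
      exact ⟨i', by omega, (h4 i i' hii hir' x hx hx').2⟩
    · have : i' = r := by omega
      subst this
      rw [hFT] at hx'
      rcases hST x (h2 i hir hx) hx' with h | h
      · exact ⟨0, by omega, by rw [h0]; exact h⟩
      · exact ⟨i', by omega, by rw [hjr]; exact h⟩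
  have hgamma : ∀ i k, i < r + 1 → k < r + 1 → j k ∈ F i → k = i ∨ k = (i + 1) % (r + 1) := by
    intro i k hi hk hm
    by_cases hir : i < r
    · rw [hFr i hir] at hm
      rw [mod1 i hir]
      rcases lt_trichotomy k i with h | h | h
      · exfalso
        have := h4 k i h hir (j k) (h1 k (by omega)).left hm
        exact absurd (inj k i (by omega) (by omega) this.2) (by omega)
      · exact Or.inl h
      · by_cases h5 : k = i + 1
        · exact Or.inr h5
        · exfalso
          have hR := (h1 (k - 1) (by omega)).right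
          have h6 : k - 1 + 1 = k := by omega
          rw [h6] at hR
          have := h4 i (k - 1) (by omega) (by omega) (j k) hm hR
          exact absurd (inj k (k - 1) (by omega) (by omega) this.2) (by omega)
    · have : i = r := by omega
      subst this
      rw [hFT] at hm
      rw [mod2]
      rcases hST _ (h3 k (by omega)) hm with h | h
      · right; exact inj k 0 (by omega) (by omega) (by rw [h0]; exact h)
      · left; exact inj k i (by omega) (by omega) (by rw [hjr]; exact h)
  -- choose the paths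
  have hch : ∀ i, ∃ (n : Bool → ℕ) (P : Bool → ℕ → V), i < r + 1 → ((∀ d, 1 ≤ n d) ∧ P false 0 = j i ∧
      P false (n false) = j ((i + 1) % (r + 1)) ∧
      P true 0 = j ((i + 1) % (r + 1)) ∧ P true (n true) = j i ∧ (∀ d k, k < n d → R (P d k) (P d (k + 1))) ∧
      (∀ d k, 0 < k → k < n d → P d k ∈ F i ∧ P d k ≠ j i ∧ P d k ≠ j ((i + 1) % (r + 1))) ∧
      (∀ d d' k k', 0 < k → k < n d → 0 < k' → k' < n d' → P d k = P d' k' → d = d' ∧ k = k')) := by
    intro i
    by_cases hi : i < r + 1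
    · obtain ⟨n, P, h⟩ := (hlink i hi).fn
      exact ⟨n, P, fun _ => h⟩
    · exact ⟨fun _ => 0, fun _ _ => j 0, fun h => absurd h hi⟩
  choose n P hnP using hch
  have hjoint : ∀ i, i < r + 1 → ∀ d, ∀ k, 0 < k → k < n i d → ∀ m, m < r + 1 → P i d k ≠ j m := by
    intro i hi d k h0k hk m hm he
    obtain ⟨_, _, _, _, _, _, h7, _⟩ := hnP i hi
    have := h7 d k h0k hk
    rw [he] at this
    rcases hgamma i m hi hm this.1 with h | h
    · subst h; exact this.2.1 rfl
    · subst h; exact this.2.2 rfl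
  refine ⟨j, n, P, fun i i' hi hi' he => inj i i' (by omega) (by omega) he, ?_, ?_, ?_,
    hjoint, ?_⟩
  · intro i hi; exact (hnP i hi).1
  · intro i hi
    obtain ⟨_, h2, h3, h4, h5, _⟩ := hnP i hi
    exact ⟨h2, h3, h4, h5⟩
  · intro i hi
    obtain ⟨_, h2, h3, h4, h5, h6, _⟩ := hnP i hi
    exact h6
  · intro i d k i' d' k' hi hi' h0k hk h0k' hk' he
    obtain ⟨_, _, _, _, _, _, h7, h8⟩ := hnP i hi
    obtain ⟨_, _, _, _, _, _, h7', h8'⟩ := hnP i' hi'
    rcases lt_trichotomy i i' with h | h | h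
    · exfalso
      obtain ⟨m, hm, hx⟩ := hbeta i i' h hi' _ (h7 d k h0k hk).1 (he ▸ (h7' d' k' h0k' hk').1)
      exact hjoint i hi d k h0k hk m hm hx
    · subst h
      exact ⟨rfl, h8 d d' k k' h0k hk h0k' hk' he⟩
    · exfalso
      obtain ⟨m, hm, hx⟩ := hbeta i' i h hi _ (h7' d' k' h0k' hk').1 (he ▸ (h7 d k h0k hk).1)
      exact hjoint i' hi' d' k' h0k' hk' m hm hx

end final


section state
variable {V : Type*} {R : V → V → Prop}

def par (n : ℕ) : Bool := decide (n % 2 = 1)

theorem par_eq {n m : ℕ} : par n = par m ↔ n % 2 = m % 2 := by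
  unfold par
  rw [decide_eq_decide]
  omega

structure St (V : Type*) where
  P : Finset V
  U : Finset V
  W : Finset V
  col : V → Bool
  lev : V → ℕ
  home : V → V
  G : V → Finset V
  X : V → Finset V
  A : V → Finset V
  Sub : V → Finset V

/-- exceptional pairs -/
def Exc (R : V → V → Prop) (k0 : V) (σ : St V) (s b : V) : Prop :=
  s ≠ k0 ∧ b ≠ k0 ∧ b ∈ σ.W ∧ σ.home b = σ.home s ∧ b ∉ σ.P ∧ b ∉ σ.U ∧ b ∉ σ.A (σ.home s) ∧
  Sep R σ.W k0 0 s b ∧
  ∃ Z ⊆ σ.G (σ.home s), ∃ P, P ⊆ insert s (insert (σ.home s) (σ.A (σ.home s))) ∧ Rc R Z b s ∧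
    Rc R P s (σ.home s) ∧ ∀ v ∈ Z, (v ∈ σ.A (σ.home s) ∨ v ∈ σ.X (σ.home s) ∨ v = σ.home s) → v = s

structure Inv (R : V → V → Prop) (K : Finset V) (k0 : V) (σ : St V) : Prop where
  WK : σ.W ⊆ K
  k0W : k0 ∈ σ.W
  PU : ∀ v ∈ σ.P, v ∉ σ.U
  PW : σ.P ⊆ σ.W
  UW : σ.U ⊆ σ.W
  lev0 : σ.lev k0 = 0
  hm : ∀ v ∈ σ.W, v ≠ k0 → σ.home v ∈ σ.P ∧ v ∈ σ.G (σ.home v) ∧ v ≠ σ.home v ∧
    σ.lev v = σ.lev (σ.home v) + 1
  hu : ∀ s ∈ σ.P, ∀ v ∈ σ.G s, v ≠ s → v ≠ k0 ∧ σ.home v = s
  GW : ∀ s ∈ σ.P, σ.G s ⊆ σ.W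
  sG : ∀ s ∈ σ.P, s ∈ σ.G s
  k0T : k0 ∈ σ.P ∨ k0 ∈ σ.U
  tok : ∀ v ∈ σ.W, v ≠ k0 → ((v ∈ σ.P ∨ v ∈ σ.U) ↔ v ∈ σ.X (σ.home v))
  XG : ∀ s ∈ σ.P, σ.X s ⊆ σ.G s
  sX : ∀ s ∈ σ.P, s ∉ σ.X s
  AG : ∀ s ∈ σ.P, σ.A s ⊆ σ.G s
  sA : ∀ s ∈ σ.P, s ∉ σ.A s
  AX : ∀ s ∈ σ.P, ∀ v ∈ σ.A s, v ∉ σ.X s
  colP : ∀ s ∈ σ.P, σ.col s = par (σ.lev s)
  colG : ∀ s ∈ σ.P, ∀ v ∈ σ.G s, v ≠ s → v ∉ σ.X s → σ.col v = par (σ.lev s)
  prop : ∀ κ, Ac R (K.filter (fun v => v ∉ σ.U ∧ σ.col v = κ))
  bfs : ∀ s ∈ σ.P, ∀ u ∈ σ.U, σ.lev s ≤ σ.lev u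
  b1' : ∀ s ∈ σ.P, ∀ y ∈ σ.X s, ∃ E ⊆ σ.G s, Link R E y s ∧ ∀ v ∈ E, v ∈ σ.X s → v = y
  b1 : ∀ s ∈ σ.P, ∀ y ∈ σ.X s, ∀ y' ∈ σ.X s, y ≠ y' → ∃ E ⊆ σ.G s, ∃ E' ⊆ σ.G s,
    Link R E y s ∧ Link R E' y' s ∧
    (∀ v ∈ E, v ∈ E' → v = s) ∧ (∀ v ∈ E, v ∈ σ.X s → v = y) ∧ (∀ v ∈ E', v ∈ σ.X s → v = y')
  b3 : ∀ s ∈ σ.P, ∀ a ∈ σ.G s, a ≠ s → a ∉ σ.X s → a ∉ σ.A s → ∀ b, (b ∈ σ.A s ∨ b = s) →
    ∀ I ⊆ K, (∀ v ∈ I, v ∉ σ.W ∧ σ.col v = par (σ.lev s)) → ¬ Rc R (insert a (insert b I)) a b
  sub : ∀ a, (a ∈ σ.P ∨ a ∈ σ.U) → ∀ v ∈ σ.W, (v ∈ σ.Sub a ↔ v = a ∨ (v ≠ k0 ∧ σ.home v ∈ σ.Sub a))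
  subU : ∀ u ∈ σ.U, σ.Sub u = {u}
  subW : ∀ a, (a ∈ σ.P ∨ a ∈ σ.U) → σ.Sub a ⊆ σ.W
  up : ∀ a, (a ∈ σ.P ∨ a ∈ σ.U) → ∃ Q ⊆ σ.W, Rc R Q a k0 ∧ ∀ v ∈ Q, v ∈ σ.Sub a → v = a
  J1 : ∀ a, (a ∈ σ.P ∨ a ∈ σ.U) → a ≠ k0 → ∀ b ∈ σ.W, b ∉ σ.Sub a →
    (∃ r, 1 ≤ r ∧ Sep R σ.W k0 r a b) ∨ Exc R k0 σ a b
  J2 : ∀ a ∈ σ.W, a ≠ k0 → ∀ b ∈ σ.W, b ∉ σ.Sub (σ.home a) →
    (∃ r, 2 ≤ r ∧ Sep R σ.W k0 r a b) ∨ Exc R k0 σ (σ.home a) b

theorem earInd {g W : Finset V} {c0 : V} (Pr : V → Prop) (h0 : c0 ∈ W) (hP0 : Pr c0)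
    (hs : ∀ a ∈ g, a ∈ W → Pr a → ∀ b ∈ g, b ∈ W → a ≠ b → ∀ I ⊆ g, (∀ x ∈ I, x ∉ W) →
      Rc R (insert a (insert b I)) a b → Pr b) {c : V} (hc : Rc R g c0 c) (hcW : c ∈ W) : Pr c := by
  have : (c ∈ W → Pr c) ∧ ∃ a, a ∈ g ∧ a ∈ W ∧ Pr a ∧ ∃ I ⊆ g, (∀ x ∈ I, x ∉ W) ∧
      Rc R (insert a I) a c := by
    refine Rc.induct (p := fun c => (c ∈ W → Pr c) ∧ ∃ a, a ∈ g ∧ a ∈ W ∧ Pr a ∧ ∃ I ⊆ g, (∀ x ∈ I, x ∉ W) ∧
      Rc R (insert a I) a c) ?_ ?_ hc
    · intro hg
      exact ⟨fun _ => hP0, c0, hg, h0, hP0, ∅, by simp, by simp, Rc.rfl' (by simp)⟩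
    · rintro u v _ ⟨_, a, hag, haW, hPa, I, hIg, hIW, hr⟩ huv hv
      by_cases hvW : v ∈ W
      · have hPv : Pr v := by
          by_cases hav : a = v
          · exact hav ▸ hPa
          refine hs a hag haW hPa v hv hvW hav I hIg hIW ?_
          refine (hr.mono ?_).tail huv (by simp)
          exact insert_subset_insert _ (subset_insert _ _)
        exact ⟨fun _ => hPv, v, hv, hvW, hPv, ∅, by simp, by simp, Rc.rfl' (by simp)⟩
      · refine ⟨fun h => absurd h hvW, a, hag, haW, hPa, insert v I, insert_subset hv hIg, ?_, ?_⟩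
        · intro x hx
          rcases mem_insert.mp hx with h | h
          · exact h ▸ hvW
          · exact hIW x h
        · exact (hr.mono (insert_subset_insert _ (subset_insert _ _))).tail huv (by simp)
  exact this.1 hcW

variable {K : Finset V} {k0 : V} {σ : St V}

theorem Inv.levSub (inv : Inv R K k0 σ) {a : V} (ha : a ∈ σ.P ∨ a ∈ σ.U) :
    ∀ n, ∀ v ∈ σ.W, σ.lev v = n → v ∈ σ.Sub a → σ.lev a ≤ σ.lev v ∧ (σ.lev v = σ.lev a → v = a) := by
  intro n
  induction n with
  | zero =>
    intro v hv hn hs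
    rcases (inv.sub a ha v hv).mp hs with h | ⟨h, _⟩
    · subst h; exact ⟨le_refl _, fun _ => rfl⟩
    · have := (inv.hm v hv h).2.2.2
      omega
  | succ n ih =>
    intro v hv hn hs
    rcases (inv.sub a ha v hv).mp hs with h | ⟨h, hh⟩
    · subst h; exact ⟨le_refl _, fun _ => rfl⟩
    · obtain ⟨h1, h2, h3, h4⟩ := inv.hm v hv h
      have := ih (σ.home v) (inv.PW h1) (by omega) hh
      exact ⟨by omega, fun h => by omega⟩

theorem Inv.subTrans (inv : Inv R K k0 σ) {a b : V} (ha : a ∈ σ.P ∨ a ∈ σ.U) (hb : b ∈ σ.P ∨ b ∈ σ.U)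
    (hba : b ∈ σ.Sub a) : ∀ n, ∀ v ∈ σ.W, σ.lev v = n → v ∈ σ.Sub b → v ∈ σ.Sub a := by
  intro n
  induction n with
  | zero =>
    intro v hv hn hs
    rcases (inv.sub b hb v hv).mp hs with h | ⟨h, _⟩
    · subst h; exact hba
    · have := (inv.hm v hv h).2.2.2
      omega
  | succ n ih =>
    intro v hv hn hs
    rcases (inv.sub b hb v hv).mp hs with h | ⟨h, hh⟩
    · subst h; exact hba
    · obtain ⟨h1, h2, h3, h4⟩ := inv.hm v hv h
      rw [inv.sub a ha v hv]
      exact Or.inr ⟨h, ih (σ.home v) (inv.PW h1) (by omega) hh⟩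

/-- the class in which `w` is put -/
noncomputable def cls (K : Finset V) (σ : St V) (w : V) : Finset V :=
  insert w (K.filter (fun v => v ∉ σ.U ∧ σ.col v = par (σ.lev w)))

theorem mem_cls {w v : V} : v ∈ cls K σ w ↔ v = w ∨ (v ∈ K ∧ v ∉ σ.U ∧ σ.col v = par (σ.lev w)) := by
  simp [cls]

theorem Inv.noHit (inv : Inv R K k0 σ) (hN : ¬ Neck R 2)
    (hJ : ∀ a ∈ K, a ≠ k0 → ∃ J, Rc R J k0 a ∧ ∀ x ∈ J, x ∈ K → x = k0 ∨ x = a)
    {w : V} (hw : w ∈ σ.U) {v : V} (hv : v ∈ σ.W) (hvw : v ≠ w)
    (h1 : Rc R (cls K σ w) w v) (h2 : Rc R (cls K σ w) v w) : False := by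
  obtain ⟨L, hL⟩ : ∃ L, L = σ.lev w := ⟨_, rfl⟩
  have hwW : w ∈ σ.W := inv.UW hw
  have hwP : w ∉ σ.P := fun h => inv.PU w h hw
  have memC : ∀ v, v ∈ cls K σ w ↔ v = w ∨ (v ∈ K ∧ v ∉ σ.U ∧ σ.col v = par L) := by
    intro v; rw [mem_cls, hL]
  have hCK : cls K σ w ⊆ K := by
    intro x hx
    rcases (memC x).mp hx with h | h
    · subst h; exact inv.WK hwW
    · exact h.1
  have hD : Ac R ((cls K σ w).erase w) := by
    refine (inv.prop (par L)).mono ?_
    intro x hx
    rw [mem_erase, memC] at hx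
    rcases hx.2 with h | h
    · exact absurd h hx.1
    · rw [mem_filter]; exact h
  obtain ⟨g, hgC, hwg, hvg, hcirc⟩ := exists_circ hD hvw h1 h2
  have hgK : g ⊆ K := hgC.trans hCK
  have hrc : ∀ x ∈ g, ∀ y ∈ g, Rc R g x y := by
    intro x hx y hy
    by_cases hxy : x = y
    · subst hxy; exact Rc.rfl' hx
    · exact (hcirc x hx y hy hxy).rc
  -- classification of the vertices of `g` in `W`
  have cl : ∀ c ∈ g, c ∈ σ.W → c ≠ k0 →
      ((c ∈ σ.P ∨ c = w) ∧ σ.lev c % 2 = L % 2 ∧ σ.lev c ≤ L) ∨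
      (c ∉ σ.P ∧ c ∉ σ.U ∧ σ.lev c % 2 = (L + 1) % 2 ∧ σ.lev c ≤ L + 1 ∧ c ∉ σ.X (σ.home c)) := by
    intro c hc hcW hck
    obtain ⟨m1, m2, m3, m4⟩ := inv.hm c hcW hck
    rcases (memC c).mp (hgC hc) with h | ⟨_, h3, h4⟩
    · subst h; left; exact ⟨Or.inr rfl, by rw [hL], by rw [hL]⟩
    · by_cases hcP : c ∈ σ.P
      · left
        refine ⟨Or.inl hcP, ?_, ?_⟩
        · rw [inv.colP c hcP, par_eq] at h4; exact h4
        · rw [hL]; exact inv.bfs c hcP w hw
      · right
        have hcX : c ∉ σ.X (σ.home c) := by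
          rw [← inv.tok c hcW hck]
          rintro (h | h)
          · exact hcP h
          · exact h3 h
        have h5 := inv.colG _ m1 c m2 m3 hcX
        rw [h5, par_eq] at h4
        have h6 := inv.bfs _ m1 w hw
        refine ⟨hcP, h3, by omega, by omega, hcX⟩
  -- resolved ears
  have res : ∀ a ∈ g, a ∈ σ.W → a ≠ k0 → ∀ b ∈ g, ∀ I ⊆ g, (∀ x ∈ I, x ∉ σ.W) →
      Rc R (insert a (insert b I)) a b → ∀ r, 2 ≤ r → ¬ Sep R σ.W k0 r a b := by
    intro a ha haW hak b hb I hI hIW hr r hr2 hsep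
    exact hN (hsep.close hr2 hr hIW (hI.trans hgK) inv.WK hJ)
  -- the case of level zero
  rcases Nat.eq_zero_or_pos L with hL0 | hLpos
  · have hwk : w = k0 := by
      by_contra h
      have := (inv.hm w hwW h).2.2.2
      omega
    have hvk : v ≠ k0 := hwk ▸ hvw
    obtain ⟨m1, m2, m3, m4⟩ := inv.hm v hv hvk
    have hl := inv.bfs _ m1 w hw
    have hk : σ.home v = k0 := by
      by_contra h
      have := (inv.hm _ (inv.PW m1) h).2.2.2
      omega
    rw [hk, ← hwk] at m1
    exact hwP m1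
  have hwk : w ≠ k0 := by
    rintro rfl
    have := inv.lev0
    omega
  -- vertices of parity one less are not in the class
  have xC : ∀ s ∈ σ.P, σ.lev s % 2 ≠ L % 2 → s ∉ cls K σ w := by
    intro s hs hsl hsC
    rcases (memC s).mp hsC with h | ⟨_, _, h⟩
    · exact hwP (h ▸ hs)
    · rw [inv.colP s hs, par_eq] at h
      exact hsl h
  have gX : ∀ s ∈ σ.P, σ.lev s % 2 ≠ L % 2 → ∀ v ∈ cls K σ w, v ∈ σ.G s → v ∈ σ.X s := by
    intro s hs hsl v hvC hvG
    have hvs : v ≠ s := by rintro rfl; exact xC _ hs hsl hvC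
    by_contra hvX
    have h3 := inv.colG s hs v hvG hvs hvX
    rcases (memC v).mp hvC with h | ⟨_, _, h⟩
    · obtain ⟨h5, h6⟩ := inv.hu s hs v hvG hvs
      have := (inv.tok v (inv.GW s hs hvG) h5).mp (Or.inr (h ▸ hw))
      rw [h6] at this
      exact hvX this
    · rw [h3, par_eq] at h
      exact hsl h
  -- exceptional pairs of the wrong colour
  have excCol : ∀ s ∈ σ.W, s ≠ k0 → σ.lev s % 2 = L % 2 → ∀ b ∈ g, ¬ Exc R k0 σ s b := by
    rintro s hs hsk hsl b hb ⟨e1, e2, e3, e4, e5, e6, _⟩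
    obtain ⟨m1, m2, m3, m4⟩ := inv.hm b e3 e2
    obtain ⟨n1, n2, n3, n4⟩ := inv.hm s hs hsk
    rcases cl b hb e3 e2 with ⟨h | h, _⟩ | ⟨_, _, h, _⟩
    · exact e5 h
    · exact e6 (h ▸ hw)
    · rw [e4] at m4
      omega
  have tk : ∀ s, s ∈ σ.P → (s ∈ σ.P ∨ s ∈ σ.U) := fun s h => Or.inl h
  have homeOf : ∀ a ∈ σ.W, a ≠ k0 → σ.home a ∈ σ.P := fun a h h' => (inv.hm a h h').1
  by_cases hlow : ∀ c ∈ g, c ∈ σ.W → L ≤ σ.lev c
  · -- second case: no low vertices
    obtain ⟨x, hx⟩ : ∃ x, x = σ.home w := ⟨_, rfl⟩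
    obtain ⟨m1, m2, m3, m4⟩ := inv.hm w hwW hwk
    rw [← hx] at m1 m2 m3 m4
    have hxsub : x ∈ σ.Sub x := (inv.sub x (tk x m1) x (inv.PW m1)).mpr (Or.inl rfl)
    have nk : ∀ c ∈ g, c ∈ σ.W → c ≠ k0 := by
      intro c hc hcW
      rintro rfl
      have := hlow _ hc hcW
      have := inv.lev0
      omega
    have allSub : ∀ c ∈ g, c ∈ σ.W → c ∈ σ.Sub x := by
      intro c hc hcW
      refine earInd (Pr := fun c => c ∈ σ.Sub x) hwW ?_ ?_ (hrc w hwg c hc) hcW
      · rw [inv.sub x (tk x m1) w hwW]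
        exact Or.inr ⟨hwk, hx ▸ hxsub⟩
      · intro a ha haW haS b hb hbW hab I hI hIW hr
        have hak := nk a ha haW
        obtain ⟨a1, a2, a3, a4⟩ := inv.hm a haW hak
        have hla := hlow a ha haW
        have hahome : σ.home a ∈ σ.Sub x := by
          rcases (inv.sub x (tk x m1) a haW).mp haS with h | h
          · subst h; exfalso; omega
          · exact h.2
        by_cases hbS : b ∈ σ.Sub (σ.home a)
        · exact inv.subTrans (tk x m1) (tk _ a1) hahome _ b hbW rfl hbS
        · exfalso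
          rcases inv.J2 a haW hak b hbW hbS with ⟨r, hr2, hsep⟩ | hexc
          · exact res a ha haW hak b hb I hI hIW hr r hr2 hsep
          · rcases cl a ha haW hak with ⟨_, _, h⟩ | ⟨_, _, h, h', _⟩
            · -- exceptional: `b` is low
              obtain ⟨e1, e2, e3, e4, _⟩ := hexc
              have hlb := hlow b hb hbW
              obtain ⟨c1, c2, c3, c4⟩ := inv.hm b hbW e2
              rw [e4] at c4
              obtain ⟨d1, d2, d3, d4⟩ := inv.hm _ (inv.PW a1) e1
              omega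
            · refine excCol _ (inv.PW a1) hexc.1 ?_ b hb hexc
              omega
    -- a second token
    have hw' : ∃ w' ∈ g, w' ∈ σ.W ∧ w' ≠ w ∧ w' ≠ k0 ∧ w' ∈ σ.P ∧ σ.home w' = x := by
      have hvk := nk v hvg hv
      obtain ⟨v1, v2, v3, v4⟩ := inv.hm v hv hvk
      have hvS := allSub v hvg hv
      have hlv := hlow v hvg hv
      have hvhome : σ.home v ∈ σ.Sub x := by
        rcases (inv.sub x (tk x m1) v hv).mp hvS with h | h
        · subst h; exfalso; omega
        · exact h.2
      rcases cl v hvg hv hvk with ⟨h3, h4, h5⟩ | ⟨h3, h4, h5, h6, h7⟩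
      · refine ⟨v, hvg, hv, hvw, hvk, ?_, ?_⟩
        · rcases h3 with h3 | h3
          · exact h3
          · exact absurd h3 hvw
        · exact (inv.levSub (tk x m1) _ _ (inv.PW v1) rfl hvhome).2 (by omega)
      · obtain ⟨s, hs⟩ : ∃ s, s = σ.home v := ⟨_, rfl⟩
        rw [← hs] at v1 v2 v3 v4 hvhome
        have hls : σ.lev s = L := by omega
        have hsW := inv.PW v1
        have hsk : s ≠ k0 := by
          rintro rfl
          have := inv.lev0
          omega
        have hsw : s ≠ w := by rintro rfl; exact hwP v1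
        obtain ⟨s1, s2, s3, s4⟩ := inv.hm s hsW hsk
        have hshome : σ.home s ∈ σ.Sub x := by
          rcases (inv.sub x (tk x m1) s hsW).mp hvhome with h | h
          · subst h; exfalso; omega
          · exact h.2
        refine ⟨s, ?_, hsW, hsw, hsk, v1, (inv.levSub (tk x m1) _ _ (inv.PW s1) rfl hshome).2 (by omega)⟩
        by_contra hsg
        have hwin : w ∈ σ.Sub s ∧ w ≠ s := by
          refine earInd (Pr := fun c => c ∈ σ.Sub s ∧ c ≠ s) hv ?_ ?_ (hrc v hvg w hwg) hwW
          · refine ⟨?_, v3⟩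
            rw [inv.sub s (tk s v1) v hv]
            right
            refine ⟨hvk, ?_⟩
            rw [← hs, inv.sub s (tk s v1) s hsW]
            exact Or.inl rfl
          · rintro a ha haW ⟨haS, has⟩ b hb hbW hab I hI hIW hr
            have hak := nk a ha haW
            obtain ⟨a1, a2, a3, a4⟩ := inv.hm a haW hak
            have hla := inv.levSub (tk s v1) _ a haW rfl haS
            have hla' : σ.lev a ≠ σ.lev s := fun h => has (hla.2 h)
            have hahome : σ.home a ∈ σ.Sub s := by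
              rcases (inv.sub s (tk s v1) a haW).mp haS with h | h
              · exact absurd h has
              · exact h.2
            have hlah := inv.levSub (tk s v1) _ _ (inv.PW a1) rfl hahome
            have hahs : σ.home a = s := by
              apply hlah.2
              rcases cl a ha haW hak with ⟨_, _, h⟩ | ⟨_, _, h, h', _⟩
              · omega
              · omega
            refine ⟨?_, fun h => hsg (h ▸ hb)⟩
            by_contra hbS
            rw [← hahs] at hbS
            rcases inv.J2 a haW hak b hbW hbS with ⟨r, hr2, hsep⟩ | hexc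
            · exact res a ha haW hak b hb I hI hIW hr r hr2 hsep
            · rw [hahs] at hexc
              exact excCol s hsW hsk (by rw [hls]) b hb hexc
        have := (inv.levSub (tk s v1) _ w hwW rfl hwin.1).2 (by omega)
        exact hwin.2 this
    obtain ⟨w', hw'g, hw'W, hw'w, hw'k, hw'P, hw'x⟩ := hw'
    have hwX : w ∈ σ.X x := by
      have := (inv.tok w hwW hwk).mp (Or.inr hw)
      rwa [← hx] at this
    have hw'X : w' ∈ σ.X x := by
      have := (inv.tok w' hw'W hw'k).mp (Or.inl hw'P)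
      rwa [hw'x] at this
    obtain ⟨E, hE, E', hE', hl, hl', hEE, hEX, hEX'⟩ := inv.b1 x m1 w hwX w' hw'X hw'w.symm
    have hxL : σ.lev x % 2 ≠ L % 2 := by omega
    have hxg : x ∉ g := fun h => xC x m1 hxL (hgC h)
    apply hN
    refine ⟨w, x, g ∪ (E' ∪ {x}), E,
      Ch.cons (hcirc w hwg w' hw'g hw'w.symm) (Ch.cons hl' (Ch.nil x) ?_) ?_, hl.symm, ?_⟩
    · intro y _ hy
      simpa using hy
    · intro y hy hy'
      rcases mem_union.mp hy' with h | h
      · exact hEX' y h (gX x m1 hxL y (hgC hy) (hE' h))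
      · rw [mem_singleton] at h
        exact absurd (h ▸ hy) hxg
    · intro y hy hyE
      rcases mem_union.mp hy with h | h
      · left; exact hEX y hyE (gX x m1 hxL y (hgC h) (hE hyE))
      · rcases mem_union.mp h with h | h
        · right; exact hEE y hyE h
        · right; simpa using h
  · -- first case: a low vertex exists
    push Not at hlow
    obtain ⟨c, hcg, hcW, hcl⟩ := hlow
    -- an ear from a token to a low vertex
    have hex : ∃ a ∈ g, a ∈ σ.W ∧ a ≠ k0 ∧ σ.lev a = L ∧ (a ∈ σ.P ∨ a ∈ σ.U) ∧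
        ∃ b ∈ g, b ∈ σ.W ∧ Exc R k0 σ (σ.home a) b := by
      by_contra hcon
      have hall : L ≤ σ.lev c := by
        refine earInd (Pr := fun c => L ≤ σ.lev c) hwW (by rw [hL]) ?_ (hrc w hwg c hcg) hcW
        intro a ha haW haL b hb hbW hab I hI hIW hr
        have hak : a ≠ k0 := by
          rintro rfl
          have := inv.lev0
          omega
        obtain ⟨a1, a2, a3, a4⟩ := inv.hm a haW hak
        rcases cl a ha haW hak with ⟨h3, h4, h5⟩ | ⟨h3, h4, h5, h6, h7⟩
        · by_cases hbS : b ∈ σ.Sub (σ.home a)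
          · have hlb := inv.levSub (tk _ a1) _ b hbW rfl hbS
            by_contra hlt
            have : b = σ.home a := hlb.2 (by omega)
            refine xC (σ.home a) a1 (by omega) (this ▸ hgC hb)
          · exfalso
            rcases inv.J2 a haW hak b hbW hbS with ⟨r, hr2, hsep⟩ | hexc
            · exact res a ha haW hak b hb I hI hIW hr r hr2 hsep
            · refine hcon ⟨a, ha, haW, hak, by omega, ?_, b, hb, hbW, hexc⟩
              rcases h3 with h3 | h3
              · exact Or.inl h3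
              · exact Or.inr (h3 ▸ hw)
        · by_cases hbS : b ∈ σ.Sub (σ.home a)
          · have hlb := inv.levSub (tk _ a1) _ b hbW rfl hbS
            omega
          · exfalso
            rcases inv.J2 a haW hak b hbW hbS with ⟨r, hr2, hsep⟩ | hexc
            · exact res a ha haW hak b hb I hI hIW hr r hr2 hsep
            · exact excCol _ (inv.PW a1) hexc.1 (by omega) b hb hexc
      omega
    obtain ⟨a, ha, haW, hak, haL, haT, b, hb, hbW, hexc⟩ := hex
    obtain ⟨a1, a2, a3, a4⟩ := inv.hm a haW hak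
    obtain ⟨x, hx⟩ : ∃ x, x = σ.home a := ⟨_, rfl⟩
    rw [← hx] at a1 a2 a3 a4 hexc
    obtain ⟨e1, e2, e3, e4, e5, e6, e7, _, Z, hZ, P, hP, hZr, hPr, hZA⟩ := hexc
    have hxW := inv.PW a1
    obtain ⟨x1, x2, x3, x4⟩ := inv.hm x hxW e1
    obtain ⟨k, hk⟩ : ∃ k, k = σ.home x := ⟨_, rfl⟩
    rw [← hk] at x1 x2 x3 x4 e4 e7 hZ hP hPr hZA
    have hkW := inv.PW x1
    have hkk : k ∈ σ.Sub k := (inv.sub k (tk k x1) k hkW).mpr (Or.inl rfl)
    have hxk : x ∈ σ.Sub k := (inv.sub k (tk k x1) x hxW).mpr (Or.inr ⟨e1, hk ▸ hkk⟩)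
    have hAhome : ∀ y, y ∈ σ.A k → y ≠ k0 ∧ σ.home y = k := by
      intro y hy
      have hyk : y ≠ k := by rintro rfl; exact inv.sA _ x1 hy
      exact inv.hu k x1 y (inv.AG k x1 hy) hyk
    have hAlev : ∀ y, y ∈ σ.A k → σ.lev y = σ.lev k + 1 := by
      intro y hy
      obtain ⟨h3, h4⟩ := hAhome y hy
      have := (inv.hm y (inv.GW k x1 (inv.AG k x1 hy)) h3).2.2.2
      rw [h4] at this
      exact this
    -- the region
    have reg : ∀ c ∈ g, c ∈ σ.W → c ∈ σ.Sub k ∧ c ≠ k ∧ c ∉ σ.A k := by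
      intro c hc hcW
      refine earInd (Pr := fun c => c ∈ σ.Sub k ∧ c ≠ k ∧ c ∉ σ.A k) haW ?_ ?_ (hrc a ha c hc) hcW
      · refine ⟨?_, ?_, ?_⟩
        · rw [inv.sub k (tk k x1) a haW]
          exact Or.inr ⟨hak, hx ▸ hxk⟩
        · rintro rfl; omega
        · intro h
          have := hAlev a h
          omega
      · rintro a' ha' ha'W ⟨r1, r2, r3⟩ b' hb' hb'W hab I hI hIW hr
        have hl1 := inv.levSub (tk k x1) _ a' ha'W rfl r1
        have hl2 : σ.lev a' ≠ σ.lev k := fun h => r2 (hl1.2 h)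
        have ha'k : a' ≠ k0 := by
          rintro rfl
          have := inv.lev0
          omega
        obtain ⟨p1, p2, p3, p4⟩ := inv.hm a' ha'W ha'k
        have hhome : σ.home a' ∈ σ.Sub k := by
          rcases (inv.sub k (tk k x1) a' ha'W).mp r1 with h | h
          · exact absurd h r2
          · exact h.2
        have hl3 := inv.levSub (tk k x1) _ _ (inv.PW p1) rfl hhome
        -- if the level of `b'` is at least `L - 1` and it is not the home
        have highB : ∀ s ∈ σ.P, s ∈ σ.Sub k → σ.lev k < σ.lev s → (σ.lev s % 2 ≠ L % 2 ∨ σ.lev k + 1 < σ.lev s) →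
            b' ∈ σ.Sub s → b' ∈ σ.Sub k ∧ b' ≠ k ∧ b' ∉ σ.A k := by
          intro s hs hsk hls hls' hbs
          have hlb := inv.levSub (tk s hs) _ b' hb'W rfl hbs
          refine ⟨inv.subTrans (tk k x1) (tk s hs) hsk _ b' hb'W rfl hbs, ?_, ?_⟩
          · rintro rfl; omega
          · intro h
            have h3 := hAlev b' h
            rcases hls' with h4 | h4
            · have : b' = s := hlb.2 (by omega)
              exact xC s hs h4 (this ▸ hgC hb')
            · omega
        rcases cl a' ha' ha'W ha'k with ⟨h3, h4, h5⟩ | ⟨h3, h4, h5, h6, h7⟩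
        · -- a token
          have hla' : σ.lev a' = L := by omega
          have hx'k0 : σ.home a' ≠ k0 := by
            intro h
            have := inv.lev0
            rw [h] at p4
            omega
          obtain ⟨q1, q2, q3, q4⟩ := inv.hm _ (inv.PW p1) hx'k0
          have hh2 : σ.home (σ.home a') ∈ σ.Sub k := by
            rcases (inv.sub k (tk k x1) _ (inv.PW p1)).mp hhome with h | h
            · exfalso; rw [h] at p4; omega
            · exact h.2
          have hh2k : σ.home (σ.home a') = k :=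
            (inv.levSub (tk k x1) _ _ (inv.PW q1) rfl hh2).2 (by omega)
          by_cases hbS : b' ∈ σ.Sub (σ.home a')
          · exact highB _ p1 hhome (by omega) (Or.inl (by omega)) hbS
          · rcases inv.J2 a' ha'W ha'k b' hb'W hbS with ⟨r, hr2, hsep⟩ | ⟨f1, f2, f3, f4, f5, f6, f7, _⟩
            · exact absurd hsep (res a' ha' ha'W ha'k b' hb' I hI hIW hr r hr2)
            · rw [hh2k] at f4 f7
              refine ⟨?_, ?_, f7⟩
              · rw [inv.sub k (tk k x1) b' hb'W]
                exact Or.inr ⟨f2, f4 ▸ hkk⟩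
              · have := (inv.hm b' hb'W f2).2.2.1
                rwa [f4] at this
        · -- not a token
          by_cases hlow' : σ.lev a' = σ.lev k + 1
          · have hhk : σ.home a' = k := hl3.2 (by omega)
            rw [hhk] at p2 h7
            have hb3 : ∀ y, (y ∈ σ.A k ∨ y = k) → b' ≠ y := by
              rintro y hy rfl
              refine inv.b3 k x1 a' p2 r2 h7 r3 b' hy I (hI.trans hgK) ?_ hr
              intro y hy
              refine ⟨hIW y hy, ?_⟩
              rcases (memC y).mp (hgC (hI hy)) with h | h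
              · exact absurd (h ▸ hwW) (hIW y hy)
              · rw [h.2.2, par_eq]; omega
            by_cases hbS : b' ∈ σ.Sub k
            · exact ⟨hbS, hb3 k (Or.inr rfl), fun h => hb3 b' (Or.inl h) rfl⟩
            · exfalso
              rcases inv.J2 a' ha'W ha'k b' hb'W (by rw [hhk]; exact hbS) with ⟨r, hr2, hsep⟩ | hexc'
              · exact res a' ha' ha'W ha'k b' hb' I hI hIW hr r hr2 hsep
              · rw [hhk] at hexc'
                exact excCol k hkW hexc'.1 (by omega) b' hb' hexc'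
          · by_cases hbS : b' ∈ σ.Sub (σ.home a')
            · exact highB _ p1 hhome (by omega) (Or.inr (by omega)) hbS
            · exfalso
              rcases inv.J2 a' ha'W ha'k b' hb'W hbS with ⟨r, hr2, hsep⟩ | hexc'
              · exact res a' ha' ha'W ha'k b' hb' I hI hIW hr r hr2 hsep
              · exact excCol _ (inv.PW p1) hexc'.1 (by omega) b' hb' hexc'
    -- the last vertex of `g` on `Z`
    obtain ⟨vs, hvsg, hvsZ, Z', hZ'Z, hZ'r, hZ'g⟩ := hZr.lastHit (fun y => y ∈ g) hb
    have hZW : Z ⊆ σ.W := hZ.trans (inv.GW k x1)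
    have hvsW : vs ∈ σ.W := hZW hvsZ
    obtain ⟨t1, t2, t3⟩ := reg vs hvsg hvsW
    have hZk : ∀ y ∈ Z, y ≠ k := by
      rintro y hy rfl
      have := hZA y hy (Or.inr (Or.inr rfl))
      exact x3 this.symm
    have hZhome : ∀ y ∈ Z, y ≠ k0 ∧ σ.home y = k := fun y hy => inv.hu k x1 y (hZ hy) (hZk y hy)
    have hvsk := (hZhome vs hvsZ).1
    obtain ⟨J, hJ1, hJ2⟩ := hJ vs (inv.WK hvsW) hvsk
    obtain ⟨Q, hQW, hQr, hQS⟩ := inv.up k (tk k x1)
    have haX : a ∈ σ.X x := by
      have := (inv.tok a haW hak).mp haT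
      rwa [← hx] at this
    obtain ⟨E, hE, hEl, hEX⟩ := inv.b1' x a1 a haX
    have hxL : σ.lev x % 2 ≠ L % 2 := by omega
    have hxg : x ∉ g := fun h => xC x a1 hxL (hgC h)
    have hGx : ∀ y ∈ σ.G x, y ≠ x → y ≠ k0 ∧ σ.home y = x := inv.hu x a1
    have hGxk : ∀ y ∈ σ.G x, y ∈ σ.G k → y = x := by
      intro y hy hy'
      by_contra hyx
      obtain ⟨h3, h4⟩ := hGx y hy hyx
      by_cases hyk : y = k
      · subst hyk
        have := (inv.hm y hkW h3).2.2.2
        rw [h4] at this
        omega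
      · have := (inv.hu k x1 y hy' hyk).2
        rw [h4] at this
        exact x3 this
    have hvsa : vs ≠ a := by
      rintro rfl
      have := (hZhome vs hvsZ).2
      rw [← hx] at this
      exact x3 this
    have hAW : σ.A k ⊆ σ.W := (inv.AG k x1).trans (inv.GW k x1)
    -- vertices of `g` are not on the return path
    have hgP : ∀ y ∈ g, y ∉ P := by
      intro y hy hyP
      rcases mem_insert.mp (hP hyP) with h | h
      · exact hxg (h ▸ hy)
      rcases mem_insert.mp h with h | h
      · exact (reg y hy (h ▸ hkW)).2.1 h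
      · exact (reg y hy (hAW h)).2.2 h
    have hgQ : ∀ y ∈ g, y ∉ Q := by
      intro y hy hyQ
      have := reg y hy (hQW hyQ)
      exact this.2.1 (hQS y hyQ this.1)
    have hZQ : ∀ y ∈ Z, y ∉ Q := by
      intro y hy hyQ
      have h3 := hZhome y hy
      have : y ∈ σ.Sub k := by
        rw [inv.sub k (tk k x1) y (hZW hy)]
        exact Or.inr ⟨h3.1, h3.2 ▸ hkk⟩
      exact hZk y hy (hQS y hyQ this)
    have hk0Q : k0 ∈ Q := hQr.right
    have hkG : k ∈ σ.G k := inv.sG k x1
    have hxGx : x ∈ σ.G x := inv.sG x a1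
    apply hN
    refine ⟨vs, x, g ∪ (E ∪ {x}), (P ∪ Q ∪ J) ∪ Z',
      Ch.cons (hcirc vs hvsg a ha hvsa) (Ch.cons hEl (Ch.nil x) ?_) ?_, ?_, ?_⟩
    · intro y _ hy; simpa using hy
    · intro y hy hy'
      rcases mem_union.mp hy' with h | h
      · exact hEX y h (gX x a1 hxL y (hgC hy) (hE h))
      · rw [mem_singleton] at h
        exact absurd (h ▸ hy) hxg
    · refine ⟨fun h => hxg (h ▸ hvsg), P ∪ Q ∪ J, Z', ?_, hZ'r, ?_, subset_union_left, subset_union_right⟩
      · exact ((hPr.trans' hQr subset_union_left subset_union_right).trans' hJ1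
          subset_union_left subset_union_right)
      · intro y hy hyZ
        have hyZ' := hZ'Z hyZ
        rcases mem_union.mp hy with h | h
        · rcases mem_union.mp h with h | h
          · rcases mem_insert.mp (hP h) with h | h
            · exact Or.inl h
            rcases mem_insert.mp h with h | h
            · exact absurd h (hZk y hyZ')
            · exact Or.inl (hZA y hyZ' (Or.inl h))
          · exact absurd h (hZQ y hyZ')
        · rcases hJ2 y h (inv.WK (hZW hyZ')) with h | h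
          · exact absurd h (hZhome y hyZ').1
          · exact Or.inr h
    · intro y hy hyT
      rcases mem_union.mp hy with hy | hy
      · -- on `g`
        left
        rcases mem_union.mp hyT with h | h
        · rcases mem_union.mp h with h | h
          · rcases mem_union.mp h with h | h
            · exact absurd h (hgP y hy)
            · exact absurd h (hgQ y hy)
          · rcases hJ2 y h (hgK hy) with h | h
            · exact absurd hk0Q (hgQ k0 (h ▸ hy))
            · exact h
        · exact hZ'g y h hy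
      rcases mem_union.mp hy with hy | hy
      · -- on `E`
        have hyG := hE hy
        have hyW : y ∈ σ.W := inv.GW x a1 hyG
        have hyS : y ∈ σ.Sub k := by
          by_cases hyx : y = x
          · subst hyx; exact hxk
          · obtain ⟨h3, h4⟩ := hGx y hyG hyx
            rw [inv.sub k (tk k x1) y hyW]
            exact Or.inr ⟨h3, h4 ▸ hxk⟩
        have hQy : y ∉ Q := by
          intro h
          have := hQS y h hyS
          subst this
          exact x3 (hGxk y hyG hkG).symm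
        rcases mem_union.mp hyT with h | h
        · rcases mem_union.mp h with h | h
          · rcases mem_union.mp h with h | h
            · right
              apply hGxk y hyG
              rcases mem_insert.mp (hP h) with h | h
              · subst h; exact x2
              rcases mem_insert.mp h with h | h
              · subst h; exact hkG
              · exact inv.AG k x1 h
            · exact absurd h hQy
          · rcases hJ2 y h (inv.WK hyW) with h | h
            · exact absurd hk0Q (h ▸ hQy)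
            · exact Or.inl h
        · right; exact hGxk y hyG (hZ (hZ'Z h))
      · right; simpa using hy

end state


section step
variable {V : Type*} {R : V → V → Prop}

/-- the next state -/
noncomputable def nxt (σ : St V) (w : V) (G0 X0 A0 : Finset V) : St V where
  P := insert w σ.P
  U := (σ.U.erase w) ∪ X0
  W := σ.W ∪ G0
  col := fun v => if v = w then par (σ.lev w) else σ.col v
  lev := fun v => if v ∈ G0.erase w then σ.lev w + 1 else σ.lev v
  home := fun v => if v ∈ G0.erase w then w else σ.home v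
  G := fun s => if s = w then G0 else σ.G s
  X := fun s => if s = w then X0 else σ.X s
  A := fun s => if s = w then A0 else σ.A s
  Sub := fun a => if a ∈ G0.erase w then {a} else if w ∈ σ.Sub a then σ.Sub a ∪ G0 else σ.Sub a

variable {K : Finset V} {k0 : V} {σ : St V}

theorem Inv.next (inv : Inv R K k0 σ) {w : V} (hw : w ∈ σ.U) (hmin : ∀ u ∈ σ.U, σ.lev w ≤ σ.lev u)
    {G0 X0 A0 : Finset V} (blk : Blk R (cls K σ w) w G0 X0 A0) (hG : ∀ v ∈ G0, v ∈ σ.W → v = w) :
    Inv R K k0 (nxt σ w G0 X0 A0) := by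
  have hwW : w ∈ σ.W := inv.UW hw
  have hwP : w ∉ σ.P := fun h => inv.PU w h hw
  have memC : ∀ v, v ∈ cls K σ w ↔ v = w ∨ (v ∈ K ∧ v ∉ σ.U ∧ σ.col v = par (σ.lev w)) :=
    fun v => mem_cls
  have hCK : cls K σ w ⊆ K := by
    intro x hx
    rcases (memC x).mp hx with h | h
    · subst h; exact inv.WK hwW
    · exact h.1
  have hN : ∀ v ∈ G0.erase w, v ∉ σ.W := by
    intro v hv hvW
    rw [mem_erase] at hv
    exact hv.1 (hG v hv.2 hvW)
  have hWN : ∀ v ∈ σ.W, v ∉ G0.erase w := fun v hv h => hN v h hv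
  have memW' : ∀ v, v ∈ σ.W ∪ G0 → v ∈ σ.W ∨ v ∈ G0.erase w := by
    intro v hv
    rcases mem_union.mp hv with h | h
    · exact Or.inl h
    · by_cases hvw : v = w
      · subst hvw; exact Or.inl hwW
      · exact Or.inr (mem_erase.mpr ⟨hvw, h⟩)
  have hX0N : X0 ⊆ G0.erase w := by
    intro v hv
    rw [mem_erase]
    exact ⟨by rintro rfl; exact blk.sX hv, blk.XG hv⟩
  have hk0N : k0 ∉ G0.erase w := hWN k0 inv.k0W
  -- values of the new functions
  have lev_old : ∀ v ∈ σ.W, (nxt σ w G0 X0 A0).lev v = σ.lev v := by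
    intro v hv; simp only [nxt]; rw [if_neg (hWN v hv)]
  have lev_new : ∀ v ∈ G0.erase w, (nxt σ w G0 X0 A0).lev v = σ.lev w + 1 := by
    intro v hv; simp only [nxt]; rw [if_pos hv]
  have home_old : ∀ v ∈ σ.W, (nxt σ w G0 X0 A0).home v = σ.home v := by
    intro v hv; simp only [nxt]; rw [if_neg (hWN v hv)]
  have home_new : ∀ v ∈ G0.erase w, (nxt σ w G0 X0 A0).home v = w := by
    intro v hv; simp only [nxt]; rw [if_pos hv]
  have G_old : ∀ s ∈ σ.P, (nxt σ w G0 X0 A0).G s = σ.G s := by
    intro s hs; simp only [nxt]; rw [if_neg (by rintro rfl; exact hwP hs)]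
  have G_new : (nxt σ w G0 X0 A0).G w = G0 := by simp [nxt]
  have X_old : ∀ s ∈ σ.P, (nxt σ w G0 X0 A0).X s = σ.X s := by
    intro s hs; simp only [nxt]; rw [if_neg (by rintro rfl; exact hwP hs)]
  have X_new : (nxt σ w G0 X0 A0).X w = X0 := by simp [nxt]
  have A_old : ∀ s ∈ σ.P, (nxt σ w G0 X0 A0).A s = σ.A s := by
    intro s hs; simp only [nxt]; rw [if_neg (by rintro rfl; exact hwP hs)]
  have A_new : (nxt σ w G0 X0 A0).A w = A0 := by simp [nxt]
  have col_old : ∀ v, v ≠ w → (nxt σ w G0 X0 A0).col v = σ.col v := by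
    intro v hv; simp only [nxt]; rw [if_neg hv]
  have col_new : (nxt σ w G0 X0 A0).col w = par (σ.lev w) := by simp [nxt]
  have sub_new : ∀ a ∈ G0.erase w, (nxt σ w G0 X0 A0).Sub a = {a} := by
    intro a ha; simp only [nxt]; rw [if_pos ha]
  have sub_in : ∀ a ∈ σ.W, w ∈ σ.Sub a → (nxt σ w G0 X0 A0).Sub a = σ.Sub a ∪ G0 := by
    intro a ha h; simp only [nxt]; rw [if_neg (hWN a ha), if_pos h]
  have sub_out : ∀ a ∈ σ.W, w ∉ σ.Sub a → (nxt σ w G0 X0 A0).Sub a = σ.Sub a := by
    intro a ha h; simp only [nxt]; rw [if_neg (hWN a ha), if_neg h]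
  have hP' : (nxt σ w G0 X0 A0).P = insert w σ.P := rfl
  have hU' : (nxt σ w G0 X0 A0).U = (σ.U.erase w) ∪ X0 := rfl
  have hW' : (nxt σ w G0 X0 A0).W = σ.W ∪ G0 := rfl
  obtain ⟨τ, hτ⟩ : ∃ τ, τ = nxt σ w G0 X0 A0 := ⟨_, rfl⟩
  rw [← hτ] at lev_old lev_new home_old home_new G_old G_new X_old X_new A_old A_new
  rw [← hτ] at col_old col_new sub_new sub_in sub_out hP' hU' hW' ⊢
  have subOld : ∀ a ∈ σ.W, ∀ v ∈ σ.W, (v ∈ τ.Sub a ↔ v ∈ σ.Sub a) := by
    intro a ha v hv
    by_cases h : w ∈ σ.Sub a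
    · rw [sub_in a ha h, mem_union]
      constructor
      · rintro (h1 | h1)
        · exact h1
        · exact (hG v h1 hv) ▸ h
      · exact Or.inl
    · rw [sub_out a ha h]
  have tokOld : ∀ a, (a ∈ τ.P ∨ a ∈ τ.U) → (a ∈ σ.W ∧ (a ∈ σ.P ∨ a ∈ σ.U)) ∨ a ∈ X0 := by
    intro a ha
    rw [hP', hU', mem_insert, mem_union, mem_erase] at ha
    rcases ha with (h | h) | (h | h)
    · subst h; exact Or.inl ⟨hwW, Or.inr hw⟩
    · exact Or.inl ⟨inv.PW h, Or.inl h⟩
    · exact Or.inl ⟨inv.UW h.2, Or.inr h.2⟩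
    · exact Or.inr h
  have wX : ∀ v ∈ σ.W, v ∉ X0 := fun v hv h => hWN v hv (hX0N h)
  have notk0 : ∀ v ∈ G0.erase w, v ≠ k0 := by
    rintro v hv rfl; exact hk0N hv
  -- the root case
  have root : ∀ b ∈ σ.W, b ≠ w → w ≠ k0 := by
    rintro b hb hbw rfl
    obtain ⟨m1, m2, m3, m4⟩ := inv.hm b hb hbw
    have h1 := inv.bfs _ m1 w hw
    have h2 : σ.home b = w := by
      by_contra h
      have := (inv.hm _ (inv.PW m1) h).2.2.2
      have := inv.lev0
      omega
    rw [h2] at m1
    exact hwP m1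
  have excOld : ∀ s ∈ σ.W, ∀ b, Exc R k0 σ s b → Exc R k0 τ s b := by
    rintro s hs b ⟨e1, e2, e3, e4, e5, e6, e7, e8, e9⟩
    have hsP := (inv.hm s hs e1).1
    refine ⟨e1, e2, ?_, ?_, ?_, ?_, ?_, ?_, ?_⟩
    · rw [hW']; exact mem_union_left _ e3
    · rw [home_old b e3, home_old s hs]; exact e4
    · rw [hP', mem_insert]
      rintro (h | h)
      · exact e6 (h ▸ hw)
      · exact e5 h
    · rw [hU', mem_union, mem_erase]
      rintro (h | h)
      · exact e6 h.2
      · exact wX b e3 h
    · rw [home_old s hs, A_old _ hsP]; exact e7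
    · exact e8.mono (by rw [hW']; exact subset_union_left)
    · rw [home_old s hs, A_old _ hsP, G_old _ hsP, X_old _ hsP]; exact e9
  have hWW : σ.W ⊆ τ.W := by rw [hW']; exact subset_union_left
  have hGW' : G0 ⊆ τ.W := by rw [hW']; exact subset_union_right
  have hm' : ∀ v ∈ τ.W, v ≠ k0 → τ.home v ∈ τ.P ∧ v ∈ τ.G (τ.home v) ∧ v ≠ τ.home v ∧
      τ.lev v = τ.lev (τ.home v) + 1 := by
    intro v hv hvk
    rw [hW'] at hv
    rcases memW' v hv with h | h
    · obtain ⟨m1, m2, m3, m4⟩ := inv.hm v h hvk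
      rw [home_old v h, G_old _ m1, lev_old v h, lev_old _ (inv.PW m1), hP']
      exact ⟨mem_insert_of_mem m1, m2, m3, m4⟩
    · rw [home_new v h, G_new, lev_new v h, lev_old w hwW, hP']
      rw [mem_erase] at h
      exact ⟨mem_insert_self _ _, h.2, h.1, rfl⟩
  obtain ⟨Qw, hQwW, hQwr, hQwS⟩ := inv.up w (Or.inr hw)
  have rcw : ∀ v ∈ G0.erase w, Rc R G0 v w := by
    intro v hv
    rw [mem_erase] at hv
    exact (blk.b0 v hv.2 hv.1).rc
  have linkw : ∀ v ∈ G0.erase w, Link R G0 v w := by
    intro v hv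
    rw [mem_erase] at hv
    exact blk.b0 v hv.2 hv.1
  refine
    { WK := ?_, k0W := ?_, PU := ?_, PW := ?_, UW := ?_, lev0 := ?_, hm := hm', hu := ?_, GW := ?_,
      sG := ?_, k0T := ?_, tok := ?_, XG := ?_, sX := ?_, AG := ?_, sA := ?_, AX := ?_, colP := ?_,
      colG := ?_, prop := ?_, bfs := ?_, b1' := ?_, b1 := ?_, b3 := ?_, sub := ?_, subU := ?_,
      subW := ?_, up := ?_, J1 := ?_, J2 := ?_ }
  · rw [hW']; exact union_subset inv.WK (blk.GC.trans hCK)
  · rw [hW']; exact mem_union_left _ inv.k0W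
  · intro v hv
    rw [hP', mem_insert] at hv
    rw [hU', mem_union, mem_erase]
    rintro (h | h)
    · rcases hv with hv | hv
      · exact h.1 hv
      · exact inv.PU v hv h.2
    · rcases hv with hv | hv
      · subst hv; exact blk.sX h
      · exact wX v (inv.PW hv) h
  · rw [hP', hW']
    intro v hv
    rcases mem_insert.mp hv with h | h
    · subst h; exact mem_union_left _ hwW
    · exact mem_union_left _ (inv.PW h)
  · rw [hU', hW']
    intro v hv
    rw [mem_union, mem_erase] at hv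
    rcases hv with h | h
    · exact mem_union_left _ (inv.UW h.2)
    · exact mem_union_right _ (blk.XG h)
  · rw [lev_old k0 inv.k0W]; exact inv.lev0
  · -- hu
    intro s hs v hv hvs
    rw [hP', mem_insert] at hs
    rcases hs with h | h
    · subst h
      rw [G_new] at hv
      have hvN : v ∈ G0.erase s := mem_erase.mpr ⟨hvs, hv⟩
      exact ⟨notk0 v hvN, home_new v hvN⟩
    · rw [G_old s h] at hv
      obtain ⟨h1, h2⟩ := inv.hu s h v hv hvs
      exact ⟨h1, by rw [home_old v (inv.GW s h hv)]; exact h2⟩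
  · -- GW
    intro s hs
    rw [hP', mem_insert] at hs
    rw [hW']
    rcases hs with h | h
    · subst h; rw [G_new]; exact subset_union_right
    · rw [G_old s h]; exact (inv.GW s h).trans subset_union_left
  · intro s hs
    rw [hP', mem_insert] at hs
    rcases hs with h | h
    · subst h; rw [G_new]; exact blk.sG
    · rw [G_old s h]; exact inv.sG s h
  · -- k0T
    rw [hP', hU', mem_insert, mem_union, mem_erase]
    by_cases hkw : k0 = w
    · exact Or.inl (Or.inl hkw)
    · rcases inv.k0T with h | h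
      · exact Or.inl (Or.inr h)
      · exact Or.inr (Or.inl ⟨hkw, h⟩)
  · -- tok
    intro v hv hvk
    rw [hW'] at hv
    rcases memW' v hv with h | h
    · obtain ⟨m1, m2, m3, m4⟩ := inv.hm v h hvk
      rw [home_old v h, X_old _ m1, ← inv.tok v h hvk, hP', hU', mem_insert, mem_union, mem_erase]
      constructor
      · rintro ((h1 | h1) | (h1 | h1))
        · exact Or.inr (h1 ▸ hw)
        · exact Or.inl h1
        · exact Or.inr h1.2
        · exact absurd h1 (wX v h)
      · rintro (h1 | h1)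
        · exact Or.inl (Or.inr h1)
        · by_cases hvw : v = w
          · exact Or.inl (Or.inl hvw)
          · exact Or.inr (Or.inl ⟨hvw, h1⟩)
    · rw [home_new v h, X_new, hP', hU', mem_insert, mem_union, mem_erase]
      have hvW := hN v h
      rw [mem_erase] at h
      constructor
      · rintro ((h1 | h1) | (h1 | h1))
        · exact absurd h1 h.1
        · exact absurd (inv.PW h1) hvW
        · exact absurd (inv.UW h1.2) hvW
        · exact h1
      · intro h1; exact Or.inr (Or.inr h1)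
  · intro s hs
    rw [hP', mem_insert] at hs
    rcases hs with h | h
    · subst h; rw [G_new, X_new]; exact blk.XG
    · rw [G_old s h, X_old s h]; exact inv.XG s h
  · intro s hs
    rw [hP', mem_insert] at hs
    rcases hs with h | h
    · subst h; rw [X_new]; exact blk.sX
    · rw [X_old s h]; exact inv.sX s h
  · intro s hs
    rw [hP', mem_insert] at hs
    rcases hs with h | h
    · subst h; rw [G_new, A_new]; exact blk.AG
    · rw [G_old s h, A_old s h]; exact inv.AG s h
  · intro s hs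
    rw [hP', mem_insert] at hs
    rcases hs with h | h
    · subst h; rw [A_new]; exact blk.sA
    · rw [A_old s h]; exact inv.sA s h
  · intro s hs
    rw [hP', mem_insert] at hs
    rcases hs with h | h
    · subst h; rw [X_new, A_new]; exact blk.AX
    · rw [X_old s h, A_old s h]; exact inv.AX s h
  · intro s hs
    rw [hP', mem_insert] at hs
    rcases hs with h | h
    · subst h; rw [col_new, lev_old _ hwW]
    · rw [col_old s (by rintro rfl; exact hwP h), lev_old s (inv.PW h)]; exact inv.colP s h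
  · -- colG
    intro s hs v hv hvs hvX
    rw [hP', mem_insert] at hs
    rcases hs with h | h
    · subst h
      rw [G_new] at hv
      rw [X_new] at hvX
      rw [col_old v hvs, lev_old _ hwW]
      rcases (memC v).mp (blk.GC hv) with h1 | h1
      · exact absurd h1 hvs
      · exact h1.2.2
    · rw [G_old s h] at hv
      rw [X_old s h] at hvX
      have hvw : v ≠ w := by
        rintro rfl
        obtain ⟨h1, h2⟩ := inv.hu s h v hv hvs
        have := (inv.tok v hwW h1).mp (Or.inr hw)
        rw [h2] at this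
        exact hvX this
      rw [col_old v hvw, lev_old s (inv.PW h)]
      exact inv.colG s h v hv hvs hvX
  · -- prop
    intro κ
    by_cases hκ : κ = par (σ.lev w)
    · refine blk.ac.mono ?_
      intro v hv
      rw [mem_filter, hU', mem_union, mem_erase, not_or, not_and] at hv
      rw [mem_sdiff, memC]
      refine ⟨?_, hv.2.1.2⟩
      by_cases hvw : v = w
      · exact Or.inl hvw
      · right
        refine ⟨hv.1, hv.2.1.1 hvw, ?_⟩
        rw [← hκ, ← hv.2.2, col_old v hvw]
    · refine (inv.prop κ).mono ?_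
      intro v hv
      rw [mem_filter, hU', mem_union, mem_erase, not_or, not_and] at hv
      rw [mem_filter]
      have hvw : v ≠ w := by
        rintro rfl
        rw [col_new] at hv
        exact hκ hv.2.2.symm
      exact ⟨hv.1, hv.2.1.1 hvw, by rw [← hv.2.2, col_old v hvw]⟩
  · -- bfs
    intro s hs u hu
    have h1 : τ.lev s ≤ σ.lev w := by
      rw [hP', mem_insert] at hs
      rcases hs with h | h
      · subst h; rw [lev_old _ hwW]
      · rw [lev_old s (inv.PW h)]; exact inv.bfs s h w hw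
    rw [hU', mem_union, mem_erase] at hu
    rcases hu with h | h
    · rw [lev_old u (inv.UW h.2)]
      exact h1.trans (hmin u h.2)
    · rw [lev_new u (hX0N h)]
      omega
  · -- b1'
    intro s hs
    rw [hP', mem_insert] at hs
    rcases hs with h | h
    · subst h; rw [G_new, X_new]; exact blk.b1'
    · rw [G_old s h, X_old s h]; exact inv.b1' s h
  · intro s hs
    rw [hP', mem_insert] at hs
    rcases hs with h | h
    · subst h; rw [G_new, X_new]; exact blk.b1
    · rw [G_old s h, X_old s h]; exact inv.b1 s h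
  · -- b3
    intro s hs a ha has haX haA b hb I hIK hI hr
    rw [hP', mem_insert] at hs
    rcases hs with h | h
    · subst h
      rw [G_new] at ha
      rw [X_new] at haX
      rw [A_new] at haA hb
      refine blk.b3 a ha has haX haA b hb (hr.mono ?_)
      intro v hv
      rcases mem_insert.mp hv with h | h
      · subst h; exact mem_sdiff.mpr ⟨blk.GC ha, haX⟩
      rcases mem_insert.mp h with h | h
      · subst h
        rcases hb with hb | hb
        · exact mem_sdiff.mpr ⟨blk.GC (blk.AG hb), blk.AX v hb⟩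
        · subst hb; exact mem_sdiff.mpr ⟨blk.GC blk.sG, blk.sX⟩
      · obtain ⟨h1, h2⟩ := hI v h
        rw [hW', mem_union, not_or] at h1
        have hvs : v ≠ s := by rintro rfl; exact h1.1 hwW
        rw [col_old v hvs, lev_old _ hwW] at h2
        rw [mem_sdiff, memC]
        exact ⟨Or.inr ⟨hIK h, fun h3 => h1.1 (inv.UW h3), h2⟩, fun h3 => h1.2 (blk.XG h3)⟩
    · rw [G_old s h] at ha
      rw [X_old s h] at haX
      rw [A_old s h] at haA hb
      refine inv.b3 s h a ha has haX haA b hb I hIK ?_ hr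
      intro v hv
      obtain ⟨h1, h2⟩ := hI v hv
      rw [hW', mem_union, not_or] at h1
      have hvw : v ≠ w := by rintro rfl; exact h1.1 hwW
      rw [col_old v hvw, lev_old _ (inv.PW h)] at h2
      exact ⟨h1.1, h2⟩
  · -- sub
    intro a ha v hv
    have hv' := hv
    rw [hW'] at hv
    rcases tokOld a ha with ⟨haW, haT⟩ | haX
    · rcases memW' v hv with h | h
      · rw [subOld a haW v h, inv.sub a haT v h, home_old v h]
        by_cases hvk : v = k0
        · subst hvk; simp
        · rw [subOld a haW _ (inv.PW (inv.hm v h hvk).1)]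
      · rw [home_new v h, subOld a haW w hwW]
        have hvW := hN v h
        have hva : v ≠ a := by rintro rfl; exact hvW haW
        have hvk := notk0 v h
        constructor
        · intro h1
          right
          refine ⟨hvk, ?_⟩
          by_contra h2
          rw [sub_out a haW h2] at h1
          exact hvW (inv.subW a haT h1)
        · rintro (h1 | ⟨_, h1⟩)
          · exact absurd h1 hva
          · rw [sub_in a haW h1]
            exact mem_union_right _ (mem_of_mem_erase h)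
    · rw [sub_new a (hX0N haX), mem_singleton, mem_singleton]
      constructor
      · exact Or.inl
      · rintro (h | ⟨h1, h2⟩)
        · exact h
        · exfalso
          have := (hm' v hv' h1).1
          rw [h2, hP', mem_insert] at this
          have h3 := hX0N haX
          rcases this with h4 | h4
          · exact (mem_erase.mp h3).1 h4
          · exact hN a h3 (inv.PW h4)
  · -- subU
    intro u hu
    rw [hU', mem_union, mem_erase] at hu
    rcases hu with h | h
    · rw [sub_out u (inv.UW h.2), inv.subU u h.2]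
      rw [inv.subU u h.2, mem_singleton]
      exact fun h1 => h.1 h1.symm
    · exact sub_new u (hX0N h)
  · -- subW
    intro a ha
    rcases tokOld a ha with ⟨haW, haT⟩ | haX
    · by_cases h : w ∈ σ.Sub a
      · rw [sub_in a haW h, hW']
        exact union_subset_union (inv.subW a haT) (Subset.refl _)
      · rw [sub_out a haW h]
        exact (inv.subW a haT).trans hWW
    · rw [sub_new a (hX0N haX)]
      intro v hv
      rw [mem_singleton] at hv
      subst hv
      exact hGW' (blk.XG haX)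
  · -- up
    intro a ha
    rcases tokOld a ha with ⟨haW, haT⟩ | haX
    · obtain ⟨Q, h1, h2, h3⟩ := inv.up a haT
      exact ⟨Q, h1.trans hWW, h2, fun v hv hv' => h3 v hv ((subOld a haW v (h1 hv)).mp hv')⟩
    · refine ⟨G0 ∪ Qw, union_subset hGW' (hQwW.trans hWW),
        (rcw a (hX0N haX)).trans' hQwr subset_union_left subset_union_right, ?_⟩
      intro v _ hv
      rw [sub_new a (hX0N haX)] at hv
      simpa using hv
  · -- J1
    intro a ha hak b hb hbS
    rw [hW'] at hb
    rcases tokOld a ha with ⟨haW, haT⟩ | haX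
    · rcases memW' b hb with h | h
      · rw [subOld a haW b h] at hbS
        rcases inv.J1 a haT hak b h hbS with ⟨r, hr, hs⟩ | he
        · exact Or.inl ⟨r, hr, hs.mono hWW⟩
        · exact Or.inr (excOld a haW b he)
      · have hwS : w ∉ σ.Sub a := by
          intro h1
          rw [sub_in a haW h1] at hbS
          exact hbS (mem_union_right _ (mem_of_mem_erase h))
        rcases inv.J1 a haT hak w hwW hwS with ⟨r, hr, hs⟩ | he
        · exact Or.inl ⟨r, hr, hs.back (rcw b h) hG hWW hGW'⟩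
        · exact absurd hw he.2.2.2.2.2.1
    · have haN := hX0N haX
      rw [sub_new a haN, mem_singleton] at hbS
      rcases memW' b hb with h | h
      · by_cases hbw : b = w
        · subst hbw
          left
          refine ⟨1, le_refl _, ?_⟩
          have hsep : Sep R σ.W k0 0 b b := by
            refine ⟨b, {b}, {b}, Qw, Ch.nil b, by simpa using hwW, by simpa using hwW, hQwW,
              Rc.rfl' (by simp), hQwr, ?_, ?_, ?_⟩
            · intro x hx _; simpa using hx
            · intro x hx _; simpa using hx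
            · intro x hx _; simpa using hx
          exact hsep.front (linkw a haN) hG hWW hGW'
        · have hwk := root b h hbw
          have hbS' : b ∉ σ.Sub w := by
            rw [inv.subU w hw, mem_singleton]; exact hbw
          rcases inv.J1 w (Or.inr hw) hwk b h hbS' with ⟨r, hr, hs⟩ | he
          · exact Or.inl ⟨r + 1, by omega, hs.front (linkw a haN) hG hWW hGW'⟩
          · exact Or.inl ⟨0 + 1, by omega, he.2.2.2.2.2.2.2.1.front (linkw a haN) hG hWW hGW'⟩
      · have hbG := mem_erase.mp h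
        rcases blk.b2 a haX b hbG.2 hbG.1 hbS with ⟨E, hE, P, hP, hl, hr, hEP⟩ |
          ⟨hbX, hbA, Z, hZ, P, hP, hZr, hPr, hZA⟩
        · left
          refine ⟨1, le_refl _, w, E ∪ {w}, P, Qw, Ch.cons hl (Ch.nil w) ?_, ?_, hP.trans hGW',
            hQwW.trans hWW, hr, hQwr, ?_, ?_, ?_⟩
          · intro x _ hx; simpa using hx
          · refine union_subset (hE.trans hGW') ?_
            intro x hx
            rw [mem_singleton] at hx
            subst hx; exact hWW hwW
          · intro x hx hx'; exact hG x (hP hx) (hQwW hx')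
          · intro x hx hx'
            rcases mem_union.mp hx with hx | hx
            · exact hEP x hx hx'
            · simpa using hx
          · intro x hx hx'
            rcases mem_union.mp hx with hx | hx
            · exact hG x (hE hx) (hQwW hx')
            · simpa using hx
        · right
          have hPG : P ⊆ G0 := by
            intro x hx
            rcases mem_insert.mp (hP hx) with h1 | h1
            · subst h1; exact blk.XG haX
            rcases mem_insert.mp h1 with h1 | h1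
            · subst h1; exact blk.sG
            · exact blk.AG h1
          have hbW := hN b h
          refine ⟨hak, notk0 b h, hGW' hbG.2, ?_, ?_, ?_, ?_, ?_, ?_⟩
          · rw [home_new b h, home_new a haN]
          · rw [hP', mem_insert]
            rintro (h1 | h1)
            · exact hbG.1 h1
            · exact hbW (inv.PW h1)
          · rw [hU', mem_union, mem_erase]
            rintro (h1 | h1)
            · exact hbW (inv.UW h1.2)
            · exact hbX h1
          · rw [home_new a haN, A_new]; exact hbA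
          · refine ⟨a, {a}, Z, P ∪ Qw, Ch.nil a, ?_, hZ.trans hGW', union_subset (hPG.trans hGW')
              (hQwW.trans hWW), hZr, hPr.trans' hQwr subset_union_left subset_union_right, ?_, ?_, ?_⟩
            · intro x hx
              rw [mem_singleton] at hx
              subst hx; exact hGW' (blk.XG haX)
            · intro x hx hx'
              rcases mem_union.mp hx' with h1 | h1
              · rcases mem_insert.mp (hP h1) with h2 | h2
                · exact h2
                rcases mem_insert.mp h2 with h2 | h2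
                · exact hZA x hx (Or.inr (Or.inr h2))
                · exact hZA x hx (Or.inl h2)
              · exact hZA x hx (Or.inr (Or.inr (hG x (hZ hx) (hQwW h1))))
            · intro x hx _; simpa using hx
            · intro x hx _; simpa using hx
          · rw [home_new a haN, G_new, A_new, X_new]
            exact ⟨Z, hZ, P, hP, hZr, hPr, hZA⟩
  · -- J2
    intro a ha hak b hb hbS
    rw [hW'] at ha hb
    rcases memW' a ha with h1 | h1
    · have hhP := (inv.hm a h1 hak).1
      rw [home_old a h1] at hbS ⊢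
      rcases memW' b hb with h | h
      · rw [subOld _ (inv.PW hhP) b h] at hbS
        rcases inv.J2 a h1 hak b h hbS with ⟨r, hr, hs⟩ | he
        · exact Or.inl ⟨r, hr, hs.mono hWW⟩
        · exact Or.inr (excOld _ (inv.PW hhP) b he)
      · have hwS : w ∉ σ.Sub (σ.home a) := by
          intro h2
          rw [sub_in _ (inv.PW hhP) h2] at hbS
          exact hbS (mem_union_right _ (mem_of_mem_erase h))
        rcases inv.J2 a h1 hak w hwW hwS with ⟨r, hr, hs⟩ | he
        · exact Or.inl ⟨r, hr, hs.back (rcw b h) hG hWW hGW'⟩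
        · exact absurd hw he.2.2.2.2.2.1
    · rw [home_new a h1] at hbS ⊢
      have hwS : w ∈ σ.Sub w := by rw [inv.subU w hw]; simp
      rw [sub_in w hwW hwS, mem_union, not_or] at hbS
      rcases memW' b hb with h | h
      · have hbw : b ≠ w := by rintro rfl; exact hbS.1 hwS
        have hwk := root b h hbw
        rcases inv.J1 w (Or.inr hw) hwk b h hbS.1 with ⟨r, hr, hs⟩ | he
        · exact Or.inl ⟨r + 1, by omega, hs.front (linkw a h1) hG hWW hGW'⟩
        · exact Or.inr (excOld w hwW b he)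
      · exact absurd (mem_of_mem_erase h) hbS.2

/-- the initial state -/
theorem inv_init {c : V → Bool} (hk : k0 ∈ K)
    (hc : ∀ κ, Ac R ((K.erase k0).filter (fun v => c v = κ))) :
    Inv R K k0 (⟨∅, {k0}, {k0}, c, fun _ => 0, id, fun _ => ∅, fun _ => ∅, fun _ => ∅,
      fun a => {a}⟩ : St V) := by
  refine
    { WK := by simpa using hk, k0W := by simp, PU := by simp, PW := by simp, UW := by simp,
      lev0 := rfl, hm := ?_, hu := by simp, GW := by simp,
      sG := by simp, k0T := by simp, tok := ?_, XG := by simp, sX := by simp, AG := by simp,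
      sA := by simp, AX := by simp, colP := by simp,
      colG := by simp, prop := ?_, bfs := by simp, b1' := by simp, b1 := by simp, b3 := by simp,
      sub := ?_, subU := by simp,
      subW := ?_, up := ?_, J1 := ?_, J2 := ?_ }
  · intro v hv hvk
    exact absurd (by simpa using hv) hvk
  · intro v hv hvk
    exact absurd (by simpa using hv) hvk
  · intro κ
    refine (hc κ).mono ?_
    intro v hv
    simp only [mem_filter, mem_singleton] at hv
    rw [mem_filter, mem_erase]
    exact ⟨⟨hv.2.1, hv.1⟩, hv.2.2⟩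
  · intro a ha v hv
    simp only [mem_singleton] at hv
    subst hv
    simp
  · intro a ha
    simp only [notMem_empty, mem_singleton, false_or] at ha
    subst ha
    exact Subset.refl _
  · intro a ha
    simp only [notMem_empty, mem_singleton, false_or] at ha
    subst ha
    exact ⟨{a}, by simp, Rc.rfl' (by simp), by simp⟩
  · intro a ha hak
    simp only [notMem_empty, mem_singleton, false_or] at ha
    exact absurd ha hak
  · intro a ha hak
    simp only [mem_singleton] at ha
    exact absurd ha hak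

/-- the main recolouring lemma -/
theorem recolour (hirr : ∀ v, ¬ R v v) (hN : ¬ Neck R 2) (hk : k0 ∈ K)
    (hJ : ∀ a ∈ K, a ≠ k0 → ∃ J, Rc R J k0 a ∧ ∀ x ∈ J, x ∈ K → x = k0 ∨ x = a)
    {c : V → Bool} (hc : ∀ κ, Ac R ((K.erase k0).filter (fun v => c v = κ))) :
    ∃ c : V → Bool, ∀ κ, Ac R (K.filter (fun v => c v = κ)) := by
  have key : ∀ n, ∀ σ : St V, Inv R K k0 σ → (K \ σ.P).card ≤ n →
      ∃ c : V → Bool, ∀ κ, Ac R (K.filter (fun v => c v = κ)) := by
    intro n
    induction n with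
    | zero =>
      intro σ inv hn
      refine ⟨σ.col, fun κ => (inv.prop κ).mono ?_⟩
      intro v hv
      rw [mem_filter] at hv ⊢
      refine ⟨hv.1, ?_, hv.2⟩
      intro hvU
      have : v ∈ K \ σ.P := mem_sdiff.mpr ⟨hv.1, fun h => inv.PU v h hvU⟩
      have := card_pos.mpr ⟨v, this⟩
      omega
    | succ n ih =>
      intro σ inv hn
      rcases σ.U.eq_empty_or_nonempty with hU | hU
      · refine ⟨σ.col, fun κ => (inv.prop κ).mono ?_⟩
        intro v hv
        rw [mem_filter] at hv ⊢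
        exact ⟨hv.1, by rw [hU]; simp, hv.2⟩
      · obtain ⟨w, hw, hmin⟩ := exists_min_image σ.U σ.lev hU
        have hD : Ac R ((cls K σ w).erase w) := by
          refine (inv.prop (par (σ.lev w))).mono ?_
          intro x hx
          rw [mem_erase, mem_cls] at hx
          rcases hx.2 with h | h
          · exact absurd h hx.1
          · rw [mem_filter]; exact h
        have hwC : w ∈ cls K σ w := mem_cls.mpr (Or.inl rfl)
        obtain ⟨G0, X0, A0, blk⟩ := exists_blk hirr hwC hD
        have hG : ∀ v ∈ G0, v ∈ σ.W → v = w := by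
          intro v hv hvW
          by_contra hvw
          have := (blk.mem v).mp hv
          exact inv.noHit hN hJ hw hvW hvw this.1 this.2
        refine ih _ (inv.next hw hmin blk hG) ?_
        have h1 : K \ (nxt σ w G0 X0 A0).P ⊂ K \ σ.P := by
          rw [Finset.ssubset_iff_of_subset]
          · refine ⟨w, mem_sdiff.mpr ⟨inv.WK (inv.UW hw), fun h => inv.PU w h hw⟩, ?_⟩
            simp [nxt]
          · intro v hv
            rw [mem_sdiff] at hv ⊢
            exact ⟨hv.1, fun h => hv.2 (mem_insert_of_mem h)⟩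
        have := card_lt_card h1
        omega
  exact key _ _ (inv_init hk hc) (le_refl _)

end step


section appl
variable {V : Type*} {R : V → V → Prop}

/-- `S` can be coloured with colours in `α`, all classes being acyclic -/
def Colr (R : V → V → Prop) (α : Type) (S : Finset V) : Prop :=
  ∃ c : V → α, ∀ F ⊆ S, (∀ u ∈ F, ∀ v ∈ F, c u = c v) → Ac R F

theorem ac_empty : Ac R (∅ : Finset V) := fun _ _ _ h => absurd h (by simp)

/-- an acyclic set contains no nonempty subset without sinks -/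
theorem Ac.sink {F S : Finset V} (h : Ac R F) (hS : S ⊆ F) (hne : S.Nonempty)
    (hs : ∀ u ∈ S, ∃ v ∈ S, R u v) : False := by
  obtain ⟨u, hu, hmin⟩ := exists_min_image S (fun u => (S.filter (fun x => Rc R S u x)).card) hne
  obtain ⟨v, hv, huv⟩ := hs u hu
  have h1 := hmin v hv
  have h2 : S.filter (fun x => Rc R S v x) ⊂ S.filter (fun x => Rc R S u x) := by
    rw [Finset.ssubset_iff_of_subset]
    · refine ⟨u, by simp [hu, Rc.rfl' hu], ?_⟩
      simp only [mem_filter, not_and]
      intro _ h3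
      exact h u v huv (hS hu) (h3.mono hS)
    · intro x hx
      rw [mem_filter] at hx ⊢
      exact ⟨hx.1, Rc.head huv hu hx.2⟩
  have := card_lt_card h2
  omega

/-- a non-strong set is colourable if its proper subsets are -/
theorem colr_split {α : Type} {S : Finset V} {u v : V} (hu : u ∈ S) (hv : v ∈ S)
    (huv : ¬ Rc R S u v) (ih : ∀ T ⊂ S, Colr R α T) : Colr R α S := by
  obtain ⟨S1, hS1⟩ : ∃ S1, S1 = S.filter (fun x => Rc R S u x) := ⟨_, rfl⟩
  have mem1 : ∀ x, x ∈ S1 ↔ Rc R S u x := by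
    intro x; rw [hS1, mem_filter]; exact ⟨fun h => h.2, fun h => ⟨h.right, h⟩⟩
  have hsub1 : S1 ⊆ S := by rw [hS1]; exact filter_subset _ _
  obtain ⟨c1, hc1⟩ := ih S1 (by
    rw [Finset.ssubset_iff_of_subset hsub1]
    exact ⟨v, hv, fun h => huv ((mem1 v).mp h)⟩)
  obtain ⟨c2, hc2⟩ := ih (S \ S1) (by
    rw [Finset.ssubset_iff_of_subset sdiff_subset]
    exact ⟨u, hu, fun h => (mem_sdiff.mp h).2 ((mem1 u).mpr (Rc.rfl' hu))⟩)
  have closed : ∀ T ⊆ S, ∀ x y, x ∈ S1 → Rc R T x y → y ∈ S1 := by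
    intro T hT x y hx hr
    rw [mem1] at hx ⊢
    exact hx.trans (hr.mono hT)
  refine ⟨fun v => if v ∈ S1 then c1 v else c2 v, ?_⟩
  intro F hF hmono x y hxy hx hr
  obtain ⟨T, hT, hP⟩ := hr.toPS
  have hyS : y ∈ S := hF hr.left
  by_cases hx1 : x ∈ S1
  · have hy1 : y ∈ S1 := by
      rw [mem1] at hx1 ⊢
      exact hx1.tail hxy hyS
    have hT1 : ∀ z ∈ T, z ∈ S1 := fun z hz => closed T (hT.trans hF) y z hy1 (hP.2.2 z hz).1
    refine hc1 T hT1 ?_ x y hxy hP.2.1 hP.rc
    intro a ha b hb
    have := hmono a (hT ha) b (hT hb)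
    simpa only [if_pos (hT1 a ha), if_pos (hT1 b hb)] using this
  · have hT1 : ∀ z ∈ T, z ∉ S1 := fun z hz h => hx1 (closed T (hT.trans hF) z x h (hP.2.2 z hz).2)
    refine hc2 T ?_ ?_ x y hxy hP.2.1 hP.rc
    · intro z hz
      exact mem_sdiff.mpr ⟨hF (hT hz), hT1 z hz⟩
    · intro a ha b hb
      have := hmono a (hT ha) b (hT hb)
      simpa only [if_neg (hT1 a ha), if_neg (hT1 b hb)] using this

/-- distances from a root -/
theorem exists_dist {S : Finset V} {r : V} (hS : ∀ v ∈ S, Rc R S r v) :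
    ∃ d : V → ℕ, (∀ u ∈ S, ∀ v ∈ S, R u v → d v ≤ d u + 1) ∧
      ∀ v ∈ S, Rc R (insert v (S.filter (fun x => d x < d v))) r v := by
  obtain ⟨N, hN⟩ : ∃ N : ℕ → Finset V, N = fun n => Nat.rec (motive := fun _ => Finset V) {r}
    (fun _ T => T ∪ S.filter (fun v => ∃ u ∈ T, R u v)) n := ⟨_, rfl⟩
  have hN0 : N 0 = {r} := by rw [hN]; rfl
  have hNs : ∀ n, N (n + 1) = N n ∪ S.filter (fun v => ∃ u ∈ N n, R u v) := by
    intro n; rw [hN]
  have hex : ∀ v ∈ S, ∃ n, v ∈ N n := by
    intro v hv
    refine Rc.induct (p := fun v => ∃ n, v ∈ N n) ?_ ?_ (hS v hv)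
    · intro _; exact ⟨0, by rw [hN0]; simp⟩
    · rintro a b _ ⟨n, hn⟩ hab hb
      refine ⟨n + 1, ?_⟩
      rw [hNs, mem_union, mem_filter]
      exact Or.inr ⟨hb, a, hn, hab⟩
  obtain ⟨d, hd⟩ : ∃ d : V → ℕ, ∀ v ∈ S, v ∈ N (d v) ∧ ∀ m, v ∈ N m → d v ≤ m := by
    refine ⟨fun v => if h : ∃ n, v ∈ N n then Nat.find h else 0, ?_⟩
    intro v hv
    have h := hex v hv
    simp only [dif_pos h]
    exact ⟨Nat.find_spec h, fun m hm => Nat.find_min' h hm⟩
  have hstep : ∀ u ∈ S, ∀ v ∈ S, R u v → d v ≤ d u + 1 := by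
    intro u hu v hv huv
    apply (hd v hv).2
    rw [hNs, mem_union, mem_filter]
    exact Or.inr ⟨hv, u, (hd u hu).1, huv⟩
  have hNS : r ∈ S → ∀ n, N n ⊆ S := by
    intro hr n
    induction n with
    | zero => rw [hN0]; simpa using hr
    | succ n ih => rw [hNs]; exact union_subset ih (filter_subset _ _)
  refine ⟨d, hstep, ?_⟩
  have key : ∀ n, ∀ v ∈ S, d v = n → Rc R (insert v (S.filter (fun x => d x < d v))) r v := by
    intro n
    induction n with
    | zero =>
      intro v hv hn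
      have h1 := (hd v hv).1
      rw [hn, hN0, mem_singleton] at h1
      subst h1
      exact Rc.rfl' (by simp)
    | succ n ih =>
      intro v hv hn
      have h1 := (hd v hv).1
      have hrS : r ∈ S := (hS v hv).left
      rw [hn, hNs, mem_union, mem_filter] at h1
      rcases h1 with h1 | ⟨_, u, hu, huv⟩
      · have := (hd v hv).2 n h1
        omega
      · have huS : u ∈ S := hNS hrS n hu
        have h2 := (hd u huS).2 n hu
        have h3 := hstep u huS v hv huv
        have h4 := ih u huS (by omega)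
        refine (h4.mono ?_).tail huv (mem_insert_self _ _)
        intro x hx
        rw [mem_insert, mem_filter] at hx
        rw [mem_insert, mem_filter]
        right
        rcases hx with hx | hx
        · subst hx; exact ⟨huS, by omega⟩
        · exact ⟨hx.1, by omega⟩
  intro v hv
  exact key _ v hv rfl

/-- a set accessible from a root outside it is two-colourable -/
theorem colr_accessible (hirr : ∀ v, ¬ R v v) (hN : ¬ Neck R 2) {S : Finset V} {r : V}
    (hS : ∀ v ∈ S, Rc R S v r) : ∀ (n : ℕ) (K : Finset V), K.card ≤ n → K ⊆ S →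
    (∀ a ∈ K, ∃ B, Rc R B r a ∧ ∀ x ∈ B, x ∈ K → x = a) → Colr R Bool K := by
  intro n
  induction n with
  | zero =>
    intro K hK _ _
    have : K = ∅ := card_eq_zero.mp (by omega)
    subst this
    exact ⟨fun _ => true, fun F hF _ => ac_empty.mono hF⟩
  | succ n ih =>
    intro K hK hKS hacc
    rcases K.eq_empty_or_nonempty with hKe | ⟨u, hu⟩
    · subst hKe
      exact ⟨fun _ => true, fun F hF _ => ac_empty.mono hF⟩
    obtain ⟨k0, hk0, _, T, hTS, hTr, hTK⟩ := (hS u (hKS hu)).lastHit (fun x => x ∈ K) hu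
    obtain ⟨c, hc⟩ := ih (K.erase k0) (by rw [card_erase_of_mem hk0]; omega)
      ((erase_subset _ _).trans hKS) (by
        intro a ha
        obtain ⟨B, hB, hBK⟩ := hacc a (mem_of_mem_erase ha)
        exact ⟨B, hB, fun x hx hx' => hBK x hx (mem_of_mem_erase hx')⟩)
    obtain ⟨c', hc'⟩ := recolour (k0 := k0) (c := c) hirr hN hk0 (by
      intro a ha hak
      obtain ⟨B, hB, hBK⟩ := hacc a ha
      refine ⟨T ∪ B, hTr.trans' hB subset_union_left subset_union_right, ?_⟩
      intro x hx hxK
      rcases mem_union.mp hx with h | h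
      · exact Or.inl (hTK x h hxK)
      · exact Or.inr (hBK x h hxK)) (by
      intro κ
      refine hc _ (filter_subset _ _) ?_
      intro u hu v hv
      rw [mem_filter] at hu hv
      rw [hu.2, hv.2])
    refine ⟨c', fun F hF hmono => ?_⟩
    rcases F.eq_empty_or_nonempty with hFe | ⟨u0, hu0⟩
    · subst hFe; exact ac_empty
    · refine (hc' (c' u0)).mono ?_
      intro v hv
      rw [mem_filter]
      exact ⟨hF hv, hmono v hv u0 hu0⟩

theorem colr_all (hirr : ∀ v, ¬ R v v) (hN : ¬ Neck R 2) : ∀ (n : ℕ) (S : Finset V), S.card ≤ n →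
    Colr R (Bool × Bool) S := by
  intro n
  induction n with
  | zero =>
    intro S hS
    have : S = ∅ := card_eq_zero.mp (by omega)
    subst this
    exact ⟨fun _ => (true, true), fun F hF _ => ac_empty.mono hF⟩
  | succ n ih =>
    intro S hS
    by_cases hstr : ∀ u ∈ S, ∀ v ∈ S, Rc R S u v
    swap
    · push Not at hstr
      obtain ⟨u, hu, v, hv, huv⟩ := hstr
      refine colr_split hu hv huv ?_
      intro T hT
      exact ih T (by have := card_lt_card hT; omega)
    rcases S.eq_empty_or_nonempty with hSe | ⟨r, hr⟩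
    · subst hSe
      exact ⟨fun _ => (true, true), fun F hF _ => ac_empty.mono hF⟩
    obtain ⟨d, hd1, hd2⟩ := exists_dist (R := R) (S := S) (r := r) (fun v hv => hstr r hr v hv)
    have hlay : ∀ i, ∃ c : V → Bool, ∀ F ⊆ S.filter (fun v => d v = i),
        (∀ u ∈ F, ∀ v ∈ F, c u = c v) → Ac R F := by
      intro i
      refine colr_accessible hirr hN (S := S) (r := r) (fun v hv => hstr v hv r hr) _
        (S.filter (fun v => d v = i)) (le_refl _) (filter_subset _ _) ?_
      intro a ha
      rw [mem_filter] at ha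
      refine ⟨_, hd2 a ha.1, ?_⟩
      intro x hx hx'
      rw [mem_insert, mem_filter] at hx
      rw [mem_filter] at hx'
      rcases hx with h | h
      · exact h
      · omega
    choose c hc using hlay
    refine ⟨fun v => (par (d v), c (d v) v), ?_⟩
    intro F hFS hFm x y hxy hx hr'
    have hFm1 : ∀ u ∈ F, ∀ v ∈ F, par (d u) = par (d v) := fun u hu v hv =>
      congrArg Prod.fst (hFm u hu v hv)
    have hFm2 : ∀ u ∈ F, ∀ v ∈ F, c (d u) u = c (d v) v := fun u hu v hv =>
      congrArg Prod.snd (hFm u hu v hv)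
    have hmono : ∀ u ∈ F, ∀ v ∈ F, R u v → d v ≤ d u := by
      intro u hu v hv huv
      have h3 := hd1 u (hFS hu) v (hFS hv) huv
      have h4 := hFm1 u hu v hv
      rw [par_eq] at h4
      omega
    have hmono' : ∀ T ⊆ F, ∀ u v, Rc R T u v → d v ≤ d u := by
      intro T hT u v huv
      refine Rc.induct (p := fun v => d v ≤ d u) (fun _ => le_refl _) ?_ huv
      intro a b hua ih' hab hb
      exact (hmono a (hT hua.right) b (hT hb) hab).trans ih'
    obtain ⟨T, hT, hP⟩ := hr'.toPS
    have h1 := hmono x hx y hr'.left hxy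
    have h2 := hmono' F (Subset.refl _) y x hr'
    have hall : ∀ z ∈ T, d z = d x := by
      intro z hz
      have h3 := hmono' T hT y z (hP.2.2 z hz).1
      have h4 := hmono' T hT z x (hP.2.2 z hz).2
      omega
    refine hc (d x) T ?_ ?_ x y hxy hP.2.1 hP.rc
    · intro z hz
      simp only [mem_filter]
      exact ⟨hFS (hT hz), hall z hz⟩
    · intro a ha b hb
      have := hFm2 a (hT ha) b (hT hb)
      rwa [hall a ha, hall b hb] at this

end appl

end Pool.Agent.Lib.TriFive
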