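import Pool.Agent.Lib.TriFive.Fvn
import Pool.Agent.Lib.P71954f.MengerAB

/-!
# Digraphs which, after the removal of a vertex, have a pair cover consisting of disjoint pairs

`f` is an involution, `H` does not contain the vertex `t`, and every circuit in `H` contains a pair `x`, `f x` with `f x ≠ x`.
If `H ∪ {t}` cannot be coloured with two colours, then there are three circuits, any two of which meet in one vertex
(theorem MATCH of helper36).
-/

set_option autoImplicit false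

namespace Pool.Agent.Lib.TriFive.Match

open Finset
open scoped Classical
open Pool.Agent.Lib.TriFive

section menger
variable {V : Type*} {R : V → V → Prop}

theorem menger2 [Fintype V] {X : Finset V} (A B : V → Prop) (x0 : V)
    (h : ∀ x : V, ∃ a b, A a ∧ B b ∧ Rc R (X.erase x) a b) :
    ∃ S1 S2 a1 b1 a2 b2, S1 ⊆ X ∧ S2 ⊆ X ∧ A a1 ∧ A a2 ∧ B b1 ∧ B b2 ∧ Rc R S1 a1 b1 ∧
      Rc R S2 a2 b2 ∧ ∀ x ∈ S1, x ∉ S2 := by
  have key : ∀ (a b : V) (T : Finset V) (S : Finset V), T ⊆ X → (∀ x ∈ T, x ∉ S) → Rc R T a b →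
      P71954f.RS (fun p q => R p q ∧ p ∈ X ∧ q ∈ X) (↑S : Set V)ᶜ a b := by
    intro a b T S hT hTS hr
    refine ⟨?_, ?_⟩
    · simpa using hTS a hr.left
    · refine Rc.induct (p := fun b => Relation.ReflTransGen (fun p q => (R p q ∧ p ∈ X ∧ q ∈ X) ∧
        q ∈ (↑S : Set V)ᶜ) a b) (fun _ => Relation.ReflTransGen.refl) ?_ hr
      intro p q hp ih hpq hq
      exact ih.tail ⟨⟨hpq, hT hp.right, hT hq⟩, by simpa using hTS q hq⟩
  obtain ⟨L, hL, hr⟩ := P71954f.menger_ab (fun p q => R p q ∧ p ∈ X ∧ q ∈ X)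
    {a | A a ∧ a ∈ X} {b | B b} 2 (by
      intro S hS
      by_cases hSe : S = ∅
      · obtain ⟨a, b, ha, hb, hab⟩ := h x0
        refine ⟨a, ⟨ha, (mem_erase.mp hab.left).2⟩, b, hb, key a b _ S (erase_subset x0 X) ?_ hab⟩
        intro x _; rw [hSe]; simp
      · have h1 : S.card = 1 := by
          have := card_pos.mpr (nonempty_iff_ne_empty.mpr hSe)
          omega
        obtain ⟨x, hx⟩ := card_eq_one.mp h1
        obtain ⟨a, b, ha, hb, hab⟩ := h x
        refine ⟨a, ⟨ha, (mem_erase.mp hab.left).2⟩, b, hb, key a b _ S (erase_subset x X) ?_ hab⟩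
        intro y hy; rw [hx, mem_singleton]; exact (mem_erase.mp hy).1)
  have back : ∀ i, ∃ a b, A a ∧ B b ∧ Rc R (univ.filter (fun v => v ∈ L i ∧ v ∈ X)) a b := by
    intro i
    obtain ⟨a, ⟨ha, haX⟩, b, hb, h1, h2⟩ := hr i
    refine ⟨a, b, ha, hb, ?_⟩
    refine ⟨by simp [h1, haX], ?_⟩
    refine Relation.ReflTransGen.mono ?_ _ _ h2
    intro p q hpq
    refine ⟨hpq.1.1, ?_⟩
    simp only [mem_filter, mem_univ, true_and]
    exact ⟨hpq.2, hpq.1.2.2⟩
  obtain ⟨a1, b1, g1, g2, g3⟩ := back 0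
  obtain ⟨a2, b2, g4, g5, g6⟩ := back 1
  refine ⟨_, _, a1, b1, a2, b2, ?_, ?_, g1, g4, g2, g5, g3, g6, ?_⟩
  · intro x hx; simp only [mem_filter, mem_univ, true_and] at hx; exact hx.2
  · intro x hx; simp only [mem_filter, mem_univ, true_and] at hx; exact hx.2
  · intro x hx hx'
    simp only [mem_filter, mem_univ, true_and] at hx hx'
    exact Set.disjoint_left.mp (hL 0 1 (by decide)) hx.1 hx'.1

/-- a path from a successor to a predecessor of `t` gives a circuit through `t` -/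
theorem circ_of_walk {S : Finset V} {t a b : V} (ht : t ∉ S) (ha : R t a) (hb : R b t)
    (h : Rc R S a b) : ∃ g ⊆ insert t S, t ∈ g ∧ (∃ x ∈ g, x ≠ t) ∧ Circ R g := by
  by_cases hab : a = b
  · subst hab
    have hta : t ≠ a := by rintro rfl; exact ht h.left
    refine ⟨{t, a}, ?_, by simp, ⟨a, by simp, hta.symm⟩, circ_two ha hb hta⟩
    intro x hx
    rcases mem_insert.mp hx with h1 | h1
    · exact h1 ▸ mem_insert_self _ _
    · rw [mem_singleton] at h1; exact h1 ▸ mem_insert_of_mem h.left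
  · obtain ⟨l, hl, hlS⟩ := h.pth hab
    have hmem : ∀ x, x ∈ a :: (l ++ [b]) → x ∈ S := by
      intro x hx
      simp only [List.mem_cons, List.mem_append, List.not_mem_nil, or_false] at hx
      rcases hx with hx | hx | hx
      · exact hx ▸ h.left
      · exact hlS x hx
      · exact hx ▸ h.right
    refine ⟨(t :: (a :: (l ++ [b]))).toFinset, ?_, by simp, ⟨a, by simp, ?_⟩, circ_list ?_ ?_⟩
    · intro x hx
      rw [List.mem_toFinset] at hx
      rcases List.mem_cons.mp hx with h1 | h1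
      · exact h1 ▸ mem_insert_self _ _
      · exact mem_insert_of_mem (hmem x h1)
    · rintro rfl; exact ht h.left
    · rw [List.nodup_cons]
      exact ⟨fun h1 => ht (hmem t h1), hl.1⟩
    · have e : t :: (a :: (l ++ [b]) ++ [t]) = t :: a :: (l ++ b :: ([] ++ [t])) := by simp
      rw [e, List.isChain_cons_cons]
      refine ⟨ha, ?_⟩
      have e2 : a :: (l ++ b :: ([] ++ [t])) = (a :: l) ++ b :: ([] ++ [t]) := by simp
      rw [List.isChain_cons_split]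
      exact ⟨hl.2, by simpa using hb⟩

/-- a circuit through `t` gives a walk -/
theorem walk_of_circ {g : Finset V} {t : V} (hg : Circ R g) (ht : t ∈ g) (hx : ∃ x ∈ g, x ≠ t) :
    ∃ a b, R t a ∧ R b t ∧ Rc R (g.erase t) a b := by
  obtain ⟨x, hx, hxt⟩ := hx
  obtain ⟨a, ha, h1⟩ := (hg.rc ht hx hxt.symm).out hxt
  obtain ⟨b, hb, h2⟩ := (hg.rc hx ht hxt).inn hxt
  exact ⟨a, b, ha, hb, h1.trans h2⟩

end menger

section go
variable {V : Type*} {R : V → V → Prop}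

/-- `u` reaches `y` by a path of positive length, all of whose vertices after `u` are in `Y` -/
def Gi (R : V → V → Prop) (Y : Finset V) (u y : V) : Prop := ∃ y0, R u y0 ∧ Rc R Y y0 y

/-- `u` reaches `v` by a path of positive length with inner vertices in `Y` -/
def Go (R : V → V → Prop) (Y : Finset V) (u v : V) : Prop := R u v ∨ ∃ y, Gi R Y u y ∧ R y v

theorem Gi.right {Y : Finset V} {u y : V} (h : Gi R Y u y) : y ∈ Y := by
  obtain ⟨y0, _, h2⟩ := h; exact h2.right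

theorem Gi.mono {Y Y' : Finset V} {u y : V} (h : Gi R Y u y) (hY : Y ⊆ Y') : Gi R Y' u y := by
  obtain ⟨y0, h1, h2⟩ := h; exact ⟨y0, h1, h2.mono hY⟩

theorem Go.mono {Y Y' : Finset V} {u v : V} (h : Go R Y u v) (hY : Y ⊆ Y') : Go R Y' u v := by
  rcases h with h | ⟨y, h1, h2⟩
  · exact Or.inl h
  · exact Or.inr ⟨y, h1.mono hY, h2⟩

theorem Gi.single {Y : Finset V} {u y : V} (h : R u y) (hy : y ∈ Y) : Gi R Y u y := ⟨y, h, Rc.rfl' hy⟩

theorem Gi.step {Y : Finset V} {u y z : V} (h : Gi R Y u y) (h' : R y z) (hz : z ∈ Y) : Gi R Y u z := by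
  obtain ⟨y0, h1, h2⟩ := h; exact ⟨y0, h1, h2.tail h' hz⟩

theorem Gi.walk {Y : Finset V} {u y z : V} (h : Gi R Y u y) (h' : Rc R Y y z) : Gi R Y u z := by
  obtain ⟨y0, h1, h2⟩ := h; exact ⟨y0, h1, h2.trans h'⟩

theorem Gi.go {Y : Finset V} {u y v : V} (h : Gi R Y u y) (h' : R y v) : Go R Y u v := Or.inr ⟨y, h, h'⟩

theorem Go.gi {Y : Finset V} {u v : V} (h : Go R Y u v) (hv : v ∈ Y) : Gi R Y u v := by
  rcases h with h | ⟨y, h1, h2⟩
  · exact Gi.single h hv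
  · exact h1.step h2 hv

theorem Gi.cut {Y : Finset V} {u y : V} (h : Gi R Y u y) (w : V) :
    Gi R (Y.erase w) u y ∨ (Gi R Y u w ∧ Rc R Y w y) := by
  obtain ⟨y0, h1, h2⟩ := h
  rcases h2.cut w with h3 | ⟨h3, h4⟩
  · exact Or.inl ⟨y0, h1, h3⟩
  · exact Or.inr ⟨⟨y0, h1, h3⟩, h4⟩

theorem Go.cut {Y : Finset V} {u v : V} (h : Go R Y u v) (w : V) :
    Go R (Y.erase w) u v ∨ (Gi R Y u w ∧ ∃ y, Rc R Y w y ∧ R y v) := by
  rcases h with h | ⟨y, h1, h2⟩
  · exact Or.inl (Or.inl h)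
  · rcases h1.cut w with h3 | ⟨h3, h4⟩
    · exact Or.inl (Or.inr ⟨y, h3, h2⟩)
    · exact Or.inr ⟨h3, y, h4, h2⟩

theorem Go.rc {Y S : Finset V} {u v : V} (h : Go R Y u v) (hY : Y ⊆ S) (hu : u ∈ S) (hv : v ∈ S) : Rc R S u v := by
  rcases h with h | ⟨y, ⟨y0, h1, h2⟩, h3⟩
  · exact Rc.step h hu hv
  · exact (Rc.head h1 hu (h2.mono hY)).tail h3 hv

theorem Gi.rc {Y S : Finset V} {u v : V} (h : Gi R Y u v) (hY : Y ⊆ S) (hu : u ∈ S) : Rc R S u v := by
  obtain ⟨y0, h1, h2⟩ := h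
  exact Rc.head h1 hu (h2.mono hY)

/-- the last vertex outside `Y` -/
theorem Gi.last {Y K Z : Finset V} {u y : V} (hZ : Z ⊆ Y ∪ K) (h : Gi R Z u y) :
    Gi R Y u y ∨ ∃ k ∈ K, k ∈ Z ∧ (y = k ∨ Gi R Y k y) := by
  obtain ⟨y0, h1, h2⟩ := h
  refine Rc.induct (p := fun y => Gi R Y u y ∨ ∃ k ∈ K, k ∈ Z ∧ (y = k ∨ Gi R Y k y)) ?_ ?_ h2
  · intro hy
    rcases mem_union.mp (hZ hy) with h | h
    · exact Or.inl (Gi.single h1 h)
    · exact Or.inr ⟨_, h, hy, Or.inl rfl⟩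
  · intro a b _ ih hab hb
    rcases mem_union.mp (hZ hb) with h | h
    · rcases ih with ih | ⟨k, hk, hkZ, ih⟩
      · exact Or.inl (ih.step hab h)
      · rcases ih with rfl | ih
        · exact Or.inr ⟨_, hk, hkZ, Or.inr (Gi.single hab h)⟩
        · exact Or.inr ⟨k, hk, hkZ, Or.inr (ih.step hab h)⟩
    · exact Or.inr ⟨b, h, hb, Or.inl rfl⟩

theorem Go.last {Y K Z : Finset V} {u v : V} (hZ : Z ⊆ Y ∪ K) (h : Go R Z u v) :
    Go R Y u v ∨ ∃ k ∈ K, k ∈ Z ∧ Go R Y k v := by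
  rcases h with h | ⟨y, h1, h2⟩
  · exact Or.inl (Or.inl h)
  · rcases h1.last hZ with h3 | ⟨k, hk, hkZ, rfl | h3⟩
    · exact Or.inl (h3.go h2)
    · exact Or.inr ⟨y, hk, hkZ, Or.inl h2⟩
    · exact Or.inr ⟨k, hk, hkZ, h3.go h2⟩

/-- the first vertex outside `Y` -/
theorem Gi.first {Y K Z : Finset V} {u y : V} (hZ : Z ⊆ Y ∪ K) (h : Gi R Z u y) :
    Gi R Y u y ∨ ∃ k ∈ K, k ∈ Z ∧ Go R Y u k := by
  obtain ⟨y0, h1, h2⟩ := h
  refine Rc.induct (p := fun y => Gi R Y u y ∨ ∃ k ∈ K, k ∈ Z ∧ Go R Y u k) ?_ ?_ h2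
  · intro hy
    rcases mem_union.mp (hZ hy) with h | h
    · exact Or.inl (Gi.single h1 h)
    · exact Or.inr ⟨_, h, hy, Or.inl h1⟩
  · intro a b _ ih hab hb
    rcases ih with ih | ih
    · rcases mem_union.mp (hZ hb) with h | h
      · exact Or.inl (ih.step hab h)
      · exact Or.inr ⟨b, h, hb, ih.go hab⟩
    · exact Or.inr ih

theorem Go.first {Y K Z : Finset V} {u v : V} (hZ : Z ⊆ Y ∪ K) (h : Go R Z u v) :
    Go R Y u v ∨ ∃ k ∈ K, k ∈ Z ∧ Go R Y u k := by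
  rcases h with h | ⟨y, h1, h2⟩
  · exact Or.inl (Or.inl h)
  · rcases h1.first hZ with h3 | h3
    · exact Or.inl (h3.go h2)
    · exact Or.inr h3

end go

end Pool.Agent.Lib.TriFive.Match
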