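import Pool.Agent.Lib.TriFive.Match

/-!
# Matchings as pair covers: critical vertices and flips
-/

set_option autoImplicit false

namespace Pool.Agent.Lib.TriFive.Match

open Finset
open scoped Classical
open Pool.Agent.Lib.TriFive

section base
variable {V : Type*} {R : V → V → Prop} {H : Finset V} {t : V} {f : V → V}

structure Base (R : V → V → Prop) (H : Finset V) (t : V) (f : V → V) : Prop where
  irr : ∀ v, ¬ R v v
  tH : t ∉ H
  inv : ∀ v, f (f v) = v
  ft : f t = t
  fH : ∀ v ∈ H, f v ∈ H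
  cov : ∀ S ⊆ H, (∀ x ∈ S, f x ∈ S → f x = x) → Ac R S

/-- `X` contains at most one end of every pair, and its complement in `H` is acyclic -/
structure CF (R : V → V → Prop) (H : Finset V) (f : V → V) (X : Finset V) : Prop where
  sub : X ⊆ H
  ind : ∀ x ∈ X, f x ∉ X
  ac : Ac R (H \ X)

/-- `x` is on all circuits in `X ∪ {t}` -/
def Cr (R : V → V → Prop) (t : V) (X : Finset V) (x : V) : Prop := x ∈ X ∧ Ac R (insert t (X.erase x))

structure G1 (R : V → V → Prop) (H : Finset V) (t : V) (f : V → V) (X : Finset V) : Prop where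
  cf : CF R H f X
  cr : ∃ x, Cr R t X x
  mx : ∀ X', CF R H f X' → (∃ x, Cr R t X' x) → X'.card ≤ X.card

theorem CF.ne {X : Finset V} (h : CF R H f X) {x : V} (hx : x ∈ X) : f x ≠ x := fun h1 => h.ind x hx (h1.symm ▸ hx)

theorem Base.acX (hB : Base R H t f) {X : Finset V} (hX : X ⊆ H) (hi : ∀ x ∈ X, f x ∉ X) : Ac R X :=
  hB.cov X hX fun x hx h => absurd h (hi x hx)

theorem Base.inj (hB : Base R H t f) {x y : V} (h : f x = f y) : x = y := by
  rw [← hB.inv x, h, hB.inv]

theorem flip (hB : Base R H t f) (hQ : ∀ X, CF R H f X → ¬ Ac R (insert t X)) (hN : ¬ Neck R 2) {X : Finset V} {x : V}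
    (hG : G1 R H t f X) (hx : Cr R t X x) :
    G1 R H t f (insert (f x) (X.erase x)) ∧ Cr R t (insert (f x) (X.erase x)) (f x) := by
  have hxX := hx.1
  have hfx : f x ∉ X := hG.cf.ind x hxX
  have hfxx : f x ≠ x := hG.cf.ne hxX
  have hxH : x ∈ H := hG.cf.sub hxX
  have e1 : (insert (f x) (X.erase x)).erase (f x) = X.erase x :=
    erase_insert (fun h => hfx (mem_of_mem_erase h))
  have hcr : Cr R t (insert (f x) (X.erase x)) (f x) := ⟨mem_insert_self _ _, by rw [e1]; exact hx.2⟩
  have hac : Ac R (H \ (insert (f x) (X.erase x))) := by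
    by_contra hc
    have h1 : Ac R ((H \ (insert (f x) (X.erase x))).erase x) := by
      refine hG.cf.ac.mono fun y hy => ?_
      simp only [mem_erase, mem_sdiff, mem_insert, not_or, not_and] at hy ⊢
      exact ⟨hy.2.1, fun h => hy.2.2.2 hy.1 h⟩
    obtain ⟨C, hC, hxC, ⟨y0, hy0, hy0x⟩, hcC⟩ := circ_of_not_ac hB.irr hc h1
    -- a pair in `C`
    have h2 : ¬ Ac R C := hcC.not_ac (Subset.refl _) hy0 hxC hy0x
    have hCH : C ⊆ H := hC.trans sdiff_subset
    have h3 : ∃ a ∈ C, f a ∈ C ∧ f a ≠ a := by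
      by_contra h3
      push Not at h3
      exact h2 (hB.cov C hCH h3)
    obtain ⟨a, haC, hfaC, hfaa⟩ := h3
    have hfxC : f x ∉ C := fun h => (mem_sdiff.mp (hC h)).2 (mem_insert_self _ _)
    have hCX : ∀ z ∈ C, z ∈ X → z = x := by
      intro z hz hzX
      by_contra hzx
      exact (mem_sdiff.mp (hC hz)).2 (mem_insert_of_mem (mem_erase.mpr ⟨hzx, hzX⟩))
    have hax : a ≠ x := fun h => hfxC (h ▸ hfaC)
    have hfax : f a ≠ x := fun h => hfxC (by rw [← h, hB.inv]; exact haC)
    have haX : a ∉ X := fun h => hax (hCX a haC h)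
    have hfaX : f a ∉ X := fun h => hfax (hCX _ hfaC h)
    have hcf : CF R H f (insert a X) := by
      refine ⟨insert_subset (hCH haC) hG.cf.sub, ?_, hG.cf.ac.mono (sdiff_subset_sdiff (Subset.refl _) (subset_insert _ _))⟩
      intro y hy hfy
      rcases mem_insert.mp hy with rfl | hy
      · rcases mem_insert.mp hfy with h | h
        · exact hfaa h
        · exact hfaX h
      · rcases mem_insert.mp hfy with h | h
        · exact hfaX (by rw [← h, hB.inv]; exact hy)
        · exact hG.cf.ind y hy h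
    have hncr : ∀ y, ¬ Cr R t (insert a X) y := by
      intro y hy
      have := hG.mx _ hcf ⟨y, hy⟩
      rw [card_insert_of_notMem haX] at this
      omega
    have htF : t ∉ insert a X := fun h => hB.tH (hcf.sub h)
    obtain ⟨S, hSF, hSA, hS1, hS2⟩ := rails hB.irr htF (hB.acX hcf.sub hcf.ind)
    obtain ⟨y, hy⟩ : S.Nonempty := by
      rw [nonempty_iff_ne_empty]
      intro h
      rw [h, sdiff_empty] at hSA
      exact hQ _ hcf hSA
    obtain ⟨y', hy', hyy⟩ : ∃ y' ∈ S, y' ≠ y := by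
      by_contra hcon
      push Not at hcon
      refine hncr y ⟨hSF hy, hSA.mono (insert_subset_insert _ ?_)⟩
      intro z hz
      rw [mem_erase] at hz
      exact mem_sdiff.mpr ⟨hz.2, fun h => hz.1 (hcon z h)⟩
    obtain ⟨C1, hC1, C2, hC2, hc1, hc2, ht1, ht2, hy1, hy2, -, -, hcc⟩ := hS2 y hy y' hy' hyy.symm
    -- a circuit which avoids `x` contains `a`
    have key : ∀ C1 ⊆ insert t (insert a X), Circ R C1 → t ∈ C1 → (∃ y ∈ C1, y ≠ t) → x ∉ C1 → a ∈ C1 := by
      intro C1 hC1 hc1 ht1 ⟨y, hy, hyt⟩ hxC1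
      by_contra haC1
      refine hc1.not_ac (S := insert t (X.erase x)) ?_ hy ht1 hyt hx.2
      intro z hz
      have := hC1 hz
      simp only [mem_insert, mem_erase] at this ⊢
      rcases this with h | h | h
      · exact Or.inl h
      · exact absurd (h ▸ hz) haC1
      · exact Or.inr ⟨fun h' => hxC1 (h' ▸ hz), h⟩
    have hta : t ≠ a := fun h => hB.tH (h ▸ hCH haC)
    have htx : t ≠ x := fun h => hB.tH (h ▸ hxH)
    have hyt : y ≠ t := fun h => htF (h ▸ hSF hy)
    have hyt' : y' ≠ t := fun h => htF (h ▸ hSF hy')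
    -- the ring
    have fin : ∀ C1 ⊆ insert t (insert a X), ∀ C2 ⊆ insert t (insert a X), Circ R C1 → Circ R C2 → t ∈ C1 → t ∈ C2 →
        (∀ z ∈ C1, z ∈ C2 → z = t) → x ∈ C1 → a ∈ C2 → False := by
      intro C1 hC1 C2 hC2 hc1 hc2 ht1 ht2 hcc hx1 ha2
      have hx2 : x ∉ C2 := fun h => htx (hcc x hx1 h).symm
      have ha1 : a ∉ C1 := fun h => hta (hcc a h ha2).symm
      refine hN (ring3 hc1 hc2 hcC (a := t) (b := a) (c := x) ht1 ht2 ha2 haC hx1 hxC hta hax htx hcc ?_ ?_)
      · intro z hz hzC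
        have := hC2 hz
        simp only [mem_insert] at this
        rcases this with h | h | h
        · exact absurd (hCH hzC) (h ▸ hB.tH)
        · exact h
        · exact absurd (hCX z hzC h ▸ hz) hx2
      · intro z hz hzC
        have := hC1 hz
        simp only [mem_insert] at this
        rcases this with h | h | h
        · exact absurd (hCH hzC) (h ▸ hB.tH)
        · exact absurd (h ▸ hz) ha1
        · exact hCX z hzC h
    by_cases h1 : x ∈ C1
    · have h2 : x ∉ C2 := fun h => htx (hcc x h1 h).symm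
      exact fin C1 hC1 C2 hC2 hc1 hc2 ht1 ht2 hcc h1 (key C2 hC2 hc2 ht2 ⟨y', hy2, hyt'⟩ h2)
    · have ha1 := key C1 hC1 hc1 ht1 ⟨y, hy1, hyt⟩ h1
      by_cases h2 : x ∈ C2
      · exact fin C2 hC2 C1 hC1 hc2 hc1 ht2 ht1 (fun z hz hz' => hcc z hz' hz) h2 ha1
      · exact hta (hcc a ha1 (key C2 hC2 hc2 ht2 ⟨y', hy2, hyt'⟩ h2)).symm
  refine ⟨⟨⟨?_, ?_, hac⟩, ⟨_, hcr⟩, ?_⟩, hcr⟩
  · exact insert_subset (hB.fH x hxH) ((erase_subset _ _).trans hG.cf.sub)
  · intro y hy hfy
    rcases mem_insert.mp hy with rfl | hy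
    · rw [hB.inv] at hfy
      rcases mem_insert.mp hfy with h | h
      · exact hfxx h.symm
      · exact (mem_erase.mp h).1 rfl
    · rcases mem_insert.mp hfy with h | h
      · exact (mem_erase.mp hy).1 (hB.inj h)
      · exact hG.cf.ind y (mem_of_mem_erase hy) (mem_of_mem_erase h)
  · intro X' h1 h2
    rw [card_insert_of_notMem (fun h => hfx (mem_of_mem_erase h)), card_erase_add_one hxX]
    exact hG.mx X' h1 h2

end base

end Pool.Agent.Lib.TriFive.Match
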