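import Pool.Agent.Lib.TriFive.MatchB

/-!
# Matchings as pair covers: ladders
-/

set_option autoImplicit false

namespace Pool.Agent.Lib.TriFive.Match

open Finset
open scoped Classical
open Pool.Agent.Lib.TriFive

section ladder
variable {V : Type*} {R : V → V → Prop} {H : Finset V} {t : V} {f : V → V}

/-- `v` is on level `i` -/
def Lv (f : V → V) (x : ℕ → V) (i : ℕ) (v : V) : Prop := v = x i ∨ v = f (x i)

/-- the chosen vertices on the levels `1, ..., l` -/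
noncomputable def Sl (c : ℕ → V) (l : ℕ) : Finset V := (Icc 1 l).image c

/-- the vertices on the levels `1, ..., l` -/
noncomputable def All (f : V → V) (x : ℕ → V) (l : ℕ) : Finset V := Sl x l ∪ Sl (fun j => f (x j)) l

theorem mem_sl {c : ℕ → V} {l : ℕ} {v : V} : v ∈ Sl c l ↔ ∃ j, 1 ≤ j ∧ j ≤ l ∧ c j = v := by
  simp only [Sl, mem_image, mem_Icc, and_assoc]

theorem mem_all {x : ℕ → V} {l : ℕ} {v : V} : v ∈ All f x l ↔ ∃ j, 1 ≤ j ∧ j ≤ l ∧ Lv f x j v := by
  rw [All, mem_union, mem_sl, mem_sl]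
  constructor
  · rintro (⟨j, h1, h2, h3⟩ | ⟨j, h1, h2, h3⟩)
    · exact ⟨j, h1, h2, Or.inl h3.symm⟩
    · exact ⟨j, h1, h2, Or.inr h3.symm⟩
  · rintro ⟨j, h1, h2, h3 | h3⟩
    · exact Or.inl ⟨j, h1, h2, h3.symm⟩
    · exact Or.inr ⟨j, h1, h2, h3.symm⟩

theorem sl_sub {x c : ℕ → V} {l : ℕ} (hc : ∀ j, Lv f x j (c j)) : Sl c l ⊆ All f x l := by
  intro v hv
  obtain ⟨j, h1, h2, h3⟩ := mem_sl.mp hv
  exact mem_all.mpr ⟨j, h1, h2, h3 ▸ hc j⟩

/-- the standard selection, changed at one place -/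
theorem lv_upd {x : ℕ → V} {i : ℕ} {v : V} (hv : Lv f x i v) : ∀ j, Lv f x j (if j = i then v else x j) := by
  intro j
  by_cases h : j = i
  · rw [if_pos h, h]; exact hv
  · rw [if_neg h]; exact Or.inl rfl

theorem lv_upd2 {x : ℕ → V} {i j : ℕ} {u v : V} (hu : Lv f x i u) (hv : Lv f x j v) :
    ∀ k, Lv f x k (if k = i then u else if k = j then v else x k) := by
  intro k
  by_cases h : k = i
  · rw [if_pos h, h]; exact hu
  rw [if_neg h]
  exact lv_upd hv k

theorem Base.lvf (hB : Base R H t f) {x : ℕ → V} {i : ℕ} {v : V} (hv : Lv f x i v) : Lv f x i (f v) := by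
  rcases hv with h | h
  · exact Or.inr (by rw [h])
  · exact Or.inl (by rw [h, hB.inv])

structure Lad (R : V → V → Prop) (H : Finset V) (t : V) (f : V → V) (Y : Finset V) (l : ℕ) (x : ℕ → V) : Prop where
  x0 : x 0 = t
  sel : ∀ c : ℕ → V, (∀ j, Lv f x j (c j)) → G1 R H t f (Y ∪ Sl c l)
  a1 : ∀ i < l, ∀ u, Lv f x i u → ¬ Go R Y u t
  a2 : ∀ i j, i + 2 ≤ j → j ≤ l → ∀ u v, Lv f x i u → Lv f x j v → ¬ Go R Y u v
  b : ∀ w ∈ Y, ∃ u, Lv f x l u ∧ Rc R ((insert t (Y ∪ All f x l)).erase w) t u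

variable {Y : Finset V} {l : ℕ} {x : ℕ → V}

theorem Lad.lv0 (hL : Lad R H t f Y l x) (hB : Base R H t f) {u : V} (hu : Lv f x 0 u) : u = t := by
  rcases hu with h | h
  · rw [h, hL.x0]
  · rw [h, hL.x0, hB.ft]

theorem Lad.YH (hL : Lad R H t f Y l x) : Y ⊆ H :=
  subset_union_left.trans (hL.sel x (fun _ => Or.inl rfl)).cf.sub

theorem Lad.lvH (hL : Lad R H t f Y l x) {j : ℕ} (h1 : 1 ≤ j) (h2 : j ≤ l) {v : V} (hv : Lv f x j v) : v ∈ H := by
  refine (hL.sel _ (lv_upd hv)).cf.sub (mem_union_right _ (mem_sl.mpr ⟨j, h1, h2, ?_⟩))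
  simp

theorem Lad.lvn (hL : Lad R H t f Y l x) {j : ℕ} (h1 : 1 ≤ j) (h2 : j ≤ l) {v : V} (hv : Lv f x j v) : f v ≠ v := by
  refine (hL.sel _ (lv_upd hv)).cf.ne (mem_union_right _ (mem_sl.mpr ⟨j, h1, h2, ?_⟩))
  simp

theorem Lad.lvY (hL : Lad R H t f Y l x) (hB : Base R H t f) {j : ℕ} (h1 : 1 ≤ j) (h2 : j ≤ l) {v : V}
    (hv : Lv f x j v) : v ∉ Y := by
  have := (hL.sel _ (lv_upd (hB.lvf hv))).cf.ind (f v) (mem_union_right _ (mem_sl.mpr ⟨j, h1, h2, by simp⟩))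
  rw [hB.inv] at this
  exact fun h => this (mem_union_left _ h)

theorem Lad.lvd (hL : Lad R H t f Y l x) (hB : Base R H t f) {i j : ℕ} (h1 : 1 ≤ i) (h2 : i ≤ l) (h3 : 1 ≤ j) (h4 : j ≤ l)
    {v : V} (hv : Lv f x i v) (hv' : Lv f x j v) : i = j := by
  by_contra hij
  have := (hL.sel _ (lv_upd2 hv (hB.lvf hv'))).cf.ind v (mem_union_right _ (mem_sl.mpr ⟨i, h1, h2, by simp⟩))
  exact this (mem_union_right _ (mem_sl.mpr ⟨j, h3, h4, by simp [Ne.symm hij]⟩))

/-- the partner of a vertex in `Y` -/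
theorem Lad.fY (hL : Lad R H t f Y l x) {y : V} (hy : y ∈ Y) : f y ∉ Y ∪ All f x l := by
  intro h
  rcases mem_union.mp h with h | h
  · exact (hL.sel x (fun _ => Or.inl rfl)).cf.ind y (mem_union_left _ hy) (mem_union_left _ h)
  · obtain ⟨j, h1, h2, h3⟩ := mem_all.mp h
    have := (hL.sel _ (lv_upd h3)).cf.ind y (mem_union_left _ hy)
    exact this (mem_union_right _ (mem_sl.mpr ⟨j, h1, h2, by simp⟩))

theorem Lad.tA (hL : Lad R H t f Y l x) (hB : Base R H t f) : t ∉ Y ∪ All f x l := by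
  intro h
  rcases mem_union.mp h with h | h
  · exact hB.tH (hL.YH h)
  · obtain ⟨j, h1, h2, h3⟩ := mem_all.mp h
    exact hB.tH (hL.lvH h1 h2 h3)

/-- the only vertex of a selection on level `i` -/
theorem Lad.only (hL : Lad R H t f Y l x) (hB : Base R H t f) {c : ℕ → V} (hc : ∀ j, Lv f x j (c j)) {i : ℕ} (h1 : 1 ≤ i)
    (h2 : i ≤ l) {v : V} (hv : Lv f x i v) (hvX : v ∈ Y ∪ Sl c l) : v = c i := by
  rcases mem_union.mp hvX with h | h
  · exact absurd h (hL.lvY hB h1 h2 hv)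
  · obtain ⟨j, h3, h4, h5⟩ := mem_sl.mp h
    have := hL.lvd hB h1 h2 h3 h4 hv (h5 ▸ hc j)
    rw [this, h5]

/-- walks which avoid a level stay below it -/
theorem Lad.below (hL : Lad R H t f Y l x) {S : Finset V} (hS : S ⊆ Y ∪ All f x l) {i : ℕ} (hi : 1 ≤ i)
    (hiS : ∀ v ∈ S, ¬ Lv f x i v) {a b : V} (ha : R t a) (h : Rc R S a b) :
    ∃ j < i, ∃ u, Lv f x j u ∧ (b = u ∨ Gi R Y u b) := by
  have h0 : Lv f x 0 t := Or.inl hL.x0.symm
  refine Rc.induct (p := fun b => ∃ j < i, ∃ u, Lv f x j u ∧ (b = u ∨ Gi R Y u b)) ?_ ?_ h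
  · intro haS
    rcases mem_union.mp (hS haS) with h1 | h1
    · exact ⟨0, hi, t, h0, Or.inr (Gi.single ha h1)⟩
    · obtain ⟨k, hk1, hk2, hk⟩ := mem_all.mp h1
      have hki : k ≠ i := fun e => hiS a haS (e ▸ hk)
      by_cases h2 : k < i
      · exact ⟨k, h2, a, hk, Or.inl rfl⟩
      · exact absurd (Or.inl ha) (hL.a2 0 k (by omega) hk2 t a h0 hk)
  · rintro p q hp ⟨j, hj, u, hu, hup⟩ hpq hq
    rcases mem_union.mp (hS hq) with h1 | h1
    · refine ⟨j, hj, u, hu, Or.inr ?_⟩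
      rcases hup with rfl | hup
      · exact Gi.single hpq h1
      · exact hup.step hpq h1
    · obtain ⟨k, hk1, hk2, hk⟩ := mem_all.mp h1
      have hki : k ≠ i := fun e => hiS q hq (e ▸ hk)
      by_cases h2 : k < i
      · exact ⟨k, h2, q, hk, Or.inl rfl⟩
      · refine absurd ?_ (hL.a2 j k (by omega) hk2 u q hu hk)
        rcases hup with rfl | hup
        · exact Or.inl hpq
        · exact hup.go hpq

/-- a circuit through `t` meets every level -/
theorem Lad.hit (hL : Lad R H t f Y l x) {S : Finset V} (hS : S ⊆ Y ∪ All f x l) {i : ℕ} (hi : 1 ≤ i)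
    (hil : i ≤ l) {a b : V} (ha : R t a) (h : Rc R S a b) (hb : R b t) : ∃ v ∈ S, Lv f x i v := by
  by_contra hcon
  push Not at hcon
  obtain ⟨j, hj, u, hu, hub⟩ := hL.below hS hi hcon ha h
  refine hL.a1 j (by omega) u hu ?_
  rcases hub with rfl | hub
  · exact Or.inl hb
  · exact hub.go hb

/-- a circuit through `t` in a selection passes the levels one after the other -/
theorem Lad.chain (hL : Lad R H t f Y l x) (hB : Base R H t f) {Y' : Finset V} (hY' : Y' ⊆ Y) {c : ℕ → V}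
    (hc : ∀ j, Lv f x j (c j)) {a b : V} (ha : R t a) (h : Rc R (Y' ∪ Sl c l) a b) (hb : R b t) :
    (∀ i < l, Go R Y' (c i) (c (i + 1))) ∧ Go R Y' (c l) t := by
  have h0 : c 0 = t := hL.lv0 hB (hc 0)
  have key : ∃ j ≤ l, (∀ i < j, Go R Y' (c i) (c (i + 1))) ∧ (b = c j ∨ Gi R Y' (c j) b) := by
    refine Rc.induct (p := fun b => ∃ j ≤ l, (∀ i < j, Go R Y' (c i) (c (i + 1))) ∧ (b = c j ∨ Gi R Y' (c j) b)) ?_ ?_ h
    · intro haS
      rcases mem_union.mp haS with h1 | h1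
      · refine ⟨0, by omega, by simp, Or.inr ?_⟩
        rw [h0]; exact Gi.single ha h1
      · obtain ⟨k, hk1, hk2, hk⟩ := mem_sl.mp h1
        by_cases h2 : k = 1
        · subst h2
          refine ⟨1, hk2, ?_, Or.inl hk.symm⟩
          intro i hi
          have : i = 0 := by omega
          subst this
          rw [h0]
          exact Or.inl (hk ▸ ha)
        · exact absurd (Or.inl (hk.symm ▸ h0.symm ▸ ha)) (hL.a2 0 k (by omega) hk2 (c 0) (c k) (hc 0) (hc k))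
    · rintro p q hp ⟨j, hj, hup, hjp⟩ hpq hq
      rcases mem_union.mp hq with h1 | h1
      · refine ⟨j, hj, hup, Or.inr ?_⟩
        rcases hjp with rfl | hjp
        · exact Gi.single hpq h1
        · exact hjp.step hpq h1
      · obtain ⟨k, hk1, hk2, hk⟩ := mem_sl.mp h1
        have hgo : Go R Y' (c j) (c k) := by
          rw [hk]
          rcases hjp with rfl | hjp
          · exact Or.inl hpq
          · exact hjp.go hpq
        by_cases h2 : j + 2 ≤ k
        · exact absurd (hgo.mono hY') (hL.a2 j k h2 hk2 _ _ (hc j) (hc k))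
        refine ⟨k, hk2, ?_, Or.inl hk.symm⟩
        intro i hi
        by_cases h3 : i < j
        · exact hup i h3
        · have e1 : i = j := by omega
          have e2 : k = j + 1 := by omega
          rw [e1, ← e2]; exact hgo
  obtain ⟨j, hj, hup, hjb⟩ := key
  have hgo : Go R Y' (c j) t := by
    rcases hjb with rfl | hjb
    · exact Or.inl hb
    · exact hjb.go hb
  have hjl : j = l := by
    by_contra hne
    exact hL.a1 j (by omega) _ (hc j) (hgo.mono hY')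
  subst hjl
  exact ⟨hup, hgo⟩

theorem Lad.twalk (hL : Lad R H t f Y l x) (hB : Base R H t f) {c : ℕ → V} (hc : ∀ j, Lv f x j (c j)) {Z : Finset V}
    (hZ : Z ⊆ Y ∪ Sl c l) (h : ¬ Ac R (insert t Z)) : ∃ a b, R t a ∧ R b t ∧ Rc R Z a b := by
  have h1 := (hL.sel c hc).cf
  have htZ : t ∉ Z := fun h2 => hB.tH (h1.sub (hZ h2))
  have h2 : Ac R ((insert t Z).erase t) := by
    rw [erase_insert htZ]
    exact (hB.acX h1.sub h1.ind).mono hZ
  obtain ⟨D, hD, htD, hDx, hcD⟩ := circ_of_not_ac hB.irr h h2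
  obtain ⟨a, b, ha, hb, hab⟩ := walk_of_circ hcD htD hDx
  refine ⟨a, b, ha, hb, hab.mono fun z hz => ?_⟩
  rw [mem_erase] at hz
  exact (mem_insert.mp (hD hz.2)).resolve_left hz.1

theorem Lad.all (hL : Lad R H t f Y l x) (hB : Base R H t f) (hQ : ∀ X, CF R H f X → ¬ Ac R (insert t X)) {c : ℕ → V}
    (hc : ∀ j, Lv f x j (c j)) : (∀ i < l, Go R Y (c i) (c (i + 1))) ∧ Go R Y (c l) t := by
  obtain ⟨a, b, ha, hb, hab⟩ := hL.twalk hB hc (Subset.refl _) (hQ _ (hL.sel c hc).cf)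
  exact hL.chain hB (Subset.refl _) hc ha hab hb

theorem Lad.go (hL : Lad R H t f Y l x) (hB : Base R H t f) (hQ : ∀ X, CF R H f X → ¬ Ac R (insert t X)) {i : ℕ}
    (hi : i < l) {u v : V} (hu : Lv f x i u) (hv : Lv f x (i + 1) v) : Go R Y u v := by
  have := (hL.all hB hQ (lv_upd2 hu hv)).1 i hi
  simpa using this

theorem Lad.got (hL : Lad R H t f Y l x) (hB : Base R H t f) (hQ : ∀ X, CF R H f X → ¬ Ac R (insert t X)) {u : V}
    (hu : Lv f x l u) : Go R Y u t := by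
  have := (hL.all hB hQ (lv_upd hu)).2
  simpa using this

theorem Lad.crit (hL : Lad R H t f Y l x) (hB : Base R H t f) {c : ℕ → V} (hc : ∀ j, Lv f x j (c j)) {i : ℕ} (h1 : 1 ≤ i)
    (h2 : i ≤ l) : Cr R t (Y ∪ Sl c l) (c i) := by
  refine ⟨mem_union_right _ (mem_sl.mpr ⟨i, h1, h2, rfl⟩), ?_⟩
  by_contra hcon
  obtain ⟨a, b, ha, hb, hab⟩ := hL.twalk hB hc (erase_subset _ _) hcon
  obtain ⟨v, hv, hv'⟩ := hL.hit ((erase_subset _ _).trans (union_subset_union (Subset.refl _) (sl_sub hc))) h1 h2 ha hab hb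
  rw [mem_erase] at hv
  exact hv.1 (hL.only hB hc h1 h2 hv' hv.2)

/-- the gaps below the last one avoid the vertices from which `t` can be reached -/
theorem Lad.avoid (hL : Lad R H t f Y l x) (hB : Base R H t f) (hQ : ∀ X, CF R H f X → ¬ Ac R (insert t X)) {w y : V}
    (hw : Rc R Y w y) (hy : R y t) {i : ℕ} (hi : i < l) {u v : V} (hu : Lv f x i u) (hv : Lv f x (i + 1) v) :
    Go R (Y.erase w) u v := by
  rcases (hL.go hB hQ hi hu hv).cut w with h | ⟨h, _⟩
  · exact h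
  · exact absurd ((h.walk hw).go hy) (hL.a1 i hi u hu)

theorem reach {Z S : Finset V} {c : ℕ → V} (hZ : Z ⊆ S) : ∀ k : ℕ, (∀ j < k, Go R Z (c j) (c (j + 1))) → (∀ j ≤ k, c j ∈ S) →
    Rc R S (c 0) (c k) := by
  intro k
  induction k with
  | zero => intro _ h; exact Rc.rfl' (h 0 (le_refl _))
  | succ k ih =>
    intro h1 h2
    exact (ih (fun j hj => h1 j (by omega)) (fun j hj => h2 j (by omega))).trans
      ((h1 k (by omega)).rc hZ (h2 k (by omega)) (h2 (k + 1) (le_refl _)))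

end ladder

end Pool.Agent.Lib.TriFive.Match
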