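import Pool.Agent.Lib.TriFive.MatchC

/-!
# Matchings as pair covers: complete ladders
-/

set_option autoImplicit false

namespace Pool.Agent.Lib.TriFive.Match

open Finset
open scoped Classical
open Pool.Agent.Lib.TriFive

section complete
variable {V : Type*} {R : V → V → Prop} {H : Finset V} {t : V} {f : V → V}
variable {Y : Finset V} {l : ℕ} {x : ℕ → V}

theorem Lad.pos (hL : Lad R H t f Y l x) (hB : Base R H t f) (hcomp : ∀ z ∈ Y, ∃ u, Lv f x l u ∧ Go R (Y.erase z) u t) :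
    1 ≤ l := by
  by_contra hl
  have hl0 : l = 0 := by omega
  subst hl0
  have h1 := hL.sel x (fun _ => Or.inl rfl)
  have e : Y ∪ Sl x 0 = Y := by
    have : Sl x 0 = ∅ := by simp [Sl]
    rw [this, union_empty]
  rw [e] at h1
  obtain ⟨z, hz, hA⟩ := h1.cr
  obtain ⟨u, hu, hgo⟩ := hcomp z hz
  have := hL.lv0 hB hu
  subst this
  rcases hgo with h2 | ⟨y, ⟨y0, h2, h3⟩, h4⟩
  · exact hB.irr u h2
  · exact hA u y0 h2 (mem_insert_self _ _) ((h3.mono (subset_insert _ _)).tail h4 (mem_insert_self _ _))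

/-- two circuits through `t` -/
theorem Lad.two [Fintype V] (hL : Lad R H t f Y l x) (hB : Base R H t f) (hQ : ∀ X, CF R H f X → ¬ Ac R (insert t X))
    (hcomp : ∀ z ∈ Y, ∃ u, Lv f x l u ∧ Go R (Y.erase z) u t) :
    ∃ g1 g2, g1 ⊆ insert t (Y ∪ All f x l) ∧ g2 ⊆ insert t (Y ∪ All f x l) ∧ Circ R g1 ∧ Circ R g2 ∧ t ∈ g1 ∧ t ∈ g2 ∧
      (∃ z ∈ g1, z ≠ t) ∧ (∃ z ∈ g2, z ≠ t) ∧ ∀ z ∈ g1, z ∈ g2 → z = t := by
  have hl := hL.pos hB hcomp
  have htA := hL.tA hB
  set X := Y ∪ All f x l with hX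
  have memX : ∀ {j : ℕ} {v : V}, 1 ≤ j → j ≤ l → Lv f x j v → v ∈ X := by
    intro j v h1 h2 h3
    exact mem_union_right _ (mem_all.mpr ⟨j, h1, h2, h3⟩)
  have close : ∀ w u, Rc R (insert t (X.erase w)) t u → Lv f x l u → Go R (Y.erase w) u t →
      ∃ a b, R t a ∧ R b t ∧ Rc R (X.erase w) a b := by
    intro w u hr hu hg
    have huX : u ∈ X := memX hl (le_refl l) hu
    have hut : u ≠ t := fun h => htA (h ▸ huX)
    obtain ⟨a, ha, h1⟩ := hr.out hut
    have h2 : Rc R (X.erase w) a u := h1.mono fun z hz => by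
      rw [mem_erase] at hz
      exact (mem_insert.mp hz.2).resolve_left hz.1
    rcases hg with h3 | ⟨y, h3, h4⟩
    · exact ⟨a, u, ha, h3, h2⟩
    · exact ⟨a, y, ha, h4, h2.trans (h3.rc (erase_subset_erase _ subset_union_left) h2.right)⟩
  have hsel : ∀ (w : V) (c : ℕ → V), w ∉ Y → (∀ j, Lv f x j (c j)) → (∀ j, 1 ≤ j → j ≤ l → c j ≠ w) →
      ∃ a b, R t a ∧ R b t ∧ Rc R (X.erase w) a b := by
    intro w c hw hc hcw
    obtain ⟨h1, h2⟩ := hL.all hB hQ hc
    refine close w (c l) ?_ (hc l) (by rw [erase_eq_of_notMem hw]; exact h2)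
    have h3 : Rc R (insert t (X.erase w)) (c 0) (c l) := by
      refine reach (Z := Y) ?_ l h1 ?_
      · intro y hy
        exact mem_insert_of_mem (mem_erase.mpr ⟨fun h => hw (h ▸ hy), mem_union_left _ hy⟩)
      · intro j hj
        by_cases h0 : j = 0
        · subst h0
          rw [hL.lv0 hB (hc 0)]
          exact mem_insert_self _ _
        · exact mem_insert_of_mem (mem_erase.mpr ⟨hcw j (by omega) hj, memX (by omega) hj (hc j)⟩)
    rwa [hL.lv0 hB (hc 0)] at h3
  obtain ⟨S1, S2, a1, b1, a2, b2, hS1, hS2, ha1, ha2, hb1, hb2, hr1, hr2, hdis⟩ :=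
    menger2 (R := R) (X := X) (fun a => R t a) (fun b => R b t) t (by
      intro w
      by_cases hwX : w ∈ X
      · rcases mem_union.mp hwX with hw | hw
        · -- a vertex of `Y`
          have hwt : w ≠ t := fun h => htA (h ▸ hwX)
          by_cases hwy : ∃ y, Rc R Y w y ∧ R y t
          · obtain ⟨y, hwy, hyt⟩ := hwy
            obtain ⟨u', hu', hgo⟩ := hcomp w hw
            obtain ⟨c, hc, hcl⟩ : ∃ c : ℕ → V, (∀ j, Lv f x j (c j)) ∧ c l = u' := ⟨_, lv_upd hu', by simp⟩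
            refine close w u' ?_ hu' hgo
            have h3 : Rc R (insert t (X.erase w)) (c 0) (c l) := by
              refine reach (Z := Y.erase w) ?_ l ?_ ?_
              · intro y hy
                rw [mem_erase] at hy
                exact mem_insert_of_mem (mem_erase.mpr ⟨hy.1, mem_union_left _ hy.2⟩)
              · intro j hj
                exact hL.avoid hB hQ hwy hyt hj (hc j) (hc (j + 1))
              · intro j hj
                by_cases h0 : j = 0
                · subst h0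
                  rw [hL.lv0 hB (hc 0)]
                  exact mem_insert_self _ _
                · refine mem_insert_of_mem (mem_erase.mpr ⟨?_, memX (by omega) hj (hc j)⟩)
                  intro h
                  exact hL.lvY hB (by omega) hj (hc j) (h ▸ hw)
            rwa [hL.lv0 hB (hc 0), hcl] at h3
          · obtain ⟨u, hu, hr⟩ := hL.b w hw
            have e : (insert t X).erase w = insert t (X.erase w) := erase_insert_of_ne hwt.symm
            rw [← hX, e] at hr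
            refine close w u hr hu ?_
            rcases (hL.got hB hQ hu).cut w with h | ⟨_, y, h1, h2⟩
            · exact h
            · exact absurd ⟨y, h1, h2⟩ hwy
        · obtain ⟨i, hi1, hi2, hiw⟩ := mem_all.mp hw
          have hn := hL.lvn hi1 hi2 hiw
          refine hsel w _ (hL.lvY hB hi1 hi2 hiw) (lv_upd (hB.lvf hiw)) ?_
          intro j hj1 hj2 h
          by_cases hji : j = i
          · rw [if_pos hji] at h; exact hn h
          · rw [if_neg hji] at h
            exact hji (hL.lvd hB hj1 hj2 hi1 hi2 (Or.inl h.symm) hiw)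
      · refine hsel w x (fun h => hwX (mem_union_left _ h)) (fun _ => Or.inl rfl) ?_
        intro j hj1 hj2 h
        exact hwX (h ▸ memX hj1 hj2 (Or.inl rfl)))
  obtain ⟨g1, hg1, ht1, hn1, hc1⟩ := circ_of_walk (fun h => htA (hS1 h)) ha1 hb1 hr1
  obtain ⟨g2, hg2, ht2, hn2, hc2⟩ := circ_of_walk (fun h => htA (hS2 h)) ha2 hb2 hr2
  refine ⟨g1, g2, hg1.trans (insert_subset_insert _ hS1), hg2.trans (insert_subset_insert _ hS2), hc1, hc2, ht1, ht2,
    hn1, hn2, ?_⟩
  intro z hz1 hz2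
  by_contra hzt
  exact hdis z ((mem_insert.mp (hg1 hz1)).resolve_left hzt) ((mem_insert.mp (hg2 hz2)).resolve_left hzt)

/-- a circuit meeting the ladder in one level only -/
theorem Lad.pure (hL : Lad R H t f Y l x) (hB : Base R H t f) (hQ : ∀ X, CF R H f X → ¬ Ac R (insert t X)) (hl : 1 ≤ l) :
    ∃ i, 1 ≤ i ∧ i ≤ l ∧ ¬ Ac R (insert (x i) (insert (f (x i)) (H \ (Y ∪ All f x l)))) := by
  by_contra hcon
  push Not at hcon
  set F := H \ (Y ∪ All f x l) with hF
  set s : ℕ → V := fun i => if Rc R (insert (x i) (insert (f (x i)) F)) (f (x i)) (x i) then f (x i) else x i with hs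
  have hsl : ∀ i, Lv f x i (s i) := by
    intro i
    simp only [hs]
    by_cases h : Rc R (insert (x i) (insert (f (x i)) F)) (f (x i)) (x i)
    · rw [if_pos h]; exact Or.inr rfl
    · rw [if_neg h]; exact Or.inl rfl
  have hs2 : ∀ i, 1 ≤ i → i ≤ l → ¬ Rc R (insert (s i) (insert (f (s i)) F)) (f (s i)) (s i) := by
    intro i hi1 hi2
    simp only [hs]
    by_cases h : Rc R (insert (x i) (insert (f (x i)) F)) (f (x i)) (x i)
    · rw [if_pos h, hB.inv]
      intro h'
      exact hL.lvn hi1 hi2 (Or.inl rfl : Lv f x i (x i)) ((hcon i hi1 hi2).eq h h' (Subset.refl _)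
        (by rw [insert_comm]))
    · rw [if_neg h]; exact h
  set c : ℕ → V := fun i => f (s i) with hc
  have hcl : ∀ i, Lv f x i (c i) := fun i => hB.lvf (hsl i)
  have hG := hL.sel c hcl
  have hsX : ∀ j, 1 ≤ j → j ≤ l → s j ∉ Y ∪ Sl c l := by
    intro j hj1 hj2 h
    have := hL.only hB hcl hj1 hj2 (hsl j) h
    exact hL.lvn hj1 hj2 (hsl j) this.symm
  have hsH : ∀ j, 1 ≤ j → j ≤ l → s j ∈ H := fun j hj1 hj2 => hL.lvH hj1 hj2 (hsl j)
  refine no_in (S := H \ (Y ∪ Sl c l)) (Z := Sl s l) hG.cf.ac ⟨s 1, mem_sl.mpr ⟨1, le_refl _, hl, rfl⟩⟩ ?_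
  intro z hz
  obtain ⟨i, hi1, hi2, rfl⟩ := mem_sl.mp hz
  have hci : c i ∈ Y ∪ Sl c l := mem_union_right _ (mem_sl.mpr ⟨i, hi1, hi2, rfl⟩)
  have hn : ¬ Ac R (H \ (Y ∪ Sl c l).erase (c i)) := by
    intro h
    refine hQ ((Y ∪ Sl c l).erase (c i)) ⟨(erase_subset _ _).trans hG.cf.sub, ?_, h⟩ (hL.crit hB hcl hi1 hi2).2
    intro y hy hfy
    exact hG.cf.ind y (mem_of_mem_erase hy) (mem_of_mem_erase hfy)
  have hn' : Ac R ((H \ (Y ∪ Sl c l).erase (c i)).erase (c i)) := by
    refine hG.cf.ac.mono fun y hy => ?_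
    rw [mem_erase, mem_sdiff, mem_erase] at hy
    exact mem_sdiff.mpr ⟨hy.2.1, fun h => hy.2.2 ⟨hy.1, h⟩⟩
  obtain ⟨C, hC, hciC, ⟨y0, hy0, hy0c⟩, hcC⟩ := circ_of_not_ac hB.irr hn hn'
  have hCm : ∀ y ∈ C, y ∈ H ∧ y ∉ Y ∧ ∀ j, 1 ≤ j → j ≤ l → y = c j → y = c i := by
    intro y hy
    have := hC hy
    rw [mem_sdiff, mem_erase] at this
    refine ⟨this.1, fun h => this.2 ⟨?_, mem_union_left _ h⟩, fun j hj1 hj2 h => ?_⟩
    · intro h'
      exact hL.lvY hB hi1 hi2 (hcl i) (h' ▸ h)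
    · by_contra hne
      exact this.2 ⟨hne, mem_union_right _ (mem_sl.mpr ⟨j, hj1, hj2, h.symm⟩)⟩
  -- the vertices of `C` on levels
  have hCl : ∀ y ∈ C, ∀ j, 1 ≤ j → j ≤ l → Lv f x j y → y = s j ∨ y = c i := by
    intro y hy j hj1 hj2 hjy
    by_cases h1 : y = s j
    · exact Or.inl h1
    · refine Or.inr ((hCm y hy).2.2 j hj1 hj2 ?_)
      rcases hsl j with h2 | h2 <;> rcases hjy with h3 | h3
      · exact absurd (h3.trans h2.symm) h1
      · simp only [hc]; rw [h3, h2]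
      · simp only [hc]; rw [h3, h2, hB.inv]
      · exact absurd (h3.trans h2.symm) h1
  have hsi : s i ∈ C := by
    by_contra hsi
    have hd : ∀ k, Lv f x k (if k = i then s i else c k) := by
      intro k
      by_cases h : k = i
      · rw [if_pos h, h]; exact hsl i
      · rw [if_neg h]; exact hcl k
    refine hcC.not_ac (S := H \ (Y ∪ Sl (fun k => if k = i then s i else c k) l)) ?_ hy0 hciC hy0c (hL.sel _ hd).cf.ac
    intro y hy
    obtain ⟨h1, h2, h3⟩ := hCm y hy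
    refine mem_sdiff.mpr ⟨h1, fun h4 => ?_⟩
    rcases mem_union.mp h4 with h4 | h4
    · exact h2 h4
    · obtain ⟨k, hk1, hk2, hk⟩ := mem_sl.mp h4
      by_cases hki : k = i
      · rw [if_pos hki] at hk
        exact hsi (hk ▸ hy)
      · rw [if_neg hki] at hk
        have h5 := h3 k hk1 hk2 hk.symm
        refine hki (hL.lvd hB hk1 hk2 hi1 hi2 (hcl k) ?_)
        rw [hk, h5]; exact hcl i
  have hne : c i ≠ s i := hL.lvn hi1 hi2 (hsl i)
  obtain ⟨v, ⟨hvA, hvs⟩, hvC, T, hTC, hT, hTp⟩ := (hcC.rc hciC hsi hne).lastHit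
    (fun v => v ∈ All f x l ∧ v ≠ s i) ⟨mem_all.mpr ⟨i, hi1, hi2, hcl i⟩, hne⟩
  obtain ⟨j, hj1, hj2, hjv⟩ := mem_all.mp hvA
  rcases hCl v hvC j hj1 hj2 hjv with hv | hv
  · -- another level
    refine ⟨s j, mem_sl.mpr ⟨j, hj1, hj2, rfl⟩, hv ▸ hvs, ?_⟩
    rw [← hv]
    refine hT.mono fun y hy => ?_
    by_cases hyA : y ∈ All f x l
    · by_cases hys : y = s i
      · rw [hys]; exact mem_sdiff.mpr ⟨hsH i hi1 hi2, hsX i hi1 hi2⟩
      · rw [hTp y hy ⟨hyA, hys⟩, hv]; exact mem_sdiff.mpr ⟨hsH j hj1 hj2, hsX j hj1 hj2⟩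
    · obtain ⟨h1, h2, _⟩ := hCm y (hTC hy)
      refine mem_sdiff.mpr ⟨h1, fun h3 => ?_⟩
      rcases mem_union.mp h3 with h3 | h3
      · exact h2 h3
      · exact hyA (sl_sub hcl h3)
  · exfalso
    refine hs2 i hi1 hi2 ?_
    have hT' := hv ▸ hT
    refine hT'.mono fun y hy => ?_
    by_cases hyA : y ∈ All f x l
    · by_cases hys : y = s i
      · rw [hys]; exact mem_insert_self _ _
      · rw [hTp y hy ⟨hyA, hys⟩, hv]; exact mem_insert_of_mem (mem_insert_self _ _)
    · obtain ⟨h1, h2, _⟩ := hCm y (hTC hy)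
      refine mem_insert_of_mem (mem_insert_of_mem (mem_sdiff.mpr ⟨h1, fun h3 => ?_⟩))
      rcases mem_union.mp h3 with h3 | h3
      · exact h2 h3
      · exact hyA h3

theorem Lad.complete [Fintype V] (hL : Lad R H t f Y l x) (hB : Base R H t f)
    (hQ : ∀ X, CF R H f X → ¬ Ac R (insert t X)) (hN : ¬ Neck R 2)
    (hcomp : ∀ z ∈ Y, ∃ u, Lv f x l u ∧ Go R (Y.erase z) u t) : False := by
  have hl := hL.pos hB hcomp
  obtain ⟨g1, g2, hg1, hg2, hc1, hc2, ht1, ht2, hn1, hn2, hdis⟩ := hL.two hB hQ hcomp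
  obtain ⟨i, hi1, hi2, hn⟩ := hL.pure hB hQ hl
  have hlev : ∀ g ⊆ insert t (Y ∪ All f x l), Circ R g → t ∈ g → (∃ z ∈ g, z ≠ t) → ∃ z ∈ g, Lv f x i z := by
    intro g hg hc ht hz
    obtain ⟨a, b, ha, hb, hab⟩ := walk_of_circ hc ht hz
    obtain ⟨v, hv, hv'⟩ := hL.hit (S := g.erase t) (by
      intro y hy
      rw [mem_erase] at hy
      exact (mem_insert.mp (hg hy.2)).resolve_left hy.1) hi1 hi2 ha hab hb
    exact ⟨v, mem_of_mem_erase hv, hv'⟩
  obtain ⟨z1, hz1, hl1⟩ := hlev g1 hg1 hc1 ht1 hn1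
  obtain ⟨z2, hz2, hl2⟩ := hlev g2 hg2 hc2 ht2 hn2
  obtain ⟨C, hC, hcC, p, hp, q, hq, hpq⟩ := exists_circ_of_not_ac hB.irr hn
  have hav : ∀ u, Lv f x i u → u ∈ C := by
    intro u hu
    by_contra huC
    refine hcC.not_ac ?_ hp hq hpq (hL.sel _ (lv_upd hu)).cf.ac
    intro y hy
    have := hC hy
    simp only [mem_insert] at this
    have hlvl : Lv f x i y → y = f u := by
      intro h
      rcases h with h | h <;> rcases hu with h' | h'
      · exact absurd (h'.trans h.symm ▸ hy) huC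
      · rw [h', hB.inv]; exact h
      · rw [h']; exact h
      · exact absurd (h'.trans h.symm ▸ hy) huC
    rcases this with h | h | h
    · have h1 : y = f u := hlvl (Or.inl h)
      refine mem_sdiff.mpr ⟨hL.lvH hi1 hi2 (Or.inl h), fun h2 => ?_⟩
      have := hL.only hB (lv_upd hu) hi1 hi2 (Or.inl h) h2
      simp only [if_true] at this
      exact hL.lvn hi1 hi2 hu (h1 ▸ this)
    · have h1 : y = f u := hlvl (Or.inr h)
      refine mem_sdiff.mpr ⟨hL.lvH hi1 hi2 (Or.inr h), fun h2 => ?_⟩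
      have := hL.only hB (lv_upd hu) hi1 hi2 (Or.inr h) h2
      simp only [if_true] at this
      exact hL.lvn hi1 hi2 hu (h1 ▸ this)
    · rw [mem_sdiff] at h
      refine mem_sdiff.mpr ⟨h.1, fun h2 => h.2 ?_⟩
      exact union_subset_union (Subset.refl _) (sl_sub (lv_upd hu)) h2
  have ht : ∀ z, Lv f x i z → z ≠ t := fun z hz h => hB.tH (h ▸ hL.lvH hi1 hi2 hz)
  have hCl : ∀ z ∈ C, z ∈ insert t (Y ∪ All f x l) → Lv f x i z := by
    intro z hz hz'
    have := hC hz
    simp only [mem_insert] at this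
    rcases this with h | h | h
    · exact Or.inl h
    · exact Or.inr h
    · rw [mem_sdiff] at h
      rcases mem_insert.mp hz' with h1 | h1
      · exact absurd (h1 ▸ h.1) hB.tH
      · exact absurd h1 h.2
  have hz12 : z1 ≠ z2 := fun h => ht z1 hl1 (hdis z1 hz1 (h ▸ hz2))
  have htwo : ∀ z, Lv f x i z → z = z1 ∨ z = z2 := by
    intro z hz
    unfold Lv at hz hl1 hl2
    rcases hl1 with h1 | h1 <;> rcases hl2 with h2 | h2 <;> rcases hz with h3 | h3
    · exact absurd (h1.trans h2.symm) hz12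
    · exact absurd (h1.trans h2.symm) hz12
    · exact Or.inl (h3.trans h1.symm)
    · exact Or.inr (h3.trans h2.symm)
    · exact Or.inr (h3.trans h2.symm)
    · exact Or.inl (h3.trans h1.symm)
    · exact absurd (h1.trans h2.symm) hz12
    · exact absurd (h1.trans h2.symm) hz12
  refine hN (ring3 hc1 hc2 hcC (a := t) (b := z2) (c := z1) ht1 ht2 hz2 (hav z2 hl2) hz1 (hav z1 hl1)
    (ht z2 hl2).symm hz12.symm (ht z1 hl1).symm hdis ?_ ?_)
  · intro z hz hzC
    have h1 := hCl z hzC (hg2 hz)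
    rcases htwo z h1 with h | h
    · exact absurd (hdis z (h ▸ hz1) hz) (ht z h1)
    · exact h
  · intro z hz hzC
    have h1 := hCl z hzC (hg1 hz)
    rcases htwo z h1 with h | h
    · exact h
    · exact absurd (hdis z hz (h ▸ hz2)) (ht z h1)

end complete

end Pool.Agent.Lib.TriFive.Match
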