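import Pool.Agent.Lib.TriFive.MatchD

/-!
# Matchings as pair covers: ladders which are not complete
-/

set_option autoImplicit false

namespace Pool.Agent.Lib.TriFive.Match

open Finset
open scoped Classical
open Pool.Agent.Lib.TriFive

section gen
variable {V : Type*} {R : V → V → Prop}

theorem Rc.lastK {Y K S : Finset V} {u y : V} (hS : S ⊆ Y ∪ K) (h : Rc R S u y) :
    Rc R Y u y ∨ ∃ k ∈ K, k ∈ S ∧ (y = k ∨ Gi R Y k y) := by
  refine Rc.induct (p := fun y => Rc R Y u y ∨ ∃ k ∈ K, k ∈ S ∧ (y = k ∨ Gi R Y k y)) ?_ ?_ h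
  · intro hu
    rcases mem_union.mp (hS hu) with h | h
    · exact Or.inl (Rc.rfl' h)
    · exact Or.inr ⟨u, h, hu, Or.inl rfl⟩
  · intro a b _ ih hab hb
    rcases mem_union.mp (hS hb) with h | h
    · rcases ih with ih | ⟨k, hk, hkS, ih⟩
      · exact Or.inl (ih.tail hab h)
      · rcases ih with rfl | ih
        · exact Or.inr ⟨_, hk, hkS, Or.inr (Gi.single hab h)⟩
        · exact Or.inr ⟨k, hk, hkS, Or.inr (ih.step hab h)⟩
    · exact Or.inr ⟨b, h, hb, Or.inl rfl⟩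

theorem Rc.lastGo {Y K S : Finset V} {u q v : V} (hS : S ⊆ Y ∪ K) (hu : u ∉ Y) (h : Rc R S u q) (hq : R q v) :
    ∃ k ∈ K, k ∈ S ∧ Go R Y k v := by
  rcases Rc.lastK hS h with h1 | ⟨k, hk, hkS, h1⟩
  · exact absurd h1.left hu
  · rcases h1 with rfl | h1
    · exact ⟨_, hk, hkS, Or.inl hq⟩
    · exact ⟨k, hk, hkS, h1.go hq⟩

/-- `t` can be reached from `y` inside `Y` -/
def To (R : V → V → Prop) (t : V) (Y : Finset V) (y : V) : Prop := ∃ b, Rc R Y y b ∧ R b t

theorem Gi.to {Y : Finset V} {t u y : V} (h : Gi R Y u y) (h' : To R t Y y) : Go R Y u t := by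
  obtain ⟨b, h1, h2⟩ := h'
  exact (h.walk h1).go h2

theorem To.of {Y : Finset V} {t w z : V} (h : Rc R Y w z) (h' : To R t Y z) : To R t Y w := by
  obtain ⟨b, h1, h2⟩ := h'
  exact ⟨b, h.trans h1, h2⟩

noncomputable def mu (R : V → V → Prop) (t : V) (Y : Finset V) (u : V) : ℕ :=
  (Y.filter (fun y => Gi R Y u y ∧ To R t Y y)).card

end gen

section step
variable {V : Type*} {R : V → V → Prop} {H : Finset V} {t : V} {f : V → V}
variable {Y : Finset V} {l : ℕ} {x : ℕ → V}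

/-- the data of a step: `z` is on all paths from the last level to `t` -/
structure Stp (R : V → V → Prop) (H : Finset V) (t : V) (f : V → V) (Y : Finset V) (l : ℕ) (x : ℕ → V) (z : V) (p : ℕ) :
    Prop where
  hB : Base R H t f
  hQ : ∀ X, CF R H f X → ¬ Ac R (insert t X)
  hN : ¬ Neck R 2
  hL : Lad R H t f Y l x
  zY : z ∈ Y
  zK : ∀ u, Lv f x l u → ¬ Go R (Y.erase z) u t
  zm : ∀ w ∈ Y, (∀ u, Lv f x l u → ¬ Go R (Y.erase w) u t) →
    (Y.filter (fun y => Rc R Y y z)).card ≤ (Y.filter (fun y => Rc R Y y w)).card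
  zt : To R t Y z
  zl : ∀ u, Lv f x l u → Gi R Y u z
  fl : ∀ c, (∀ j, Lv f x j (c j)) → G1 R H t f (insert (f z) ((Y ∪ Sl c l).erase z))
  pl : p ≤ l
  pg : ∃ u, Lv f x p u ∧ Go R (Y.erase z) u (f z)
  pm : ∀ j < p, ∀ u, Lv f x j u → ¬ Go R (Y.erase z) u (f z)

theorem exists_stp (hB : Base R H t f) (hQ : ∀ X, CF R H f X → ¬ Ac R (insert t X)) (hN : ¬ Neck R 2)
    (hL : Lad R H t f Y l x) (hz : ∃ z ∈ Y, ∀ u, Lv f x l u → ¬ Go R (Y.erase z) u t) : ∃ z p, Stp R H t f Y l x z p := by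
  obtain ⟨z, hz, hzm⟩ := exists_min_image (Y.filter (fun z => ∀ u, Lv f x l u → ¬ Go R (Y.erase z) u t))
    (fun z => (Y.filter (fun y => Rc R Y y z)).card) (by
      obtain ⟨z, h1, h2⟩ := hz
      exact ⟨z, mem_filter.mpr ⟨h1, h2⟩⟩)
  rw [mem_filter] at hz
  obtain ⟨hzY, hzK⟩ := hz
  have hz1 : ∀ u, Lv f x l u → Gi R Y u z ∧ To R t Y z := by
    intro u hu
    rcases (hL.got hB hQ hu).cut z with h | ⟨h1, h2⟩
    · exact absurd h (hzK u hu)
    · exact ⟨h1, h2⟩
  have hzt : To R t Y z := (hz1 (x l) (Or.inl rfl)).2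
  have hcz : ∀ c, (∀ j, Lv f x j (c j)) → Cr R t (Y ∪ Sl c l) z := by
    intro c hc
    refine ⟨mem_union_left _ hzY, ?_⟩
    by_contra hcon
    obtain ⟨a, b, ha, hb, hab⟩ := hL.twalk hB hc (erase_subset _ _) hcon
    refine hzK (c l) (hc l) (hL.chain hB (Y' := Y.erase z) (erase_subset _ _) hc ha (hab.mono ?_) hb).2
    intro y hy
    rw [mem_erase, mem_union] at hy
    rcases hy.2 with h | h
    · exact mem_union_left _ (mem_erase.mpr ⟨hy.1, h⟩)
    · exact mem_union_right _ h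
  have hfl : ∀ c, (∀ j, Lv f x j (c j)) → G1 R H t f (insert (f z) ((Y ∪ Sl c l).erase z)) ∧
      Cr R t (insert (f z) ((Y ∪ Sl c l).erase z)) (f z) := fun c hc => flip hB hQ hN (hL.sel c hc) (hcz c hc)
  have hx : ∀ j, Lv f x j (x j) := fun _ => Or.inl rfl
  -- a path to `f z`
  have hfz := hL.fY hzY
  have hfzH : f z ∈ H := hB.fH z (hL.YH hzY)
  have hex : ∃ j, j ≤ l ∧ ∃ u, Lv f x j u ∧ Go R (Y.erase z) u (f z) := by
    have htfz : t ≠ f z := fun h => hB.tH (h ▸ hfzH)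
    have hsub : ((Y ∪ Sl x l).erase z) ⊆ H := (erase_subset _ _).trans (hL.sel x hx).cf.sub
    have hA : Ac R (insert t ((Y ∪ Sl x l).erase z)) := (hcz x hx).2
    have hn := hQ _ (hfl x hx).1.cf
    have hn' : Ac R ((insert t (insert (f z) ((Y ∪ Sl x l).erase z))).erase (f z)) := by
      refine hA.mono fun y hy => ?_
      simp only [mem_erase, mem_insert] at hy ⊢
      tauto
    obtain ⟨D, hD, hfD, hDx, hcD⟩ := circ_of_not_ac hB.irr hn hn'
    have htD : t ∈ D := by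
      by_contra htD
      obtain ⟨y, hy, hyf⟩ := hDx
      refine hcD.not_ac (S := insert (f z) ((Y ∪ Sl x l).erase z)) ?_ hy hfD hyf
        (hB.acX (hfl x hx).1.cf.sub (hfl x hx).1.cf.ind)
      intro y hy
      exact (mem_insert.mp (hD hy)).resolve_left (fun h => htD (h ▸ hy))
    obtain ⟨q, hq, hr⟩ := (hcD.rc htD hfD htfz).inn htfz
    obtain ⟨k, hk, _, hgo⟩ := Rc.lastGo (Y := Y.erase z) (K := insert t (Sl x l)) (S := D.erase (f z)) (by
      intro y hy
      rw [mem_erase] at hy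
      have := hD hy.2
      simp only [mem_insert, mem_erase, mem_union] at this ⊢
      tauto) (fun h => hB.tH (hL.YH (mem_of_mem_erase h))) hr hq
    rcases mem_insert.mp hk with hk | hk
    · exact ⟨0, by omega, t, Or.inl hL.x0.symm, hk ▸ hgo⟩
    · obtain ⟨j, hj1, hj2, hj⟩ := mem_sl.mp hk
      exact ⟨j, hj2, k, Or.inl hj.symm, hgo⟩
  refine ⟨z, Nat.find hex, hB, hQ, hN, hL, hzY, hzK, ?_, hzt, fun u hu => (hz1 u hu).1, fun c hc => (hfl c hc).1,
    (Nat.find_spec hex).1, (Nat.find_spec hex).2, ?_⟩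
  · intro w hw hwK
    exact hzm w (mem_filter.mpr ⟨hw, hwK⟩)
  · intro j hj u hu hgo
    exact Nat.find_min hex hj ⟨(le_of_lt hj).trans (Nat.find_spec hex).1, u, hu, hgo⟩

variable {z : V} {p : ℕ}

/-- the lower part of the ladder -/
noncomputable def Low (t : V) (f : V → V) (Y : Finset V) (x : ℕ → V) (z : V) (p : ℕ) : Finset V :=
  insert t ((Y.erase z) ∪ All f x p)

theorem Stp.no (hS : Stp R H t f Y l x z p) {j : ℕ} (hj : j ≤ l) {u : V} (hu : Lv f x j u) : ¬ Go R (Y.erase z) u t := by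
  intro h
  by_cases hjl : j = l
  · subst hjl; exact hS.zK u hu h
  · exact hS.hL.a1 j (by omega) u hu (h.mono (erase_subset _ _))

/-- the gaps below the last one avoid `z` -/
theorem Stp.gap (hS : Stp R H t f Y l x z p) {i : ℕ} (hi : i < l) {u v : V} (hu : Lv f x i u) (hv : Lv f x (i + 1) v) :
    Go R (Y.erase z) u v := by
  obtain ⟨b, h1, h2⟩ := hS.zt
  exact hS.hL.avoid hS.hB hS.hQ h1 h2 hi hu hv

/-- no path from a level below the last one to `z` -/
theorem Stp.noz (hS : Stp R H t f Y l x z p) {j : ℕ} (hj : j < l) {u : V} (hu : Lv f x j u) : ¬ Go R Y u z := by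
  intro h
  exact hS.hL.a1 j hj u hu ((h.gi hS.zY).to hS.zt)

theorem Stp.lowLv (hS : Stp R H t f Y l x z p) {k : V} (hk : k ∈ insert t (All f x p)) : ∃ j ≤ p, Lv f x j k := by
  rcases mem_insert.mp hk with hk | hk
  · exact ⟨0, by omega, Or.inl (by rw [hk, hS.hL.x0])⟩
  · obtain ⟨j, _, h2, h3⟩ := mem_all.mp hk
    exact ⟨j, h2, h3⟩

theorem Stp.lowSub : Low t f Y x z p ⊆ (Y.erase z) ∪ insert t (All f x p) := by
  intro y hy
  simp only [Low, mem_insert, mem_union] at hy ⊢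
  tauto

theorem Stp.tE (hS : Stp R H t f Y l x z p) : t ∉ Y.erase z := fun h => hS.hB.tH (hS.hL.YH (mem_of_mem_erase h))

/-- from the lower part to a vertex: from one of its levels -/
theorem Stp.from (hS : Stp R H t f Y l x z p) {S : Finset V} (hSL : S ⊆ Low t f Y x z p) {q v : V} (h : Rc R S t q)
    (hq : R q v) : ∃ j ≤ p, ∃ u, Lv f x j u ∧ Go R (Y.erase z) u v := by
  obtain ⟨k, hk, _, hgo⟩ := Rc.lastGo (hSL.trans Stp.lowSub) hS.tE h hq
  obtain ⟨j, hj, hu⟩ := hS.lowLv hk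
  exact ⟨j, hj, k, hu, hgo⟩

/-- the levels up to `p` are reached in the lower part -/
theorem Stp.up (hS : Stp R H t f Y l x z p) {u : V} (hu : Lv f x p u) : Rc R (Low t f Y x z p) t u := by
  obtain ⟨c, hc, hcl⟩ : ∃ c : ℕ → V, (∀ j, Lv f x j (c j)) ∧ c p = u := ⟨_, lv_upd hu, by simp⟩
  have h3 : Rc R (Low t f Y x z p) (c 0) (c p) := by
    refine reach (Z := Y.erase z) ?_ p ?_ ?_
    · intro y hy
      exact mem_insert_of_mem (mem_union_left _ hy)
    · intro j hj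
      exact hS.gap (lt_of_lt_of_le hj hS.pl) (hc j) (hc (j + 1))
    · intro j hj
      by_cases h0 : j = 0
      · subst h0
        rw [hS.hL.lv0 hS.hB (hc 0)]
        exact mem_insert_self _ _
      · exact mem_insert_of_mem (mem_union_right _ (mem_all.mpr ⟨j, by omega, hj, hc j⟩))
  rwa [hS.hL.lv0 hS.hB (hc 0), hcl] at h3

theorem Stp.direct (hS : Stp R H t f Y l x z p) : ∃ y, Rc R (Low t f Y x z p) t y ∧ R y (f z) := by
  obtain ⟨u, hu, hgo⟩ := hS.pg
  have h1 := hS.up hu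
  rcases hgo with h2 | ⟨y, h2, h3⟩
  · exact ⟨u, h1, h2⟩
  · exact ⟨y, h1.trans (h2.rc (fun y hy => mem_insert_of_mem (mem_union_left _ hy)) h1.right), h3⟩

/-- all paths from `t` to `v` in the lower part meet `w` -/
def Dm (R : V → V → Prop) (N : Finset V) (t w v : V) : Prop := ∀ y, Rc R (N.erase w) t y → ¬ R y v

/-- no vertex of `Y` is on all paths to the next level -/
theorem Stp.sub (hS : Stp R H t f Y l x z p) (hp : p < l) {w : V} (hw : w ∈ Y) :
    ∃ v, Lv f x (p + 1) v ∧ ¬ Dm R (Low t f Y x z p) t w v := by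
  by_contra hcon
  push Not at hcon
  obtain ⟨u, hu, hr⟩ := hS.hL.b w hw
  have hl : 1 ≤ l := by omega
  have huA : u ∈ Y ∪ All f x l := mem_union_right _ (mem_all.mpr ⟨l, hl, le_refl _, hu⟩)
  have hut : u ≠ t := fun h => hS.hL.tA hS.hB (h ▸ huA)
  have hwt : w ≠ t := fun h => hS.hL.tA hS.hB (h ▸ mem_union_left _ hw)
  obtain ⟨a, ha, h1⟩ := hr.out hut
  have htN : t ∈ (Low t f Y x z p).erase w := mem_erase.mpr ⟨hwt.symm, mem_insert_self _ _⟩
  have key : ∀ q v, Rc R ((Low t f Y x z p).erase w) t q → R q v → v ∈ Y ∪ All f x l → v ≠ w →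
      Rc R ((Low t f Y x z p).erase w) t v := by
    intro q v hq hqv hv hvw
    obtain ⟨j, hj, u', hu', hgo⟩ := hS.from (erase_subset _ _) hq hqv
    have hgo' := hgo.mono (erase_subset z Y)
    rcases mem_union.mp hv with h | h
    · by_cases hvz : v = z
      · exact absurd (hvz ▸ hgo') (hS.noz (by omega) hu')
      · exact hq.tail hqv (mem_erase.mpr ⟨hvw, mem_insert_of_mem (mem_union_left _ (mem_erase.mpr ⟨hvz, h⟩))⟩)
    · obtain ⟨k, hk1, hk2, hk⟩ := mem_all.mp h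
      by_cases h2 : k ≤ p
      · exact hq.tail hqv (mem_erase.mpr ⟨hvw, mem_insert_of_mem (mem_union_right _ (mem_all.mpr ⟨k, hk1, h2, hk⟩))⟩)
      · by_cases h3 : k = p + 1
        · exact absurd hqv (hcon v (h3 ▸ hk) q hq)
        · exact absurd hgo' (hS.hL.a2 j k (by omega) hk2 u' v hu' hk)
  have h2 : Rc R ((Low t f Y x z p).erase w) t u := by
    refine Rc.induct (p := fun b => Rc R ((Low t f Y x z p).erase w) t b) ?_ ?_ h1
    · intro haS
      simp only [mem_erase, mem_insert] at haS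
      exact key t a (Rc.rfl' htN) ha (haS.2.2.resolve_left haS.1) haS.2.1
    · intro b b' _ ih hbb hb'
      simp only [mem_erase, mem_insert] at hb'
      exact key b b' ih hbb (hb'.2.2.resolve_left hb'.1) hb'.2.1
  have h3 := mem_of_mem_erase h2.right
  simp only [Low, mem_insert, mem_union] at h3
  rcases h3 with h3 | h3 | h3
  · exact hut h3
  · exact hS.hL.lvY hS.hB hl (le_refl _) hu (mem_of_mem_erase h3)
  · obtain ⟨k, hk1, hk2, hk⟩ := mem_all.mp h3
    have := hS.hL.lvd hS.hB hk1 (by omega) hl (le_refl _) hk hu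
    omega

/-- the choice of the vertex on the next level -/
theorem Stp.sign (hS : Stp R H t f Y l x z p) (hp : p < l) :
    ∃ s, Lv f x (p + 1) s ∧ ∀ w ∈ Y.erase z, Dm R (Low t f Y x z p) t w (f z) → ¬ Dm R (Low t f Y x z p) t w s := by
  by_contra hcon
  push Not at hcon
  obtain ⟨w1, hw1, hf1, hs1⟩ := hcon (x (p + 1)) (Or.inl rfl)
  obtain ⟨w2, hw2, hf2, hs2⟩ := hcon (f (x (p + 1))) (Or.inr rfl)
  set N := Low t f Y x z p with hN
  have fin : ∀ w ∈ Y.erase z, Dm R N t w (x (p + 1)) → Dm R N t w (f (x (p + 1))) → False := by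
    intro w hw h1 h2
    obtain ⟨v, hv, hd⟩ := hS.sub hp (mem_of_mem_erase hw)
    rcases hv with rfl | rfl
    · exact hd h1
    · exact hd h2
  by_cases h12 : w1 = w2
  · subst h12; exact fin w1 hw1 hs1 hs2
  by_cases hA : Rc R (N.erase w1) t w2
  · by_cases hA' : Rc R (N.erase w2) t w1
    · obtain ⟨y0, h1, h2⟩ := hS.direct
      rcases h1.cut w1 with h3 | ⟨_, h3⟩
      · exact hf1 y0 h3 h2
      · rcases last_alt h3 h12 with h4 | h4
        · exact hf2 y0 (hA'.trans h4) h2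
        · exact hf1 y0 (hA.trans h4) h2
    · refine fin w2 hw2 ?_ hs2
      intro y hy hyv
      rcases hy.cut w1 with h3 | ⟨h3, _⟩
      · exact hs1 y (h3.mono (by
          intro a ha; rw [mem_erase, mem_erase] at ha; exact mem_erase.mpr ⟨ha.1, ha.2.2⟩)) hyv
      · exact hA' h3
  · refine fin w1 hw1 hs1 ?_
    intro y hy hyv
    rcases hy.cut w2 with h3 | ⟨h3, _⟩
    · exact hs2 y (h3.mono (by
        intro a ha; rw [mem_erase, mem_erase] at ha; exact mem_erase.mpr ⟨ha.1, ha.2.2⟩)) hyv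
    · exact hA h3

end step

end Pool.Agent.Lib.TriFive.Match
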