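import Pool.Agent.Lib.TriFive.MatchE

/-!
# Matchings as pair covers: the theorem

`match_neck`: `f` is an involution, every circuit which does not contain `t` contains a vertex `v` and `f v`, different from `v`.
If there is no colouring with two colours, there are three circuits, any two of which meet in one vertex.
-/

set_option autoImplicit false

namespace Pool.Agent.Lib.TriFive.Match

open Finset
open scoped Classical
open Pool.Agent.Lib.TriFive

section new
variable {V : Type*} {R : V → V → Prop} {H : Finset V} {t : V} {f : V → V}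
variable {Y : Finset V} {l : ℕ} {x : ℕ → V} {z : V} {p : ℕ}

/-- the selected vertices of the levels above `p` -/
noncomputable def Kp (cs : ℕ → V) (p l : ℕ) : Finset V := (Icc (p + 1) l).image cs

theorem mem_kp {cs : ℕ → V} {v : V} : v ∈ Kp cs p l ↔ ∃ j, p < j ∧ j ≤ l ∧ cs j = v := by
  simp only [Kp, mem_image, mem_Icc, and_assoc, Nat.succ_le_iff]

/-- the new levels -/
noncomputable def nx (x : ℕ → V) (z : V) (p : ℕ) (j : ℕ) : V := if j ≤ p then x j else z

theorem nx_le {j : ℕ} (h : j ≤ p) : nx x z p j = x j := if_pos h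

theorem nx_gt : nx x z p (p + 1) = z := if_neg (by omega)

theorem lv_nx {j : ℕ} (h : j ≤ p) {v : V} : Lv f (nx x z p) j v ↔ Lv f x j v := by
  unfold Lv; rw [nx_le h]

theorem lv_nx' {v : V} : Lv f (nx x z p) (p + 1) v ↔ v = z ∨ v = f z := by
  unfold Lv; rw [nx_gt]

/-- paths inside the new set -/
theorem Stp.noK (hS : Stp R H t f Y l x z p) {cs : ℕ → V} (hcs : ∀ j, Lv f x j (cs j)) {k : V} (hk : k ∈ Kp cs p l) :
    ¬ Go R (Y.erase z) k t := by
  obtain ⟨j, _, hj2, rfl⟩ := mem_kp.mp hk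
  exact hS.no hj2 (hcs j)

theorem Stp.newSel (hS : Stp R H t f Y l x z p) {cs : ℕ → V} (hcs : ∀ j, Lv f x j (cs j)) (c : ℕ → V)
    (hc : ∀ j, Lv f (nx x z p) j (c j)) : G1 R H t f ((Y.erase z ∪ Kp cs p l) ∪ Sl c (p + 1)) := by
  obtain ⟨d, hd, hd1, hd2⟩ : ∃ d : ℕ → V, (∀ j, Lv f x j (d j)) ∧ (∀ j, j ≤ p → d j = c j) ∧ (∀ j, p < j → d j = cs j) := by
    refine ⟨fun j => if j ≤ p then c j else cs j, ?_, fun j hj => if_pos hj, fun j hj => if_neg (by omega)⟩
    intro j
    show Lv f x j (if j ≤ p then c j else cs j)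
    by_cases h : j ≤ p
    · rw [if_pos h]; exact (lv_nx h).mp (hc j)
    · rw [if_neg h]; exact hcs j
  have hzl : ∀ j, 1 ≤ j → j ≤ l → d j ≠ z := fun j h1 h2 h => hS.hL.lvY hS.hB h1 h2 (hd j) (h ▸ hS.zY)
  have e : (Y.erase z ∪ Kp cs p l) ∪ Sl c (p + 1) = insert (c (p + 1)) ((Y ∪ Sl d l).erase z) := by
    ext y
    simp only [mem_union, mem_erase, mem_insert, mem_kp, mem_sl]
    constructor
    · rintro ((⟨h1, h2⟩ | ⟨j, h1, h2, rfl⟩) | ⟨j, h1, h2, rfl⟩)
      · exact Or.inr ⟨h1, Or.inl h2⟩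
      · right
        rw [← hd2 j h1]
        exact ⟨hzl j (by omega) h2, Or.inr ⟨j, by omega, h2, rfl⟩⟩
      · by_cases hj : j = p + 1
        · left; rw [hj]
        · right
          have hjp : j ≤ p := by omega
          rw [← hd1 j hjp]
          exact ⟨hzl j h1 (hjp.trans hS.pl), Or.inr ⟨j, h1, hjp.trans hS.pl, rfl⟩⟩
    · rintro (rfl | ⟨h1, h2 | ⟨j, h2, h3, rfl⟩⟩)
      · exact Or.inr ⟨p + 1, by omega, le_refl _, rfl⟩
      · exact Or.inl (Or.inl ⟨h1, h2⟩)
      · by_cases hj : j ≤ p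
        · exact Or.inr ⟨j, h2, by omega, (hd1 j hj).symm⟩
        · exact Or.inl (Or.inr ⟨j, by omega, h3, (hd2 j (by omega)).symm⟩)
  rw [e]
  rcases lv_nx'.mp (hc (p + 1)) with h | h
  · rw [h, insert_erase (mem_union_left _ hS.zY)]
    exact hS.hL.sel d hd
  · rw [h]; exact hS.fl d hd

theorem Stp.newA1 (hS : Stp R H t f Y l x z p) {cs : ℕ → V} (hcs : ∀ j, Lv f x j (cs j)) {i : ℕ} (hi : i < p + 1) {u : V}
    (hu : Lv f (nx x z p) i u) : ¬ Go R (Y.erase z ∪ Kp cs p l) u t := by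
  have hip : i ≤ p := by omega
  intro h
  rcases h.last (Y := Y.erase z) (K := Kp cs p l) (Subset.refl _) with h1 | ⟨k, hk, _, h1⟩
  · exact hS.no (hip.trans hS.pl) ((lv_nx hip).mp hu) h1
  · exact hS.noK hcs hk h1

theorem Stp.newA2 (hS : Stp R H t f Y l x z p) {cs : ℕ → V} (hcs : ∀ j, Lv f x j (cs j)) {i j : ℕ} (hij : i + 2 ≤ j)
    (hj : j ≤ p + 1) {u v : V} (hu : Lv f (nx x z p) i u) (hv : Lv f (nx x z p) j v) :
    ¬ Go R (Y.erase z ∪ Kp cs p l) u v := by
  have hip : i < p := by omega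
  have hpl := hS.pl
  rw [lv_nx hip.le] at hu
  intro h
  rcases h.first (Y := Y.erase z) (K := Kp cs p l) (Subset.refl _) with h1 | ⟨k, hk, _, h1⟩
  · by_cases hjp : j ≤ p
    · rw [lv_nx hjp] at hv
      exact hS.hL.a2 i j hij (hjp.trans hpl) u v hu hv (h1.mono (erase_subset _ _))
    · have : j = p + 1 := by omega
      subst this
      rcases lv_nx'.mp hv with rfl | rfl
      · exact hS.noz (by omega) hu (h1.mono (erase_subset _ _))
      · exact hS.pm i hip u hu h1
  · obtain ⟨k', hk1, hk2, rfl⟩ := mem_kp.mp hk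
    exact hS.hL.a2 i k' (by omega) hk2 u _ hu (hcs k') (h1.mono (erase_subset _ _))

/-- in the case of the last level: a path to `z` which avoids `w` -/
theorem Stp.lastZ (hS : Stp R H t f Y l x z p) {w : V} (hw : w ∈ Y.erase z) :
    Rc R ((insert t (Y ∪ All f x l)).erase w) t z := by
  rw [mem_erase] at hw
  obtain ⟨hwz, hwY⟩ := hw
  have hwt : w ≠ t := fun h => hS.hL.tA hS.hB (h ▸ mem_union_left _ hwY)
  have hYS : Y.erase w ⊆ (insert t (Y ∪ All f x l)).erase w :=
    erase_subset_erase _ (subset_union_left.trans (subset_insert _ _))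
  -- a vertex on the last level
  have h1 : ∃ u, Lv f x l u ∧ Gi R (Y.erase w) u z := by
    by_contra hcon
    push Not at hcon
    have h2 := hS.zm w hwY (by
      intro u hu hgo
      rcases hgo.cut z with h3 | ⟨h3, _⟩
      · refine hS.zK u hu (h3.mono ?_)
        intro a ha
        rw [mem_erase, mem_erase] at ha
        exact mem_erase.mpr ⟨ha.1, ha.2.2⟩
      · exact hcon u hu h3)
    have h3 : Rc R Y w z := by
      rcases (hS.zl (x l) (Or.inl rfl)).cut w with h3 | ⟨_, h3⟩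
      · exact absurd h3 (hcon _ (Or.inl rfl))
      · exact h3
    have hAY : Ac R Y := (hS.hB.acX (hS.hL.sel x (fun _ => Or.inl rfl)).cf.sub
      (hS.hL.sel x (fun _ => Or.inl rfl)).cf.ind).mono subset_union_left
    have h4 : Y.filter (fun y => Rc R Y y w) ⊂ Y.filter (fun y => Rc R Y y z) := by
      rw [Finset.ssubset_iff_of_subset]
      · refine ⟨z, mem_filter.mpr ⟨hS.zY, Rc.rfl' hS.zY⟩, ?_⟩
        rw [mem_filter, not_and]
        intro _ h5
        exact hwz (hAY.eq h3 h5 (Subset.refl _) (Subset.refl _))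
      · intro y hy
        rw [mem_filter] at hy ⊢
        exact ⟨hy.1, hy.2.trans h3⟩
    have := card_lt_card h4
    omega
  by_cases hwT : To R t Y w
  · obtain ⟨u, hu, hgi⟩ := h1
    obtain ⟨b, hb1, hb2⟩ := hwT
    obtain ⟨c, hc, hcl⟩ : ∃ c : ℕ → V, (∀ j, Lv f x j (c j)) ∧ c l = u := ⟨_, lv_upd hu, by simp⟩
    have h3 : Rc R ((insert t (Y ∪ All f x l)).erase w) (c 0) (c l) := by
      refine reach (Z := Y.erase w) hYS l ?_ ?_
      · intro j hj
        exact hS.hL.avoid hS.hB hS.hQ hb1 hb2 hj (hc j) (hc (j + 1))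
      · intro j hj
        by_cases h0 : j = 0
        · subst h0
          rw [hS.hL.lv0 hS.hB (hc 0)]
          exact mem_erase.mpr ⟨hwt.symm, mem_insert_self _ _⟩
        · refine mem_erase.mpr ⟨?_, mem_insert_of_mem (mem_union_right _ (mem_all.mpr ⟨j, by omega, hj, hc j⟩))⟩
          intro h
          exact hS.hL.lvY hS.hB (by omega) hj (hc j) (h ▸ hwY)
    rw [hS.hL.lv0 hS.hB (hc 0), hcl] at h3
    exact h3.trans (hgi.rc hYS h3.right)
  · obtain ⟨u, hu, hr⟩ := hS.hL.b w hwY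
    rcases (hS.zl u hu).cut w with h3 | ⟨_, h3⟩
    · exact hr.trans (h3.rc hYS hr.right)
    · exact absurd (To.of h3 hS.zt) hwT

theorem Stp.newB (hS : Stp R H t f Y l x z p) {cs : ℕ → V} (hcs : ∀ j, Lv f x j (cs j))
    (hsg : p < l → ∀ w ∈ Y.erase z, Dm R (Low t f Y x z p) t w (f z) → ¬ Dm R (Low t f Y x z p) t w (cs (p + 1)))
    {w : V} (hw : w ∈ Y.erase z ∪ Kp cs p l) : ∃ u, Lv f (nx x z p) (p + 1) u ∧
      Rc R ((insert t ((Y.erase z ∪ Kp cs p l) ∪ All f (nx x z p) (p + 1))).erase w) t u := by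
  have hpl := hS.pl
  have hfY := hS.hL.fY hS.zY
  set N := Low t f Y x z p with hN
  set N2 := insert t ((Y.erase z ∪ Kp cs p l) ∪ All f (nx x z p) (p + 1)) with hN2
  have hNN : N ⊆ N2 := by
    intro y hy
    rw [hN, Low, mem_insert, mem_union] at hy
    rcases hy with h | h | h
    · rw [h]; exact mem_insert_self _ _
    · exact mem_insert_of_mem (mem_union_left _ (mem_union_left _ h))
    · obtain ⟨j, h1, h2, h3⟩ := mem_all.mp h
      exact mem_insert_of_mem (mem_union_right _ (mem_all.mpr ⟨j, h1, by omega, (lv_nx h2).mpr h3⟩))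
  have hzN : z ∈ N2 := mem_insert_of_mem (mem_union_right _ (mem_all.mpr ⟨p + 1, by omega, le_refl _, lv_nx'.mpr (Or.inl rfl)⟩))
  have hfN : f z ∈ N2 := mem_insert_of_mem (mem_union_right _ (mem_all.mpr ⟨p + 1, by omega, le_refl _, lv_nx'.mpr (Or.inr rfl)⟩))
  have hwA : w ∈ Y ∪ All f x l := by
    rcases mem_union.mp hw with h | h
    · exact mem_union_left _ (mem_of_mem_erase h)
    · obtain ⟨j, h1, h2, rfl⟩ := mem_kp.mp h
      exact mem_union_right _ (mem_all.mpr ⟨j, by omega, h2, hcs j⟩)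
  have hfw : f z ≠ w := fun h => hfY (h ▸ hwA)
  by_cases hd : Dm R N t w (f z)
  swap
  · unfold Dm at hd
    push Not at hd
    obtain ⟨y, hy1, hy2⟩ := hd
    exact ⟨f z, lv_nx'.mpr (Or.inr rfl), (hy1.mono (erase_subset_erase _ hNN)).tail hy2 (mem_erase.mpr ⟨hfw, hfN⟩)⟩
  rcases mem_union.mp hw with hwY | hwK
  swap
  · -- a level above `p`
    exfalso
    obtain ⟨j, h1, h2, rfl⟩ := mem_kp.mp hwK
    obtain ⟨y, hy1, hy2⟩ := hS.direct
    refine hd y ?_ hy2
    rw [← hN] at hy1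
    rw [erase_eq_of_notMem]
    · exact hy1
    · intro h3
      rw [hN, Low, mem_insert, mem_union] at h3
      rcases h3 with h | h | h
      · exact hS.hB.tH (h ▸ hS.hL.lvH (by omega) h2 (hcs j))
      · exact hS.hL.lvY hS.hB (by omega) h2 (hcs j) (mem_of_mem_erase h)
      · obtain ⟨k, h5, h6, h7⟩ := mem_all.mp h
        have := hS.hL.lvd hS.hB (by omega) h2 h5 (h6.trans hpl) (hcs j) h7
        omega
  refine ⟨z, lv_nx'.mpr (Or.inl rfl), ?_⟩
  have hwz : w ≠ z := (mem_erase.mp hwY).1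
  have hwY' : w ∈ Y := (mem_erase.mp hwY).2
  by_cases hp : p < l
  · have hnd := hsg hp w hwY hd
    unfold Dm at hnd
    push Not at hnd
    obtain ⟨y, hy1, hy2⟩ := hnd
    -- `w` is reached from a level up to `p`
    obtain ⟨i, hi, u', hu', hgw⟩ : ∃ i ≤ p, ∃ u', Lv f x i u' ∧ Gi R (Y.erase z) u' w := by
      obtain ⟨y', h1, h2⟩ := hS.direct
      rw [← hN] at h1
      have h3 : Rc R N t w := by
        rcases h1.cut w with h3 | ⟨h3, _⟩
        · exact absurd h2 (hd y' h3)
        · exact h3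
      have hwt : t ≠ w := fun h => hS.hL.tA hS.hB (h ▸ mem_union_left _ hwY')
      obtain ⟨q, hq, hr⟩ := h3.inn hwt
      obtain ⟨i, hi, u', hu', hgo⟩ := hS.from (erase_subset _ _) hr hq
      exact ⟨i, hi, u', hu', hgo.gi hwY⟩
    have hKN : ∀ j, p < j → j ≤ l → cs j ∈ N2.erase w := by
      intro j h1 h2
      refine mem_erase.mpr ⟨fun h => hS.hL.lvY hS.hB (by omega) h2 (hcs j) (h ▸ hwY'), ?_⟩
      exact mem_insert_of_mem (mem_union_left _ (mem_union_right _ (mem_kp.mpr ⟨j, h1, h2, rfl⟩)))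
    have hYN : ((Y.erase z).erase w) ⊆ N2.erase w :=
      erase_subset_erase _ (fun a ha => mem_insert_of_mem (mem_union_left _ (mem_union_left _ ha)))
    have hYN' : Y.erase w ⊆ N2.erase w := by
      intro a ha
      by_cases haz : a = z
      · rw [haz]; exact mem_erase.mpr ⟨hwz.symm, hzN⟩
      · rw [mem_erase] at ha
        exact hYN (mem_erase.mpr ⟨ha.1, mem_erase.mpr ⟨haz, ha.2⟩⟩)
    have h1 : Rc R (N2.erase w) t (cs (p + 1)) :=
      (hy1.mono (erase_subset_erase _ hNN)).tail hy2 (hKN (p + 1) (by omega) hp)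
    have h2 : ∀ m, p + 1 + m ≤ l → Rc R (N2.erase w) t (cs (p + 1 + m)) := by
      intro m
      induction m with
      | zero => intro _; exact h1
      | succ m ih =>
        intro hm
        have h3 := ih (by omega)
        have h4 := hS.gap (i := p + 1 + m) (by omega) (hcs _) (hcs _)
        rcases h4.cut w with h5 | ⟨_, b, h5, h6⟩
        · exact h3.trans (h5.rc hYN h3.right (hKN _ (by omega) hm))
        · exfalso
          refine hS.hL.a2 i (p + 1 + m + 1) (by omega) hm u' _ hu' (hcs _) ?_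
          exact ((hgw.walk h5).go h6).mono (erase_subset _ _)
    have h3 := h2 (l - (p + 1)) (by omega)
    have e : p + 1 + (l - (p + 1)) = l := by omega
    rw [e] at h3
    rcases (hS.zl (cs l) (hcs l)).cut w with h4 | ⟨_, h4⟩
    · exact h3.trans (h4.rc hYN' h3.right)
    · exfalso
      refine hS.hL.a1 i (by omega) u' hu' ?_
      exact Gi.to (hgw.mono (erase_subset _ _)) (To.of h4 hS.zt)
  · have hpl' : p = l := by omega
    refine (hS.lastZ hwY).mono (erase_subset_erase _ ?_)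
    intro y hy
    rw [mem_insert, mem_union] at hy
    rcases hy with h | h | h
    · rw [h]; exact mem_insert_self _ _
    · by_cases hyz : y = z
      · rw [hyz]; exact hzN
      · exact mem_insert_of_mem (mem_union_left _ (mem_union_left _ (mem_erase.mpr ⟨hyz, h⟩)))
    · obtain ⟨j, h1, h2, h3⟩ := mem_all.mp h
      exact mem_insert_of_mem (mem_union_right _ (mem_all.mpr ⟨j, h1, by omega, (lv_nx (by omega)).mpr h3⟩))

theorem Stp.newMu (hS : Stp R H t f Y l x z p) {cs : ℕ → V} (hcs : ∀ j, Lv f x j (cs j)) :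
    mu R t (Y.erase z ∪ Kp cs p l) z < mu R t Y (x l) := by
  refine card_lt_card ?_
  rw [Finset.ssubset_iff_of_subset]
  · refine ⟨z, mem_filter.mpr ⟨hS.zY, hS.zl _ (Or.inl rfl), hS.zt⟩, ?_⟩
    intro h
    rcases mem_union.mp (mem_filter.mp h).1 with h1 | h1
    · exact (mem_erase.mp h1).1 rfl
    · obtain ⟨j, h2, h3, h4⟩ := mem_kp.mp h1
      exact hS.hL.lvY hS.hB (by omega) h3 (hcs j) (h4 ▸ hS.zY)
  · intro y hy
    rw [mem_filter] at hy
    obtain ⟨hy2, hgi, b, hb1, hb2⟩ := hy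
    rcases Rc.lastK (Y := Y.erase z) (K := Kp cs p l) (Subset.refl _) hb1 with h1 | ⟨k, hk, _, h1⟩
    · rcases hgi.last (Y := Y.erase z) (K := Kp cs p l) (Subset.refl _) with h2 | ⟨k, hk, _, h2⟩
      · refine mem_filter.mpr ⟨mem_of_mem_erase h1.left, ?_, b, h1.mono (erase_subset _ _), hb2⟩
        exact (hS.zl _ (Or.inl rfl)).walk (h2.rc (erase_subset _ _) hS.zY)
      · exfalso
        rcases h2 with rfl | h2
        · obtain ⟨j, h3, h4, h5⟩ := mem_kp.mp hk
          exact hS.hL.lvY hS.hB (by omega) h4 (hcs j) (h5 ▸ mem_of_mem_erase h1.left)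
        · exact hS.noK hcs hk ((h2.walk h1).go hb2)
    · exfalso
      rcases h1 with rfl | h1
      · exact hS.noK hcs hk (Or.inl hb2)
      · exact hS.noK hcs hk (h1.go hb2)

theorem Stp.new (hS : Stp R H t f Y l x z p) : ∃ Y' l' x', Lad R H t f Y' l' x' ∧ mu R t Y' (x' l') < mu R t Y (x l) := by
  obtain ⟨cs, hcs, hsg⟩ : ∃ cs : ℕ → V, (∀ j, Lv f x j (cs j)) ∧ (p < l → ∀ w ∈ Y.erase z,
      Dm R (Low t f Y x z p) t w (f z) → ¬ Dm R (Low t f Y x z p) t w (cs (p + 1))) := by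
    by_cases hp : p < l
    · obtain ⟨s, hs, h⟩ := hS.sign hp
      exact ⟨_, lv_upd hs, fun _ => by simpa using h⟩
    · exact ⟨x, fun _ => Or.inl rfl, fun h => absurd h hp⟩
  refine ⟨Y.erase z ∪ Kp cs p l, p + 1, nx x z p, ⟨?_, ?_, ?_, ?_, ?_⟩, ?_⟩
  · rw [nx_le (by omega), hS.hL.x0]
  · exact fun c hc => hS.newSel hcs c hc
  · exact fun i hi u hu => hS.newA1 hcs hi hu
  · exact fun i j hij hj u v hu hv => hS.newA2 hcs hij hj hu hv
  · exact fun w hw => hS.newB hcs hsg hw
  · rw [nx_gt]; exact hS.newMu hcs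

end new

section main
variable {V : Type*}

theorem ladder_false [Fintype V] {R : V → V → Prop} {H : Finset V} {t : V} {f : V → V} (hB : Base R H t f)
    (hQ : ∀ X, CF R H f X → ¬ Ac R (insert t X)) (hN : ¬ Neck R 2) : ∀ (n : ℕ) (Y : Finset V) (l : ℕ) (x : ℕ → V),
    Lad R H t f Y l x → mu R t Y (x l) ≤ n → False := by
  intro n
  induction n with
  | zero =>
    intro Y l x hL hmu
    by_cases hcomp : ∀ z ∈ Y, ∃ u, Lv f x l u ∧ Go R (Y.erase z) u t
    · exact hL.complete hB hQ hN hcomp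
    · push Not at hcomp
      obtain ⟨z, p, hS⟩ := exists_stp hB hQ hN hL hcomp
      obtain ⟨Y', l', x', _, h2⟩ := hS.new
      omega
  | succ n ih =>
    intro Y l x hL hmu
    by_cases hcomp : ∀ z ∈ Y, ∃ u, Lv f x l u ∧ Go R (Y.erase z) u t
    · exact hL.complete hB hQ hN hcomp
    · push Not at hcomp
      obtain ⟨z, p, hS⟩ := exists_stp hB hQ hN hL hcomp
      obtain ⟨Y', l', x', h1, h2⟩ := hS.new
      exact ih Y' l' x' h1 (by omega)

theorem neck_of_crit [Fintype V] {R : V → V → Prop} {H : Finset V} {t : V} {f : V → V} (hB : Base R H t f)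
    (hQ : ∀ X, CF R H f X → ¬ Ac R (insert t X)) (hX : ∃ X, CF R H f X ∧ ∃ x, Cr R t X x) : Neck R 2 := by
  by_contra hN
  obtain ⟨X, hX, hmx⟩ := exists_max_image (univ.filter (fun X => CF R H f X ∧ ∃ x, Cr R t X x)) card (by
    obtain ⟨X, h⟩ := hX
    exact ⟨X, mem_filter.mpr ⟨mem_univ _, h⟩⟩)
  rw [mem_filter] at hX
  have hG : G1 R H t f X := ⟨hX.2.1, hX.2.2, fun X' h1 h2 => hmx X' (mem_filter.mpr ⟨mem_univ _, h1, h2⟩)⟩
  have htX : t ∉ X := fun h => hB.tH (hG.cf.sub h)
  refine ladder_false hB hQ hN (mu R t X t) X 0 (fun _ => t) ⟨rfl, ?_, ?_, ?_, ?_⟩ (le_refl _)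
  · intro c _
    have : Sl c 0 = ∅ := by simp [Sl]
    rw [this, union_empty]; exact hG
  · intro i hi; omega
  · intro i j hij hj; omega
  · intro w hw
    exact ⟨t, Or.inl rfl, Rc.rfl' (mem_erase.mpr ⟨fun h => htX (h ▸ hw), mem_insert_self _ _⟩)⟩

theorem Link.rmono {R R' : V → V → Prop} (h : ∀ u v, R' u v → R u v) {S : Finset V} {u v : V} (hl : Link R' S u v) :
    Link R S u v := by
  obtain ⟨h0, S1, S2, h1, h2, h3, h4, h5⟩ := hl
  exact ⟨h0, S1, S2, h1.rmono (fun a _ b _ => h a b), h2.rmono (fun a _ b _ => h a b), h3, h4, h5⟩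

theorem Ch.rmono {R R' : V → V → Prop} (h : ∀ u v, R' u v → R u v) {r : ℕ} {a t : V} {S : Finset V} (hc : Ch R' r a t S) :
    Ch R r a t S := by
  induction hc with
  | nil a => exact Ch.nil a
  | cons h1 _ h3 ih => exact Ch.cons (Link.rmono h h1) ih h3

theorem Neck.rmono {R R' : V → V → Prop} (h : ∀ u v, R' u v → R u v) {r : ℕ} (hn : Neck R' r) : Neck R r := by
  obtain ⟨a, t, S, T, h1, h2, h3⟩ := hn
  exact ⟨a, t, S, T, Ch.rmono h h1, Link.rmono h h2, h3⟩

/-- at most one end of every pair -/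
def Ind (f : V → V) (X : Finset V) : Prop := ∀ x ∈ X, f x ∉ X

/-- the number of arcs from `t` -/
noncomputable def od [Fintype V] (R : V → V → Prop) (t : V) : ℕ := (univ.filter (fun a => R t a)).card

theorem od_pos [Fintype V] {R : V → V → Prop} {t a : V} (h : R t a) : 0 < od R t :=
  card_pos.mpr ⟨a, mem_filter.mpr ⟨mem_univ _, h⟩⟩

theorem od_lt [Fintype V] {R R' : V → V → Prop} {t a : V} (h : R t a) (h' : ¬ R' t a) (hs : ∀ v, R' t v → R t v) :
    od R' t < od R t := by
  refine card_lt_card ?_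
  rw [Finset.ssubset_iff_of_subset]
  · refine ⟨a, mem_filter.mpr ⟨mem_univ _, h⟩, fun h1 => h' (mem_filter.mp h1).2⟩
  · intro b hb
    exact mem_filter.mpr ⟨mem_univ _, hs b (mem_filter.mp hb).2⟩

theorem exists_cf {R : V → V → Prop} {H : Finset V} {t : V} {f : V → V} (hB : Base R H t f) : ∃ X, CF R H f X := by
  obtain ⟨X, hX, hmx⟩ := exists_max_image (H.powerset.filter (fun X => Ind f X)) card
    ⟨∅, mem_filter.mpr ⟨empty_mem_powerset _, by simp [Ind]⟩⟩
  rw [mem_filter, mem_powerset] at hX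
  refine ⟨X, hX.1, hX.2, hB.cov _ sdiff_subset fun y hy hfy => ?_⟩
  by_contra hne
  rw [mem_sdiff] at hy hfy
  have h1 := hmx (insert y X) (mem_filter.mpr ⟨mem_powerset.mpr (insert_subset hy.1 hX.1), ?_⟩)
  · rw [card_insert_of_notMem hy.2] at h1
    omega
  · intro a ha hfa
    rcases mem_insert.mp ha with rfl | ha
    · rcases mem_insert.mp hfa with h | h
      · exact hne h
      · exact hfy.2 h
    · rcases mem_insert.mp hfa with h | h
      · exact hfy.2 (by rw [← h, hB.inv]; exact ha)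
      · exact hX.2 a ha h

theorem match_neck [Fintype V] {H : Finset V} {t : V} {f : V → V} : ∀ (n : ℕ) (R : V → V → Prop),
    od R t ≤ n → Base R H t f → (∀ X, CF R H f X → ¬ Ac R (insert t X)) → Neck R 2 := by
  have key : ∀ (R : V → V → Prop), Base R H t f → (∀ X, CF R H f X → ¬ Ac R (insert t X)) → ∃ a, R t a := by
    intro R hB hQ
    obtain ⟨X, hX⟩ := exists_cf hB
    have htX : t ∉ X := fun h => hB.tH (hX.sub h)
    obtain ⟨D, hD, htD, hDx, hcD⟩ := circ_of_not_ac hB.irr (hQ X hX) (by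
      rw [erase_insert htX]; exact hB.acX hX.sub hX.ind)
    obtain ⟨a, b, ha, _, _⟩ := walk_of_circ hcD htD hDx
    exact ⟨a, ha⟩
  intro n
  induction n with
  | zero =>
    intro R hn hB hQ
    obtain ⟨a, ha⟩ := key R hB hQ
    have := od_pos ha
    omega
  | succ n ih =>
    intro R hn hB hQ
    obtain ⟨a, ha⟩ := key R hB hQ
    have hat : a ≠ t := fun h => hB.irr t (by rw [h] at ha; exact ha)
    set R' : V → V → Prop := fun u v => R u v ∧ ¬ (u = t ∧ v = a) with hR'
    have hsub : ∀ u v, R' u v → R u v := fun u v h => h.1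
    have hout : ∀ S : Finset V, t ∉ S → Ac R' S → Ac R S := by
      intro S hS h
      exact h.rmono fun u hu v _ huv => ⟨huv, fun h1 => hS (h1.1 ▸ hu)⟩
    have hout' : ∀ S : Finset V, a ∉ S → Ac R' S → Ac R S := by
      intro S hS h
      exact h.rmono fun u _ v hv huv => ⟨huv, fun h1 => hS (h1.2 ▸ hv)⟩
    have hmono : ∀ S : Finset V, Ac R S → Ac R' S := fun S h => h.rmono fun u _ v _ huv => hsub u v huv
    have hcf : ∀ X, CF R' H f X → CF R H f X := fun X h =>
      ⟨h.sub, h.ind, hout _ (fun h1 => hB.tH (mem_sdiff.mp h1).1) h.ac⟩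
    by_cases hQ' : ∀ X, CF R' H f X → ¬ Ac R' (insert t X)
    · refine Neck.rmono hsub (ih R' ?_ ⟨fun v h => hB.irr v h.1, hB.tH, hB.inv, hB.ft, hB.fH,
        fun S hS h => hmono S (hB.cov S hS h)⟩ hQ')
      have : od R' t < od R t := od_lt ha (fun h => h.2 ⟨rfl, rfl⟩) (fun v h => hsub t v h)
      omega
    · push Not at hQ'
      obtain ⟨X, hX, hA⟩ := hQ'
      have haX : a ∈ X := by
        by_contra haX
        refine hQ X (hcf X hX) (hout' _ ?_ hA)
        rw [mem_insert, not_or]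
        exact ⟨hat, haX⟩
      refine neck_of_crit hB hQ ⟨X, hcf X hX, a, haX, ?_⟩
      refine hout' _ ?_ (hA.mono (insert_subset_insert _ (erase_subset _ _)))
      rw [mem_insert, not_or]
      exact ⟨hat, fun h => (mem_erase.mp h).1 rfl⟩

/-- an involution which may move vertices out of `H` -/
theorem exists_base {R : V → V → Prop} (hirr : ∀ v, ¬ R v v) {H : Finset V} {t : V} (ht : t ∉ H) {f : V → V}
    (hf : ∀ v, f (f v) = v) (hcov : ∀ S ⊆ H, (∀ x ∈ S, f x ∈ S → f x = x) → Ac R S) : ∃ f', Base R H t f' := by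
  refine ⟨fun v => if v ∈ H ∧ f v ∈ H then f v else v, hirr, ht, ?_, ?_, ?_, ?_⟩
  · intro v
    by_cases h : v ∈ H ∧ f v ∈ H
    · simp only [if_pos h, hf, if_pos h.symm]
    · simp only [if_neg h]
  · simp [ht]
  · intro v hv
    by_cases h : v ∈ H ∧ f v ∈ H
    · rw [if_pos h]; exact h.2
    · rw [if_neg h]; exact hv
  · intro S hS h
    refine hcov S hS fun y hy hfy => ?_
    have := h y hy
    simp only [if_pos (And.intro (hS hy) (hS hfy))] at this
    exact this hfy

/-- the theorem for several colours -/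
theorem match_many [Fintype V] {R : V → V → Prop} (hirr : ∀ v, ¬ R v v) {f : V → V} (hf : ∀ v, f (f v) = v) :
    ∀ (c : ℕ) (U T : Finset V), T ⊆ U → T.card ≤ c + 1 → (∀ S ⊆ U \ T, (∀ x ∈ S, f x ∈ S → f x = x) → Ac R S) →
    ¬ Colr R (Fin (c + 2)) U → Neck R 2 := by
  intro c
  induction c with
  | zero =>
    intro U T hTU hT hcov hcol
    rcases U.eq_empty_or_nonempty with rfl | ⟨t0, ht0⟩
    · exact absurd ⟨fun _ => 0, fun F hF _ => ac_empty.mono hF⟩ hcol
    obtain ⟨t, ht, hTt⟩ : ∃ t ∈ U, T ⊆ {t} := by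
      rcases T.eq_empty_or_nonempty with rfl | ⟨t, ht⟩
      · exact ⟨t0, ht0, empty_subset _⟩
      · refine ⟨t, hTU ht, fun x hx => ?_⟩
        rw [mem_singleton]
        exact card_le_one.mp hT x hx t ht
    have htH : t ∉ U \ {t} := fun h => (mem_sdiff.mp h).2 (mem_singleton_self t)
    obtain ⟨f', hB⟩ := exists_base hirr htH hf
      (fun S hS h => hcov S (hS.trans (sdiff_subset_sdiff (Subset.refl _) hTt)) h)
    refine match_neck (od R t) R (le_refl _) hB ?_
    intro X hX hA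
    have hXU : insert t X ⊆ U := insert_subset ht (hX.sub.trans sdiff_subset)
    refine not_two hcol (insert t X) hXU hA (hX.ac.mono fun y hy => ?_)
    simp only [mem_sdiff, mem_insert, not_or, mem_singleton] at hy ⊢
    exact ⟨⟨hy.1, hy.2.1⟩, hy.2.2⟩
  | succ c ih =>
    intro U T hTU hT hcov hcol
    rcases T.eq_empty_or_nonempty with rfl | ⟨v, hv⟩
    · exact ih U ∅ hTU (by simp) hcov (fun h => hcol (by
        obtain ⟨g, hg⟩ := h
        refine ⟨fun x => (g x).castSucc, fun F hF hm => hg F hF fun u hu w hw => ?_⟩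
        exact Fin.castSucc_injective _ (hm u hu w hw)))
    refine ih (U.erase v) (T.erase v) (erase_subset_erase _ hTU) ?_ ?_ (fun h => hcol (colr_add hirr h))
    · rw [card_erase_of_mem hv]; omega
    · intro S hS h
      refine hcov S (hS.trans ?_) h
      intro x hx
      rw [mem_sdiff, mem_erase, mem_erase] at hx
      exact mem_sdiff.mpr ⟨hx.1.2, fun h => hx.2 ⟨hx.1.1, h⟩⟩

end main

end Pool.Agent.Lib.TriFive.Match
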