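import Pool.Agent.Lib.TriFive.Stars

/-!
# Digraphs whose dichromatic number is one more than their cycle rank

`CR R k S`: the cycle rank of the subdigraph induced by `S` is at most `k`. `rank_key`: if all strongly connected sets avoiding
`t` become acyclic by the removal of one vertex and the digraph cannot be coloured with two colours, there is a `Neck R 2`.
`rank_neck`: the same for cycle rank at most `c + 2` and `c + 2` colours.
-/

set_option autoImplicit false

namespace Pool.Agent.Lib.TriFive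

open Finset
open scoped Classical

section rank
variable {V : Type*} {R : V → V → Prop}

/-- the cycle rank of the subdigraph induced by `S` is at most `k` -/
def CR (R : V → V → Prop) : ℕ → Finset V → Prop
  | 0, S => Ac R S
  | k + 1, S => ∀ K ⊆ S, K.Nonempty → (∀ x ∈ K, ∀ y ∈ K, Rc R K x y) → ∃ v ∈ K, CR R k (K.erase v)

theorem ac_single (hirr : ∀ v, ¬ R v v) (w : V) {S : Finset V} (hS : S ⊆ {w}) : Ac R S := by
  intro u v huv hu hr
  have h1 := mem_singleton.mp (hS hu)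
  have h2 := mem_singleton.mp (hS hr.left)
  rw [h1, h2] at huv
  exact hirr w huv

theorem rank_key (hirr : ∀ v, ¬ R v v) {U : Finset V} {t : V} (ht : t ∈ U)
    (h : ∀ K ⊆ U \ {t}, K.Nonempty → (∀ x ∈ K, ∀ y ∈ K, Rc R K x y) → ∃ w ∈ K, Ac R (K.erase w))
    (hcol : ∀ S ⊆ U, Ac R S → ¬ Ac R (U \ S)) : Neck R 2 := by
  set H := U \ {t} with hH
  set comp : V → Finset V := fun x => H.filter (fun y => Rc R H x y ∧ Rc R H y x) with hcomp
  have memc : ∀ x y, y ∈ comp x ↔ Rc R H x y ∧ Rc R H y x := by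
    intro x y
    rw [hcomp]
    simp only [mem_filter]
    exact ⟨fun h1 => h1.2, fun h1 => ⟨h1.1.right, h1⟩⟩
  have hself : ∀ x ∈ H, x ∈ comp x := fun x hx => (memc x x).mpr ⟨Rc.rfl' hx, Rc.rfl' hx⟩
  have hstr : ∀ x, ∀ y ∈ comp x, ∀ z ∈ comp x, Rc R (comp x) y z := by
    intro x y hy z hz
    rw [memc] at hy hz
    obtain ⟨T, hT, hP⟩ := (hy.2.trans hz.1).toPS
    refine hP.rc.mono fun u hu => ?_
    rw [memc]
    have h1 := hP.2.2 u hu
    exact ⟨hy.1.trans (h1.1.mono hT), (h1.2.mono hT).trans hz.2⟩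
  have heq : ∀ x y, y ∈ comp x → comp y = comp x := by
    intro x y hy
    rw [memc] at hy
    ext z
    rw [memc, memc]
    exact ⟨fun h1 => ⟨hy.1.trans h1.1, h1.2.trans hy.2⟩, fun h1 => ⟨hy.2.trans h1.1, h1.2.trans hy.1⟩⟩
  set cls := H.image comp with hcls
  have hclsub : ∀ G ∈ cls, G ⊆ H := by
    intro G hG
    obtain ⟨x, _, rfl⟩ := mem_image.mp hG
    exact filter_subset _ _
  have hdisj : ∀ G ∈ cls, ∀ G' ∈ cls, ∀ z, z ∈ G → z ∈ G' → G = G' := by
    intro G hG G' hG' z hz hz'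
    obtain ⟨x, _, rfl⟩ := mem_image.mp hG
    obtain ⟨x', _, rfl⟩ := mem_image.mp hG'
    exact (heq x z hz).symm.trans (heq x' z hz')
  have hw : ∀ G ∈ cls, ∃ w ∈ G, Ac R (G.erase w) := by
    intro G hG
    obtain ⟨x, hx, rfl⟩ := mem_image.mp hG
    exact h _ (filter_subset _ _) ⟨x, hself x hx⟩ (hstr x)
  have : Nonempty V := ⟨t⟩
  choose! w hwG hwA using hw
  have hY : ∀ G ∈ cls, ∃ Y ⊆ G.erase (w G), Ac R (G \ Y) ∧ ∀ y ∈ Y, ¬ Ac R (G \ Y.erase y) := by
    intro G hG
    obtain ⟨Y, hY, hmin⟩ := exists_min_image ((G.erase (w G)).powerset.filter (fun Y => Ac R (G \ Y))) card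
      ⟨G.erase (w G), mem_filter.mpr ⟨mem_powerset.mpr (Subset.refl _), ac_single hirr (w G) (by
        intro x hx
        rw [mem_sdiff, mem_erase, not_and'] at hx
        rw [mem_singleton]
        by_contra hc
        exact hx.2 hx.1 hc)⟩⟩
    rw [mem_filter, mem_powerset] at hY
    refine ⟨Y, hY.1, hY.2, fun y hy hA => ?_⟩
    have h3 := hmin (Y.erase y) (mem_filter.mpr ⟨mem_powerset.mpr ((erase_subset _ _).trans hY.1), hA⟩)
    rw [card_erase_of_mem hy] at h3
    have := card_pos.mpr ⟨y, hy⟩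
    omega
  choose! Y hYG hYA hYm using hY
  have hYsub : ∀ G ∈ cls, ∀ y ∈ Y G, y ∈ G ∧ y ≠ w G := by
    intro G hG y hy
    have := hYG G hG hy
    rw [mem_erase] at this
    exact ⟨this.2, this.1⟩
  set P : Finset (V × V) := cls.biUnion (fun G => (Y G).image (fun y => (w G, y))) with hPdef
  have memP : ∀ p : V × V, p ∈ P ↔ ∃ G ∈ cls, p.1 = w G ∧ p.2 ∈ Y G := by
    intro p
    rw [hPdef, mem_biUnion]
    constructor
    · rintro ⟨G, hG, hp⟩
      obtain ⟨y, hy, rfl⟩ := mem_image.mp hp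
      exact ⟨G, hG, rfl, hy⟩
    · rintro ⟨G, hG, h1, h2⟩
      exact ⟨G, hG, mem_image.mpr ⟨p.2, h2, by rw [← h1]⟩⟩
  refine stars_neck_on hirr ht (P := P) ⟨?_, ?_, ?_, ?_⟩ hcol
  · intro p hp q hq hpq
    obtain ⟨G, hG, hp1, hp2⟩ := (memP p).mp hp
    obtain ⟨G', hG', hq1, hq2⟩ := (memP q).mp hq
    have h1 := hYsub G' hG' _ hq2
    have h2 : G = G' := hdisj G hG G' hG' p.1 (hp1 ▸ hwG G hG) (hpq ▸ h1.1)
    subst h2
    exact h1.2 (hpq.symm.trans hp1)
  · intro p hp q hq hpq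
    obtain ⟨G, hG, hp1, hp2⟩ := (memP p).mp hp
    obtain ⟨G', hG', hq1, hq2⟩ := (memP q).mp hq
    have h2 : G = G' := hdisj G hG G' hG' p.2 (hYsub G hG _ hp2).1 (hpq ▸ (hYsub G' hG' _ hq2).1)
    subst h2
    exact Prod.ext (hp1.trans hq1.symm) hpq
  · intro S hS hn
    by_contra hA
    obtain ⟨C, hC, hcC, x, hx, y, hy, hxy⟩ := exists_circ_of_not_ac hirr hA
    have hxH : x ∈ H := hS (hC hx)
    have hCG : C ⊆ comp x := by
      intro z hz
      rw [memc]
      by_cases hzx : z = x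
      · rw [hzx]; exact ⟨Rc.rfl' hxH, Rc.rfl' hxH⟩
      · exact ⟨(hcC.rc hx hz (Ne.symm hzx)).mono (hC.trans hS), (hcC.rc hz hx hzx).mono (hC.trans hS)⟩
    have hG : comp x ∈ cls := mem_image_of_mem _ hxH
    have h1 : w (comp x) ∈ C := by
      by_contra h1
      refine hcC.not_ac (S := (comp x).erase (w (comp x))) ?_ hx hy hxy (hwA _ hG)
      intro z hz
      exact mem_erase.mpr ⟨fun h2 => h1 (h2 ▸ hz), hCG hz⟩
    have h2 : ∃ y ∈ Y (comp x), y ∈ C := by
      by_contra h2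
      push Not at h2
      refine hcC.not_ac (S := comp x \ Y (comp x)) ?_ hx hy hxy (hYA _ hG)
      intro z hz
      exact mem_sdiff.mpr ⟨hCG hz, fun h3 => h2 z h3 hz⟩
    obtain ⟨y', hy', hyC⟩ := h2
    exact hn (w (comp x), y') ((memP _).mpr ⟨comp x, hG, rfl, hy'⟩) (hC h1) (hC hyC)
  · intro X hX p hp hpX hA
    obtain ⟨G, hG, hp1, hp2⟩ := (memP p).mp hp
    refine hYm G hG p.2 hp2 (hA.mono ?_)
    intro z hz
    rw [mem_sdiff] at hz
    refine mem_sdiff.mpr ⟨hclsub G hG hz.1, fun h1 => hz.2 ?_⟩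
    rw [mem_erase] at h1
    refine mem_erase.mpr ⟨h1.1, ?_⟩
    obtain ⟨q, hq, hzq⟩ := mem_ends.mp (hX.2 h1.2)
    obtain ⟨G', hG', hq1, hq2⟩ := (memP q).mp hq
    have h3 : z ∈ G' := by
      rcases hzq with h4 | h4
      · rw [h4, hq1]; exact hwG G' hG'
      · rw [h4]; exact (hYsub G' hG' _ hq2).1
    have h4 : G = G' := hdisj G hG G' hG' z hz.1 h3
    subst h4
    rcases hzq with h5 | h5
    · exfalso
      -- the centre is not in `X`
      have h6 : p.1 ∈ X := by rw [hp1, ← hq1, ← h5]; exact h1.2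
      rcases hX.1 p hp with ⟨_, h7⟩ | ⟨h7, _⟩
      · exact h7 hpX
      · exact h7 h6
    · rw [h5]; exact hq2

/-- a set which is not colourable contains a strongly connected one -/
theorem exists_strong {α : Type} [Nonempty α] {U : Finset V} (h : ¬ Colr R α U) :
    ∃ K ⊆ U, ¬ Colr R α K ∧ K.Nonempty ∧ ∀ x ∈ K, ∀ y ∈ K, Rc R K x y := by
  obtain ⟨K, hK, hmin⟩ := exists_min_image (U.powerset.filter (fun K => ¬ Colr R α K)) card
    ⟨U, mem_filter.mpr ⟨mem_powerset.mpr (Subset.refl _), h⟩⟩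
  rw [mem_filter, mem_powerset] at hK
  have hne : K.Nonempty := by
    rw [nonempty_iff_ne_empty]
    rintro rfl
    exact hK.2 ⟨fun _ => Classical.arbitrary α, fun F hF _ => ac_empty.mono hF⟩
  refine ⟨K, hK.1, hK.2, hne, fun x hx y hy => ?_⟩
  by_contra hxy
  refine hK.2 (colr_split hx hy hxy fun T hT => ?_)
  by_contra hT'
  have h3 := hmin T (mem_filter.mpr ⟨mem_powerset.mpr (hT.subset.trans hK.1), hT'⟩)
  have := card_lt_card hT
  omega

theorem rank_neck (hirr : ∀ v, ¬ R v v) : ∀ (c : ℕ) (U : Finset V), CR R (c + 2) U → ¬ Colr R (Fin (c + 2)) U → Neck R 2 := by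
  intro c
  induction c with
  | zero =>
    intro U hU hcol
    obtain ⟨K, hKU, hK, hne, hstr⟩ := exists_strong hcol
    obtain ⟨v, hv, hv'⟩ := hU K hKU hne hstr
    refine rank_key hirr (U := K) hv ?_ ?_
    · intro K' hK' hne' hstr'
      rw [sdiff_singleton_eq_erase] at hK'
      exact hv' K' hK' hne' hstr'
    · intro S hS h1 h2
      refine hK ⟨fun x => if x ∈ S then 0 else 1, fun F hF hm => ?_⟩
      rcases F.eq_empty_or_nonempty with rfl | ⟨u0, hu0⟩
      · exact ac_empty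
      by_cases h0 : u0 ∈ S
      · refine h1.mono fun x hx => ?_
        have := hm u0 hu0 x hx
        by_contra hxS
        simp [h0, hxS] at this
      · refine h2.mono fun x hx => mem_sdiff.mpr ⟨hF hx, fun hxS => ?_⟩
        have := hm u0 hu0 x hx
        simp [h0, hxS] at this
  | succ c ih =>
    intro U hU hcol
    obtain ⟨K, hKU, hK, hne, hstr⟩ := exists_strong hcol
    obtain ⟨v, hv, hv'⟩ := hU K hKU hne hstr
    refine ih (K.erase v) hv' ?_
    rintro ⟨f, hf⟩
    refine hK ⟨fun x => if x = v then Fin.last _ else (f x).castSucc, fun F hF hm => ?_⟩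
    by_cases hvF : v ∈ F
    · refine ac_single hirr v fun x hx => ?_
      rw [mem_singleton]
      by_contra hxv
      have := hm v hvF x hx
      simp only [if_true, if_neg hxv] at this
      exact absurd this.symm (Fin.castSucc_lt_last _).ne
    · refine hf F (fun x hx => mem_erase.mpr ⟨fun h1 => hvF (h1 ▸ hx), hF hx⟩) fun u hu x hx => ?_
      have h1 : u ≠ v := fun h1 => hvF (h1 ▸ hu)
      have h2 : x ≠ v := fun h1 => hvF (h1 ▸ hx)
      have := hm u hu x hx
      simp only [if_neg h1, if_neg h2] at this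
      exact Fin.castSucc_injective _ this

end rank

end Pool.Agent.Lib.TriFive
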