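import Pool.Agent.Lib.TriFive.Feedback

/-!
# Pair covers which are star forests with at most one big star

`Sys R G P w`: `P` is a set of pairs (centre, leaf) forming a star forest in which only the star at `w` may have several leaves;
a subset of `G` containing no pair of `P` is acyclic; and no proper subset of a transversal of `P` meets all circuits in `G`.
`exact_pair`: then some circuit in `G` meets the ends of `P` exactly in the two ends of one pair (with a prescribed leaf if the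
pair is at `w`). `star_neck`: the consequence for digraphs which cannot be coloured with two colours.
-/

set_option autoImplicit false

namespace Pool.Agent.Lib.TriFive

open Finset
open scoped Classical

section star
variable {V : Type*} {R : V → V → Prop}

/-- a set which is not acyclic contains a circuit -/
theorem exists_circ_of_not_ac (hirr : ∀ v, ¬ R v v) {S : Finset V} (h : ¬ Ac R S) :
    ∃ g ⊆ S, Circ R g ∧ ∃ x ∈ g, ∃ y ∈ g, x ≠ y := by
  unfold Ac at h
  push Not at h
  obtain ⟨u, v, huv, hu, hr⟩ := h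
  have hne : v ≠ u := by rintro rfl; exact hirr _ huv
  obtain ⟨l, hl, hlS⟩ := hr.pth hne
  refine ⟨(v :: (l ++ [u])).toFinset, ?_, ?_, v, by simp, u, by simp, hne⟩
  · intro x hx
    simp only [List.mem_toFinset, List.mem_cons, List.mem_append, List.not_mem_nil, or_false] at hx
    rcases hx with hx | hx | hx
    · exact hx ▸ hr.left
    · exact hlS x hx
    · exact hx ▸ hu
  · refine circ_list hl.1 ?_
    have := hl.2
    have e : v :: (l ++ [u] ++ [v]) = v :: (l ++ u :: ([] ++ [v])) := by simp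
    rw [e, List.isChain_cons_split]
    exact ⟨this, by simpa using huv⟩

theorem Circ.not_ac {g S : Finset V} (hg : Circ R g) (hgS : g ⊆ S) {x y : V} (hx : x ∈ g) (hy : y ∈ g) (hne : x ≠ y) :
    ¬ Ac R S := fun h =>
  hne (h.eq (hg x hx y hy hne).rc (hg y hy x hx hne.symm).rc hgS hgS)

theorem Circ.rc {g : Finset V} (hg : Circ R g) {x y : V} (hx : x ∈ g) (hy : y ∈ g) (hne : x ≠ y) : Rc R g x y :=
  (hg x hx y hy hne).rc

/-- no set all elements of which reach another one inside an acyclic set -/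
theorem no_out {S Z : Finset V} (hS : Ac R S) (hne : Z.Nonempty)
    (h : ∀ z ∈ Z, ∃ z' ∈ Z, z' ≠ z ∧ Rc R S z z') : False := by
  obtain ⟨z, hz, hmin⟩ := exists_min_image Z (fun z => (S.filter (fun x => Rc R S z x)).card) hne
  obtain ⟨z', hz', hne', hr⟩ := h z hz
  have h1 := hmin z' hz'
  have h2 : S.filter (fun x => Rc R S z' x) ⊂ S.filter (fun x => Rc R S z x) := by
    rw [Finset.ssubset_iff_of_subset]
    · refine ⟨z, by simp [hr.left, Rc.rfl' hr.left], ?_⟩
      simp only [mem_filter, not_and]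
      intro _ h3
      exact hne' (hS.eq h3 hr (Subset.refl _) (Subset.refl _))
    · intro x hx
      rw [mem_filter] at hx ⊢
      exact ⟨hx.1, hr.trans hx.2⟩
  have := card_lt_card h2
  omega

theorem no_in {S Z : Finset V} (hS : Ac R S) (hne : Z.Nonempty)
    (h : ∀ z ∈ Z, ∃ z' ∈ Z, z' ≠ z ∧ Rc R S z' z) : False := by
  obtain ⟨z, hz, hmin⟩ := exists_min_image Z (fun z => (S.filter (fun x => Rc R S x z)).card) hne
  obtain ⟨z', hz', hne', hr⟩ := h z hz
  have h1 := hmin z' hz'
  have h2 : S.filter (fun x => Rc R S x z') ⊂ S.filter (fun x => Rc R S x z) := by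
    rw [Finset.ssubset_iff_of_subset]
    · refine ⟨z, by simp [hr.right, Rc.rfl' hr.right], ?_⟩
      simp only [mem_filter, not_and]
      intro _ h3
      exact hne' (hS.eq hr h3 (Subset.refl _) (Subset.refl _))
    · intro x hx
      rw [mem_filter] at hx ⊢
      exact ⟨hx.1, hx.2.trans hr⟩
  have := card_lt_card h2
  omega

/-- from `b` to `a` inside `C`: without `z`, or from `z` to `a` without `b` -/
theorem last_alt {C : Finset V} {a b z : V} (h : Rc R C b a) (hbz : b ≠ z) :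
    Rc R (C.erase z) b a ∨ Rc R (C.erase b) z a := by
  obtain ⟨x, hx, _, T, hTC, hT, hTp⟩ := h.lastHit (fun x => x = b ∨ x = z) (Or.inl rfl)
  rcases hx with rfl | rfl
  · left
    refine hT.mono fun y hy => mem_erase.mpr ⟨?_, hTC hy⟩
    rintro rfl
    exact hbz (hTp _ hy (Or.inr rfl)).symm
  · right
    refine hT.mono fun y hy => mem_erase.mpr ⟨?_, hTC hy⟩
    rintro rfl
    exact hbz (hTp _ hy (Or.inl rfl))

theorem first_alt {C : Finset V} {a b z : V} (h : Rc R C b a) (haz : a ≠ z) :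
    Rc R (C.erase z) b a ∨ Rc R (C.erase a) b z := by
  obtain ⟨x, hx, _, T, hTC, hT, hTp⟩ := h.firstHit (fun x => x = a ∨ x = z) (Or.inl rfl)
  rcases hx with rfl | rfl
  · left
    refine hT.mono fun y hy => mem_erase.mpr ⟨?_, hTC hy⟩
    rintro rfl
    exact haz (hTp _ hy (Or.inr rfl)).symm
  · right
    refine hT.mono fun y hy => mem_erase.mpr ⟨?_, hTC hy⟩
    rintro rfl
    exact haz (hTp _ hy (Or.inl rfl))

/-- the ends of the pairs -/
noncomputable def ends (P : Finset (V × V)) : Finset V := P.image Prod.fst ∪ P.image Prod.snd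

theorem mem_ends {P : Finset (V × V)} {x : V} : x ∈ ends P ↔ ∃ p ∈ P, x = p.1 ∨ x = p.2 := by
  simp only [ends, mem_union, mem_image]
  constructor
  · rintro (⟨p, hp, rfl⟩ | ⟨p, hp, rfl⟩)
    · exact ⟨p, hp, Or.inl rfl⟩
    · exact ⟨p, hp, Or.inr rfl⟩
  · rintro ⟨p, hp, rfl | rfl⟩
    · exact Or.inl ⟨p, hp, rfl⟩
    · exact Or.inr ⟨p, hp, rfl⟩

/-- `X` consists of exactly one end of every pair -/
def Tv (P : Finset (V × V)) (X : Finset V) : Prop :=
  (∀ p ∈ P, (p.1 ∈ X ∧ p.2 ∉ X) ∨ (p.1 ∉ X ∧ p.2 ∈ X)) ∧ X ⊆ ends P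

/-- star forests covering all circuits, with inclusion-minimal transversals -/
structure Sys (R : V → V → Prop) (G : Finset V) (P : Finset (V × V)) (w : V) : Prop where
  a : ∀ p ∈ P, ∀ q ∈ P, p.1 ≠ q.2
  b : ∀ p ∈ P, ∀ q ∈ P, p.2 = q.2 → p = q
  c : ∀ p ∈ P, ∀ q ∈ P, p.1 = q.1 → p = q ∨ p.1 = w
  cov : ∀ S ⊆ G, (∀ p ∈ P, p.1 ∈ S → p.2 ∉ S) → Ac R S
  im : ∀ X, Tv P X → ∀ z ∈ X, ¬ Ac R (G \ X.erase z)

theorem Sys.uniq {G : Finset V} {P : Finset (V × V)} {w : V} (h : Sys R G P w) {p q : V × V} (hp : p ∈ P) (hq : q ∈ P)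
    (hpw : p.1 ≠ w) {x : V} (hx : x = p.1 ∨ x = p.2) (hx' : x = q.1 ∨ x = q.2) : p = q := by
  rcases hx with rfl | rfl
  · rcases hx' with h1 | h1
    · exact (h.c p hp q hq h1).resolve_right hpw
    · exact absurd h1 (h.a p hp q hq)
  · rcases hx' with h1 | h1
    · exact absurd h1.symm (h.a q hq p hp)
    · exact h.b p hp q hq h1

/-- deleting one end of a pair -/
theorem Sys.del {G : Finset V} {P : Finset (V × V)} {w : V} (h : Sys R G P w) {j : V × V} (hj : j ∈ P) (hjw : j.1 ≠ w)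
    {z' : V} (hz' : z' = j.1 ∨ z' = j.2) : Sys R (G.erase z') (P.erase j) w := by
  have hj12 : j.1 ≠ j.2 := h.a j hj j hj
  have hz'n : ∀ p ∈ P.erase j, z' ≠ p.1 ∧ z' ≠ p.2 := by
    intro p hp
    rw [mem_erase] at hp
    constructor
    · intro h1; exact hp.1 (h.uniq hj hp.2 hjw hz' (Or.inl h1)).symm
    · intro h1; exact hp.1 (h.uniq hj hp.2 hjw hz' (Or.inr h1)).symm
  refine ⟨fun p hp q hq => h.a p (mem_of_mem_erase hp) q (mem_of_mem_erase hq),
    fun p hp q hq => h.b p (mem_of_mem_erase hp) q (mem_of_mem_erase hq),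
    fun p hp q hq => h.c p (mem_of_mem_erase hp) q (mem_of_mem_erase hq), ?_, ?_⟩
  · intro S hS hn
    refine h.cov S (hS.trans (erase_subset _ _)) fun p hp hp1 hp2 => ?_
    by_cases hpj : p = j
    · subst hpj
      rcases hz' with rfl | rfl
      · exact (mem_erase.mp (hS hp1)).1 rfl
      · exact (mem_erase.mp (hS hp2)).1 rfl
    · exact hn p (mem_erase.mpr ⟨hpj, hp⟩) hp1 hp2
  · intro X hX z hz
    have hz'X : z' ∉ X := by
      intro h1
      obtain ⟨p, hp, hp'⟩ := mem_ends.mp (hX.2 h1)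
      rcases hp' with h2 | h2
      · exact (hz'n p hp).1 h2
      · exact (hz'n p hp).2 h2
    have hoX : ∀ y, (y = j.1 ∨ y = j.2) → y ∉ X := by
      intro y hy h1
      obtain ⟨p, hp, hp'⟩ := mem_ends.mp (hX.2 h1)
      exact (mem_erase.mp hp).1 (h.uniq hj (mem_of_mem_erase hp) hjw hy hp').symm
    have hT : Tv P (insert z' X) := by
      refine ⟨fun p hp => ?_, ?_⟩
      · by_cases hpj : p = j
        · subst hpj
          rcases hz' with rfl | rfl
          · left
            refine ⟨mem_insert_self _ _, ?_⟩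
            rw [mem_insert, not_or]
            exact ⟨hj12.symm, hoX _ (Or.inr rfl)⟩
          · right
            refine ⟨?_, mem_insert_self _ _⟩
            rw [mem_insert, not_or]
            exact ⟨hj12, hoX _ (Or.inl rfl)⟩
        · have hp' : p ∈ P.erase j := mem_erase.mpr ⟨hpj, hp⟩
          have h1 := hX.1 p hp'
          have h2 := hz'n p hp'
          simp only [mem_insert, h2.1.symm, h2.2.symm, false_or]
          exact h1
      · intro y hy
        rcases mem_insert.mp hy with rfl | hy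
        · exact mem_ends.mpr ⟨j, hj, hz'⟩
        · obtain ⟨p, hp, hp'⟩ := mem_ends.mp (hX.2 hy)
          exact mem_ends.mpr ⟨p, mem_of_mem_erase hp, hp'⟩
    have hzz : z ≠ z' := fun h1 => hz'X (h1 ▸ hz)
    have h3 := h.im _ hT z (mem_insert_of_mem hz)
    have e : G \ (insert z' X).erase z = G.erase z' \ X.erase z := by
      ext y
      simp only [mem_sdiff, mem_erase, mem_insert, not_and, not_or]
      constructor
      · rintro ⟨h4, h5⟩
        by_cases hyz : y = z
        · subst hyz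
          exact ⟨⟨hzz, h4⟩, fun h6 => absurd rfl h6⟩
        · exact ⟨⟨(h5 hyz).1, h4⟩, fun _ => (h5 hyz).2⟩
      · rintro ⟨⟨h4, h5⟩, h6⟩
        exact ⟨h5, fun h7 => ⟨h4, h6 h7⟩⟩
    rwa [e] at h3

/-- deleting the leaves of the star -/
theorem Sys.delStar {G : Finset V} {P : Finset (V × V)} {w : V} (h : Sys R G P w) (w' : V) {y0 : V} (hy0 : (w, y0) ∈ P) :
    Sys R (G \ (P.filter (fun p => p.1 = w)).image Prod.snd) (P.filter (fun p => p.1 ≠ w)) w' := by
  set Y := (P.filter (fun p => p.1 = w)).image Prod.snd with hY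
  have memY : ∀ y, y ∈ Y ↔ (w, y) ∈ P := by
    intro y
    simp only [hY, mem_image, mem_filter]
    constructor
    · rintro ⟨⟨p1, p2⟩, ⟨hp, hpw⟩, rfl⟩
      simp only at hpw
      subst hpw
      exact hp
    · intro hp
      exact ⟨(w, y), ⟨hp, rfl⟩, rfl⟩
  refine ⟨fun p hp q hq => h.a p (mem_filter.mp hp).1 q (mem_filter.mp hq).1,
    fun p hp q hq => h.b p (mem_filter.mp hp).1 q (mem_filter.mp hq).1, ?_, ?_, ?_⟩
  · intro p hp q hq hpq
    rw [mem_filter] at hp hq
    exact Or.inl ((h.c p hp.1 q hq.1 hpq).resolve_right hp.2)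
  · intro S hS hn
    refine h.cov S (hS.trans sdiff_subset) fun p hp hp1 hp2 => ?_
    by_cases hpw : p.1 = w
    · refine (mem_sdiff.mp (hS hp2)).2 ((memY _).mpr ?_)
      rw [← hpw]; exact hp
    · exact hn p (mem_filter.mpr ⟨hp, hpw⟩) hp1 hp2
  · intro X hX z hz
    have hXY : ∀ x ∈ X, x ∉ Y := by
      intro x hx hxY
      obtain ⟨p, hp, hp'⟩ := mem_ends.mp (hX.2 hx)
      rw [mem_filter] at hp
      have h1 : p = (w, x) := h.uniq hp.1 ((memY x).mp hxY) hp.2 hp' (Or.inr rfl)
      exact hp.2 (by rw [h1])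
    have hwX : w ∉ X := by
      intro hx
      obtain ⟨p, hp, hp'⟩ := mem_ends.mp (hX.2 hx)
      rw [mem_filter] at hp
      have h1 : p = (w, y0) := h.uniq hp.1 hy0 hp.2 hp' (Or.inl rfl)
      exact hp.2 (by rw [h1])
    have hT : Tv P (X ∪ Y) := by
      refine ⟨fun p hp => ?_, ?_⟩
      · by_cases hpw : p.1 = w
        · right
          have hpY : p.2 ∈ Y := by rw [memY, ← hpw]; exact hp
          refine ⟨?_, mem_union_right _ hpY⟩
          rw [hpw, mem_union, not_or]
          refine ⟨hwX, fun h1 => ?_⟩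
          exact h.a _ hy0 _ ((memY w).mp h1) rfl
        · have hp' : p ∈ P.filter (fun p => p.1 ≠ w) := mem_filter.mpr ⟨hp, hpw⟩
          have h1 : p.1 ∉ Y := fun h1 => h.a p hp _ ((memY _).mp h1) rfl
          have h2 : p.2 ∉ Y := fun h2 => hpw (by rw [h.b p hp _ ((memY _).mp h2) rfl])
          simp only [mem_union, h1, h2, or_false]
          exact hX.1 p hp'
      · intro y hy
        rcases mem_union.mp hy with hy | hy
        · obtain ⟨p, hp, hp'⟩ := mem_ends.mp (hX.2 hy)
          exact mem_ends.mpr ⟨p, (mem_filter.mp hp).1, hp'⟩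
        · exact mem_ends.mpr ⟨(w, y), (memY y).mp hy, Or.inr rfl⟩
    have h3 := h.im _ hT z (mem_union_left _ hz)
    have e : G \ (X ∪ Y).erase z = (G \ Y) \ X.erase z := by
      ext y
      simp only [mem_sdiff, mem_erase, mem_union, not_and, not_or]
      constructor
      · rintro ⟨h4, h5⟩
        by_cases hyz : y = z
        · subst hyz
          exact ⟨⟨h4, hXY _ hz⟩, fun h6 => absurd rfl h6⟩
        · exact ⟨⟨h4, (h5 hyz).2⟩, fun _ => (h5 hyz).1⟩
      · rintro ⟨⟨h4, h5⟩, h6⟩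
        exact ⟨h4, fun h7 => ⟨h6 h7, h5⟩⟩
    rwa [e] at h3

theorem Sys.ends_sub {G : Finset V} {P : Finset (V × V)} {w : V} (h : Sys R G P w) : ends P ⊆ G := by
  intro x hx
  by_contra hxG
  obtain ⟨p, hp, hxp⟩ := mem_ends.mp hx
  have key : ∀ X, Tv P X → x ∈ X → False := by
    intro X hX hxX
    refine h.im X hX x hxX ?_
    refine h.cov _ sdiff_subset fun q hq hq1 hq2 => ?_
    rw [mem_sdiff] at hq1 hq2
    rcases hX.1 q hq with ⟨h1, _⟩ | ⟨_, h1⟩
    · exact hq1.2 (mem_erase.mpr ⟨fun h2 => hxG (h2 ▸ hq1.1), h1⟩)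
    · exact hq2.2 (mem_erase.mpr ⟨fun h2 => hxG (h2 ▸ hq2.1), h1⟩)
  rcases hxp with rfl | rfl
  · refine key (P.image Prod.fst) ⟨fun q hq => Or.inl ⟨mem_image_of_mem _ hq, ?_⟩, ?_⟩ (mem_image_of_mem _ hp)
    · intro h1
      obtain ⟨q', hq', he⟩ := mem_image.mp h1
      exact h.a q' hq' q hq he
    · exact subset_union_left
  · refine key (P.image Prod.snd) ⟨fun q hq => Or.inr ⟨?_, mem_image_of_mem _ hq⟩, ?_⟩ (mem_image_of_mem _ hp)
    · intro h1
      obtain ⟨q', hq', he⟩ := mem_image.mp h1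
      exact h.a q hq q' hq' he.symm
    · exact subset_union_right

/-- a circuit in `G` contains a pair -/
theorem Sys.pair {G : Finset V} {P : Finset (V × V)} {w : V} (h : Sys R G P w) {C : Finset V} (hC : C ⊆ G)
    (hn : ¬ Ac R C) : ∃ p ∈ P, p.1 ∈ C ∧ p.2 ∈ C := by
  by_contra hc
  push Not at hc
  exact hn (h.cov C hC hc)

theorem exact_pair (hirr : ∀ v, ¬ R v v) : ∀ (n : ℕ) (G : Finset V) (P : Finset (V × V)) (w y0 : V),
    (P.filter (fun p => p.1 ≠ w)).card ≤ n → Sys R G P w → (w, y0) ∈ P →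
    ∃ C ⊆ G, Circ R C ∧ ∃ l ∈ P, l.1 ∈ C ∧ l.2 ∈ C ∧ (∀ x ∈ C, x ∈ ends P → x = l.1 ∨ x = l.2) ∧
      (l.1 = w → l.2 = y0) := by
  intro n
  induction n with
  | zero =>
    intro G P w y0 hcard h hy0
    have hall : ∀ p ∈ P, p.1 = w := by
      intro p hp
      by_contra hpw
      have := card_pos.mpr ⟨p, (show p ∈ P.filter (fun p => p.1 ≠ w) from mem_filter.mpr ⟨hp, hpw⟩)⟩
      omega
    have hT : Tv P (P.image Prod.snd) := by
      refine ⟨fun q hq => Or.inr ⟨?_, mem_image_of_mem _ hq⟩, subset_union_right⟩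
      intro h1
      obtain ⟨q', hq', he⟩ := mem_image.mp h1
      exact h.a q hq q' hq' he.symm
    have h1 := h.im _ hT y0 (mem_image_of_mem Prod.snd hy0)
    obtain ⟨C, hC, hcC, x, hx, y, hy, hxy⟩ := exists_circ_of_not_ac hirr h1
    obtain ⟨p, hp, hp1, hp2⟩ := h.pair (hC.trans sdiff_subset) (hcC.not_ac (Subset.refl _) hx hy hxy)
    have hout : ∀ q ∈ P, q.2 ∈ C → q.2 = y0 := by
      intro q hq hq2
      by_contra hne
      exact (mem_sdiff.mp (hC hq2)).2 (mem_erase.mpr ⟨hne, mem_image_of_mem _ hq⟩)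
    refine ⟨C, hC.trans sdiff_subset, hcC, p, hp, hp1, hp2, fun z hz hze => ?_, fun _ => hout p hp hp2⟩
    obtain ⟨q, hq, rfl | rfl⟩ := mem_ends.mp hze
    · left; rw [hall q hq, hall p hp]
    · right; rw [hout q hq hz, hout p hp hp2]
  | succ n ih =>
    intro G P w y0 hcard h hy0
    by_cases hPm : (P.filter (fun p => p.1 ≠ w)).card ≤ n
    · exact ih G P w y0 hPm h hy0
    by_contra hno
    have hno' : ∀ C ⊆ G, Circ R C → ∀ l ∈ P, l.1 ∈ C → l.2 ∈ C → (∀ x ∈ C, x ∈ ends P → x = l.1 ∨ x = l.2) →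
        (l.1 = w → l.2 = y0) → False := fun C h1 h2 l h3 h4 h5 h6 h7 => hno ⟨C, h1, h2, l, h3, h4, h5, h6, h7⟩
    have hEG := h.ends_sub
    -- free paths
    set F : V → V → Prop := fun u v => Rc R ((G \ ends P) ∪ {u, v}) u v with hF
    have noopp : ∀ l ∈ P, (l.1 = w → l.2 = y0) → ¬ (F l.1 l.2 ∧ F l.2 l.1) := by
      rintro l hl hlw ⟨h1, h2⟩
      have h12 : l.1 ≠ l.2 := h.a l hl l hl
      have h2' : Rc R ((G \ ends P) ∪ {l.1, l.2}) l.2 l.1 := by
        refine h2.mono ?_
        intro x hx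
        simp only [mem_union, mem_insert, mem_singleton] at hx ⊢
        tauto
      have hW : (G \ ends P) ∪ {l.1, l.2} ⊆ G := by
        intro x hx
        simp only [mem_union, mem_insert, mem_singleton, mem_sdiff] at hx
        rcases hx with hx | rfl | rfl
        · exact hx.1
        · exact hEG (mem_ends.mpr ⟨l, hl, Or.inl rfl⟩)
        · exact hEG (mem_ends.mpr ⟨l, hl, Or.inr rfl⟩)
      have hn : ¬ Ac R ((G \ ends P) ∪ {l.1, l.2}) := fun hA =>
        h12 (hA.eq h1 h2' (Subset.refl _) (Subset.refl _))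
      obtain ⟨C, hC, hcC, x, hx, y, hy, hxy⟩ := exists_circ_of_not_ac hirr hn
      obtain ⟨q, hq, hq1, hq2⟩ := h.pair (hC.trans hW) (hcC.not_ac (Subset.refl _) hx hy hxy)
      have hin : ∀ x ∈ C, x ∈ ends P → x = l.1 ∨ x = l.2 := by
        intro x hx hxe
        have := hC hx
        simp only [mem_union, mem_insert, mem_singleton, mem_sdiff] at this
        tauto
      have e1 : q.1 = l.1 := (hin _ hq1 (mem_ends.mpr ⟨q, hq, Or.inl rfl⟩)).resolve_right (h.a q hq l hl)
      have e2 : q.2 = l.2 := (hin _ hq2 (mem_ends.mpr ⟨q, hq, Or.inr rfl⟩)).resolve_left (fun h3 => h.a l hl q hq h3.symm)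
      exact hno' C (hC.trans hW) hcC l hl (e1 ▸ hq1) (e2 ▸ hq2) hin hlw
    -- circuits with three terminals
    have datz : ∀ z, (z = w ∨ ∃ j ∈ P, j.1 ≠ w ∧ (z = j.1 ∨ z = j.2)) → ∃ C ⊆ G, Circ R C ∧ z ∈ C ∧ ∃ l ∈ P,
        (l.1 = w → l.2 = y0) ∧ l.1 ∈ C ∧ l.2 ∈ C ∧ z ≠ l.1 ∧ z ≠ l.2 ∧
        ∀ x ∈ C, x ∈ ends P → x = l.1 ∨ x = l.2 ∨ x = z := by
      rintro z (rfl | ⟨j, hj, hjw, hz⟩)
      · obtain ⟨j0, hj0⟩ : (P.filter (fun p => p.1 ≠ z)).Nonempty := by
          rw [← card_pos]; omega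
        have hj0' := mem_filter.mp hj0
        have hcard' : ((P.filter (fun p => p.1 ≠ z)).filter (fun p => p.1 ≠ j0.1)).card ≤ n := by
          have : (P.filter (fun p => p.1 ≠ z)).filter (fun p => p.1 ≠ j0.1) ⊂ P.filter (fun p => p.1 ≠ z) := by
            rw [ssubset_iff_of_subset (filter_subset _ _)]
            exact ⟨j0, hj0, fun h1 => (mem_filter.mp h1).2 rfl⟩
          have := card_lt_card this
          omega
        obtain ⟨C, hC, hcC, l, hl, hl1, hl2, hin, _⟩ := ih _ _ j0.1 j0.2 hcard' (h.delStar j0.1 hy0) hj0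
        rw [mem_filter] at hl
        have hlz : ∀ q ∈ P, q.1 = z → q.2 ∉ C := by
          intro q hq hqz hqC
          exact (mem_sdiff.mp (hC hqC)).2 (mem_image.mpr ⟨q, mem_filter.mpr ⟨hq, hqz⟩, rfl⟩)
        have hin' : ∀ x ∈ C, x ∈ ends P → x ≠ z → x = l.1 ∨ x = l.2 := by
          intro x hx hxe hxz
          obtain ⟨q, hq, hxq⟩ := mem_ends.mp hxe
          by_cases hqz : q.1 = z
          · rcases hxq with rfl | rfl
            · exact absurd hqz hxz
            · exact absurd hx (hlz q hq hqz)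
          · exact hin x hx (mem_ends.mpr ⟨q, mem_filter.mpr ⟨hq, hqz⟩, hxq⟩)
        have hzC : z ∈ C := by
          by_contra hzC
          exact hno' C (hC.trans sdiff_subset) hcC l hl.1 hl1 hl2
            (fun x hx hxe => hin' x hx hxe (fun h1 => hzC (h1 ▸ hx))) (fun h1 => absurd h1 hl.2)
        refine ⟨C, hC.trans sdiff_subset, hcC, hzC, l, hl.1, fun h1 => absurd h1 hl.2, hl1, hl2, fun h1 => hl.2 h1.symm, ?_, ?_⟩
        · exact h.a _ hy0 l hl.1
        · intro x hx hxe
          by_cases hxz : x = z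
          · exact Or.inr (Or.inr hxz)
          · rcases hin' x hx hxe hxz with h1 | h1
            · exact Or.inl h1
            · exact Or.inr (Or.inl h1)
      · -- the other end
        obtain ⟨z', hz', hzz⟩ : ∃ z', (z' = j.1 ∨ z' = j.2) ∧ ∀ x, (x = j.1 ∨ x = j.2) → x = z ∨ x = z' := by
          rcases hz with rfl | rfl
          · exact ⟨j.2, Or.inr rfl, fun x hx => hx⟩
          · exact ⟨j.1, Or.inl rfl, fun x hx => hx.symm⟩
        have hcard' : ((P.erase j).filter (fun p => p.1 ≠ w)).card ≤ n := by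
          have : (P.erase j).filter (fun p => p.1 ≠ w) ⊂ P.filter (fun p => p.1 ≠ w) := by
            rw [ssubset_iff_of_subset (filter_subset_filter _ (erase_subset _ _))]
            exact ⟨j, mem_filter.mpr ⟨hj, hjw⟩, fun h1 => (mem_erase.mp (mem_filter.mp h1).1).1 rfl⟩
          have := card_lt_card this
          omega
        obtain ⟨C, hC, hcC, l, hl, hl1, hl2, hin, hlw⟩ := ih _ _ w y0 hcard' (h.del hj hjw hz')
          (mem_erase.mpr ⟨fun h1 => hjw (by rw [← h1]), hy0⟩)
        rw [mem_erase] at hl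
        have hin' : ∀ x ∈ C, x ∈ ends P → x ≠ z → x = l.1 ∨ x = l.2 := by
          intro x hx hxe hxz
          obtain ⟨q, hq, hxq⟩ := mem_ends.mp hxe
          by_cases hqj : q = j
          · subst hqj
            have hxz' : x = z' := (hzz x hxq).resolve_left hxz
            exact absurd hxz' (mem_erase.mp (hC hx)).1
          · exact hin x hx (mem_ends.mpr ⟨q, mem_erase.mpr ⟨hqj, hq⟩, hxq⟩)
        have hzC : z ∈ C := by
          by_contra hzC
          exact hno' C (hC.trans (erase_subset _ _)) hcC l hl.2 hl1 hl2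
            (fun x hx hxe => hin' x hx hxe (fun h1 => hzC (h1 ▸ hx))) hlw
        refine ⟨C, hC.trans (erase_subset _ _), hcC, hzC, l, hl.2, hlw, hl1, hl2, ?_, ?_, ?_⟩
        · intro h1; exact hl.1 (h.uniq hj hl.2 hjw hz (Or.inl h1)).symm
        · intro h1; exact hl.1 (h.uniq hj hl.2 hjw hz (Or.inr h1)).symm
        · intro x hx hxe
          by_cases hxz : x = z
          · exact Or.inr (Or.inr hxz)
          · rcases hin' x hx hxe hxz with h1 | h1
            · exact Or.inl h1
            · exact Or.inr (Or.inl h1)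
    -- one end of every pair
    set Q : Finset (V × V) := P.filter (fun p => p.1 = w → p.2 = y0) with hQ
    have hwQ : (w, y0) ∈ Q := mem_filter.mpr ⟨hy0, fun _ => rfl⟩
    have hfree : ∀ ch : V × V → V, (∀ l, ch l = l.1 ∨ ch l = l.2) → ch (w, y0) = w →
        Ac R ((G \ ends P) ∪ Q.image ch) := by
      intro ch hch hchw
      refine h.cov _ ?_ ?_
      · refine union_subset sdiff_subset ?_
        intro x hx
        obtain ⟨l, hl, rfl⟩ := mem_image.mp hx
        exact hEG (mem_ends.mpr ⟨l, (mem_filter.mp hl).1, hch l⟩)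
      · intro p hp hp1 hp2
        have g1 : p.1 ∈ Q.image ch := by
          rcases mem_union.mp hp1 with h1 | h1
          · exact absurd (mem_ends.mpr ⟨p, hp, Or.inl rfl⟩) (mem_sdiff.mp h1).2
          · exact h1
        have g2 : p.2 ∈ Q.image ch := by
          rcases mem_union.mp hp2 with h1 | h1
          · exact absurd (mem_ends.mpr ⟨p, hp, Or.inr rfl⟩) (mem_sdiff.mp h1).2
          · exact h1
        obtain ⟨l, hl, hle⟩ := mem_image.mp g1
        obtain ⟨l', hl', hle'⟩ := mem_image.mp g2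
        have hlP := (mem_filter.mp hl).1
        have hlP' := (mem_filter.mp hl').1
        have e' : l' = p := by
          rcases hch l' with h1 | h1
          · exact absurd (h1.symm.trans hle') (h.a l' hlP' p hp)
          · exact h.b l' hlP' p hp (h1.symm.trans hle')
        subst e'
        have hpw : l'.1 ≠ w := by
          intro h1
          have h2 : l' = (w, y0) := Prod.ext h1 ((mem_filter.mp hl').2 h1)
          have h3 : ch l' = l'.1 := by rw [h2]; exact hchw
          exact h.a l' hp l' hp (h3.symm.trans hle')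
        have e : l' = l := h.uniq hp hlP hpw (Or.inl rfl) (by
          rcases hch l with h1 | h1
          · exact Or.inl (by rw [← h1, hle])
          · exact Or.inr (by rw [← h1, hle]))
        subst e
        exact h.a l' hp l' hp (hle.symm.trans hle')
    have hZ : ∀ ch : V × V → V, (∀ l, ch l = l.1 ∨ ch l = l.2) → ch (w, y0) = w → ∀ z ∈ Q.image ch,
        (z = w ∨ ∃ j ∈ P, j.1 ≠ w ∧ (z = j.1 ∨ z = j.2)) := by
      intro ch hch hchw z hz
      obtain ⟨l, hl, rfl⟩ := mem_image.mp hz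
      rw [mem_filter] at hl
      by_cases hlw : l.1 = w
      · left
        have h2 : l = (w, y0) := Prod.ext hlw (hl.2 hlw)
        rw [h2]; exact hchw
      · exact Or.inr ⟨l, hl.1, hlw, hch l⟩
    -- names of the ends: no free path from `bl l` to `al l`
    set al : V × V → V := fun l => if F l.2 l.1 then l.2 else l.1 with hal
    set bl : V × V → V := fun l => if F l.2 l.1 then l.1 else l.2 with hbl
    have hal' : ∀ l, al l = l.1 ∨ al l = l.2 := by
      intro l; simp only [hal]; split_ifs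
      · exact Or.inr rfl
      · exact Or.inl rfl
    have hbl' : ∀ l, bl l = l.1 ∨ bl l = l.2 := by
      intro l; simp only [hbl]; split_ifs
      · exact Or.inl rfl
      · exact Or.inr rfl
    have hab : ∀ l ∈ Q, ¬ F (bl l) (al l) := by
      intro l hl
      rw [mem_filter] at hl
      simp only [hal, hbl]
      split_ifs with h1
      · exact fun h2 => noopp l hl.1 hl.2 ⟨h2, h1⟩
      · exact h1
    have habne : ∀ l ∈ Q, bl l ≠ al l := by
      intro l hl
      rw [mem_filter] at hl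
      have h12 := h.a l hl.1 l hl.1
      simp only [hal, hbl]
      split_ifs
      · exact h12
      · exact h12.symm
    have habset : ∀ l, ∀ x, (x = l.1 ∨ x = l.2) → x = al l ∨ x = bl l := by
      intro l x hx
      simp only [hal, hbl]
      split_ifs
      · exact hx.symm
      · exact hx
    by_cases hcase : F y0 w
    · -- `bl (w, y0) = w`: every element of `Z` is reached from another one
      have hw : bl (w, y0) = w := by simp only [hbl]; rw [if_pos hcase]
      refine no_in (hfree bl hbl' hw) ⟨w, mem_image.mpr ⟨_, hwQ, hw⟩⟩ fun z hz => ?_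
      obtain ⟨C, hC, hcC, hzC, l, hl, hlw, hl1, hl2, hz1, hz2, hin⟩ := datz z (hZ bl hbl' hw z hz)
      have hlQ : l ∈ Q := mem_filter.mpr ⟨hl, hlw⟩
      have hbC : bl l ∈ C := by rcases hbl' l with h1 | h1 <;> rw [h1] <;> assumption
      have haC : al l ∈ C := by rcases hal' l with h1 | h1 <;> rw [h1] <;> assumption
      have hza : al l ≠ z := by rcases hal' l with h1 | h1 <;> rw [h1] <;> [exact hz1.symm; exact hz2.symm]
      have hzb : bl l ≠ z := by rcases hbl' l with h1 | h1 <;> rw [h1] <;> [exact hz1.symm; exact hz2.symm]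
      refine ⟨bl l, mem_image_of_mem _ hlQ, hzb, ?_⟩
      rcases first_alt (hcC.rc hbC haC (habne l hlQ)) hza with h1 | h1
      · exfalso
        apply hab l hlQ
        refine h1.mono fun x hx => ?_
        rw [mem_erase] at hx
        by_cases hxe : x ∈ ends P
        · rcases hin x hx.2 hxe with h2 | h2 | h2
          · rcases habset l x (Or.inl h2) with h3 | h3 <;> simp [h3]
          · rcases habset l x (Or.inr h2) with h3 | h3 <;> simp [h3]
          · exact absurd h2 hx.1
        · exact mem_union_left _ (mem_sdiff.mpr ⟨hC hx.2, hxe⟩)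
      · refine h1.mono fun x hx => ?_
        rw [mem_erase] at hx
        by_cases hxe : x ∈ ends P
        · refine mem_union_right _ ?_
          have h4 : x = bl l ∨ x = z := by
            rcases hin x hx.2 hxe with h2 | h2 | h2
            · exact Or.inl ((habset l x (Or.inl h2)).resolve_left hx.1)
            · exact Or.inl ((habset l x (Or.inr h2)).resolve_left hx.1)
            · exact Or.inr h2
          rcases h4 with rfl | rfl
          · exact mem_image_of_mem _ hlQ
          · exact hz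
        · exact mem_union_left _ (mem_sdiff.mpr ⟨hC hx.2, hxe⟩)
    · have hw : al (w, y0) = w := by simp only [hal]; rw [if_neg hcase]
      refine no_out (hfree al hal' hw) ⟨w, mem_image.mpr ⟨_, hwQ, hw⟩⟩ fun z hz => ?_
      obtain ⟨C, hC, hcC, hzC, l, hl, hlw, hl1, hl2, hz1, hz2, hin⟩ := datz z (hZ al hal' hw z hz)
      have hlQ : l ∈ Q := mem_filter.mpr ⟨hl, hlw⟩
      have hbC : bl l ∈ C := by rcases hbl' l with h1 | h1 <;> rw [h1] <;> assumption
      have haC : al l ∈ C := by rcases hal' l with h1 | h1 <;> rw [h1] <;> assumption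
      have hza : al l ≠ z := by rcases hal' l with h1 | h1 <;> rw [h1] <;> [exact hz1.symm; exact hz2.symm]
      have hzb : bl l ≠ z := by rcases hbl' l with h1 | h1 <;> rw [h1] <;> [exact hz1.symm; exact hz2.symm]
      refine ⟨al l, mem_image_of_mem _ hlQ, hza, ?_⟩
      rcases last_alt (hcC.rc hbC haC (habne l hlQ)) hzb with h1 | h1
      · exfalso
        apply hab l hlQ
        refine h1.mono fun x hx => ?_
        rw [mem_erase] at hx
        by_cases hxe : x ∈ ends P
        · rcases hin x hx.2 hxe with h2 | h2 | h2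
          · rcases habset l x (Or.inl h2) with h3 | h3 <;> simp [h3]
          · rcases habset l x (Or.inr h2) with h3 | h3 <;> simp [h3]
          · exact absurd h2 hx.1
        · exact mem_union_left _ (mem_sdiff.mpr ⟨hC hx.2, hxe⟩)
      · refine h1.mono fun x hx => ?_
        rw [mem_erase] at hx
        by_cases hxe : x ∈ ends P
        · refine mem_union_right _ ?_
          have h4 : x = al l ∨ x = z := by
            rcases hin x hx.2 hxe with h2 | h2 | h2
            · exact Or.inl ((habset l x (Or.inl h2)).resolve_right hx.1)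
            · exact Or.inl ((habset l x (Or.inr h2)).resolve_right hx.1)
            · exact Or.inr h2
          rcases h4 with rfl | rfl
          · exact mem_image_of_mem _ hlQ
          · exact hz
        · exact mem_union_left _ (mem_sdiff.mpr ⟨hC hx.2, hxe⟩)

/-- the literals over the variables `K` which are true under `σ` -/
noncomputable def lit (U : Finset V) (k : V → V) (s : V → Bool) (σ : V → Bool) (K : Finset V) : Finset V :=
  U.filter (fun v => k v ∈ K ∧ s v = σ (k v))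

theorem mem_lit {U : Finset V} {k : V → V} {s σ : V → Bool} {K : Finset V} {v : V} :
    v ∈ lit U k s σ K ↔ v ∈ U ∧ k v ∈ K ∧ s v = σ (k v) := by
  simp [lit]

/-- two sets of literals with a clash and without common literals -/
theorem clash_star (U : Finset V) (k : V → V) (s : V → Bool) (t : V) (Pr : Finset V → Prop) (K0 : Finset V) :
    ∀ (n : ℕ) (K : Finset V), K.card ≤ n → K ⊆ K0 →
    (∀ σ, ∃ D ⊆ insert t (lit U k s σ K), (∃ x ∈ D, x ≠ t) ∧ Pr D) →
    ∃ σ τ D E, D ⊆ insert t (lit U k s σ K0) ∧ E ⊆ insert t (lit U k s τ K0) ∧ Pr D ∧ Pr E ∧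
      (∀ x ∈ D, ∀ y ∈ E, x ≠ t → y ≠ t → k x = k y → s x ≠ s y) ∧ ∃ x ∈ D, ∃ y ∈ E, x ≠ t ∧ y ≠ t ∧ k x = k y := by
  intro n
  induction n with
  | zero =>
    intro K hK _ h
    obtain ⟨D, hD, ⟨x, hx, hxt⟩, _⟩ := h (fun _ => true)
    have h1 := mem_lit.mp ((mem_insert.mp (hD hx)).resolve_left hxt)
    have := card_pos.mpr ⟨_, h1.2.1⟩
    omega
  | succ n ih =>
    intro K hK hKB h
    obtain ⟨D, hD, ⟨x, hx, hxt⟩, hPD⟩ := h (fun _ => true)
    have hDl : ∀ v ∈ D, v ≠ t → v ∈ U ∧ k v ∈ K ∧ s v = true := fun v hv hvt =>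
      mem_lit.mp ((mem_insert.mp (hD hv)).resolve_left hvt)
    -- the variables of `D`
    set L := K.filter (fun c => ∃ v ∈ D, v ≠ t ∧ k v = c) with hL
    have hb0 : k x ∈ L := mem_filter.mpr ⟨(hDl x hx hxt).2.1, x, hx, hxt, rfl⟩
    have hlt : (K \ L).card < K.card := by
      apply card_lt_card
      rw [ssubset_iff_of_subset sdiff_subset]
      exact ⟨k x, (mem_filter.mp hb0).1, fun h1 => (mem_sdiff.mp h1).2 hb0⟩
    by_cases hq : ∀ σ, ∃ D ⊆ insert t (lit U k s σ (K \ L)), (∃ x ∈ D, x ≠ t) ∧ Pr D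
    · exact ih (K \ L) (by omega) (sdiff_subset.trans hKB) hq
    push Not at hq
    obtain ⟨τ, hτ⟩ := hq
    set ρ : V → Bool := fun c => if c ∈ L then false else τ c with hρ
    obtain ⟨E, hE, hne, hPE⟩ := h ρ
    have hEl : ∀ v ∈ E, v ≠ t → v ∈ U ∧ k v ∈ K ∧ s v = ρ (k v) := fun v hv hvt =>
      mem_lit.mp ((mem_insert.mp (hE hv)).resolve_left hvt)
    have hEn : ¬ E ⊆ insert t (lit U k s τ (K \ L)) := fun h1 => by
      obtain ⟨y, hy, hyt⟩ := hne
      exact hτ E h1 ⟨y, hy, hyt⟩ hPE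
    rw [not_subset] at hEn
    obtain ⟨y, hy, hyn⟩ := hEn
    have hyt : y ≠ t := fun h1 => hyn (h1 ▸ mem_insert_self _ _)
    obtain ⟨hyU, hyK, hys⟩ := hEl y hy hyt
    have hyL : k y ∈ L := by
      by_contra hc
      apply hyn
      refine mem_insert_of_mem (mem_lit.mpr ⟨hyU, mem_sdiff.mpr ⟨hyK, hc⟩, ?_⟩)
      rw [hys]
      simp only [hρ, if_neg hc]
    obtain ⟨x', hx', hxt', hkx⟩ := (mem_filter.mp hyL).2
    have mono : ∀ σ, insert t (lit U k s σ K) ⊆ insert t (lit U k s σ K0) := by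
      intro σ
      refine insert_subset_insert _ ?_
      intro v hv
      rw [mem_lit] at hv ⊢
      exact ⟨hv.1, hKB hv.2.1, hv.2.2⟩
    refine ⟨fun _ => true, ρ, D, E, hD.trans (mono _), hE.trans (mono _), hPD, hPE, ?_,
      x', hx', y, hy, hxt', hyt, hkx⟩
    intro z hzD z' hzE hzt hzt' hkk hss
    have h1 := hDl z hzD hzt
    have h2 := hEl z' hzE hzt'
    have hzL : k z' ∈ L := mem_filter.mpr ⟨h2.2.1, z, hzD, hzt, hkk⟩
    have h3 : s z' = false := by rw [h2.2.2]; simp only [hρ, if_pos hzL]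
    rw [h1.2.2, h3] at hss
    exact absurd hss (by decide)

/-- the centre of the star of `v` -/
noncomputable def kc (P : Finset (V × V)) (v : V) : V := if h : ∃ p ∈ P, p.2 = v then h.choose.1 else v

/-- `true` for the centres -/
noncomputable def sg (P : Finset (V × V)) (v : V) : Bool := decide (∀ p ∈ P, p.2 ≠ v)

section cent
variable {G : Finset V} {P : Finset (V × V)} {w : V}

theorem Sys.kc1 (h : Sys R G P w) {p : V × V} (hp : p ∈ P) : kc P p.1 = p.1 := by
  unfold kc
  rw [dif_neg]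
  rintro ⟨q, hq, hq'⟩
  exact h.a p hp q hq hq'.symm

theorem Sys.kc2 (h : Sys R G P w) {p : V × V} (hp : p ∈ P) : kc P p.2 = p.1 := by
  unfold kc
  have hex : ∃ q ∈ P, q.2 = p.2 := ⟨p, hp, rfl⟩
  rw [dif_pos hex]
  rw [h.b _ hex.choose_spec.1 p hp hex.choose_spec.2]

theorem Sys.sg1 (h : Sys R G P w) {p : V × V} (hp : p ∈ P) : sg P p.1 = true := by
  unfold sg
  rw [decide_eq_true_iff]
  intro q hq hq'
  exact h.a p hp q hq hq'.symm

theorem Sys.sg2 {p : V × V} (hp : p ∈ P) : sg P p.2 = false := by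
  unfold sg
  rw [decide_eq_false_iff_not]
  exact fun h => h p hp rfl

end cent

theorem star_neck [Fintype V] (hirr : ∀ v, ¬ R v v) {T : Finset V} (hT : T.card ≤ 1) {P : Finset (V × V)} {w : V}
    (h : Sys R (univ \ T) P w) (hcol : ∀ S : Finset V, Ac R S → ¬ Ac R (univ \ S)) : Neck R 2 := by
  have hEG := h.ends_sub
  set k := kc P with hk
  set s := sg P with hs
  set K0 := (ends P).image k with hK0
  have hm1 : ∀ σ, ∀ p ∈ P, (p.1 ∈ lit (ends P) k s σ K0 ↔ σ p.1 = true) := by
    intro σ p hp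
    rw [mem_lit, hk, hs, h.kc1 hp, h.sg1 hp]
    have h1 : p.1 ∈ ends P := mem_ends.mpr ⟨p, hp, Or.inl rfl⟩
    have h2 : p.1 ∈ K0 := mem_image.mpr ⟨p.1, h1, h.kc1 hp⟩
    simp only [h1, h2, true_and]
    exact eq_comm
  have hm2 : ∀ σ, ∀ p ∈ P, (p.2 ∈ lit (ends P) k s σ K0 ↔ σ p.1 = false) := by
    intro σ p hp
    rw [mem_lit, hk, hs, h.kc2 hp, Sys.sg2 hp]
    have h1 : p.2 ∈ ends P := mem_ends.mpr ⟨p, hp, Or.inr rfl⟩
    have h2 : p.1 ∈ K0 := mem_image.mpr ⟨p.2, h1, h.kc2 hp⟩
    simp only [h1, h2, true_and]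
    exact eq_comm
  have hsub : ∀ σ, lit (ends P) k s σ K0 ⊆ univ \ T := fun σ v hv => hEG (mem_lit.mp hv).1
  have hch : ∀ σ, Ac R (lit (ends P) k s σ K0) := by
    intro σ
    refine h.cov _ (hsub σ) fun p hp h1 h2 => ?_
    rw [hm1 σ p hp] at h1
    rw [hm2 σ p hp, h1] at h2
    exact absurd h2 (by decide)
  have hco : ∀ σ, Ac R ((univ \ T) \ lit (ends P) k s σ K0) := by
    intro σ
    refine h.cov _ sdiff_subset fun p hp h1 h2 => ?_
    have h3 := (mem_sdiff.mp h1).2
    have h4 := (mem_sdiff.mp h2).2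
    rw [hm1 σ p hp] at h3
    rw [hm2 σ p hp] at h4
    cases hσ : σ p.1
    · exact h4 hσ
    · exact h3 hσ
  rcases T.eq_empty_or_nonempty with rfl | ⟨t, ht⟩
  · have h1 := hco (fun _ => true)
    rw [sdiff_empty] at h1
    exact absurd h1 (hcol _ (hch _))
  have hTt : T = {t} := by
    have := card_eq_one.mp (le_antisymm hT (card_pos.mpr ⟨t, ht⟩))
    obtain ⟨t', ht'⟩ := this
    rw [ht', mem_singleton] at ht
    rw [ht', ht]
  subst hTt
  have htn : ∀ σ, t ∉ lit (ends P) k s σ K0 := fun σ h1 => by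
    have := hsub σ h1
    simp at this
  have hQ : ∀ σ, ∃ D ⊆ insert t (lit (ends P) k s σ K0), (∃ x ∈ D, x ≠ t) ∧ (t ∈ D ∧ Circ R D) := by
    intro σ
    have h1 : ¬ Ac R (insert t (lit (ends P) k s σ K0)) := by
      intro h
      apply hcol _ h
      have : univ \ insert t (lit (ends P) k s σ K0) = (univ \ {t}) \ lit (ends P) k s σ K0 := by
        ext x; simp [not_or]
      rw [this]
      exact hco σ
    have h2 : Ac R ((insert t (lit (ends P) k s σ K0)).erase t) := by
      rw [erase_insert (htn σ)]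
      exact hch σ
    obtain ⟨D, hD, h3, h4, h5⟩ := circ_of_not_ac hirr h1 h2
    exact ⟨D, hD, h4, h3, h5⟩
  obtain ⟨σ, τ, D, E, hD, hE, ⟨htD, hcD⟩, ⟨htE, hcE⟩, hDE, x0, hx0, y1, hy1, hx0t, hy1t, hkxy⟩ :=
    clash_star (ends P) k s t (fun D => t ∈ D ∧ Circ R D) K0 K0.card K0 le_rfl (Subset.refl _) hQ
  have hDl : ∀ v ∈ D, v ≠ t → v ∈ ends P ∧ k v ∈ K0 ∧ s v = σ (k v) := fun v hv hvt =>
    mem_lit.mp ((mem_insert.mp (hD hv)).resolve_left hvt)
  have hEl : ∀ v ∈ E, v ≠ t → v ∈ ends P ∧ k v ∈ K0 ∧ s v = τ (k v) := fun v hv hvt =>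
    mem_lit.mp ((mem_insert.mp (hE hv)).resolve_left hvt)
  -- the variables with a clash
  set I : Finset V := K0.filter (fun c => (∃ x ∈ D, x ≠ t ∧ k x = c) ∧ ∃ y ∈ E, y ≠ t ∧ k y = c) with hI
  set ρ : V → Bool := fun c => if ∃ x ∈ D, x ≠ t ∧ k x = c then σ c else τ c with hρ
  set Y : Finset V := (ends P).filter (fun v => k v ∉ I ∧ s v = ρ (k v)) with hY
  set H' : Finset V := (univ \ {t}) \ Y with hH'
  set PI : Finset (V × V) := P.filter (fun p => p.1 ∈ I) with hPI
  have hk1 : ∀ p ∈ P, k p.1 = p.1 := fun p hp => h.kc1 hp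
  have hk2 : ∀ p ∈ P, k p.2 = p.1 := fun p hp => h.kc2 hp
  have hs1 : ∀ p ∈ P, s p.1 = true := fun p hp => h.sg1 hp
  have hs2 : ∀ p ∈ P, s p.2 = false := fun p hp => Sys.sg2 hp
  have he1 : ∀ p ∈ P, p.1 ∈ ends P := fun p hp => mem_ends.mpr ⟨p, hp, Or.inl rfl⟩
  have he2 : ∀ p ∈ P, p.2 ∈ ends P := fun p hp => mem_ends.mpr ⟨p, hp, Or.inr rfl⟩
  have hYI : ∀ v ∈ Y, k v ∉ I := fun v hv => (mem_filter.mp hv).2.1
  have hDY : ∀ x ∈ D, x ≠ t → x ∉ Y → k x ∈ I := by
    intro x hx hxt hxY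
    by_contra hc
    obtain ⟨h1, h2, h3⟩ := hDl x hx hxt
    refine hxY (mem_filter.mpr ⟨h1, hc, ?_⟩)
    rw [h3]
    simp only [hρ]
    rw [if_pos ⟨x, hx, hxt, rfl⟩]
  have hEY : ∀ x ∈ E, x ≠ t → x ∉ Y → k x ∈ I := by
    intro x hx hxt hxY
    by_contra hc
    obtain ⟨h1, h2, h3⟩ := hEl x hx hxt
    refine hxY (mem_filter.mpr ⟨h1, hc, ?_⟩)
    rw [h3]
    simp only [hρ]
    rw [if_neg]
    intro h4
    exact hc (mem_filter.mpr ⟨h2, h4, x, hx, hxt, rfl⟩)
  have hPIk : ∀ x ∈ ends PI, k x ∈ I := by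
    intro x hx
    obtain ⟨q, hq, rfl | rfl⟩ := mem_ends.mp hx
    · rw [hk1 q (mem_filter.mp hq).1]; exact (mem_filter.mp hq).2
    · rw [hk2 q (mem_filter.mp hq).1]; exact (mem_filter.mp hq).2
  have hPIe : ∀ x ∈ ends P, k x ∈ I → x ∈ ends PI := by
    intro x hx hxI
    obtain ⟨q, hq, hxq⟩ := mem_ends.mp hx
    have h1 : k x = q.1 := by
      rcases hxq with rfl | rfl
      · exact hk1 q hq
      · exact hk2 q hq
    exact mem_ends.mpr ⟨q, mem_filter.mpr ⟨hq, h1 ▸ hxI⟩, hxq⟩
  have hsys : ∀ c0, (w ∈ I → c0 = w) → Sys R H' PI c0 := by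
    intro c0 hc0
    refine ⟨fun p hp q hq => h.a p (mem_filter.mp hp).1 q (mem_filter.mp hq).1,
      fun p hp q hq => h.b p (mem_filter.mp hp).1 q (mem_filter.mp hq).1, ?_, ?_, ?_⟩
    · intro p hp q hq hpq
      rcases h.c p (mem_filter.mp hp).1 q (mem_filter.mp hq).1 hpq with h1 | h1
      · exact Or.inl h1
      · right
        rw [h1]
        exact (hc0 (h1 ▸ (mem_filter.mp hp).2)).symm
    · intro S hS hn
      refine h.cov S (hS.trans sdiff_subset) fun p hp hp1 hp2 => ?_
      by_cases hpI : p.1 ∈ I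
      · exact hn p (mem_filter.mpr ⟨hp, hpI⟩) hp1 hp2
      · cases hρp : ρ p.1
        · refine (mem_sdiff.mp (hS hp2)).2 (mem_filter.mpr ⟨he2 p hp, ?_, ?_⟩)
          · rw [hk2 p hp]; exact hpI
          · rw [hk2 p hp, hs2 p hp, hρp]
        · refine (mem_sdiff.mp (hS hp1)).2 (mem_filter.mpr ⟨he1 p hp, ?_, ?_⟩)
          · rw [hk1 p hp]; exact hpI
          · rw [hk1 p hp, hs1 p hp, hρp]
    · intro X hX z hz
      have hXY : ∀ x ∈ X, x ∉ Y := fun x hx hxY => hYI x hxY (hPIk x (hX.2 hx))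
      have hTv : Tv P (X ∪ Y) := by
        refine ⟨fun p hp => ?_, ?_⟩
        · by_cases hpI : p.1 ∈ I
          · have h1 : p.1 ∉ Y := fun h1 => hYI _ h1 (by rw [hk1 p hp]; exact hpI)
            have h2 : p.2 ∉ Y := fun h2 => hYI _ h2 (by rw [hk2 p hp]; exact hpI)
            simp only [mem_union, h1, h2, or_false]
            exact hX.1 p (mem_filter.mpr ⟨hp, hpI⟩)
          · have h1 : p.1 ∉ X := fun h1 => by
              have := hPIk _ (hX.2 h1)
              rw [hk1 p hp] at this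
              exact hpI this
            have h2 : p.2 ∉ X := fun h2 => by
              have := hPIk _ (hX.2 h2)
              rw [hk2 p hp] at this
              exact hpI this
            simp only [mem_union, h1, h2, false_or]
            have h3 : p.1 ∈ Y ↔ ρ p.1 = true := by
              simp only [hY, mem_filter, he1 p hp, hk1 p hp, hs1 p hp, hpI, true_and, not_false_iff]
              exact eq_comm
            have h4 : p.2 ∈ Y ↔ ρ p.1 = false := by
              simp only [hY, mem_filter, he2 p hp, hk2 p hp, hs2 p hp, hpI, true_and, not_false_iff]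
              exact eq_comm
            rw [h3, h4]
            cases ρ p.1
            · right; simp
            · left; simp
        · intro y hy
          rcases mem_union.mp hy with hy | hy
          · obtain ⟨p, hp, hp'⟩ := mem_ends.mp (hX.2 hy)
            exact mem_ends.mpr ⟨p, (mem_filter.mp hp).1, hp'⟩
          · exact (mem_filter.mp hy).1
      have h3 := h.im _ hTv z (mem_union_left _ hz)
      have e : (univ \ {t}) \ (X ∪ Y).erase z = H' \ X.erase z := by
        rw [hH']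
        ext y
        simp only [mem_sdiff, mem_erase, mem_union, not_and, not_or]
        constructor
        · rintro ⟨h4, h5⟩
          by_cases hyz : y = z
          · subst hyz
            exact ⟨⟨h4, hXY _ hz⟩, fun h6 => absurd rfl h6⟩
          · exact ⟨⟨h4, (h5 hyz).2⟩, fun _ => (h5 hyz).1⟩
        · rintro ⟨⟨h4, h5⟩, h6⟩
          exact ⟨h4, fun h7 => ⟨h6 h7, h5⟩⟩
      rwa [e] at h3
  -- the leaf of a clash
  have hcl : ∀ c ∈ I, ∃ y0, (c, y0) ∈ P ∧ ((c ∈ D ∧ y0 ∈ E) ∨ (y0 ∈ D ∧ c ∈ E)) := by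
    intro c hc
    obtain ⟨_, ⟨x, hx, hxt, hkx⟩, y, hy, hyt, hky⟩ := mem_filter.mp hc
    have hne := hDE x hx y hy hxt hyt (hkx.trans hky.symm)
    obtain ⟨p, hp, rfl | rfl⟩ := mem_ends.mp (hDl x hx hxt).1 <;>
      obtain ⟨q, hq, rfl | rfl⟩ := mem_ends.mp (hEl y hy hyt).1
    · exact absurd ((hs1 p hp).trans (hs1 q hq).symm) hne
    · rw [hk1 p hp] at hkx
      rw [hk2 q hq] at hky
      refine ⟨q.2, ?_, Or.inl ⟨hkx ▸ hx, hy⟩⟩
      rw [← hky]; exact hq
    · rw [hk2 p hp] at hkx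
      rw [hk1 q hq] at hky
      refine ⟨p.2, ?_, Or.inr ⟨hx, hky ▸ hy⟩⟩
      rw [← hkx]; exact hp
    · exact absurd ((hs2 p hp).trans (hs2 q hq).symm) hne
  choose! f hf using hcl
  have hx0I : k x0 ∈ I := mem_filter.mpr ⟨(hDl x0 hx0 hx0t).2.1, ⟨x0, hx0, hx0t, rfl⟩, y1, hy1, hy1t, hkxy.symm⟩
  obtain ⟨c0, hc0I, hc0w⟩ : ∃ c0 ∈ I, w ∈ I → c0 = w := by
    by_cases hw : w ∈ I
    · exact ⟨w, hw, fun _ => rfl⟩
    · exact ⟨k x0, hx0I, fun h1 => absurd h1 hw⟩
  obtain ⟨C, hC, hcC, l, hl, hl1, hl2, hin, hlc⟩ :=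
    exact_pair hirr _ H' PI c0 (f c0) le_rfl (hsys c0 hc0w) (mem_filter.mpr ⟨(hf c0 hc0I).1, hc0I⟩)
  have hlP : l ∈ P := (mem_filter.mp hl).1
  have hlI : l.1 ∈ I := (mem_filter.mp hl).2
  have hlf : l.2 = f l.1 := by
    by_cases hlc0 : l.1 = c0
    · rw [hlc hlc0, hlc0]
    · have h1 : l.1 ≠ w := by
        intro h1
        exact hlc0 (h1.trans (hc0w (h1 ▸ hlI)).symm)
      have h2 := (h.c l hlP _ (hf l.1 hlI).1 rfl).resolve_right h1
      exact congrArg Prod.snd h2
  have hlne : l.1 ≠ l.2 := h.a l hlP l hlP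
  have hCt : ∀ x ∈ C, x ≠ t := by
    intro x hx hxt
    have := (mem_sdiff.mp (hC hx)).1
    rw [hxt] at this
    simp at this
  have hmeet : ∀ x ∈ C, x ∈ D ∪ E → x = l.1 ∨ x = l.2 := by
    intro x hx hxDE
    have hxt := hCt x hx
    have hxY : x ∉ Y := (mem_sdiff.mp (hC hx)).2
    rcases mem_union.mp hxDE with h1 | h1
    · exact hin x hx (hPIe x (hDl x h1 hxt).1 (hDY x h1 hxt hxY))
    · exact hin x hx (hPIe x (hEl x h1 hxt).1 (hEY x h1 hxt hxY))
  have hDE' : ∀ x ∈ D, x ∈ E → x = t := by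
    intro x hx hx'
    by_contra hxt
    exact hDE x hx x hx' hxt hxt rfl rfl
  have hfin : ∀ D' E' : Finset V, D' ⊆ D ∪ E → E' ⊆ D ∪ E → (∀ x ∈ D', x ∈ E' → x = t) → Circ R D' → Circ R E' →
      t ∈ D' → t ∈ E' → l.1 ∈ D' → l.2 ∈ E' → Neck R 2 := by
    intro D' E' hD' hE' hDE' hcD' hcE' htD' htE' ha1 ha2
    refine ⟨l.1, l.2, D' ∪ (E' ∪ {l.2}), C, ?_, hcC l.2 hl2 l.1 hl1 hlne.symm, ?_⟩
    · refine Ch.cons (hcD' l.1 ha1 t htD' (hCt _ hl1)) (Ch.cons (hcE' t htE' l.2 ha2 (hCt _ hl2).symm) (Ch.nil l.2) ?_) ?_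
      · intro x _ hx; simpa using hx
      · intro x hx hx'
        rcases mem_union.mp hx' with h | h
        · exact hDE' x hx h
        · rw [mem_singleton] at h; subst h; exact hDE' _ hx ha2
    · intro x hx hx'
      refine hmeet x hx' ?_
      rcases mem_union.mp hx with h | h
      · exact hD' h
      rcases mem_union.mp h with h | h
      · exact hE' h
      · rw [mem_singleton] at h; subst h; exact hE' ha2
  have hcl' := (hf l.1 hlI).2
  rw [← hlf] at hcl'
  rcases hcl' with ⟨h1, h2⟩ | ⟨h1, h2⟩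
  · exact hfin D E subset_union_left subset_union_right hDE' hcD hcE htD htE h1 h2
  · exact hfin E D subset_union_right subset_union_left (fun x hx hx' => hDE' x hx' hx) hcE hcD htE htD h2 h1

end star

end Pool.Agent.Lib.TriFive
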