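import Pool.Agent.Lib.TriFive.Star

/-!
# Pair covers which are star forests

`StF R G P`: `P` is a set of pairs (centre, leaf) forming a star forest; a subset of `G` containing no pair of `P` is acyclic;
and for a set `X` consisting of one end of every pair and a leaf `y` in `X` some circuit in `G` meets `X` in `y` only.
`stars_neck`: a digraph which cannot be coloured with two colours and has such a cover after the removal of one vertex contains
a `Neck R 2`.
-/

set_option autoImplicit false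

namespace Pool.Agent.Lib.TriFive

open Finset
open scoped Classical

section stars
variable {V : Type*} {R : V → V → Prop}

/-- star forests covering all circuits, with private circuits for the leaves -/
structure StF (R : V → V → Prop) (G : Finset V) (P : Finset (V × V)) : Prop where
  a : ∀ p ∈ P, ∀ q ∈ P, p.1 ≠ q.2
  b : ∀ p ∈ P, ∀ q ∈ P, p.2 = q.2 → p = q
  cov : ∀ S ⊆ G, (∀ p ∈ P, p.1 ∈ S → p.2 ∉ S) → Ac R S
  im : ∀ X, Tv P X → ∀ p ∈ P, p.2 ∈ X → ¬ Ac R (G \ X.erase p.2)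

section cent
variable {G : Finset V} {P : Finset (V × V)}

theorem StF.kc1 (h : StF R G P) {p : V × V} (hp : p ∈ P) : kc P p.1 = p.1 := by
  unfold kc
  rw [dif_neg]
  rintro ⟨q, hq, hq'⟩
  exact h.a p hp q hq hq'.symm

theorem StF.kc2 (h : StF R G P) {p : V × V} (hp : p ∈ P) : kc P p.2 = p.1 := by
  unfold kc
  have hex : ∃ q ∈ P, q.2 = p.2 := ⟨p, hp, rfl⟩
  rw [dif_pos hex]
  rw [h.b _ hex.choose_spec.1 p hp hex.choose_spec.2]

theorem StF.sg1 (h : StF R G P) {p : V × V} (hp : p ∈ P) : sg P p.1 = true := by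
  unfold sg
  rw [decide_eq_true_iff]
  intro q hq hq'
  exact h.a p hp q hq hq'.symm

/-- the private circuit -/
theorem StF.priv (h : StF R G P) (hirr : ∀ v, ¬ R v v) {X : Finset V} (hX : Tv P X) {p : V × V} (hp : p ∈ P) (hpX : p.2 ∈ X) :
    ∃ C ⊆ G, Circ R C ∧ p.1 ∈ C ∧ p.2 ∈ C ∧ ∀ x ∈ C, x ∈ X → x = p.2 := by
  obtain ⟨C, hC, hcC, x, hx, y, hy, hxy⟩ := exists_circ_of_not_ac hirr (h.im X hX p hp hpX)
  have hCX : ∀ x ∈ C, x ∈ X → x = p.2 := by
    intro x hx hxX
    by_contra hne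
    exact (mem_sdiff.mp (hC hx)).2 (mem_erase.mpr ⟨hne, hxX⟩)
  have hpair : ∃ q ∈ P, q.1 ∈ C ∧ q.2 ∈ C := by
    by_contra hc
    push Not at hc
    exact hcC.not_ac (Subset.refl _) hx hy hxy (h.cov C (hC.trans sdiff_subset) hc)
  obtain ⟨q, hq, hq1, hq2⟩ := hpair
  have e : q = p := by
    rcases hX.1 q hq with ⟨h1, _⟩ | ⟨_, h1⟩
    · exact absurd (hCX _ hq1 h1) (h.a q hq p hp)
    · exact h.b q hq p hp (hCX _ hq2 h1)
  subst e
  exact ⟨C, hC.trans sdiff_subset, hcC, hq1, hq2, hCX⟩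

theorem StF.ends_sub (h : StF R G P) (hirr : ∀ v, ¬ R v v) : ends P ⊆ G := by
  have hT : Tv P (P.image Prod.snd) := by
    refine ⟨fun q hq => Or.inr ⟨?_, mem_image_of_mem _ hq⟩, subset_union_right⟩
    intro h1
    obtain ⟨q', hq', he⟩ := mem_image.mp h1
    exact h.a q hq q' hq' he.symm
  intro x hx
  obtain ⟨p, hp, hxp⟩ := mem_ends.mp hx
  obtain ⟨C, hC, _, h1, h2, _⟩ := h.priv hirr hT hp (mem_image_of_mem _ hp)
  rcases hxp with rfl | rfl
  · exact hC h1
  · exact hC h2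

end cent

/-- two paths in opposite directions between `c` and `y`, if the rest of the set together with `y` is acyclic -/
theorem link_of_two {W : Finset V} {c y : V} (hcy : c ≠ y) (h1 : Rc R W c y) (h2 : Rc R W y c) (hA : Ac R (W.erase c)) :
    Link R W y c := by
  have min : ∀ u v, Rc R W u v → ∃ S ⊆ W, Rc R S u v ∧ ∀ z ∈ S, ¬ Rc R (S.erase z) u v := by
    intro u v h
    obtain ⟨S, hS, hmin⟩ := exists_min_image (W.powerset.filter (fun S => Rc R S u v)) card
      ⟨W, mem_filter.mpr ⟨mem_powerset.mpr (Subset.refl _), h⟩⟩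
    rw [mem_filter, mem_powerset] at hS
    refine ⟨S, hS.1, hS.2, fun z hz hr => ?_⟩
    have h3 := hmin (S.erase z) (mem_filter.mpr ⟨mem_powerset.mpr ((erase_subset _ _).trans hS.1), hr⟩)
    rw [card_erase_of_mem hz] at h3
    have := card_pos.mpr ⟨z, hz⟩
    omega
  obtain ⟨S, hSW, hS, hSm⟩ := min c y h1
  obtain ⟨T, hTW, hT, hTm⟩ := min y c h2
  refine ⟨hcy.symm, T, S, hT, hS, ?_, hTW, hSW⟩
  intro z hzT hzS
  by_contra hne
  push Not at hne
  have h3 : Rc R (S.erase c) z y := (last_alt hS hne.2.symm).resolve_left (hSm z hzS)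
  have h4 : Rc R (T.erase c) y z := (first_alt hT hne.2.symm).resolve_left (hTm z hzT)
  exact hne.1 (hA.eq h3 h4 (erase_subset_erase _ hSW) (erase_subset_erase _ hTW))

theorem stars_neck_on (hirr : ∀ v, ¬ R v v) {U : Finset V} {t : V} (htU : t ∈ U) {P : Finset (V × V)}
    (h : StF R (U \ {t}) P) (hcol : ∀ S ⊆ U, Ac R S → ¬ Ac R (U \ S)) : Neck R 2 := by
  have hEG := h.ends_sub hirr
  set k := kc P with hk
  set s := sg P with hs
  set K0 := (ends P).image k with hK0
  have hk1 : ∀ p ∈ P, k p.1 = p.1 := fun p hp => h.kc1 hp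
  have hk2 : ∀ p ∈ P, k p.2 = p.1 := fun p hp => h.kc2 hp
  have hs1 : ∀ p ∈ P, s p.1 = true := fun p hp => h.sg1 hp
  have hs2 : ∀ p ∈ P, s p.2 = false := fun p hp => Sys.sg2 hp
  have he1 : ∀ p ∈ P, p.1 ∈ ends P := fun p hp => mem_ends.mpr ⟨p, hp, Or.inl rfl⟩
  have he2 : ∀ p ∈ P, p.2 ∈ ends P := fun p hp => mem_ends.mpr ⟨p, hp, Or.inr rfl⟩
  have hkK : ∀ v ∈ ends P, k v ∈ K0 := fun v hv => mem_image_of_mem _ hv
  have hm1 : ∀ σ, ∀ p ∈ P, (p.1 ∈ lit (ends P) k s σ K0 ↔ σ p.1 = true) := by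
    intro σ p hp
    have h2 : p.1 ∈ K0 := by rw [← hk1 p hp]; exact hkK _ (he1 p hp)
    rw [mem_lit, hk1 p hp, hs1 p hp]
    simp only [he1 p hp, h2, true_and]
    exact eq_comm
  have hm2 : ∀ σ, ∀ p ∈ P, (p.2 ∈ lit (ends P) k s σ K0 ↔ σ p.1 = false) := by
    intro σ p hp
    have h2 : p.1 ∈ K0 := by rw [← hk1 p hp]; exact hkK _ (he1 p hp)
    rw [mem_lit, hk2 p hp, hs2 p hp]
    simp only [he2 p hp, h2, true_and]
    exact eq_comm
  have hTv : ∀ σ, Tv P (lit (ends P) k s σ K0) := by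
    intro σ
    refine ⟨fun p hp => ?_, fun v hv => (mem_lit.mp hv).1⟩
    rw [hm1 σ p hp, hm2 σ p hp]
    cases σ p.1
    · right; simp
    · left; simp
  have hsub : ∀ σ, lit (ends P) k s σ K0 ⊆ U \ {t} := fun σ v hv => hEG (mem_lit.mp hv).1
  have hch : ∀ σ, Ac R (lit (ends P) k s σ K0) := by
    intro σ
    refine h.cov _ (hsub σ) fun p hp h1 h2 => ?_
    rw [hm1 σ p hp] at h1
    rw [hm2 σ p hp, h1] at h2
    exact absurd h2 (by decide)
  have hco : ∀ σ, Ac R ((U \ {t}) \ lit (ends P) k s σ K0) := by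
    intro σ
    refine h.cov _ sdiff_subset fun p hp h1 h2 => ?_
    have h3 := (mem_sdiff.mp h1).2
    have h4 := (mem_sdiff.mp h2).2
    rw [hm1 σ p hp] at h3
    rw [hm2 σ p hp] at h4
    cases hσ : σ p.1
    · exact h4 hσ
    · exact h3 hσ
  have htn : ∀ σ, t ∉ lit (ends P) k s σ K0 := fun σ h1 => by
    have := hsub σ h1
    simp at this
  have hQ : ∀ σ, ∃ D ⊆ insert t (lit (ends P) k s σ K0), (∃ x ∈ D, x ≠ t) ∧ (t ∈ D ∧ Circ R D) := by
    intro σ
    have h1 : ¬ Ac R (insert t (lit (ends P) k s σ K0)) := by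
      intro h
      apply hcol _ (insert_subset htU ((hsub σ).trans sdiff_subset)) h
      have : U \ insert t (lit (ends P) k s σ K0) = (U \ {t}) \ lit (ends P) k s σ K0 := by
        ext x; simp only [mem_sdiff, mem_insert, mem_singleton, not_or, and_assoc]
      rw [this]
      exact hco σ
    have h2 : Ac R ((insert t (lit (ends P) k s σ K0)).erase t) := by
      rw [erase_insert (htn σ)]
      exact hch σ
    obtain ⟨D, hD, h3, h4, h5⟩ := circ_of_not_ac hirr h1 h2
    exact ⟨D, hD, h4, h3, h5⟩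
  obtain ⟨σ, τ, D, E, hD, hE, ⟨htD, hcD⟩, ⟨htE, hcE⟩, hDE, x0, hx0, y1, hy1, hx0t, hy1t, hkxy⟩ :=
    clash_star (ends P) k s t (fun D => t ∈ D ∧ Circ R D) K0 K0.card K0 le_rfl (Subset.refl _) hQ
  have hDl : ∀ v ∈ D, v ≠ t → v ∈ ends P ∧ k v ∈ K0 ∧ s v = σ (k v) := fun v hv hvt =>
    mem_lit.mp ((mem_insert.mp (hD hv)).resolve_left hvt)
  have hEl : ∀ v ∈ E, v ≠ t → v ∈ ends P ∧ k v ∈ K0 ∧ s v = τ (k v) := fun v hv hvt =>
    mem_lit.mp ((mem_insert.mp (hE hv)).resolve_left hvt)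
  have hDE' : ∀ x ∈ D, x ∈ E → x = t := by
    intro x hx hx'
    by_contra hxt
    exact hDE x hx x hx' hxt hxt rfl rfl
  -- the variables with a clash
  set I : Finset V := K0.filter (fun c => (∃ x ∈ D, x ≠ t ∧ k x = c) ∧ ∃ y ∈ E, y ≠ t ∧ k y = c) with hI
  set ρ : V → Bool := fun c => if ∃ x ∈ D, x ≠ t ∧ k x = c then σ c else τ c with hρ
  set Y : Finset V := (ends P).filter (fun v => k v ∉ I ∧ s v = ρ (k v)) with hY
  set H' : Finset V := (U \ {t}) \ Y with hH'
  have hDY : ∀ x ∈ D, x ≠ t → x ∉ Y → k x ∈ I := by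
    intro x hx hxt hxY
    by_contra hc
    obtain ⟨h1, h2, h3⟩ := hDl x hx hxt
    refine hxY (mem_filter.mpr ⟨h1, hc, ?_⟩)
    rw [h3]
    simp only [hρ]
    rw [if_pos ⟨x, hx, hxt, rfl⟩]
  have hEY : ∀ x ∈ E, x ≠ t → x ∉ Y → k x ∈ I := by
    intro x hx hxt hxY
    by_contra hc
    obtain ⟨h1, h2, h3⟩ := hEl x hx hxt
    refine hxY (mem_filter.mpr ⟨h1, hc, ?_⟩)
    rw [h3]
    simp only [hρ]
    rw [if_neg]
    intro h4
    exact hc (mem_filter.mpr ⟨h2, h4, x, hx, hxt, rfl⟩)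
  -- the pairs of a clash
  have hcl : ∀ c ∈ I, (c ∈ D ∧ (∃ y, (c, y) ∈ P ∧ y ∈ E) ∧ ∀ y, (c, y) ∈ P → y ∉ D) ∨
      (c ∈ E ∧ (∃ y, (c, y) ∈ P ∧ y ∈ D) ∧ ∀ y, (c, y) ∈ P → y ∉ E) := by
    intro c hc
    obtain ⟨_, ⟨x, hx, hxt, hkx⟩, y, hy, hyt, hky⟩ := mem_filter.mp hc
    have hne := hDE x hx y hy hxt hyt (hkx.trans hky.symm)
    have hty : ∀ y, (c, y) ∈ P → y ≠ t := by
      intro y hy hyt
      have := hEG (he2 _ hy)
      simp [hyt] at this
    obtain ⟨p, hp, rfl | rfl⟩ := mem_ends.mp (hDl x hx hxt).1 <;>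
      obtain ⟨q, hq, rfl | rfl⟩ := mem_ends.mp (hEl y hy hyt).1
    · exact absurd ((hs1 p hp).trans (hs1 q hq).symm) hne
    · rw [hk1 p hp] at hkx
      rw [hk2 q hq] at hky
      refine Or.inl ⟨hkx ▸ hx, ⟨q.2, ?_, hy⟩, ?_⟩
      · rw [← hky]; exact hq
      · intro y hyP hyD
        have h1 := (hDl y hyD (hty y hyP)).2.2
        have h2 := (hDl _ hx hxt).2.2
        rw [hk1 p hp, hs1 p hp, hkx] at h2
        rw [hk2 _ hyP, hs2 _ hyP] at h1
        simp only at h1
        rw [← h2] at h1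
        exact absurd h1 (by decide)
    · rw [hk2 p hp] at hkx
      rw [hk1 q hq] at hky
      refine Or.inr ⟨hky ▸ hy, ⟨p.2, ?_, hx⟩, ?_⟩
      · rw [← hkx]; exact hp
      · intro y' hyP hyE
        have h1 := (hEl y' hyE (hty y' hyP)).2.2
        have h2 := (hEl _ hy hyt).2.2
        rw [hk1 q hq, hs1 q hq, hky] at h2
        rw [hk2 _ hyP, hs2 _ hyP] at h1
        simp only at h1
        rw [← h2] at h1
        exact absurd h1 (by decide)
    · exact absurd ((hs2 p hp).trans (hs2 q hq).symm) hne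
  by_contra hno
  -- a leaf and its centre are not joined in both directions
  have hnb : ∀ c ∈ I, ∀ y, (c, y) ∈ P → y ∈ D ∪ E →
      Rc R ((H' \ (D ∪ E)) ∪ {c, y}) c y → ¬ Rc R ((H' \ (D ∪ E)) ∪ {c, y}) y c := by
    intro c hc y hyP hyDE h1 h2
    have hcy : c ≠ y := h.a _ hyP _ hyP
    have hcH : c ≠ t := fun h3 => by
      have := hEG (he1 _ hyP)
      simp [h3] at this
    have hyH : y ≠ t := fun h3 => by
      have := hEG (he2 _ hyP)
      simp [h3] at this
    have hlink : Link R ((H' \ (D ∪ E)) ∪ {c, y}) y c := by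
      refine link_of_two hcy h1 h2 ?_
      refine h.cov _ ?_ ?_
      · intro x hx
        rw [mem_erase, mem_union, mem_sdiff, mem_insert, mem_singleton] at hx
        rcases hx.2 with h3 | h3 | h3
        · exact (mem_sdiff.mp h3.1).1
        · exact absurd h3 hx.1
        · rw [h3]; exact hEG (he2 _ hyP)
      · intro p hp hp1 hp2
        rw [mem_erase, mem_union, mem_sdiff, mem_insert, mem_singleton] at hp1 hp2
        have h3 : p.1 ≠ y := h.a _ hp _ hyP
        have h4 : p.1 ∈ H' ∧ p.1 ∉ D ∪ E := by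
          rcases hp1.2 with h5 | h5 | h5
          · exact h5
          · exact absurd h5 hp1.1
          · exact absurd h5 h3
        by_cases hpI : p.1 ∈ I
        · rcases hcl p.1 hpI with h5 | h5
          · exact h4.2 (mem_union_left _ h5.1)
          · exact h4.2 (mem_union_right _ h5.1)
        · have h5 : p.2 ∈ H' := by
            rcases hp2.2 with h5 | h5 | h5
            · exact h5.1
            · exact absurd h5 hp2.1
            · have h6 : p = (c, y) := h.b _ hp _ hyP h5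
              rw [h6] at hpI
              exact absurd hc hpI
          cases hρp : ρ p.1
          · refine (mem_sdiff.mp h5).2 (mem_filter.mpr ⟨he2 p hp, ?_, ?_⟩)
            · rw [hk2 p hp]; exact hpI
            · rw [hk2 p hp, hs2 p hp, hρp]
          · refine (mem_sdiff.mp h4.1).2 (mem_filter.mpr ⟨he1 p hp, ?_, ?_⟩)
            · rw [hk1 p hp]; exact hpI
            · rw [hk1 p hp, hs1 p hp, hρp]
    have hfin : ∀ D' E' : Finset V, D' ⊆ D ∪ E → E' ⊆ D ∪ E → (∀ x ∈ D', x ∈ E' → x = t) → Circ R D' → Circ R E' →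
        t ∈ D' → t ∈ E' → c ∈ D' → y ∈ E' → Neck R 2 := by
      intro D' E' hD' hE' hDE' hcD' hcE' htD' htE' ha1 ha2
      refine ⟨c, y, D' ∪ (E' ∪ {y}), _, ?_, hlink, ?_⟩
      · refine Ch.cons (hcD' c ha1 t htD' hcH) (Ch.cons (hcE' t htE' y ha2 hyH.symm) (Ch.nil y) ?_) ?_
        · intro x _ hx; simpa using hx
        · intro x hx hx'
          rcases mem_union.mp hx' with h | h
          · exact hDE' x hx h
          · rw [mem_singleton] at h; subst h; exact hDE' _ hx ha2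
      · intro x hx hx'
        have h3 : x ∈ D ∪ E := by
          rcases mem_union.mp hx with h | h
          · exact hD' h
          rcases mem_union.mp h with h | h
          · exact hE' h
          · rw [mem_singleton] at h; subst h; exact hE' ha2
        rw [mem_union, mem_sdiff, mem_insert, mem_singleton] at hx'
        rcases hx' with h4 | h4 | h4
        · exact absurd h3 h4.2
        · exact Or.inl h4
        · exact Or.inr h4
    rcases hcl c hc with ⟨h3, _, h4⟩ | ⟨h3, _, h4⟩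
    · have h5 : y ∈ E := (mem_union.mp hyDE).resolve_left (h4 y hyP)
      exact hno (hfin D E subset_union_left subset_union_right hDE' hcD hcE htD htE h3 h5)
    · have h5 : y ∈ D := (mem_union.mp hyDE).resolve_right (h4 y hyP)
      exact hno (hfin E D subset_union_right subset_union_left (fun x hx hx' => hDE' x hx' hx) hcE hcD htE htD h3 h5)
  -- the selection
  set tA : V → Prop := fun c => ∃ y, (c, y) ∈ P ∧ y ∈ D ∪ E ∧ ¬ Rc R ((H' \ (D ∪ E)) ∪ {c, y}) c y with htA
  set σ0 : V → Bool := fun c => if c ∈ I then decide (tA c) else !(ρ c) with hσ0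
  set S0 : Finset V := (U \ {t}) \ lit (ends P) k s (fun c => !(σ0 c)) K0 with hS0
  have hYl : ∀ σ1 : V → Bool, (∀ c, c ∉ I → σ1 c = ρ c) → ∀ v, v ∉ lit (ends P) k s σ1 K0 → v ∉ Y := by
    intro σ1 hσ1 v hv hvY
    obtain ⟨h1, h2, h3⟩ := mem_filter.mp hvY
    exact hv (mem_lit.mpr ⟨h1, hkK v h1, by rw [hσ1 _ h2]; exact h3⟩)
  have hneg : ∀ c, c ∉ I → (fun c => !(σ0 c)) c = ρ c := by
    intro c hc
    simp only [hσ0, if_neg hc, Bool.not_not]
  refine no_out (S := S0) (Z := S0.filter (fun x => x ∈ D ∪ E)) (hco _) ?_ ?_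
  · -- nonempty
    have hcI : k x0 ∈ I := mem_filter.mpr ⟨(hDl x0 hx0 hx0t).2.1, ⟨x0, hx0, hx0t, rfl⟩, y1, hy1, hy1t, hkxy.symm⟩
    obtain ⟨c, hc⟩ : ∃ c, c ∈ I := ⟨_, hcI⟩
    have hcc : c ∈ D ∪ E ∧ ∃ y, (c, y) ∈ P ∧ y ∈ D ∪ E := by
      rcases hcl c hc with ⟨h1, ⟨y, h2, h3⟩, _⟩ | ⟨h1, ⟨y, h2, h3⟩, _⟩
      · exact ⟨mem_union_left _ h1, y, h2, mem_union_right _ h3⟩
      · exact ⟨mem_union_right _ h1, y, h2, mem_union_left _ h3⟩
    obtain ⟨hc1, y, hyP, hy⟩ := hcc
    by_cases hA : tA c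
    · refine ⟨c, mem_filter.mpr ⟨mem_sdiff.mpr ⟨hEG (he1 _ hyP), ?_⟩, hc1⟩⟩
      intro h1
      have h2 := (hm1 _ _ hyP).mp h1
      simp only [hσ0, if_pos hc, hA, decide_true] at h2
      exact absurd h2 (by decide)
    · refine ⟨y, mem_filter.mpr ⟨mem_sdiff.mpr ⟨hEG (he2 _ hyP), ?_⟩, hy⟩⟩
      intro h1
      have h2 := (hm2 _ _ hyP).mp h1
      simp only [hσ0, if_pos hc, hA, decide_false] at h2
      exact absurd h2 (by decide)
  · intro z hz
    obtain ⟨hzS, hzDE⟩ := mem_filter.mp hz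
    have hzt : z ≠ t := by
      have := (mem_sdiff.mp (mem_sdiff.mp hzS).1).2
      simpa using this
    have hzn : z ∉ lit (ends P) k s (fun c => !(σ0 c)) K0 := (mem_sdiff.mp hzS).2
    have hzY : z ∉ Y := hYl _ hneg z hzn
    have hze : z ∈ ends P := by
      rcases mem_union.mp hzDE with h1 | h1
      · exact (hDl z h1 hzt).1
      · exact (hEl z h1 hzt).1
    have hzI : k z ∈ I := by
      rcases mem_union.mp hzDE with h1 | h1
      · exact hDY z h1 hzt hzY
      · exact hEY z h1 hzt hzY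
    obtain ⟨p, hp, rfl | rfl⟩ := mem_ends.mp hze
    · -- a centre
      rw [hk1 p hp] at hzI
      have hσp : σ0 p.1 = true := by
        by_contra hc
        exact hzn ((hm1 _ p hp).mpr (by rw [Bool.eq_false_of_not_eq_true hc]; rfl))
      have hA : tA p.1 := by
        simp only [hσ0, if_pos hzI, decide_eq_true_iff] at hσp
        exact hσp
      obtain ⟨y, hyP, hyDE, hya⟩ := hA
      have hyX : (p.1, y).2 ∈ lit (ends P) k s (fun c => !(σ0 c)) K0 := (hm2 _ _ hyP).mpr (by simp only; rw [hσp]; rfl)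
      obtain ⟨C, hC, hcC, hcC1, hyC, hCX⟩ := h.priv hirr (hTv _) hyP hyX
      have hcy : p.1 ≠ y := h.a _ hyP _ hyP
      obtain ⟨x, hx, _, T, hTC, hT, hTp⟩ := (hcC.rc hcC1 hyC hcy).firstHit (fun x => x = y ∨ (x ∈ D ∪ E ∧ x ≠ p.1)) (Or.inl rfl)
      have hTS : ∀ u ∈ T, u ≠ y → u ∈ S0 := by
        intro u hu huy
        exact mem_sdiff.mpr ⟨hC (hTC hu), fun h1 => huy (hCX u (hTC hu) h1)⟩
      by_cases hxy : x = y
      · exfalso
        subst hxy
        refine hya (hT.mono fun u hu => ?_)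
        rw [mem_union, mem_sdiff, mem_insert, mem_singleton]
        by_cases hu1 : u = x
        · exact Or.inr (Or.inr hu1)
        by_cases hu2 : u = p.1
        · exact Or.inr (Or.inl hu2)
        left
        have hu3 := hTS u hu hu1
        refine ⟨mem_sdiff.mpr ⟨(mem_sdiff.mp hu3).1, hYl _ hneg u (mem_sdiff.mp hu3).2⟩, fun h1 => hu1 (hTp u hu (Or.inr ⟨h1, hu2⟩))⟩
      · obtain ⟨hx1, hx2⟩ := hx.resolve_left hxy
        have hTS' : T ⊆ S0 := by
          intro u hu
          refine hTS u hu fun h1 => ?_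
          exact hxy ((hTp u hu (Or.inl h1)).symm.trans h1)
        exact ⟨x, mem_filter.mpr ⟨hTS' hT.right, hx1⟩, hx2, hT.mono hTS'⟩
    · -- a leaf
      rw [hk2 p hp] at hzI
      have hσp : σ0 p.1 = false := by
        by_contra hc
        exact hzn ((hm2 _ p hp).mpr (by rw [Bool.eq_true_of_not_eq_false hc]; rfl))
      have hA : ¬ tA p.1 := by
        simp only [hσ0, if_pos hzI, decide_eq_false_iff_not] at hσp
        exact hσp
      have hyP : (p.1, p.2) ∈ P := hp
      have hab : Rc R ((H' \ (D ∪ E)) ∪ {p.1, p.2}) p.1 p.2 := by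
        by_contra hc
        exact hA ⟨p.2, hyP, hzDE, hc⟩
      have hb := hnb p.1 hzI p.2 hyP hzDE hab
      set σ1 : V → Bool := fun c => if c = p.1 then false else !(σ0 c) with hσ1
      have hσ1I : ∀ c, c ∉ I → σ1 c = ρ c := by
        intro c hc
        have : c ≠ p.1 := fun h1 => hc (h1 ▸ hzI)
        simp only [hσ1, if_neg this]
        exact hneg c hc
      have hyX : p.2 ∈ lit (ends P) k s σ1 K0 := (hm2 _ _ hp).mpr (by simp only [hσ1, if_true])
      obtain ⟨C, hC, hcC, hcC1, hyC, hCX⟩ := h.priv hirr (hTv _) hp hyX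
      have hcy : p.1 ≠ p.2 := h.a _ hp _ hp
      obtain ⟨x, hx, _, T, hTC, hT, hTp⟩ :=
        (hcC.rc hyC hcC1 hcy.symm).firstHit (fun x => x = p.1 ∨ (x ∈ D ∪ E ∧ x ≠ p.2)) (Or.inl rfl)
      have hTn : ∀ u ∈ T, u ≠ p.2 → u ∉ lit (ends P) k s σ1 K0 := fun u hu hu1 h1 => hu1 (hCX u (hTC hu) h1)
      by_cases hxc : x = p.1
      · exfalso
        subst hxc
        refine hb (hT.mono fun u hu => ?_)
        rw [mem_union, mem_sdiff, mem_insert, mem_singleton]
        by_cases hu1 : u = p.1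
        · exact Or.inr (Or.inl hu1)
        by_cases hu2 : u = p.2
        · exact Or.inr (Or.inr hu2)
        left
        exact ⟨mem_sdiff.mpr ⟨hC (hTC hu), hYl _ hσ1I u (hTn u hu hu2)⟩, fun h1 => hu1 (hTp u hu (Or.inr ⟨h1, hu2⟩))⟩
      · obtain ⟨hx1, hx2⟩ := hx.resolve_left hxc
        have hTS' : T ⊆ S0 := by
          intro u hu
          by_cases hu2 : u = p.2
          · rw [hu2]; exact hzS
          have hu1 : u ≠ p.1 := fun h1 => hxc ((hTp u hu (Or.inl h1)).symm.trans h1)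
          refine mem_sdiff.mpr ⟨hC (hTC hu), fun h1 => ?_⟩
          obtain ⟨h2, h3, h4⟩ := mem_lit.mp h1
          by_cases hku : k u = p.1
          · rw [hku, hσp] at h4
            obtain ⟨q, hq, rfl | rfl⟩ := mem_ends.mp h2
            · rw [hk1 q hq] at hku
              exact hu1 hku
            · rw [hs2 q hq] at h4
              exact absurd h4 (by decide)
          · refine hTn u hu hu2 (mem_lit.mpr ⟨h2, h3, ?_⟩)
            simp only [hσ1, if_neg hku]
            exact h4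
        exact ⟨x, mem_filter.mpr ⟨hTS' hT.right, hx1⟩, hx2, hT.mono hTS'⟩

theorem stars_neck [Fintype V] (hirr : ∀ v, ¬ R v v) {t : V} {P : Finset (V × V)}
    (h : StF R (univ \ {t}) P) (hcol : ∀ S : Finset V, Ac R S → ¬ Ac R (univ \ S)) : Neck R 2 :=
  stars_neck_on hirr (mem_univ t) h (fun S _ => hcol S)

end stars

end Pool.Agent.Lib.TriFive
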